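import Pool.Agent.Helper74.CE.Defs

/-!
# CL-E15: the derivatives are dominated by the energy at scale `e`

Let `v y = u (x + e y)`, `b y = a (x + e y)` for `y ∈ ball 0 2` (`x + e y ∈ ball x (2 e) ⊆ ball 0 2`). Then `b` is smooth
on `ball 0 2`, `‖D^m b y‖ = e^m ‖D^m a (x + e y)‖ ≤ |M m|` (`e ≤ 1`), `b > 0`, and `LSol (ball 0 2) 1 b v`: `lap v y =
e² lap u (x + e y) = b y sin (v y)`. Let `K₀` be the constant of `Bnd2` for `fun m => |M m|` and `k`; we may take
`K₀ ≥ 0`. Then `‖D^k v 0‖ = e^k ‖D^k u x‖` and, with `gr v y = e gr u (x + e y)` and the change of variables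
`z = x + e y` (`Measure.addHaar_preimage..`, `MeasureTheory.Measure.setIntegral_comp_smul`, area factor `e²`),
```
∫_{ball 0 1} (‖gr v‖² + (1 - cos v)) = e^{-2} ∫_{ball x e} (e² ‖gr u‖² + (1 - cos u)) ≤ e^{-2} (2 + 1/c) e ∫_{ball x e} ed
```
as `e² ‖gr u‖² + (1 - cos u) ≤ e (2 + 1/c) ed` for `a ≥ c`. So `K = K₀ (2 + 1/c)`.
(Derivatives of `y ↦ x + e y` compositions: `iteratedFDeriv_comp_add_left`, and
`ContinuousLinearMap.iteratedFDeriv_comp_right` for `e • id`, with norm `e^k ‖..‖`;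
or `iteratedFDeriv_comp_smul`-type lemmas. The second order operators: `lap` through `fderiv` of the composition.)
-/

namespace Pool.Agent.Helper74.CE

open MeasureTheory Filter Topology Metric Pool.Agent.Helper53.CL
open scoped ContDiff Real

/-- Scaling of the iterated derivatives, in general. -/
theorem itd_scale {F : Type*} [NormedAddCommGroup F] [NormedSpace ℝ F] (u : ℂ → F) (x y : ℂ) {e : ℝ}
    (he : 0 < e) (k : ℕ) :
    iteratedFDeriv ℝ k (fun w => u (x + e * w)) y = e ^ k • iteratedFDeriv ℝ k u (x + e * y) := by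
  set g : ℂ ≃L[ℝ] ℂ := ContinuousLinearEquiv.smulLeft (Units.mk0 e he.ne') with hg
  have hga : ∀ w, g w = (e : ℂ) * w := by
    intro w
    rw [hg, ContinuousLinearEquiv.smulLeft_apply_apply, Units.smul_def, Units.val_mk0, Complex.real_smul]
  have h1 := g.iteratedFDerivWithin_comp_right (fun w => u (x + w)) uniqueDiffOn_univ (x := y)
    (Set.mem_univ _) k
  rw [Set.preimage_univ, iteratedFDerivWithin_univ, iteratedFDerivWithin_univ,
    iteratedFDeriv_comp_add_left, hga] at h1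
  have h2 : (fun w => u (x + w)) ∘ g = fun w => u (x + e * w) := by
    funext w
    rw [Function.comp_apply, hga]
  rw [h2] at h1
  rw [h1]
  ext m
  rw [ContinuousMultilinearMap.compContinuousLinearMap_apply, smul_apply]
  have h3 : (fun i => (g : ℂ →L[ℝ] ℂ) (m i)) = fun i => (fun _ : Fin k => e) i • m i := by
    funext i
    rw [ContinuousLinearEquiv.coe_coe, hga, Complex.real_smul]
  rw [h3, ContinuousMultilinearMap.map_smul_univ, Finset.prod_const, Finset.card_univ, Fintype.card_fin]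

/-- Scaling of the iterated derivatives. -/
theorem norm_itd_scale {u : ℂ → ℝ} {x y : ℂ} {e : ℝ} (he : 0 < e) {D : Set ℂ} (hD : IsOpen D)
    (hu : ContDiffOn ℝ ∞ u D) (hy : x + e * y ∈ D) (k : ℕ) :
    ‖iteratedFDeriv ℝ k (fun w => u (x + e * w)) y‖ = e ^ k * ‖iteratedFDeriv ℝ k u (x + e * y)‖ := by
  rw [itd_scale u x y he k, norm_smul, Real.norm_of_nonneg (pow_nonneg he.le k)]

theorem fderiv_scale {F : Type*} [NormedAddCommGroup F] [NormedSpace ℝ F] (u : ℂ → F) (x y : ℂ) {e : ℝ}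
    (he : 0 < e) (v : ℂ) :
    fderiv ℝ (fun w => u (x + e * w)) y v = e • fderiv ℝ u (x + e * y) v := by
  have h1 := itd_scale u x y he 1
  have h2 := congrArg (fun L => L (fun _ => v)) h1
  rw [smul_apply, iteratedFDeriv_one_apply, iteratedFDeriv_one_apply, pow_one] at h2
  exact h2

theorem fderiv_smul_field {F : Type*} [NormedAddCommGroup F] [NormedSpace ℝ F] (f : ℂ → F) (y : ℂ) {e : ℝ}
    (he : 0 < e) (v : ℂ) : fderiv ℝ (fun w => e • f w) y v = e • fderiv ℝ f y v := by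
  have : Invertible e := invertibleOfNonzero he.ne'
  have h := fderiv_const_smul_of_invertible (𝕜 := ℝ) (f := f) (x := y) e
  have h' : (fun w => e • f w) = e • f := rfl
  rw [h', h]
  rfl

theorem lap_scale (u : ℂ → ℝ) (x y : ℂ) {e : ℝ} (he : 0 < e) :
    lap (fun w => u (x + e * w)) y = e ^ 2 * lap u (x + e * y) := by
  have h1 : ∀ v : ℂ, (fun z => fderiv ℝ (fun w => u (x + e * w)) z v) =
      fun z => e • (fun w => (fun q => fderiv ℝ u q v) (x + e * w)) z := by
    intro v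
    funext z
    exact fderiv_scale u x z he v
  unfold lap
  have h2 : ∀ v : ℂ, fderiv ℝ (fun z => fderiv ℝ (fun w => u (x + e * w)) z v) y v =
      e ^ 2 * fderiv ℝ (fun q => fderiv ℝ u q v) (x + e * y) v := by
    intro v
    have e1 := fderiv_smul_field (fun w => (fun q => fderiv ℝ u q v) (x + e * w)) y he v
    have e2 := fderiv_scale (fun q => fderiv ℝ u q v) x y he v
    rw [h1 v, e1]
    refine (congrArg (fun t => e • t) e2).trans ?_
    rw [smul_eq_mul, smul_eq_mul]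
    ring
  have h3 := h2 1
  have h4 := h2 Complex.I
  change fderiv ℝ (fun z => fderiv ℝ (fun w => u (x + e * w)) z 1) y 1 +
    fderiv ℝ (fun z => fderiv ℝ (fun w => u (x + e * w)) z Complex.I) y Complex.I = _
  rw [h3, h4]
  change _ = e ^ 2 * (fderiv ℝ (fun q => fderiv ℝ u q 1) (x + e * y) 1 +
    fderiv ℝ (fun q => fderiv ℝ u q Complex.I) (x + e * y) Complex.I)
  ring

theorem norm_gr_scale (u : ℂ → ℝ) (x y : ℂ) {e : ℝ} (he : 0 < e) :
    ‖gr (fun w => u (x + e * w)) y‖ = e * ‖gr u (x + e * y)‖ := by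
  have h : gr (fun w => u (x + e * w)) y = (e : ℂ) * gr u (x + e * y) := by
    apply Complex.ext
    · simp only [gr, Complex.mul_re, Complex.ofReal_re, Complex.ofReal_im, zero_mul, sub_zero]
      exact fderiv_scale u x y he 1
    · simp only [gr, Complex.mul_im, Complex.ofReal_re, Complex.ofReal_im, zero_mul, add_zero]
      exact fderiv_scale u x y he Complex.I
  rw [h, norm_mul, Complex.norm_real, Real.norm_of_nonneg he.le]

open Pointwise in
/-- Change of variables. -/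
theorem integral_scale (f : ℂ → ℝ) (x : ℂ) {e : ℝ} (he : 0 < e) :
    ∫ y in ball (0 : ℂ) 1, f (x + e * y) = (e ^ 2)⁻¹ * ∫ z in ball x e, f z := by
  have h1 := Measure.setIntegral_comp_smul_of_pos (volume : Measure ℂ) (fun y => f (x + y))
    (ball (0 : ℂ) 1) he
  simp only [Complex.finrank_real_complex, Complex.real_smul, smul_eq_mul] at h1
  rw [h1]
  congr 1
  have h2 : e • ball (0 : ℂ) 1 = ball (0 : ℂ) e := by
    rw [smul_unitBall_of_pos he]
  rw [h2]
  have h3 : (fun y : ℂ => x + y) ⁻¹' (ball x e) = ball 0 e := by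
    ext y
    simp [mem_ball, dist_eq_norm]
  rw [← h3]
  exact (measurePreserving_add_left (volume : Measure ℂ) x).setIntegral_preimage_emb
    (measurableEmbedding_addLeft x) f (ball x e)

theorem dom (hB : Iface.Bnd2) (M : ℕ → ℝ) {c : ℝ} (hc : 0 < c) (k : ℕ) (hk : 1 ≤ k) :
    ∃ K : ℝ, 0 < K ∧ ∀ (e : ℝ) (a u : ℂ → ℝ) (x : ℂ), 0 < e → e ≤ 1 → ball x (2 * e) ⊆ ball 0 2 →
      ContDiffOn ℝ ∞ a (ball 0 2) → (∀ m, ∀ z ∈ ball (0 : ℂ) 2, ‖iteratedFDeriv ℝ m a z‖ ≤ M m) →
      (∀ z ∈ ball (0 : ℂ) 2, c ≤ a z) → LSol (ball 0 2) e a u →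
      (e ^ k * ‖iteratedFDeriv ℝ k u x‖) ^ 2 ≤ K / e * ∫ z in ball x e, ed e a u z := by
  obtain ⟨K₀, hK₀⟩ := hB (fun m => |M m|) k hk
  refine ⟨(max K₀ 1) * (2 + 1 / c), by positivity, ?_⟩
  intro e a u x he he1 hx ha haM hac hu
  -- the affine map
  have hmap : ∀ y ∈ ball (0 : ℂ) 2, x + e * y ∈ ball (0 : ℂ) 2 := by
    intro y hy
    apply hx
    rw [mem_ball, dist_eq_norm, add_sub_cancel_left, norm_mul, Complex.norm_real, Real.norm_of_nonneg he.le]
    rw [mem_ball, dist_zero_right] at hy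
    nlinarith
  have hsm : ContDiff ℝ ∞ (fun y : ℂ => x + e * y) := contDiff_const.add (contDiff_const.mul contDiff_id)
  have hb : ContDiffOn ℝ ∞ (fun y => a (x + e * y)) (ball 0 2) := ha.comp hsm.contDiffOn hmap
  have hv : ContDiffOn ℝ ∞ (fun y => u (x + e * y)) (ball 0 2) := hu.smooth.comp hsm.contDiffOn hmap
  have hbM : ∀ m, ∀ z ∈ ball (0 : ℂ) 2, ‖iteratedFDeriv ℝ m (fun y => a (x + e * y)) z‖ ≤ |M m| := by
    intro m z hz
    rw [norm_itd_scale he isOpen_ball ha (hmap z hz) m]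
    calc e ^ m * ‖iteratedFDeriv ℝ m a (x + e * z)‖ ≤ 1 * ‖iteratedFDeriv ℝ m a (x + e * z)‖ :=
          mul_le_mul_of_nonneg_right (pow_le_one₀ he.le he1) (norm_nonneg _)
      _ = ‖iteratedFDeriv ℝ m a (x + e * z)‖ := one_mul _
      _ ≤ M m := haM m _ (hmap z hz)
      _ ≤ |M m| := le_abs_self _
  have hbpos : ∀ z ∈ ball (0 : ℂ) 2, 0 < a (x + e * z) := fun z hz =>
    lt_of_lt_of_le hc (hac _ (hmap z hz))
  have hL : LSol (ball 0 2) 1 (fun y => a (x + e * y)) (fun y => u (x + e * y)) := by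
    refine ⟨hv, ?_, fun z hz => hu.nonneg _ (hmap z hz), fun z hz => hu.le _ (hmap z hz)⟩
    intro z hz
    rw [lap_scale u x z he, one_pow, one_mul]
    exact hu.eq _ (hmap z hz)
  have h1 := hK₀ _ _ hb hbM hbpos hL
  rw [norm_itd_scale he isOpen_ball hu.smooth (hmap 0 (mem_ball_self two_pos)) k, mul_zero, add_zero] at h1
  -- the integral
  have h2 : ∫ z in ball (0 : ℂ) 1, (‖gr (fun y => u (x + e * y)) z‖ ^ 2 + (1 - Real.cos (u (x + e * z)))) =
      (e ^ 2)⁻¹ * ∫ z in ball x e, (e ^ 2 * ‖gr u z‖ ^ 2 + (1 - Real.cos (u z))) := by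
    rw [← integral_scale (fun z => e ^ 2 * ‖gr u z‖ ^ 2 + (1 - Real.cos (u z))) x he]
    refine setIntegral_congr_fun measurableSet_ball fun z _ => ?_
    simp only [norm_gr_scale u x z he, mul_pow]
  rw [h2] at h1
  -- integrability
  have hcl : closedBall x e ⊆ ball 0 2 := (closedBall_subset_ball (by linarith)).trans hx
  have hfc : ContinuousOn (fderiv ℝ u) (ball 0 2) :=
    (hu.smooth.continuousOn_fderiv_of_isOpen isOpen_ball (by norm_num))
  have hgr : ContinuousOn (gr u) (ball 0 2) := by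
    have h3 : gr u = fun z => ((fderiv ℝ u z 1 : ℝ) : ℂ) + ((fderiv ℝ u z Complex.I : ℝ) : ℂ) * Complex.I := by
      funext z
      apply Complex.ext <;> simp [gr, dx, dy]
    rw [h3]
    have h4 : ContinuousOn (fun z => fderiv ℝ u z 1) (ball 0 2) := hfc.clm_apply continuousOn_const
    have h5 : ContinuousOn (fun z => fderiv ℝ u z Complex.I) (ball 0 2) := hfc.clm_apply continuousOn_const
    exact (Complex.continuous_ofReal.comp_continuousOn h4).add
      ((Complex.continuous_ofReal.comp_continuousOn h5).mul continuousOn_const)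
  have hcos : ContinuousOn (fun z => 1 - Real.cos (u z)) (ball 0 2) :=
    continuousOn_const.sub (Real.continuous_cos.comp_continuousOn hu.smooth.continuousOn)
  have hf1 : ContinuousOn (fun z => e ^ 2 * ‖gr u z‖ ^ 2 + (1 - Real.cos (u z))) (closedBall x e) :=
    ((continuousOn_const.mul (hgr.norm.pow 2)).add hcos).mono hcl
  have hf2 : ContinuousOn (fun z => ed e a u z) (closedBall x e) := by
    refine ContinuousOn.mono ?_ hcl
    exact (continuousOn_const.mul (hgr.norm.pow 2)).add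
      (continuousOn_const.mul (ha.continuousOn.mul hcos))
  have hi1 : IntegrableOn (fun z => e ^ 2 * ‖gr u z‖ ^ 2 + (1 - Real.cos (u z))) (ball x e) :=
    (hf1.integrableOn_compact (isCompact_closedBall x e)).mono_set ball_subset_closedBall
  have hi2 : IntegrableOn (fun z => ed e a u z) (ball x e) :=
    (hf2.integrableOn_compact (isCompact_closedBall x e)).mono_set ball_subset_closedBall
  have hpt : ∀ z ∈ ball x e, e ^ 2 * ‖gr u z‖ ^ 2 + (1 - Real.cos (u z)) ≤ (e * (2 + 1 / c)) * ed e a u z := by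
    intro z hz
    have hz2 : z ∈ ball (0 : ℂ) 2 := hcl (ball_subset_closedBall hz)
    have hca := hac z hz2
    have hW : 0 ≤ 1 - Real.cos (u z) := sub_nonneg.2 (Real.cos_le_one _)
    have hG : 0 ≤ ‖gr u z‖ ^ 2 := sq_nonneg _
    have e1 : (e * (2 + 1 / c)) * ed e a u z =
        e ^ 2 * ‖gr u z‖ ^ 2 + (1 / c) * a z * (1 - Real.cos (u z)) +
          (e ^ 2 / (2 * c) * ‖gr u z‖ ^ 2 + 2 * (a z * (1 - Real.cos (u z)))) := by
      unfold ed
      field_simp
      ring
    rw [e1]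
    have h5 : 1 ≤ (1 / c) * a z := by
      rw [one_div, inv_mul_eq_div, le_div_iff₀ hc]
      linarith
    have h6 : (1 - Real.cos (u z)) ≤ (1 / c) * a z * (1 - Real.cos (u z)) := by nlinarith
    have h7 : 0 ≤ e ^ 2 / (2 * c) * ‖gr u z‖ ^ 2 := by positivity
    have h8 : 0 ≤ 2 * (a z * (1 - Real.cos (u z))) := by
      have : 0 ≤ a z := hc.le.trans hca
      positivity
    linarith
  have h9 : ∫ z in ball x e, (e ^ 2 * ‖gr u z‖ ^ 2 + (1 - Real.cos (u z))) ≤
      (e * (2 + 1 / c)) * ∫ z in ball x e, ed e a u z := by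
    rw [← integral_const_mul]
    exact setIntegral_mono_on hi1 (hi2.const_mul _) measurableSet_ball hpt
  have h10 : 0 ≤ ∫ z in ball x e, (e ^ 2 * ‖gr u z‖ ^ 2 + (1 - Real.cos (u z))) := by
    refine setIntegral_nonneg measurableSet_ball fun z _ => ?_
    have hW : 0 ≤ 1 - Real.cos (u z) := sub_nonneg.2 (Real.cos_le_one _)
    positivity
  calc (e ^ k * ‖iteratedFDeriv ℝ k u x‖) ^ 2
      ≤ K₀ * ((e ^ 2)⁻¹ * ∫ z in ball x e, (e ^ 2 * ‖gr u z‖ ^ 2 + (1 - Real.cos (u z)))) := h1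
    _ ≤ (max K₀ 1) * ((e ^ 2)⁻¹ * ∫ z in ball x e, (e ^ 2 * ‖gr u z‖ ^ 2 + (1 - Real.cos (u z)))) :=
        mul_le_mul_of_nonneg_right (le_max_left _ _) (by positivity)
    _ ≤ (max K₀ 1) * ((e ^ 2)⁻¹ * ((e * (2 + 1 / c)) * ∫ z in ball x e, ed e a u z)) := by
        apply mul_le_mul_of_nonneg_left _ (by positivity)
        exact mul_le_mul_of_nonneg_left h9 (by positivity)
    _ = (max K₀ 1) * (2 + 1 / c) / e * ∫ z in ball x e, ed e a u z := by
        field_simp

end Pool.Agent.Helper74.CE
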