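import Pool.Agent.Helper74.CE.Calc

/-!
# CL-E03: integration by parts and cut-off functions

* `integral_dx_eq_zero`: Mathlib, `integral_bilinear_hasLineDerivAt_right_eq_neg_left_of_integrable`, or
  `integral_fderiv_eq_zero`-type results in `Mathlib/Analysis/Calculus/LineDeriv/IntegrationByParts.lean`
  (`lineDeriv` in the direction `1`, `I`), applied to `g` with compact support and to a function equal to `1` near the
  support; or Fubini and the fundamental theorem of calculus. `dz`, `dzb`: linear combinations (integrability: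
  continuous with compact support).
* `smooth_mul_of_tsupport`: every point is either in the open set `ball 0 3`, where both factors are smooth, or in the
  open set `(tsupport f)ᶜ`, where the product is `0` (`contDiff_iff_contDiffAt`, `ContDiffAt.congr_of_eventuallyEq`).
* `exists_cutoff`: `ContDiffBump (0 : ℂ)` with `rIn = r`, `rOut = (r + r') / 2` (for `0 < r`; for `r ≤ 0` take the one of
  `min`), composed with `Complex.ofReal` where needed.
-/

namespace Pool.Agent.Helper74.CE

open MeasureTheory Filter Topology Metric Pool.Agent.Helper53.CL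
open scoped ContDiff Real

private theorem ibp_aux {g : ℂ → ℂ} (hg : ContDiff ℝ 1 g) (hc : HasCompactSupport g) (v : ℂ) :
    (∫ z, fderiv ℝ g z v = 0) ∧ Integrable fun z => fderiv ℝ g z v := by
  have hcont : Continuous fun z => fderiv ℝ g z v :=
    (hg.continuous_fderiv one_ne_zero).clm_apply continuous_const
  have hcs : HasCompactSupport fun z => fderiv ℝ g z v := by
    refine hc.mono' fun z hz => ?_
    have h1 : fderiv ℝ g z ≠ 0 := fun h0 => hz (by simp [h0])
    exact support_fderiv_subset ℝ h1
  have hi : Integrable fun z => fderiv ℝ g z v := hcont.integrable_of_hasCompactSupport hcs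
  refine ⟨?_, hi⟩
  have h := integral_mul_fderiv_eq_neg_fderiv_mul_of_integrable (μ := (volume : Measure ℂ))
    (f := fun _ : ℂ => (1 : ℂ)) (g := g) (v := v) (by simp) (by simpa using hi)
    (by simpa using hg.continuous.integrable_of_hasCompactSupport hc)
    (fun z _ => differentiableAt_const _) (fun z _ => hg.differentiable one_ne_zero z)
  simpa using h

theorem integral_dx_eq_zero {g : ℂ → ℂ} (hg : ContDiff ℝ 1 g) (hc : HasCompactSupport g) :
    ∫ z, dx g z = 0 := (ibp_aux hg hc 1).1

theorem integral_dy_eq_zero {g : ℂ → ℂ} (hg : ContDiff ℝ 1 g) (hc : HasCompactSupport g) :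
    ∫ z, dy g z = 0 := (ibp_aux hg hc Complex.I).1

theorem integral_dz_eq_zero {g : ℂ → ℂ} (hg : ContDiff ℝ 1 g) (hc : HasCompactSupport g) :
    ∫ z, dz g z = 0 := by
  have h1 := ibp_aux hg hc 1
  have h2 := ibp_aux hg hc Complex.I
  unfold dz dx dy
  rw [integral_div, integral_sub h1.2 (h2.2.const_mul _), integral_const_mul, h1.1, h2.1]
  simp

theorem integral_dzb_eq_zero {g : ℂ → ℂ} (hg : ContDiff ℝ 1 g) (hc : HasCompactSupport g) :
    ∫ z, dzb g z = 0 := by
  have h1 := ibp_aux hg hc 1
  have h2 := ibp_aux hg hc Complex.I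
  unfold dzb dx dy
  rw [integral_div, integral_add h1.2 (h2.2.const_mul _), integral_const_mul, h1.1, h2.1]
  simp

theorem smooth_mul_of_tsupport {f g : ℂ → ℂ} {r R : ℝ} (hr : r < R) (hf : ContDiffOn ℝ ∞ f (ball 0 R))
    (hs : tsupport f ⊆ closedBall 0 r) (hg : ContDiffOn ℝ ∞ g (ball 0 R)) :
    ContDiff ℝ ∞ (fun z => f z * g z) ∧ HasCompactSupport (fun z => f z * g z) := by
  constructor
  · rw [contDiff_iff_contDiffAt]
    intro z
    by_cases hz : z ∈ ball (0 : ℂ) R
    · exact (hf.contDiffAt (isOpen_ball.mem_nhds hz)).mul (hg.contDiffAt (isOpen_ball.mem_nhds hz))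
    · have hz2 : z ∉ tsupport f := fun h => hz (closedBall_subset_ball hr (hs h))
      have hev : (fun z => f z * g z) =ᶠ[𝓝 z] fun _ => 0 := by
        filter_upwards [(isClosed_tsupport f).isOpen_compl.mem_nhds hz2] with y hy
        rw [image_eq_zero_of_notMem_tsupport hy, zero_mul]
      exact contDiffAt_const.congr_of_eventuallyEq hev
  · refine (isCompact_closedBall (0 : ℂ) r).of_isClosed_subset (isClosed_tsupport _) ?_
    refine Set.Subset.trans ?_ hs
    exact closure_mono fun z hz h0 => hz (by simp [h0])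

/-- The support of a function with compact support in the open ball is contained in a smaller closed ball. -/
theorem exists_closedBall_of_tsupport {f : ℂ → ℂ} {R : ℝ} (hR : 0 < R) (hc : HasCompactSupport f)
    (hs : tsupport f ⊆ ball 0 R) : ∃ r, 0 < r ∧ r < R ∧ tsupport f ⊆ closedBall 0 r := by
  obtain ⟨r, hr, h⟩ := exists_lt_subset_ball (isClosed_tsupport f) hs
  refine ⟨max r (R / 2), lt_of_lt_of_le (by linarith) (le_max_right _ _), max_lt hr (by linarith), ?_⟩
  exact h.trans ((ball_subset_ball (le_max_left _ _)).trans ball_subset_closedBall)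

theorem exists_cutoff {r r' : ℝ} (h : r < r') (h' : 0 < r') : ∃ χ : ℂ → ℝ, ContDiff ℝ ∞ χ ∧ (∀ z, 0 ≤ χ z) ∧
    (∀ z, χ z ≤ 1) ∧ (∀ z ∈ closedBall (0 : ℂ) r, χ z = 1) ∧ HasCompactSupport χ ∧ tsupport χ ⊆ ball 0 r' := by
  have h1 : 0 < max r (r' / 2) := lt_of_lt_of_le (by linarith) (le_max_right _ _)
  have h2 : max r (r' / 2) < r' := max_lt h (by linarith)
  let φ : ContDiffBump (0 : ℂ) := ⟨max r (r' / 2), (max r (r' / 2) + r') / 2, h1, by linarith⟩
  refine ⟨φ, φ.contDiff, fun z => φ.nonneg, fun z => φ.le_one, fun z hz => ?_, φ.hasCompactSupport, ?_⟩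
  · exact φ.one_of_mem_closedBall (closedBall_subset_closedBall (le_max_left _ _) hz)
  · rw [φ.tsupport_eq]
    exact closedBall_subset_ball (by change (max r (r' / 2) + r') / 2 < r'; linarith)

end Pool.Agent.Helper74.CE
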