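import Pool.Agent.Helper74.CE.LawPt
import Pool.Agent.Helper74.CE.Ibp

/-!
# CL-E07: the weak form of the conservation law

By `law_pt` on `D = ball 0 3`. The functions `f · (P1 · Qn)` and `f · (a / 4) · Tn` are smooth with compact support on `ℂ`
(`smooth_mul_of_tsupport`, `exists_closedBall_of_tsupport`), so that the integrals of `dzb` of the first and of `dz` of the
second vanish. On `ball 0 3`,
```
dzb (f P Q_n) = dzb f · P Q_n + f · ((a / 4) dz T_n + P D_n)
dz (f (a / 4) T_n) = dz f · (a / 4) T_n + f · (dz a / 4) T_n + f · (a / 4) dz T_n ;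
```
the difference of the two is the integrand; outside the support of `f` everything is `0` (both sides), in particular
outside `ball 0 3` (`dz f = 0` there: `f = 0` near such a point). The integral of the difference is the difference of the
integrals: both are continuous with compact support.
-/

namespace Pool.Agent.Helper74.CE

open MeasureTheory Filter Topology Metric Pool.Agent.Helper53.CL
open scoped ContDiff Real

private theorem lw_zero {g : ℂ → ℂ} {z : ℂ} (hz : z ∉ tsupport g) : dz g z = 0 ∧ dzb g z = 0 ∧ g z = 0 := by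
  have hev : g =ᶠ[𝓝 z] fun _ => 0 := by
    filter_upwards [(isClosed_tsupport g).isOpen_compl.mem_nhds hz] with y hy
    exact image_eq_zero_of_notMem_tsupport hy
  exact ⟨by rw [dz_congr hev, dz_const], by rw [dzb_congr hev, dzb_const], image_eq_zero_of_notMem_tsupport hz⟩

private theorem lw_int {g : ℂ → ℂ} (hg : ContDiff ℝ ∞ g) (hc : HasCompactSupport g) :
    Integrable (fun z => dz g z) ∧ Integrable (fun z => dzb g z) := by
  constructor
  · have h1 : Continuous (fun z => dz g z) :=
      continuousOn_univ.1 (smooth_dz isOpen_univ hg.contDiffOn).continuousOn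
    refine h1.integrable_of_hasCompactSupport (hc.mono' fun z hz => ?_)
    by_contra h2
    exact hz (lw_zero h2).1
  · have h1 : Continuous (fun z => dzb g z) :=
      continuousOn_univ.1 (smooth_dzb isOpen_univ hg.contDiffOn).continuousOn
    refine h1.integrable_of_hasCompactSupport (hc.mono' fun z hz => ?_)
    by_contra h2
    exact hz (lw_zero h2).2.1

theorem law_weak {e : ℝ} (he : 0 < e) {a u : ℂ → ℝ} (ha : ContDiffOn ℝ ∞ a (ball 0 3))
    (hu : LSol (ball 0 3) e a u) {n : ℕ} (hn : 1 ≤ n) {f : ℂ → ℂ} (hf : ContDiff ℝ ∞ f) (hc : HasCompactSupport f)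
    (hs : tsupport f ⊆ ball 0 2) :
    ∫ z, (dzb f z * (P1 e u z * Qn e u n z) - dz f z * ((a z : ℂ) / 4 * Tn e u n z) +
      f z * (P1 e u z * Dn e a u n z - dz (fun w => (a w : ℂ)) z / 4 * Tn e u n z)) = 0 := by
  have hD : IsOpen (ball (0 : ℂ) 3) := isOpen_ball
  have hs3 : tsupport f ⊆ ball 0 3 := hs.trans (ball_subset_ball (by norm_num))
  obtain ⟨r, -, hr, hsr⟩ := exists_closedBall_of_tsupport (by norm_num) hc hs3
  have sP : ContDiffOn ℝ ∞ (P1 e u) (ball 0 3) := P1_smooth hD hu.smooth
  have sQ : ContDiffOn ℝ ∞ (Qn e u n) (ball 0 3) := Qn_smooth hD hu.smooth n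
  have sT : ContDiffOn ℝ ∞ (Tn e u n) (ball 0 3) := Tn_smooth hD hu.smooth n
  have sA : ContDiffOn ℝ ∞ (fun w => (a w : ℂ)) (ball 0 3) := smooth_ofReal ha
  have sA4 : ContDiffOn ℝ ∞ (fun w => (1 / 4 : ℂ) * (a w : ℂ)) (ball 0 3) := contDiffOn_const.mul sA
  have sPQ : ContDiffOn ℝ ∞ (fun w => P1 e u w * Qn e u n w) (ball 0 3) := sP.mul sQ
  have sAT : ContDiffOn ℝ ∞ (fun w => (1 / 4 : ℂ) * (a w : ℂ) * Tn e u n w) (ball 0 3) := sA4.mul sT
  obtain ⟨s1, c1⟩ := smooth_mul_of_tsupport hr hf.contDiffOn hsr sPQ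
  obtain ⟨s2, c2⟩ := smooth_mul_of_tsupport hr hf.contDiffOn hsr sAT
  have key : ∀ z, dzb f z * (P1 e u z * Qn e u n z) - dz f z * ((a z : ℂ) / 4 * Tn e u n z) +
      f z * (P1 e u z * Dn e a u n z - dz (fun w => (a w : ℂ)) z / 4 * Tn e u n z) =
      dzb (fun w => f w * (P1 e u w * Qn e u n w)) z -
        dz (fun w => f w * ((1 / 4 : ℂ) * (a w : ℂ) * Tn e u n w)) z := by
    intro z
    by_cases hz : z ∈ ball (0 : ℂ) 3
    · have df : DifferentiableAt ℝ f z := hf.differentiable (by simp) z
      rw [dzb_mul df (diffAt_of_smooth hD sPQ hz), dz_mul df (diffAt_of_smooth hD sAT hz),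
        dz_mul (diffAt_of_smooth hD sA4 hz) (diffAt_of_smooth hD sT hz), dz_const_mul,
        law_pt hD he ha hu hn hz]
      ring
    · have hz' : z ∉ tsupport f := fun h => hz (hs3 h)
      have hmul : ∀ g : ℂ → ℂ, z ∉ tsupport (fun w => f w * g w) := by
        intro g h
        have hsub : Function.support (fun w => f w * g w) ⊆ Function.support f := by
          intro w hw h0
          exact hw (by simp [h0])
        exact hz' (closure_mono hsub h)
      have h1 := hmul (fun w => P1 e u w * Qn e u n w)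
      have h2 := hmul (fun w => (1 / 4 : ℂ) * (a w : ℂ) * Tn e u n w)
      rw [(lw_zero hz').1, (lw_zero hz').2.1, (lw_zero hz').2.2, (lw_zero h1).2.1, (lw_zero h2).1]
      ring
  simp only [key]
  rw [integral_sub (lw_int s1 c1).2 (lw_int s2 c2).1, integral_dzb_eq_zero (s1.of_le (by simp)) c1,
    integral_dz_eq_zero (s2.of_le (by simp)) c2, sub_zero]

end Pool.Agent.Helper74.CE
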