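import Pool.Agent.Helper74.CE.DAs

/-!
# CL-E26: the densities of the conservation law of odd order `n`, modulo `Neg`

`q = (n - 1) / 2`, `W = 1 - cos u = 2 S²`, `E₂ = (P/2)² - Λ S²` (`Neg E₂`, from `Ctm.base`).
* `PQ_as`: `Q_n ≡ R_n c^{n-1}` mod `ZZ`, so `P Q_n ≡ P R_n c^{n-1}` mod `Neg` (`Neg.of_ZZ_mul`, `Ctx.ll_P`), and
  `P R_n c^{n-1} = 2 Λ^q (P/2)² c^{n-1} = 2 Λ^q c^{n-1} (E₂ + Λ S²)`, `2 Λ^{q+1} S² = Λ^{q+1} W`.
* `T_as`: `n = 1`: equality. `n ≥ 3`: `T_n = Q_{n-1} sin u = Q_{n-1} 2 S c ≡ R_{n-1} c^{n-2} 2 S c` mod `Neg` (`ZZ · LL`), and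
  `R_{n-1} = Λ^q S` (`n - 1` even): `= Λ^q W c^{n-1}`.
* `PD_as`: `n = 1`: `D_1 = 0`, `g_1 = 0`. `n ≥ 3`: `P D_n ≡ P (α/8) R_{n-2} g_n(c)`, `R_{n-2} = Λ^{q-1} P/2` (`n - 2` odd), so
  `= (α/8) 2 Λ^{q-1} (P/2)² g_n(c) ≡ (α/8) Λ^q W g_n(c)`.
-/

namespace Pool.Agent.Helper74.CE

open MeasureTheory Filter Topology Metric Pool.Agent.Helper53.CL
open scoped ContDiff Real

variable {ι : Type*} {𝓕 : Filter ι} {ε : ι → ℝ} {a u : ι → ℂ → ℝ} {mm : ι → ℂ → ℂ}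

private theorem h7_E2 (H : Ctm 𝓕 ε a u mm) :
    Neg 𝓕 ε (fun i z => (Pf ε u i z / 2) ^ 2 - Lam a mm i z * Sf u i z ^ 2) := by
  refine (Neg.const_mul H.eps_pos H.base (1 / 4)).congr fun i z _ => ?_
  simp only [Lam]
  ring

private theorem h7_bbL (H : Ctm 𝓕 ε a u mm) (k : ℕ) : BB 𝓕 ε (fun i z => Lam a mm i z ^ k) :=
  (H.slow_Lam.pow H.eps_pos k).1

theorem PQ_as (H : Ctm 𝓕 ε a u mm) {n : ℕ} (hn : Odd n) :
    Neg 𝓕 ε (fun i z => Pf ε u i z * Qf ε u n i z -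
      Lam a mm i z ^ ((n + 1) / 2) * (Wf u i z * cf u i z ^ (n - 1))) := by
  have h0 := H.eps_pos
  have hn1 : 1 ≤ n := hn.pos
  have hq : (n + 1) / 2 = (n - 1) / 2 + 1 := by omega
  have h1 := Neg.of_ZZ_mul h0 (Qf_as H hn1) H.toCtx.ll_P
  have h2 : BB 𝓕 ε (fun i z => 2 * (Lam a mm i z ^ ((n - 1) / 2) * cf u i z ^ (n - 1))) :=
    BB.const_mul h0 (BB.mul h0 (h7_bbL H _) (BB.pow h0 H.toCtx.bb_c (n - 1))) 2
  have h3 := Neg.mul_BB h0 h2 (h7_E2 H)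
  refine (Neg.add h0 h1 h3).congr fun i z _ => ?_
  rw [hq, Wf_eq]
  simp only [Rn, if_pos hn]
  ring

theorem T_as (H : Ctm 𝓕 ε a u mm) {n : ℕ} (hn : Odd n) :
    Neg 𝓕 ε (fun i z => Tf ε u n i z - Lam a mm i z ^ ((n - 1) / 2) * (Wf u i z * cf u i z ^ (n - 1))) := by
  have h0 := H.eps_pos
  by_cases hn1 : n = 1
  · subst hn1
    refine Neg.zero.congr fun i z _ => ?_
    simp [Tf, Tn, Wf]
  · obtain ⟨k, hk⟩ := hn
    have hk1 : 1 ≤ k := by omega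
    have h1 : LL 𝓕 ε u (fun i z => (2 * cf u i z) * Sf u i z) :=
      LL.mul_BB h0 H.toCtx.hu (BB.const_mul h0 H.toCtx.bb_c 2) H.s_ll
    have h2 := Neg.of_ZZ_mul h0 (Qf_as H (n := n - 1) (by omega)) h1
    refine h2.congr fun i z _ => ?_
    have he : ¬ Odd (n - 1) := by
      rw [Nat.not_odd_iff_even]
      exact ⟨k, by omega⟩
    have hp : n - 1 = (n - 1 - 1) + 1 := by omega
    rw [Wf_eq]
    simp only [Tf, Tn, if_neg hn1, Rn, if_neg he]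
    rw [show (Real.sin (u i z) : ℂ) = 2 * Sf u i z * cf u i z from sin_eq i z]
    conv_rhs => rw [hp, pow_succ (cf u i z) (n - 1 - 1), ← hp]
    simp only [Qf]
    ring

theorem PD_as (H : Ctm 𝓕 ε a u mm) {n : ℕ} (hn : Odd n) :
    Neg 𝓕 ε (fun i z => Pf ε u i z * Df ε a u n i z -
      al a i z / 8 * Lam a mm i z ^ ((n - 1) / 2) * (Wf u i z * pc (gp n) u i z)) := by
  have h0 := H.eps_pos
  by_cases hn1 : n = 1
  · subst hn1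
    refine Neg.zero.congr fun i z _ => ?_
    simp [Df, Dn_one, gp_one, pc]
  · obtain ⟨k, hk⟩ := hn
    have hk1 : 1 ≤ k := by omega
    have h1 := Neg.of_ZZ_mul h0 (Df_as H (n := n) (by omega)) H.toCtx.ll_P
    have h2 : BB 𝓕 ε (fun i z => 2 * (1 / 8 * al a i z *
        (Lam a mm i z ^ ((n - 1) / 2 - 1) * pc (gp n) u i z))) :=
      BB.const_mul h0 (BB.mul h0 (BB.const_mul h0 H.toCtx.slow_al.1 (1 / 8))
        (BB.mul h0 (h7_bbL H _) (H.toCtx.bb_pc (gp n)))) 2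
    have h3 := Neg.mul_BB h0 h2 (h7_E2 H)
    refine (Neg.add h0 h1 h3).congr fun i z _ => ?_
    have ho : Odd (n - 2) := ⟨k - 1, by omega⟩
    have hq : (n - 1) / 2 = ((n - 1) / 2 - 1) + 1 := by omega
    have hq' : (n - 2 - 1) / 2 = (n - 1) / 2 - 1 := by omega
    rw [Wf_eq]
    simp only [Rn, if_pos ho, hq']
    conv_rhs => rw [hq]
    ring

end Pool.Agent.Helper74.CE
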