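import Pool.Agent.Helper74.CE.Final2
import Pool.Agent.Helper74.CE.LawWeak
import Pool.Agent.Helper74.CE.Prd

/-!
# CL-E30: the conservation laws of the limit (assembly; helper74)
-/

namespace Pool.Agent.Helper74.CE

open MeasureTheory Filter Topology Metric Pool.Agent.Helper53.CL
open scoped ContDiff Real

/-- Replacement of a density by its leading term. -/
theorem tend_repl {ι : Type*} {𝓕 : Filter ι} {ε : ι → ℝ} (h0 : ∀ i, 0 < ε i) {F G φ : ι → ℂ → ℂ} {K r : ℝ} {L : ℂ}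
    (hr : r < 2) (hφ : ∀ᶠ i in 𝓕, ∀ z ∈ ball (0 : ℂ) 2, ‖φ i z‖ ≤ K)
    (hs : ∀ i, ∀ z ∉ closedBall (0 : ℂ) r, φ i z = 0)
    (hφc : ∀ i, ContinuousOn (φ i) (ball 0 3)) (hFc : ∀ i, ContinuousOn (F i) (ball 0 3))
    (hGc : ∀ i, ContinuousOn (G i) (ball 0 3)) (hF : Neg 𝓕 ε (fun i z => F i z - G i z))
    (hL : Tendsto (fun i => (∫ z, φ i z * G i z) / ε i) 𝓕 (𝓝 L)) :
    Tendsto (fun i => (∫ z, φ i z * F i z) / ε i) 𝓕 (𝓝 L) := by
  have h1 := (int_err h0 hr hφ hs hF).add hL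
  rw [zero_add] at h1
  refine h1.congr fun i => ?_
  have hint : ∀ X : ℂ → ℂ, ContinuousOn X (ball 0 3) → Integrable (fun z => φ i z * X z) := fun X hX => by
    have hr3 : r < 3 := by linarith
    refine (integrableOn_iff_integrable_of_support_subset (s := closedBall 0 r) ?_).1 ?_
    · intro z hz
      by_contra h
      exact hz (by simp [hs i z h])
    · exact ((hφc i).mul hX).mono (closedBall_subset_ball hr3) |>.integrableOn_compact
        (isCompact_closedBall 0 r)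
  rw [← add_div, ← integral_add]
  · congr 1
    refine integral_congr_ae (Eventually.of_forall fun z => ?_)
    simp only
    ring
  · exact hint (fun z => F i z - G i z) ((hFc i).sub (hGc i))
  · exact hint (G i) (hGc i)

variable {a : ℂ → ℝ} {aj : ℕ → ℂ → ℝ} {ε : ℕ → ℝ} {u : ℕ → ℂ → ℝ} {μ : Measure ℂ} {m : ℂ → ℂ}

theorem tlu_pow {F : ℕ → ℂ → ℂ} {f : ℂ → ℂ} {s : Set ℂ} (h : TendstoLocallyUniformlyOn F f atTop s)
    (hf : ContinuousOn f s) (n : ℕ) :
    TendstoLocallyUniformlyOn (fun j z => F j z ^ n) (fun z => f z ^ n) atTop s := by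
  induction n with
  | zero =>
    simp only [pow_zero]
    refine TendstoUniformlyOn.tendstoLocallyUniformlyOn ?_
    rw [Metric.tendstoUniformlyOn_iff]
    intro η hη
    exact Eventually.of_forall fun j z _ => by simpa using hη
  | succ n ih =>
    simp only [pow_succ]
    exact TendstoLocallyUniformlyOn.fun_mul₀ ih h (hf.pow n) hf

theorem tlu_const (c : ℂ) {s : Set ℂ} :
    TendstoLocallyUniformlyOn (fun (_ : ℕ) (_ : ℂ) => c) (fun _ => c) atTop s := by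
  refine TendstoUniformlyOn.tendstoLocallyUniformlyOn ?_
  rw [Metric.tendstoUniformlyOn_iff]
  intro η hη
  exact Eventually.of_forall fun j z _ => by simpa using hη

theorem smooth_aC (ha : ContDiffOn ℝ ∞ a (ball 0 3)) : ContDiffOn ℝ ∞ (fun z => (a z : ℂ)) (ball 0 3) :=
  smooth_ofReal ha

theorem smooth_alC (ha : ContDiffOn ℝ ∞ a (ball 0 3)) :
    ContDiffOn ℝ ∞ (dz fun z => (a z : ℂ)) (ball 0 3) :=
  smooth_dz isOpen_ball (smooth_ofReal ha)

theorem lim_gen (H : LocSeq a aj ε u) [IsFiniteMeasure μ] (hE : EConv aj ε u μ)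
    (hd : ∀ r < 2, Tendsto (fun j => ∫ z in ball (0 : ℂ) r, |disc (ε j) (aj j) (u j) z|) atTop (𝓝 0))
    (hm : Measurable m) (h1 : ∀ z, ‖m z‖ = 1)
    {M : ℕ → ℂ → ℂ} (hM1 : ∀ k, ContDiff ℝ ∞ (M k)) (hM2 : ∀ k z, ‖M k z‖ ≤ 2)
    (hM3 : Tendsto (fun k => ∫ z, ‖M k z - m z‖ ^ 2 ∂μ) atTop (𝓝 0))
    (HC : Ctm ((atTop : Filter ℕ).curry (atTop : Filter ℕ)) (fun p => ε p.2) (fun p => aj p.2) (fun p => u p.2)
      (fun p => M p.1))
    {A : ℂ → ℂ} {Aj : ℕ → ℂ → ℂ} (hA : ContDiffOn ℝ ∞ A (ball 0 3)) (hAj : ∀ j, ContDiffOn ℝ ∞ (Aj j) (ball 0 3))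
    (hlim : TendstoLocallyUniformlyOn Aj A atTop (closedBall 0 2))
    (hslow : Slow ((atTop : Filter ℕ).curry (atTop : Filter ℕ)) (fun p => ε p.2) (fun p => Aj p.2))
    {φ : ℂ → ℂ} (hφ : ContDiff ℝ ∞ φ) {r : ℝ} (hr : r < 2) (hs : tsupport φ ⊆ closedBall 0 r) (q : ℕ)
    (R : Polynomial ℝ) :
    Tendsto (fun p : ℕ × ℕ => ∫ z, M p.1 z ^ q * (φ z * Aj p.2 z) * ((aj p.2 z : ℂ) / ε p.2 *
        (Wf u p.2 z * pc R u p.2 z)))
      ((atTop : Filter ℕ).curry (atTop : Filter ℕ))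
      (𝓝 (4⁻¹ * ((∫ x in (-1 : ℝ)..1, R.eval x : ℝ) : ℂ) * ∫ z, m z ^ q * (φ z * A z) ∂μ)) := by
  have hcφ : HasCompactSupport φ := HasCompactSupport.of_support_subset_isCompact (isCompact_closedBall 0 r)
    ((subset_tsupport _).trans hs)
  have h0 : ∀ p : ℕ × ℕ, 0 < ε p.2 := fun p => H.eps_pos p.2
  have h0' : Tendsto (fun p : ℕ × ℕ => ε p.2) ((atTop : Filter ℕ).curry (atTop : Filter ℕ)) (𝓝 0) :=
    H.eps_lim.comp tendsto_snd_curry
  refine lim_R H hE hd hm h1 hM1 hM2 hM3 HC.toCtx (cont_coef hr hA hφ hs).continuous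
    (fun j => cont_coef hr (hAj j) hφ hs) hr (tsupport_coef.trans hs) (fun j => tsupport_coef.trans hs)
    (hj_tu hlim hφ.continuous hcφ (hs.trans (closedBall_subset_closedBall hr.le))) q ?_ R
  exact Slow.mul h0 (Slow.pow h0 HC.slow q) (Slow.mul h0 (slow_phi h0 h0' hφ) hslow)

theorem neBot_curry : NeBot ((atTop : Filter ℕ).curry (atTop : Filter ℕ)) := by
  refine ⟨fun h => ?_⟩
  have h1 : ∀ᶠ p : ℕ × ℕ in (atTop : Filter ℕ).curry (atTop : Filter ℕ), False := by rw [h]; simp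
  rw [Filter.eventually_curry_iff] at h1
  obtain ⟨x, hx⟩ := h1.exists
  obtain ⟨y, hy⟩ := hx.exists
  exact hy

theorem int4 {A B C D : ℂ → ℂ} (hA : Integrable A) (hB : Integrable B) (hC : Integrable C) (hD : Integrable D) :
    ∫ z, (A z - B z + (C z - D z)) = (∫ z, A z) - (∫ z, B z) + ((∫ z, C z) - ∫ z, D z) := by
  rw [← integral_sub hA hB, ← integral_sub hC hD]
  exact integral_add (hA.sub hB) (hC.sub hD)

theorem int3 {ν : Measure ℂ} {A B C : ℂ → ℂ} (hA : Integrable A ν) (hB : Integrable B ν) (hC : Integrable C ν) :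
    ∫ z, (A z - B z - C z) ∂ν = (∫ z, A z ∂ν) - (∫ z, B z ∂ν) - ∫ z, C z ∂ν := by
  rw [← integral_sub hA hB]
  exact integral_sub (hA.sub hB) hC

theorem laws : Iface.Bnd2 → Iface.Disc0 → Iface.Wells → Iface.Laws := by
  intro hB hD hW a aj ε u μ m H hE hμ hM hm h1 n hn f hf hc hs
  obtain ⟨M, hM1, hM2, hM3⟩ := exists_Mk μ hm h1
  have HC := ctm hB hD hW H hE hM hm h1 hM1 hM2 hM3
  have hd := (ctx_of_locSeq hB hD hW H hE).disc0
  obtain ⟨r, hr0, hr, hsr⟩ := exists_closedBall_of_tsupport two_pos hc hs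
  have hne := neBot_curry
  set 𝓖 := (atTop : Filter ℕ).curry (atTop : Filter ℕ) with h𝓖
  have h0 : ∀ p : ℕ × ℕ, 0 < ε p.2 := fun p => H.eps_pos p.2
  obtain ⟨q, rfl⟩ := hn
  have hq1 : (2 * q + 1 + 1) / 2 = q + 1 := by omega
  have hq2 : (2 * q + 1 - 1) / 2 = q := by omega
  have hq3 : 2 * q + 1 - 1 = 2 * q := by omega
  have hodd : Odd (2 * q + 1) := ⟨q, rfl⟩
  -- the test functions
  have hφ1 : ContDiff ℝ ∞ (dzb f) := contDiffOn_univ.1 (smooth_dzb isOpen_univ hf.contDiffOn)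
  have hφ2 : ContDiff ℝ ∞ (dz f) := contDiffOn_univ.1 (smooth_dz isOpen_univ hf.contDiffOn)
  have hs1 : tsupport (dzb f) ⊆ closedBall 0 r := tsupport_dzb_subset.trans hsr
  have hs2 : tsupport (dz f) ⊆ closedBall 0 r := tsupport_dz_subset.trans hsr
  have z1 : ∀ z ∉ closedBall (0 : ℂ) r, dzb f z = 0 := fun z hz => by
    by_contra h; exact hz (hs1 (subset_tsupport _ h))
  have z2 : ∀ z ∉ closedBall (0 : ℂ) r, dz f z = 0 := fun z hz => by
    by_contra h; exact hz (hs2 (subset_tsupport _ h))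
  have z3 : ∀ z ∉ closedBall (0 : ℂ) r, f z = 0 := fun z hz => by
    by_contra h; exact hz (hsr (subset_tsupport _ h))
  have bnd : ∀ φ : ℂ → ℂ, Continuous φ → ∃ K : ℝ, 0 ≤ K ∧ ∀ z ∈ ball (0 : ℂ) 2, ‖φ z‖ ≤ K := fun φ hφ => by
    obtain ⟨K, hK⟩ := (isCompact_closedBall (0 : ℂ) 2).exists_bound_of_continuousOn hφ.continuousOn
    exact ⟨K, (norm_nonneg _).trans (hK 0 (mem_closedBall_self (by norm_num))),
      fun z hz => hK z (ball_subset_closedBall hz)⟩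
  obtain ⟨K1, hK1, b1⟩ := bnd _ hφ1.continuous
  obtain ⟨K2, hK2, b2⟩ := bnd _ hφ2.continuous
  obtain ⟨K3, hK3, b3⟩ := bnd _ hf.continuous
  obtain ⟨Ka, hKa, ba⟩ := HC.slow_a.1.bound
  obtain ⟨Kα, hKα, bα⟩ := HC.slow_al.1.bound
  -- continuity
  have ca : ∀ p : ℕ × ℕ, ContinuousOn (fun z => (aj p.2 z : ℂ)) (ball 0 3) := fun p =>
    (smooth_aC (H.aj_smooth p.2)).continuousOn
  have cal : ∀ p : ℕ × ℕ, ContinuousOn (dz fun z => (aj p.2 z : ℂ)) (ball 0 3) := fun p =>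
    (smooth_alC (H.aj_smooth p.2)).continuousOn
  have us : ∀ p : ℕ × ℕ, ContDiffOn ℝ ∞ (u p.2) (ball 0 3) := fun p => (H.sol p.2).smooth
  have cP : ∀ p : ℕ × ℕ, ContinuousOn (P1 (ε p.2) (u p.2)) (ball 0 3) := fun p =>
    (P1_smooth isOpen_ball (us p)).continuousOn
  have cQ : ∀ p : ℕ × ℕ, ContinuousOn (Qn (ε p.2) (u p.2) (2 * q + 1)) (ball 0 3) := fun p =>
    (Qn_smooth isOpen_ball (us p) _).continuousOn
  have cT : ∀ p : ℕ × ℕ, ContinuousOn (Tn (ε p.2) (u p.2) (2 * q + 1)) (ball 0 3) := fun p =>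
    (Tn_smooth isOpen_ball (us p) _).continuousOn
  have cD : ∀ p : ℕ × ℕ, ContinuousOn (Dn (ε p.2) (aj p.2) (u p.2) (2 * q + 1)) (ball 0 3) := fun p =>
    (Dn_smooth isOpen_ball (H.aj_smooth p.2) (us p) _).continuousOn
  have cLam : ∀ p : ℕ × ℕ, ContinuousOn (fun z => M p.1 z * (aj p.2 z : ℂ) / 4) (ball 0 3) := fun p =>
    ((hM1 p.1).continuous.continuousOn.mul (ca p)).div_const _
  have cG : ∀ (p : ℕ × ℕ) (G : ℝ → ℝ), Continuous G →
      ContinuousOn (fun z => ((G (u p.2 z) : ℝ) : ℂ)) (ball 0 3) := fun p G hG =>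
    Complex.continuous_ofReal.comp_continuousOn (hG.comp_continuousOn (us p).continuousOn)
  -- integrability of the terms
  have hint : ∀ (φ X : ℂ → ℂ), Continuous φ → (∀ z ∉ closedBall (0 : ℂ) r, φ z = 0) →
      ContinuousOn X (ball 0 3) → Integrable (fun z => φ z * X z) := fun φ X hφ hz hX => by
    have hr3 : r < 3 := by linarith
    refine (integrableOn_iff_integrable_of_support_subset (s := closedBall 0 r) ?_).1 ?_
    · intro z hz'
      by_contra h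
      exact hz' (by simp [hz z h])
    · exact (hφ.continuousOn.mul hX).mono (closedBall_subset_ball hr3) |>.integrableOn_compact
        (isCompact_closedBall 0 r)
  -- the law for each index
  have hlaw : ∀ p : ℕ × ℕ,
      (∫ z, dzb f z * (P1 (ε p.2) (u p.2) z * Qn (ε p.2) (u p.2) (2 * q + 1) z)) / ε p.2 -
      (∫ z, (dz f z * ((aj p.2 z : ℂ) / 4)) * Tn (ε p.2) (u p.2) (2 * q + 1) z) / ε p.2 +
      ((∫ z, f z * (P1 (ε p.2) (u p.2) z * Dn (ε p.2) (aj p.2) (u p.2) (2 * q + 1) z)) / ε p.2 -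
      (∫ z, (f z * (dz (fun w => (aj p.2 w : ℂ)) z / 4)) * Tn (ε p.2) (u p.2) (2 * q + 1) z) / ε p.2) = 0 := by
    intro p
    have hw := law_weak (h0 p) (H.aj_smooth p.2) (H.sol p.2) (n := 2 * q + 1) (by omega) hf hc hs
    have i1 : Integrable (fun z => dzb f z * (P1 (ε p.2) (u p.2) z * Qn (ε p.2) (u p.2) (2 * q + 1) z)) :=
      hint (dzb f) _ hφ1.continuous z1 ((cP p).mul (cQ p))
    have i2 : Integrable (fun z => dz f z * ((aj p.2 z : ℂ) / 4 * Tn (ε p.2) (u p.2) (2 * q + 1) z)) :=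
      hint (dz f) _ hφ2.continuous z2 (((ca p).div_const 4).mul (cT p))
    have i3 : Integrable (fun z => f z * (P1 (ε p.2) (u p.2) z * Dn (ε p.2) (aj p.2) (u p.2) (2 * q + 1) z)) :=
      hint f _ hf.continuous z3 ((cP p).mul (cD p))
    have i4 : Integrable (fun z => f z * (dz (fun w => (aj p.2 w : ℂ)) z / 4 *
        Tn (ε p.2) (u p.2) (2 * q + 1) z)) :=
      hint f _ hf.continuous z3 (((cal p).div_const 4).mul (cT p))
    have e1 : ∫ z, (dzb f z * (P1 (ε p.2) (u p.2) z * Qn (ε p.2) (u p.2) (2 * q + 1) z) -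
        dz f z * ((aj p.2 z : ℂ) / 4 * Tn (ε p.2) (u p.2) (2 * q + 1) z) +
        f z * (P1 (ε p.2) (u p.2) z * Dn (ε p.2) (aj p.2) (u p.2) (2 * q + 1) z -
          dz (fun w => (aj p.2 w : ℂ)) z / 4 * Tn (ε p.2) (u p.2) (2 * q + 1) z)) =
        (∫ z, dzb f z * (P1 (ε p.2) (u p.2) z * Qn (ε p.2) (u p.2) (2 * q + 1) z)) -
        (∫ z, dz f z * ((aj p.2 z : ℂ) / 4 * Tn (ε p.2) (u p.2) (2 * q + 1) z)) +
        ((∫ z, f z * (P1 (ε p.2) (u p.2) z * Dn (ε p.2) (aj p.2) (u p.2) (2 * q + 1) z)) -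
        (∫ z, f z * (dz (fun w => (aj p.2 w : ℂ)) z / 4 * Tn (ε p.2) (u p.2) (2 * q + 1) z))) := by
      rw [← int4 i1 i2 i3 i4]
      refine integral_congr_ae (Eventually.of_forall fun z => ?_)
      simp only
      ring
    rw [hw] at e1
    have e2 : (∫ z, (dz f z * ((aj p.2 z : ℂ) / 4)) * Tn (ε p.2) (u p.2) (2 * q + 1) z) =
        ∫ z, dz f z * ((aj p.2 z : ℂ) / 4 * Tn (ε p.2) (u p.2) (2 * q + 1) z) := by simp only [mul_assoc]
    have e3 : (∫ z, (f z * (dz (fun w => (aj p.2 w : ℂ)) z / 4)) * Tn (ε p.2) (u p.2) (2 * q + 1) z) =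
        ∫ z, f z * (dz (fun w => (aj p.2 w : ℂ)) z / 4 * Tn (ε p.2) (u p.2) (2 * q + 1) z) := by
      simp only [mul_assoc]
    rw [e2, e3, ← sub_div, ← sub_div, ← add_div, ← e1, zero_div]
  -- limits of the terms
  set n : ℕ := 2 * q + 1 with hn
  have cW : ∀ p : ℕ × ℕ, ContinuousOn (Wf u p.2) (ball 0 3) := fun p => cG p (fun t => 1 - Real.cos t) (by fun_prop)
  have cc : ∀ p : ℕ × ℕ, ContinuousOn (cf u p.2) (ball 0 3) := fun p => cG p (fun t => Real.cos (t / 2)) (by fun_prop)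
  have cpc : ∀ (p : ℕ × ℕ) (R : Polynomial ℝ), ContinuousOn (pc R u p.2) (ball 0 3) := fun p R =>
    cG p (fun t => R.eval (Real.cos (t / 2))) (by fun_prop)
  have slowA : ∀ s : ℕ, Slow 𝓖 (fun p => ε p.2) (fun p z => (aj p.2 z : ℂ) ^ s) := fun s => HC.slow_a.pow h0 s
  have aC := smooth_aC H.a_smooth
  have aCc : ContinuousOn (fun z => (a z : ℂ)) (closedBall 0 2) :=
    aC.continuousOn.mono (closedBall_subset_ball (by norm_num))
  have alCc : ContinuousOn (dz fun z => (a z : ℂ)) (closedBall 0 2) :=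
    (smooth_alC H.a_smooth).continuousOn.mono (closedBall_subset_ball (by norm_num))
  have tluA : ∀ (s : ℕ) (c : ℂ), TendstoLocallyUniformlyOn (fun j z => (aj j z : ℂ) ^ s * c)
      (fun z => (a z : ℂ) ^ s * c) atTop (closedBall 0 2) := fun s c =>
    TendstoLocallyUniformlyOn.fun_mul₀ (tlu_pow (aj_tlu H) aCc s) (tlu_const c) (aCc.pow s) continuousOn_const
  have sA : ∀ (s : ℕ) (c : ℂ), ContDiffOn ℝ ∞ (fun z => (a z : ℂ) ^ s * c) (ball 0 3) := fun s c =>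
    (aC.pow s).mul contDiffOn_const
  have sAj : ∀ (s : ℕ) (c : ℂ) (j : ℕ), ContDiffOn ℝ ∞ (fun z => (aj j z : ℂ) ^ s * c) (ball 0 3) := fun s c j =>
    ((smooth_aC (H.aj_smooth j)).pow s).mul contDiffOn_const
  have slA : ∀ (s : ℕ) (c : ℂ), Slow 𝓖 (fun p => ε p.2) (fun p z => (aj p.2 z : ℂ) ^ s * c) := fun s c =>
    Slow.mul h0 (slowA s) (Slow.const h0 c)
  have tAs : ∀ (s : ℕ) (c : ℂ), ContDiffOn ℝ ∞ (fun z => (a z : ℂ) ^ s * c * dz (fun w => (a w : ℂ)) z) (ball 0 3) :=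
    fun s c => (sA s c).mul (smooth_alC H.a_smooth)
  have tAsj : ∀ (s : ℕ) (c : ℂ) (j : ℕ),
      ContDiffOn ℝ ∞ (fun z => (aj j z : ℂ) ^ s * c * dz (fun w => (aj j w : ℂ)) z) (ball 0 3) :=
    fun s c j => (sAj s c j).mul (smooth_alC (H.aj_smooth j))
  have tAt : ∀ (s : ℕ) (c : ℂ), TendstoLocallyUniformlyOn
      (fun j z => (aj j z : ℂ) ^ s * c * dz (fun w => (aj j w : ℂ)) z)
      (fun z => (a z : ℂ) ^ s * c * dz (fun w => (a w : ℂ)) z) atTop (closedBall 0 2) := fun s c =>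
    TendstoLocallyUniformlyOn.fun_mul₀ (tluA s c) (al_tlu H) ((aCc.pow s).mul continuousOn_const) alCc
  have tAl : ∀ (s : ℕ) (c : ℂ), Slow 𝓖 (fun p => ε p.2)
      (fun p z => (aj p.2 z : ℂ) ^ s * c * dz (fun w => (aj p.2 w : ℂ)) z) := fun s c =>
    Slow.mul h0 (slA s c) HC.slow_al
  have l1 := lim_gen H hE hd hm h1 hM1 hM2 hM3 HC (sA q (4 ^ (q + 1))⁻¹) (sAj q _) (tluA q _) (slA q _)
    hφ1 hr hs1 (q + 1) (Polynomial.X ^ (2 * q))
  have l2 := lim_gen H hE hd hm h1 hM1 hM2 hM3 HC (sA q (4 ^ (q + 1))⁻¹) (sAj q _) (tluA q _) (slA q _)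
    hφ2 hr hs2 q (Polynomial.X ^ (2 * q))
  have e0 : ∀ p : ℕ × ℕ, (ε p.2 : ℂ) ≠ 0 := fun p => by exact_mod_cast (h0 p).ne'
  -- first term
  have t1 : Tendsto (fun p : ℕ × ℕ =>
      (∫ z, dzb f z * (P1 (ε p.2) (u p.2) z * Qn (ε p.2) (u p.2) n z)) / ε p.2) 𝓖
      (𝓝 (4⁻¹ * ((∫ x in (-1 : ℝ)..1, (Polynomial.X ^ (2 * q) : Polynomial ℝ).eval x : ℝ) : ℂ) *
        ∫ z, m z ^ (q + 1) * (dzb f z * ((a z : ℂ) ^ q * (4 ^ (q + 1))⁻¹)) ∂μ)) := by
    have hN := PQ_as HC hodd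
    rw [hq1, hq3] at hN
    refine tend_repl (φ := fun _ => dzb f) h0 hr (Eventually.of_forall fun _ => b1) (fun _ => z1)
      (fun _ => hφ1.continuous.continuousOn) (fun p => (cP p).mul (cQ p))
      (fun p => ((cLam p).pow (q + 1)).mul ((cW p).mul ((cc p).pow (2 * q)))) hN ?_
    refine l1.congr fun p => ?_
    rw [← integral_div]
    refine integral_congr_ae (Eventually.of_forall fun z => ?_)
    simp only [Pi.mul_apply, Pi.pow_apply, pc, cf, Polynomial.eval_pow, Polynomial.eval_X, Complex.ofReal_pow,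
      div_pow, mul_pow]
    have := e0 p
    field_simp
    ring
  -- second term
  have t2 : Tendsto (fun p : ℕ × ℕ =>
      (∫ z, (dz f z * ((aj p.2 z : ℂ) / 4)) * Tn (ε p.2) (u p.2) n z) / ε p.2) 𝓖
      (𝓝 (4⁻¹ * ((∫ x in (-1 : ℝ)..1, (Polynomial.X ^ (2 * q) : Polynomial ℝ).eval x : ℝ) : ℂ) *
        ∫ z, m z ^ q * (dz f z * ((a z : ℂ) ^ q * (4 ^ (q + 1))⁻¹)) ∂μ)) := by
    have hN := T_as HC hodd
    rw [hq2, hq3] at hN
    refine tend_repl (K := K2 * Ka) (φ := fun p z => dz f z * ((aj p.2 z : ℂ) / 4)) h0 hr ?_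
      (fun p z hz => by simp [z2 z hz])
      (fun p => hφ2.continuous.continuousOn.mul ((ca p).div_const 4)) (fun p => cT p)
      (fun p => ((cLam p).pow q).mul ((cW p).mul ((cc p).pow (2 * q)))) hN ?_
    · filter_upwards [ba] with p hp z hz
      rw [norm_mul, norm_div]
      have e4 : ‖(4 : ℂ)‖ = 4 := by simp
      rw [e4]
      have := hp z hz
      have h5 : ‖(aj p.2 z : ℂ)‖ / 4 ≤ Ka := by
        have := norm_nonneg (aj p.2 z : ℂ)
        linarith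
      exact mul_le_mul (b2 z hz) h5 (by positivity) hK2
    refine l2.congr fun p => ?_
    rw [← integral_div]
    refine integral_congr_ae (Eventually.of_forall fun z => ?_)
    simp only [Pi.mul_apply, Pi.pow_apply, pc, cf, Polynomial.eval_pow, Polynomial.eval_X, Complex.ofReal_pow,
      div_pow, mul_pow]
    have := e0 p
    field_simp
    ring
  -- third and fourth terms: leading parts
  have hlog : ∀ z ∈ ball (0 : ℂ) 3, dz (fun w => (Real.log (a w) : ℂ)) z = dz (fun w => (a w : ℂ)) z / a z :=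
    fun z hz => dz_log H hz
  have r3 : Tendsto (fun p : ℕ × ℕ => (∫ z, f z * (al (fun p : ℕ × ℕ => aj p.2) p z / 8 *
      (M p.1 z * (aj p.2 z : ℂ) / 4) ^ q * (Wf u p.2 z * pc (gp n) u p.2 z))) / ε p.2) 𝓖
      (𝓝 (4⁻¹ * ((∫ x in (-1 : ℝ)..1, (gp n).eval x : ℝ) : ℂ) *
        ((8 * 4 ^ q)⁻¹ * ∫ z, m z ^ q * (f z * ((a z : ℂ) ^ q * dz (fun w => (Real.log (a w) : ℂ)) z)) ∂μ))) := by
    rcases Nat.eq_zero_or_pos q with hq0 | hq0
    · have hg : gp n = 0 := by rw [hn, hq0]; exact gp_one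
      simp only [hg, pc, Polynomial.eval_zero, Complex.ofReal_zero, mul_zero, integral_zero, zero_div,
        intervalIntegral.integral_zero, zero_mul]
      exact tendsto_const_nhds
    · obtain ⟨q', rfl⟩ : ∃ q', q = q' + 1 := ⟨q - 1, by omega⟩
      have l3 := lim_gen H hE hd hm h1 hM1 hM2 hM3 HC (tAs q' (8 * 4 ^ (q' + 1))⁻¹)
        (tAsj q' _) (tAt q' _) (tAl q' _) hf hr hsr (q' + 1) (gp n)
      have e5 : ∫ z, m z ^ (q' + 1) * (f z * ((a z : ℂ) ^ q' * (8 * 4 ^ (q' + 1))⁻¹ * dz (fun w => (a w : ℂ)) z)) ∂μ =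
          (8 * 4 ^ (q' + 1))⁻¹ * ∫ z, m z ^ (q' + 1) * (f z * ((a z : ℂ) ^ (q' + 1) *
            dz (fun w => (Real.log (a w) : ℂ)) z)) ∂μ := by
        rw [← integral_const_mul]
        refine integral_congr_ae (Eventually.of_forall fun z => ?_)
        simp only
        by_cases hz : z ∈ closedBall (0 : ℂ) r
        · have h3 : z ∈ ball (0 : ℂ) 3 := closedBall_subset_ball (by linarith) hz
          have ha0 : (a z : ℂ) ≠ 0 := by exact_mod_cast (H.a_pos z h3).ne'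
          rw [hlog z h3, pow_succ (a z : ℂ)]
          field_simp
        · rw [z3 z hz]; simp
      rw [e5] at l3
      refine l3.congr fun p => ?_
      rw [← integral_div]
      refine integral_congr_ae (Eventually.of_forall fun z => ?_)
      simp only [al, div_pow, mul_pow]
      have := e0 p
      field_simp
      ring
  have r4 : Tendsto (fun p : ℕ × ℕ => (∫ z, (f z * (dz (fun w => (aj p.2 w : ℂ)) z / 4)) *
      ((M p.1 z * (aj p.2 z : ℂ) / 4) ^ q * (Wf u p.2 z * cf u p.2 z ^ (2 * q)))) / ε p.2) 𝓖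
      (𝓝 (4⁻¹ * ((∫ x in (-1 : ℝ)..1, (Polynomial.X ^ (2 * q) : Polynomial ℝ).eval x : ℝ) : ℂ) *
        ((4 ^ (q + 1))⁻¹ * ∫ z, m z ^ q * (f z * ((a z : ℂ) ^ q * dz (fun w => (Real.log (a w) : ℂ)) z)) ∂μ))) := by
    rcases Nat.eq_zero_or_pos q with hq0 | hq0
    · subst hq0
      have ha0 : ∀ z ∈ ball (0 : ℂ) 3, (a z : ℂ) ≠ 0 := fun z hz => by exact_mod_cast (H.a_pos z hz).ne'
      have haj0 : ∀ j, ∀ z ∈ ball (0 : ℂ) 3, (aj j z : ℂ) ≠ 0 := fun j z hz => by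
        exact_mod_cast (H.aj_pos j z hz).ne'
      have sB : ContDiffOn ℝ ∞ (fun z => dz (fun w => (a w : ℂ)) z / (a z : ℂ)) (ball 0 3) := by
        simp only [div_eq_mul_inv]
        exact (smooth_alC H.a_smooth).mul ((smooth_aC H.a_smooth).inv ha0)
      have sBj : ∀ j, ContDiffOn ℝ ∞ (fun z => dz (fun w => (aj j w : ℂ)) z / (aj j z : ℂ)) (ball 0 3) := fun j => by
        simp only [div_eq_mul_inv]
        exact (smooth_alC (H.aj_smooth j)).mul ((smooth_aC (H.aj_smooth j)).inv (haj0 j))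
      have tB : TendstoLocallyUniformlyOn (fun j z => dz (fun w => (aj j w : ℂ)) z / (aj j z : ℂ))
          (fun z => dz (fun w => (a w : ℂ)) z / (a z : ℂ)) atTop (closedBall 0 2) :=
        TendstoLocallyUniformlyOn.fun_div₀ (al_tlu H) (aj_tlu H) alCc aCc
          fun z hz => ha0 z (closedBall_subset_ball (by norm_num) hz)
      have l4 := (lim_W H hE hd hm h1 hM1 hM2 hM3 (cont_coef hr sB hf hsr).continuous
        (fun j => (cont_coef hr (sBj j) hf hsr).continuous) hr (tsupport_coef.trans hsr)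
        (fun j => tsupport_coef.trans hsr)
        (hj_tu tB hf.continuous hc (hsr.trans (closedBall_subset_closedBall hr.le))) 0).const_mul (4⁻¹ : ℂ)
      have e5 : (4⁻¹ : ℂ) * (2⁻¹ * ∫ z, m z ^ 0 * (f z * (dz (fun w => (a w : ℂ)) z / (a z : ℂ))) ∂μ) =
          4⁻¹ * ((∫ x in (-1 : ℝ)..1, (Polynomial.X ^ (2 * 0) : Polynomial ℝ).eval x : ℝ) : ℂ) *
            ((4 ^ (0 + 1))⁻¹ * ∫ z, m z ^ 0 * (f z * ((a z : ℂ) ^ 0 *
              dz (fun w => (Real.log (a w) : ℂ)) z)) ∂μ) := by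
        have e6 : ∫ z, m z ^ 0 * (f z * (dz (fun w => (a w : ℂ)) z / (a z : ℂ))) ∂μ =
            ∫ z, m z ^ 0 * (f z * ((a z : ℂ) ^ 0 * dz (fun w => (Real.log (a w) : ℂ)) z)) ∂μ := by
          refine integral_congr_ae (Eventually.of_forall fun z => ?_)
          simp only
          by_cases hz : z ∈ closedBall (0 : ℂ) r
          · rw [hlog z (closedBall_subset_ball (by linarith) hz), pow_zero (a z : ℂ), one_mul]
          · rw [z3 z hz]; simp
        rw [e6]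
        have e7 : ∫ x in (-1 : ℝ)..1, (Polynomial.X ^ (2 * 0) : Polynomial ℝ).eval x = 2 := by
          simp; norm_num
        rw [e7]
        push_cast
        ring
      rw [e5] at l4
      refine l4.congr fun p => ?_
      rw [← integral_div, ← integral_const_mul]
      refine integral_congr_ae (Eventually.of_forall fun z => ?_)
      simp only
      by_cases hz : z ∈ closedBall (0 : ℂ) r
      · have h3 := haj0 p.2 z (closedBall_subset_ball (by linarith) hz)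
        have := e0 p
        simp only [pow_zero, mul_zero, mul_one, one_mul]
        field_simp
      · rw [z3 z hz]; simp
    · obtain ⟨q', rfl⟩ : ∃ q', q = q' + 1 := ⟨q - 1, by omega⟩
      have l4 := lim_gen H hE hd hm h1 hM1 hM2 hM3 HC (tAs q' (4 ^ (q' + 1 + 1))⁻¹)
        (tAsj q' _) (tAt q' _) (tAl q' _) hf hr hsr (q' + 1) (Polynomial.X ^ (2 * (q' + 1)))
      have e5 : ∫ z, m z ^ (q' + 1) * (f z * ((a z : ℂ) ^ q' * (4 ^ (q' + 1 + 1))⁻¹ * dz (fun w => (a w : ℂ)) z)) ∂μ =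
          (4 ^ (q' + 1 + 1))⁻¹ * ∫ z, m z ^ (q' + 1) * (f z * ((a z : ℂ) ^ (q' + 1) *
            dz (fun w => (Real.log (a w) : ℂ)) z)) ∂μ := by
        rw [← integral_const_mul]
        refine integral_congr_ae (Eventually.of_forall fun z => ?_)
        simp only
        by_cases hz : z ∈ closedBall (0 : ℂ) r
        · have h3 : z ∈ ball (0 : ℂ) 3 := closedBall_subset_ball (by linarith) hz
          have ha0 : (a z : ℂ) ≠ 0 := by exact_mod_cast (H.a_pos z h3).ne'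
          rw [hlog z h3, pow_succ (a z : ℂ)]
          field_simp
        · rw [z3 z hz]; simp
      rw [e5] at l4
      refine l4.congr fun p => ?_
      rw [← integral_div]
      refine integral_congr_ae (Eventually.of_forall fun z => ?_)
      simp only [pc, cf, Polynomial.eval_pow, Polynomial.eval_X, Complex.ofReal_pow, div_pow, mul_pow]
      have := e0 p
      field_simp
      ring
  -- third term
  have t3 : Tendsto (fun p : ℕ × ℕ =>
      (∫ z, f z * (P1 (ε p.2) (u p.2) z * Dn (ε p.2) (aj p.2) (u p.2) n z)) / ε p.2) 𝓖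
      (𝓝 (4⁻¹ * ((∫ x in (-1 : ℝ)..1, (gp n).eval x : ℝ) : ℂ) *
        ((8 * 4 ^ q)⁻¹ * ∫ z, m z ^ q * (f z * ((a z : ℂ) ^ q * dz (fun w => (Real.log (a w) : ℂ)) z)) ∂μ))) := by
    have hN := PD_as HC hodd
    rw [hq2] at hN
    exact tend_repl (φ := fun _ => f) h0 hr (Eventually.of_forall fun _ => b3) (fun _ => z3)
      (fun _ => hf.continuous.continuousOn) (fun p => (cP p).mul (cD p))
      (fun p => (((cal p).div_const 8).mul ((cLam p).pow q)).mul ((cW p).mul (cpc p (gp n)))) hN r3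
  -- fourth term
  have t4 : Tendsto (fun p : ℕ × ℕ =>
      (∫ z, (f z * (dz (fun w => (aj p.2 w : ℂ)) z / 4)) * Tn (ε p.2) (u p.2) n z) / ε p.2) 𝓖
      (𝓝 (4⁻¹ * ((∫ x in (-1 : ℝ)..1, (Polynomial.X ^ (2 * q) : Polynomial ℝ).eval x : ℝ) : ℂ) *
        ((4 ^ (q + 1))⁻¹ * ∫ z, m z ^ q * (f z * ((a z : ℂ) ^ q * dz (fun w => (Real.log (a w) : ℂ)) z)) ∂μ))) := by
    have hN := T_as HC hodd
    rw [hq2, hq3] at hN
    refine tend_repl (K := K3 * Kα) (φ := fun p z => f z * (dz (fun w => (aj p.2 w : ℂ)) z / 4)) h0 hr ?_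
      (fun p z hz => by simp [z3 z hz])
      (fun p => hf.continuous.continuousOn.mul ((cal p).div_const 4)) (fun p => cT p)
      (fun p => ((cLam p).pow q).mul ((cW p).mul ((cc p).pow (2 * q)))) hN r4
    filter_upwards [bα] with p hp z hz
    rw [norm_mul, norm_div]
    have e4 : ‖(4 : ℂ)‖ = 4 := by simp
    rw [e4]
    have h6 : ‖dz (fun w => (aj p.2 w : ℂ)) z‖ ≤ Kα := hp z hz
    have h5 : ‖dz (fun w => (aj p.2 w : ℂ)) z‖ / 4 ≤ Kα := by
      have := norm_nonneg (dz (fun w => (aj p.2 w : ℂ)) z)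
      linarith
    exact mul_le_mul (b3 z hz) h5 (by positivity) hK3
  -- conclusion
  have tt := (t1.sub t2).add (t3.sub t4)
  have hz := tendsto_nhds_unique tt (tendsto_const_nhds.congr fun p => (hlaw p).symm)
  have p1 : ∫ x in (-1 : ℝ)..1, (Polynomial.X ^ (2 * q) : Polynomial ℝ).eval x = 2 / n := by
    have := pow_int hodd
    rwa [hq3] at this
  have p2 : ∫ x in (-1 : ℝ)..1, (gp n).eval x = 4 / n - 4 := gp_int hodd
  have hn0 : (n : ℂ) ≠ 0 := by rw [hn]; exact_mod_cast (by omega : 2 * q + 1 ≠ 0)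
  have sL : ContDiffOn ℝ ∞ (fun z => (a z : ℂ) ^ q * dz (fun w => (Real.log (a w) : ℂ)) z) (ball 0 3) := by
    refine (aC.pow q).mul (smooth_dz isOpen_ball (smooth_ofReal ?_))
    exact H.a_smooth.log fun z hz => (H.a_pos z hz).ne'
  have hmi : ∀ (s : ℕ) (h : ℂ → ℂ), Continuous h → HasCompactSupport h → Integrable (fun z => m z ^ s * h z) μ :=
    fun s h hh hhc => by
      obtain ⟨K, hK⟩ := hh.bounded_above_of_compact_support hhc
      refine Integrable.of_bound ((hm.pow_const s).aestronglyMeasurable.mul hh.aestronglyMeasurable) K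
        (Eventually.of_forall fun z => ?_)
      rw [norm_mul, norm_pow, h1, one_pow, one_mul]
      exact hK z
  have hcc : ∀ (φ A : ℂ → ℂ), tsupport φ ⊆ closedBall 0 r → HasCompactSupport (fun z => φ z * A z) :=
    fun φ A h => HasCompactSupport.of_support_subset_isCompact (isCompact_closedBall 0 r)
      ((subset_tsupport _).trans (tsupport_coef.trans h))
  have j1 := hmi (q + 1) _ (cont_coef hr (aC.pow q) hφ1 hs1).continuous (hcc _ _ hs1)
  have j2 := hmi q _ (cont_coef hr (aC.pow q) hφ2 hs2).continuous (hcc _ _ hs2)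
  have j3 := hmi q _ (cont_coef hr sL hf hsr).continuous (hcc _ _ hsr)
  have k1 : ∫ z, m z ^ (q + 1) * (dzb f z * ((a z : ℂ) ^ q * (4 ^ (q + 1))⁻¹)) ∂μ =
      (4 ^ (q + 1))⁻¹ * ∫ z, m z ^ (q + 1) * (dzb f z * (a z : ℂ) ^ q) ∂μ := by
    rw [← integral_const_mul]
    refine integral_congr_ae (Eventually.of_forall fun z => ?_)
    simp only; ring
  have k2 : ∫ z, m z ^ q * (dz f z * ((a z : ℂ) ^ q * (4 ^ (q + 1))⁻¹)) ∂μ =
      (4 ^ (q + 1))⁻¹ * ∫ z, m z ^ q * (dz f z * (a z : ℂ) ^ q) ∂μ := by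
    rw [← integral_const_mul]
    refine integral_congr_ae (Eventually.of_forall fun z => ?_)
    simp only; ring
  rw [p1, p2, k1, k2] at hz
  have goal1 : ∫ z, (m z ^ ((n + 1) / 2) * (a z : ℂ) ^ ((n - 1) / 2) * dzb f z -
        m z ^ ((n - 1) / 2) * (a z : ℂ) ^ ((n - 1) / 2) * dz f z -
        n * dz (fun z => (Real.log (a z) : ℂ)) z * m z ^ ((n - 1) / 2) * (a z : ℂ) ^ ((n - 1) / 2) * f z) ∂μ =
      (∫ z, m z ^ (q + 1) * (dzb f z * (a z : ℂ) ^ q) ∂μ) - (∫ z, m z ^ q * (dz f z * (a z : ℂ) ^ q) ∂μ) -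
        n * ∫ z, m z ^ q * (f z * ((a z : ℂ) ^ q * dz (fun w => (Real.log (a w) : ℂ)) z)) ∂μ := by
    rw [hq1, hq2, ← integral_const_mul, ← int3 j1 j2 (j3.const_mul _)]
    refine integral_congr_ae (Eventually.of_forall fun z => ?_)
    simp only
    ring
  rw [goal1]
  set J1 := ∫ z, m z ^ (q + 1) * (dzb f z * (a z : ℂ) ^ q) ∂μ
  set J2 := ∫ z, m z ^ q * (dz f z * (a z : ℂ) ^ q) ∂μ
  set J3 := ∫ z, m z ^ q * (f z * ((a z : ℂ) ^ q * dz (fun w => (Real.log (a w) : ℂ)) z)) ∂μ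
  have h4 : (4 : ℂ) ^ q ≠ 0 := pow_ne_zero _ (by norm_num)
  have hfin : (4⁻¹ * (2 / n) * ((4 ^ (q + 1))⁻¹ * J1) - 4⁻¹ * (2 / n) * ((4 ^ (q + 1))⁻¹ * J2) +
      (4⁻¹ * (4 / n - 4) * ((8 * 4 ^ q)⁻¹ * J3) - 4⁻¹ * (2 / n) * ((4 ^ (q + 1))⁻¹ * J3)) : ℂ) = 0 := by
    have := hz
    push_cast at this
    exact this
  have hfac : J1 - J2 - n * J3 = (2 * n * 4 ^ (q + 1)) *
      (4⁻¹ * (2 / n) * ((4 ^ (q + 1))⁻¹ * J1) - 4⁻¹ * (2 / n) * ((4 ^ (q + 1))⁻¹ * J2) +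
      (4⁻¹ * (4 / n - 4) * ((8 * 4 ^ q)⁻¹ * J3) - 4⁻¹ * (2 / n) * ((4 ^ (q + 1))⁻¹ * J3))) := by
    rw [pow_succ]
    field_simp
    ring
  rw [hfac, hfin, mul_zero]

end Pool.Agent.Helper74.CE
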