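import Pool.Agent.Helper74.CE.Defs

/-!
# CL-E04: the conservation law of order `n` in a commutative ring with two commuting derivations (pure algebra)

Work in `R⟦X⟧` (`PowerSeries R`, variable `η = X`). For a derivation `d` of `R` let `dh : R⟦X⟧ → R⟦X⟧`,
`dh F = PowerSeries.mk fun n => d (PowerSeries.coeff n F)`: it is additive, `dh (F * G) = dh F * G + F * dh G`
(coefficientwise: `PowerSeries.coeff_mul`, `map_sum`, `Derivation.leibniz`), `dh (C r) = C (d r)`, `dh (X * F) = X * dh F`,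
and the two extensions commute.  Put `Qs = mk Q`, `Bs = mk B`, `Ds = mk D`.  Write `δ, δ'` for the two extensions and
`η = X`; scalars of `ℂ` are used freely (`R⟦X⟧` is a `ℂ`-algebra; or multiply by `8` and use that `8 • x = 8 • y → x = y`,
as `R` is a `ℂ`-vector space).  The hypotheses say:
```
(Q)  Q = η δQ + (η P / 2) (1 + Q²)
(B)  B = 2 c Q + s (1 - Q²)
(D)  D = η δD + η P Q D + (η² / 8) α B .
```
Claim 1: `B = η δB + η Q P B + (1 + Q²) s`. Proof: `δB = 2 δQ (c - Q s) + P ((1 - Q²) c - 2 Q s)`, and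
`η δQ = Q - (η P / 2)(1 + Q²)`, so `η δB = 2 Q (c - Q s) - η P (1 + Q²)(c - Q s) + η P ((1 - Q²) c - 2 Q s)
= 2 Q c - 2 Q² s + η P (-2 Q² c - Q s + Q³ s)`, while `η Q P B = η P (Q s - Q³ s + 2 Q² c)`; the sum is
`2 Q c - 2 Q² s = B - (1 + Q²) s` (`linear_combination`).

Claim 2: `δ' Q = (η / 8) A B + e D`. Proof: `Y = δ' Q` satisfies `Y = η δY + (η A / 8)(1 + Q²) s + η P Q Y` (apply `δ'` to
(Q), with `δ' δ = δ δ'`, `δ' P = A s / 4`), and `Z = (η / 8) A B` satisfies, by claim 1,
`η δZ + η P Q Z + (η A / 8)(1 + Q²) s = Z + (η² / 8) (δA) B = Z + e (η² / 8) α B`. So `E = Y - Z - e D` satisfies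
`E = η (δE + P Q E)`: by strong induction on `n` all the coefficients of `E` vanish
(`coeff 0 (X * F) = 0`, `coeff (n+1) (X * F) = coeff n F`, and `coeff n F` only involves the coefficients `≤ n` of `E`).

Claim 3: `δ'(P Q) = (A / 4) δ (η (Q s + 1 - c)) + e P D`. Proof: `δ'(P Q) = (A s / 4) Q + P ((η / 8) A B + e D)`, and
`(A / 4) η δ(Q s + 1 - c) = (A / 4)(η δQ s + η P (Q c + s))
= (A / 4) Q s + (η P A / 8)(-(1 + Q²) s + 2 Q c + 2 s) = (A / 4) Q s + (η P A / 8) B`.

The coefficient of `η^n`, `n ≥ 1`, of claim 3 is the statement, as the coefficient of `η^(n-1)` in `Q s + 1 - c` is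
`Q_{n-1} s` for `n ≥ 2` and `Q_0 s + 1 - c = 1 - c` for `n = 1`.
-/

namespace Pool.Agent.Helper74.CE

section aux

variable {R : Type*} [CommRing R] [Algebra ℂ R]

/-- the coefficientwise extension of a derivation to power series -/
private noncomputable def dh (δ : Derivation ℂ R R) (F : PowerSeries R) : PowerSeries R :=
  PowerSeries.mk fun n => δ (PowerSeries.coeff n F)

private theorem coeff_dh (δ : Derivation ℂ R R) (F : PowerSeries R) (n : ℕ) :
    PowerSeries.coeff n (dh δ F) = δ (PowerSeries.coeff n F) := by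
  simp [dh]

private theorem dh_add (δ : Derivation ℂ R R) (F G : PowerSeries R) :
    dh δ (F + G) = dh δ F + dh δ G := by
  ext n; simp [coeff_dh]

private theorem dh_sub (δ : Derivation ℂ R R) (F G : PowerSeries R) :
    dh δ (F - G) = dh δ F - dh δ G := by
  ext n; simp [coeff_dh]

private theorem dh_mul (δ : Derivation ℂ R R) (F G : PowerSeries R) :
    dh δ (F * G) = dh δ F * G + F * dh δ G := by
  ext n
  simp only [coeff_dh, PowerSeries.coeff_mul, map_add, map_sum, Derivation.leibniz, smul_eq_mul,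
    Finset.sum_add_distrib]
  rw [add_comm]
  congr 1
  apply Finset.sum_congr rfl
  intro p _
  ring

private theorem dh_C (δ : Derivation ℂ R R) (r : R) :
    dh δ (PowerSeries.C r) = PowerSeries.C (δ r) := by
  ext n
  rw [coeff_dh, PowerSeries.coeff_C, PowerSeries.coeff_C]
  split_ifs <;> simp

private theorem dh_X (δ : Derivation ℂ R R) : dh δ (PowerSeries.X : PowerSeries R) = 0 := by
  ext n
  rw [coeff_dh, PowerSeries.coeff_X]
  split_ifs <;> simp

private theorem dh_one (δ : Derivation ℂ R R) : dh δ (1 : PowerSeries R) = 0 := by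
  have := dh_C δ (1 : R)
  simpa using this

private theorem dh_comm (δ δ' : Derivation ℂ R R) (hcomm : ∀ f, δ' (δ f) = δ (δ' f))
    (F : PowerSeries R) : dh δ' (dh δ F) = dh δ (dh δ' F) := by
  ext n; simp [coeff_dh, hcomm]

private theorem eq_zero_of (δ : Derivation ℂ R R) (F G : PowerSeries R)
    (h : F = PowerSeries.X * (dh δ F + G * F)) : F = 0 := by
  ext n
  induction n using Nat.strong_induction_on with
  | _ n ih =>
    rw [h]
    rcases n with _ | n
    · simp
    · rw [PowerSeries.coeff_succ_X_mul, map_add, coeff_dh, PowerSeries.coeff_mul, map_zero]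
      have h1 := ih n (Nat.lt_succ_self n)
      rw [h1, map_zero, map_zero, zero_add]
      apply Finset.sum_eq_zero
      intro p hp
      have hp2 : p.2 < n + 1 := by
        have := Finset.HasAntidiagonal.mem_antidiagonal.1 hp
        omega
      rw [ih p.2 hp2]
      simp

end aux

theorem law_alg {R : Type*} [CommRing R] [Algebra ℂ R] (δ δ' : Derivation ℂ R R)
    (hcomm : ∀ f, δ' (δ f) = δ (δ' f)) (P s c A α : R) (e : ℂ)
    (hs : δ s = c * P) (hc : δ c = -(s * P)) (hP : δ' P = (4⁻¹ : ℂ) • (A * s)) (hA : δ A = e • α)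
    (Q B D : ℕ → R) (hQ0 : Q 0 = 0)
    (hQ : ∀ n, Q (n + 1) = δ (Q n) + (2⁻¹ : ℂ) •
      (P * ((if n = 0 then 1 else 0) + ∑ p ∈ Finset.HasAntidiagonal.antidiagonal n, Q p.1 * Q p.2)))
    (hB : ∀ n, B n = 2 * c * Q n +
      s * ((if n = 0 then 1 else 0) - ∑ p ∈ Finset.HasAntidiagonal.antidiagonal n, Q p.1 * Q p.2))
    (hD0 : D 0 = 0)
    (hD : ∀ n, D (n + 1) = δ (D n) + P * (∑ p ∈ Finset.HasAntidiagonal.antidiagonal n, Q p.1 * D p.2) +
      (if n = 0 then 0 else (8⁻¹ : ℂ) • (α * B (n - 1)))) (n : ℕ) (hn : 1 ≤ n) :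
    δ' (P * Q n) = (4⁻¹ : ℂ) • (A * δ (if n = 1 then 1 - c else Q (n - 1) * s)) + e • (P * D n) := by
  classical
  set t : R := algebraMap ℂ R 2⁻¹ with ht
  have ht2 : 2 * t = 1 := by
    rw [ht, ← map_ofNat (algebraMap ℂ R) 2, ← map_mul]
    norm_num
  have hsm2 : ∀ x : R, (2⁻¹ : ℂ) • x = t * x := fun x => by rw [Algebra.smul_def]
  have hsm4 : ∀ x : R, (4⁻¹ : ℂ) • x = t ^ 2 * x := fun x => by
    rw [Algebra.smul_def, ht, ← map_pow]
    norm_num
  have hsm8 : ∀ x : R, (8⁻¹ : ℂ) • x = t ^ 3 * x := fun x => by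
    rw [Algebra.smul_def, ht, ← map_pow]
    norm_num
  set e' : R := algebraMap ℂ R e with he'
  have hsme : ∀ x : R, e • x = e' * x := fun x => by rw [Algebra.smul_def]
  have hδt : δ t = 0 := by rw [ht]; exact Derivation.map_algebraMap δ _
  have hδ't : δ' t = 0 := by rw [ht]; exact Derivation.map_algebraMap δ' _
  have hδe : δ e' = 0 := by rw [he']; exact Derivation.map_algebraMap δ _
  rw [hsm4] at hP
  rw [hsme] at hA
  simp only [hsm2] at hQ
  simp only [hsm8] at hD
  -- the power series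
  set Qs : PowerSeries R := PowerSeries.mk Q with hQs
  set Bs : PowerSeries R := PowerSeries.mk B with hBs
  set Ds : PowerSeries R := PowerSeries.mk D with hDs
  set X : PowerSeries R := PowerSeries.X with hX
  set T : PowerSeries R := PowerSeries.C t with hT
  set P' : PowerSeries R := PowerSeries.C P with hP'
  set s' : PowerSeries R := PowerSeries.C s with hs'
  set c' : PowerSeries R := PowerSeries.C c with hc'
  set A' : PowerSeries R := PowerSeries.C A with hA'
  set α' : PowerSeries R := PowerSeries.C α with hα'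
  set ε : PowerSeries R := PowerSeries.C e' with hε
  have hT2 : 2 * T = 1 := by
    rw [hT, ← map_ofNat (PowerSeries.C (R := R)) 2, ← map_mul, ht2, map_one]
  have eQ : Qs = X * dh δ Qs + T * (X * (P' * (1 + Qs ^ 2))) := by
    ext n
    rcases n with _ | n
    · simp [hQs, hX, hQ0]
    · rw [map_add, hT, PowerSeries.coeff_C_mul, hX, PowerSeries.coeff_succ_X_mul,
        PowerSeries.coeff_succ_X_mul, coeff_dh, hP', PowerSeries.coeff_C_mul, map_add,
        PowerSeries.coeff_one, pow_two, PowerSeries.coeff_mul]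
      simp only [hQs, PowerSeries.coeff_mk]
      exact hQ n
  have eB : Bs = 2 * c' * Qs + s' * (1 - Qs ^ 2) := by
    ext n
    rw [map_add, show 2 * c' = PowerSeries.C (2 * c) by rw [map_mul, map_ofNat], PowerSeries.coeff_C_mul, hs',
      PowerSeries.coeff_C_mul, map_sub, PowerSeries.coeff_one, pow_two, PowerSeries.coeff_mul]
    simp only [hQs, hBs, PowerSeries.coeff_mk]
    exact hB n
  have eD : Ds = X * dh δ Ds + X * (P' * (Qs * Ds)) + T ^ 3 * (X * (X * (α' * Bs))) := by
    ext n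
    rcases n with _ | n
    · simp [hDs, hX, hD0]
    · have hT3 : T ^ 3 = PowerSeries.C (t ^ 3) := by rw [hT, map_pow]
      rw [map_add, map_add, hT3]
      simp only [hX, hP', PowerSeries.coeff_succ_X_mul, PowerSeries.coeff_C_mul, coeff_dh]
      rw [PowerSeries.coeff_mul]
      simp only [hQs, hDs, PowerSeries.coeff_mk]
      rw [hD n]
      congr 1
      rcases n with _ | n
      · simp
      · rw [PowerSeries.coeff_succ_X_mul, hα', PowerSeries.coeff_C_mul, hBs, PowerSeries.coeff_mk]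
        simp
  -- derivatives of constants
  have ds : dh δ s' = c' * P' := by rw [hs', dh_C, hs, hc', hP', map_mul]
  have dc : dh δ c' = -(s' * P') := by rw [hc', dh_C, hc, hs', hP', map_neg, map_mul]
  have dA : dh δ A' = ε * α' := by rw [hA', dh_C, hA, hε, hα', map_mul]
  have dT : dh δ T = 0 := by rw [hT, dh_C, hδt, map_zero]
  have dT' : dh δ' T = 0 := by rw [hT, dh_C, hδ't, map_zero]
  have dX : dh δ X = 0 := dh_X δ
  have dX' : dh δ' X = 0 := dh_X δ'
  have dε : dh δ ε = 0 := by rw [hε, dh_C, hδe, map_zero]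
  have dP' : dh δ' P' = T ^ 2 * (A' * s') := by
    rw [hP', dh_C, hP, hT, hA', hs', map_mul, map_mul, map_pow]
  have d1 : dh δ (1 : PowerSeries R) = 0 := dh_one δ
  have d1' : dh δ' (1 : PowerSeries R) = 0 := dh_one δ'
  -- claim 1
  have dB : dh δ Bs = -(2 * s' * P' * Qs) + 2 * c' * dh δ Qs + c' * P' * (1 - Qs ^ 2)
      - 2 * s' * Qs * dh δ Qs := by
    have h2 : dh δ (2 : PowerSeries R) = 0 := by
      rw [show (2 : PowerSeries R) = 1 + 1 by norm_num, dh_add, d1, add_zero]
    rw [eB, dh_add, dh_mul, dh_mul, dh_mul, dh_sub, pow_two, dh_mul, d1, dc, ds, h2]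
    ring
  have claim1 : Bs = X * dh δ Bs + X * Qs * P' * Bs + (1 + Qs ^ 2) * s' := by
    rw [dB, eB]
    linear_combination (2 * (c' - Qs * s')) * eQ + X * P' * (1 + Qs ^ 2) * (c' - Qs * s') * hT2
  -- claim 2
  set Y : PowerSeries R := dh δ' Qs with hY
  have eY : Y = X * dh δ Y + T ^ 3 * (X * (A' * s' * (1 + Qs ^ 2))) + X * (P' * (Qs * Y)) := by
    have h := congrArg (dh δ') eQ
    simp only [dh_add, dh_mul, dX', dT', dP', d1', pow_two] at h
    rw [dh_comm δ δ' hcomm] at h
    rw [← hY] at h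
    linear_combination h + X * P' * Qs * Y * hT2
  have eZ : X * dh δ (T ^ 3 * (X * (A' * Bs))) + X * (P' * (Qs * (T ^ 3 * (X * (A' * Bs)))))
      + T ^ 3 * (X * (A' * s' * (1 + Qs ^ 2)))
      = T ^ 3 * (X * (A' * Bs)) + T ^ 3 * (X * (X * (ε * α' * Bs))) := by
    have hd : dh δ (T ^ 3 * (X * (A' * Bs))) = T ^ 3 * (X * (ε * α' * Bs + A' * dh δ Bs)) := by
      rw [show T ^ 3 = T * (T * T) by ring]
      simp only [dh_mul, dT, dX, dA]
      ring
    rw [hd]
    linear_combination (-(T ^ 3 * X * A')) * claim1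
  have hF : Y - T ^ 3 * (X * (A' * Bs)) - ε * Ds = 0 := by
    apply eq_zero_of δ _ (P' * Qs)
    rw [dh_sub, dh_sub, dh_mul δ ε Ds, dε]
    linear_combination eY + eZ - ε * eD
  have claim2 : Y = T ^ 3 * (X * (A' * Bs)) + ε * Ds := by linear_combination hF
  -- claim 3
  have claim3 : dh δ' (P' * Qs) = T ^ 2 * (A' * dh δ (X * (Qs * s' + 1 - c'))) + ε * (P' * Ds) := by
    rw [dh_mul, dP', ← hY, claim2]
    simp only [dh_mul, dh_add, dh_sub, dX, ds, dc, d1]
    linear_combination (T ^ 2 * A' * s') * eQ + T ^ 3 * A' * X * P' * eB + T ^ 2 * A' * X * P' * (Qs * c' + s') * hT2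
  have hfin := congrArg (PowerSeries.coeff n) claim3
  rw [coeff_dh, hP', PowerSeries.coeff_C_mul, map_add, show T ^ 2 = PowerSeries.C (t ^ 2) by simp [hT],
    PowerSeries.coeff_C_mul, hA', PowerSeries.coeff_C_mul, coeff_dh, hε, PowerSeries.coeff_C_mul,
    PowerSeries.coeff_C_mul, hQs, PowerSeries.coeff_mk, hDs, PowerSeries.coeff_mk] at hfin
  obtain ⟨m, rfl⟩ : ∃ m, n = m + 1 := ⟨n - 1, by omega⟩
  rw [hsm4, hsme, hfin]
  congr 4
  rw [hX, PowerSeries.coeff_succ_X_mul, map_sub, map_add, hs', PowerSeries.coeff_mul_C, hc',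
    PowerSeries.coeff_one, PowerSeries.coeff_C]
  simp only [PowerSeries.coeff_mk]
  rcases m with _ | m
  · simp [hQ0]
  · simp

end Pool.Agent.Helper74.CE
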