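import Pool.Agent.Helper74.CE.QAs

/-!
# CL-E24: the leading term of `B_n`: `B_n ≡ R_n · 2 ((n+1) c^{n+1} - n c^{n-1})` modulo `ZZ`

`B_n = 2 cos u Q_n + sin u ([n=0] - ∑_{i+j=n} Q_i Q_j)`, `cos u = 2 c² - 1`, `sin u = 2 S c` (`cos_eq`, `sin_eq`).
`n = 0`: `Q_0 = 0`, `B_0 = 2 S c = R_0 · 2 c`. For `n ≥ 1`: `2 cos u Q_n ≡ 2 (2 c² - 1) R_n c^{n-1}`, and for `i, j ≥ 1`,
`i + j = n`, `2 S c Q_i Q_j ≡ 2 c · c^{n-2} S R_i R_j ≡ 2 c^{n-1} S² R_n` (`S_Rn_Rn`; first replace `Q_i`, then `Q_j`: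
`ZZ · BB`); there are `n - 1` such pairs, the others give `0`. The total is
`R_n c^{n-1} (4 c² - 2 - 2 (n-1)(1 - c²)) = R_n c^{n-1} (2 (n+1) c² - 2 n)`.
-/

namespace Pool.Agent.Helper74.CE

open MeasureTheory Filter Topology Metric Pool.Agent.Helper53.CL
open scoped ContDiff Real

variable {ι : Type*} {𝓕 : Filter ι} {ε : ι → ℝ} {a u : ι → ℂ → ℝ} {mm : ι → ℂ → ℂ}

private theorem h7_pair (H : Ctm 𝓕 ε a u mm) {j k : ℕ} (hj : 1 ≤ j) (hk : 1 ≤ k) :
    ZZ 𝓕 ε u (fun i z => 2 * cf u i z * Sf u i z * Qf ε u j i z * Qf ε u k i z -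
      2 * cf u i z ^ (j + k - 1) * Sf u i z ^ 2 * Rn ε a u mm (j + k) i z) := by
  have h0 := H.toCtx.eps_pos
  have hu := H.toCtx.hu
  have bc := H.toCtx.bb_c
  have bS := H.toCtx.bb_S
  have b2 := (bc.const_mul h0 2).mul h0 bS
  have z1 := ZZ.mul_BB h0 hu (b2.mul h0 (Qf_LL H k).1) (Qf_as H hj)
  have z2 := ZZ.mul_BB h0 hu ((b2.mul h0 (ll_Rn H j).1).mul h0 (bc.pow h0 (j - 1))) (Qf_as H hk)
  have z3 := ZZ.mul_BB h0 hu (((bc.const_mul h0 2).mul h0 (bc.pow h0 (j - 1))).mul h0 (bc.pow h0 (k - 1)))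
    (S_Rn_Rn H j k)
  refine ((z1.add h0 hu z2).add h0 hu z3).congr fun i z _ => ?_
  obtain ⟨j', rfl⟩ := Nat.exists_eq_add_of_le' hj
  obtain ⟨k', rfl⟩ := Nat.exists_eq_add_of_le' hk
  have e1 : j' + 1 + (k' + 1) - 1 = j' + k' + 1 := by omega
  rw [e1, Nat.add_sub_cancel, Nat.add_sub_cancel, pow_succ, pow_add]
  ring

private theorem h7_count (m : ℕ) (x : ℂ) :
    ∑ p ∈ Finset.HasAntidiagonal.antidiagonal (m + 1), (if p.1 = 0 ∨ p.2 = 0 then 0 else x) = m * x := by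
  rw [Finset.Nat.sum_antidiagonal_succ]
  simp only [true_or, if_true, Nat.add_eq_zero_iff, one_ne_zero, and_false, false_or, zero_add]
  have h1 : (∑ p ∈ Finset.HasAntidiagonal.antidiagonal m, (if p.2 = 0 then 0 else x)) +
      (∑ p ∈ Finset.HasAntidiagonal.antidiagonal m, (if p.2 = 0 then x else 0)) = (m + 1) * x := by
    rw [← Finset.sum_add_distrib]
    have : ∀ p ∈ Finset.HasAntidiagonal.antidiagonal m,
        ((if p.2 = 0 then 0 else x) + (if p.2 = 0 then x else 0)) = x := by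
      intro p _
      split_ifs <;> simp
    rw [Finset.sum_congr rfl this, Finset.sum_const, Finset.Nat.card_antidiagonal, nsmul_eq_mul]
    push_cast
    ring
  have h2 : (∑ p ∈ Finset.HasAntidiagonal.antidiagonal m, (if p.2 = 0 then x else 0)) = x := by
    rw [Finset.sum_eq_single (m, 0)]
    · simp
    · rintro ⟨b, c⟩ hbc hne
      have hbc' : b + c = m := Finset.HasAntidiagonal.mem_antidiagonal.1 hbc
      by_cases hc : c = 0
      · subst hc
        exfalso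
        apply hne
        rw [add_zero] at hbc'
        rw [hbc']
      · simp [hc]
    · intro h
      exact absurd (Finset.HasAntidiagonal.mem_antidiagonal.2 (add_zero m)) h
  linear_combination h1 - h2

theorem Bf_as (H : Ctm 𝓕 ε a u mm) (n : ℕ) :
    ZZ 𝓕 ε u (fun i z => Bf ε u n i z - Rn ε a u mm n i z *
      (2 * ((n + 1 : ℂ) * cf u i z ^ (n + 1) - n * cf u i z ^ (n - 1)))) := by
  have h0 := H.toCtx.eps_pos
  have hu := H.toCtx.hu
  rcases n with _ | m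
  · refine (ZZ.zero h0).congr fun i z _ => ?_
    have hs := sin_eq (u := u) i z
    simp only [Bf, Bn, Qn_zero, Rn, Finset.Nat.antidiagonal_zero, Finset.sum_singleton, if_true, hs]
    simp
    ring
  · have bc := H.toCtx.bb_c
    have b1 : BB 𝓕 ε (fun i z => 2 * (2 * cf u i z ^ 2 - 1)) :=
      ((((bc.pow h0 2).const_mul h0 2).sub h0 (BB.const h0 1)).const_mul h0 2)
    have z1 := ZZ.mul_BB h0 hu b1 (Qf_as H (Nat.succ_pos m))
    have z2 : ZZ 𝓕 ε u (fun i z => ∑ p ∈ Finset.HasAntidiagonal.antidiagonal (m + 1),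
        (2 * cf u i z * Sf u i z * Qf ε u p.1 i z * Qf ε u p.2 i z -
          (if p.1 = 0 ∨ p.2 = 0 then 0 else 2 * cf u i z ^ m * Sf u i z ^ 2 * Rn ε a u mm (m + 1) i z))) := by
      refine ZZ.sum h0 hu (H := fun (p : ℕ × ℕ) i z => (2 * cf u i z * Sf u i z * Qf ε u p.1 i z * Qf ε u p.2 i z -
          (if p.1 = 0 ∨ p.2 = 0 then 0 else 2 * cf u i z ^ m * Sf u i z ^ 2 * Rn ε a u mm (m + 1) i z))) _
          fun p hp => ?_
      obtain ⟨j, k⟩ := p
      have hjk : j + k = m + 1 := Finset.HasAntidiagonal.mem_antidiagonal.1 hp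
      by_cases h : j = 0 ∨ k = 0
      · refine (ZZ.zero h0).congr fun i z _ => ?_
        rcases h with h | h
        · simp [h, Qf, Qn_zero]
        · simp [h, Qf, Qn_zero]
      · rw [not_or] at h
        refine (h7_pair H (Nat.pos_of_ne_zero h.1) (Nat.pos_of_ne_zero h.2)).congr fun i z _ => ?_
        have h' : ¬ (j = 0 ∨ k = 0) := by tauto
        simp only [h', if_false]
        rw [hjk, Nat.add_sub_cancel]
    refine (z1.sub h0 hu z2).congr fun i z _ => ?_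
    rw [Finset.sum_sub_distrib, h7_count]
    have hs := sin_eq (u := u) i z
    have hc := cos_eq (u := u) i z
    have hS := Sf_sq (u := u) i z
    have hB : Bf ε u (m + 1) i z = 2 * (2 * cf u i z ^ 2 - 1) * Qf ε u (m + 1) i z -
        ∑ p ∈ Finset.HasAntidiagonal.antidiagonal (m + 1),
          2 * cf u i z * Sf u i z * Qf ε u p.1 i z * Qf ε u p.2 i z := by
      have : ∑ p ∈ Finset.HasAntidiagonal.antidiagonal (m + 1),
          2 * cf u i z * Sf u i z * Qf ε u p.1 i z * Qf ε u p.2 i z = 2 * Sf u i z * cf u i z *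
            ∑ p ∈ Finset.HasAntidiagonal.antidiagonal (m + 1), Qf ε u p.1 i z * Qf ε u p.2 i z := by
        rw [Finset.mul_sum]
        exact Finset.sum_congr rfl fun p _ => by ring
      rw [this]
      simp only [Bf, Bn, hs, hc, Qf, Nat.add_eq_zero_iff, one_ne_zero, and_false, if_false]
      ring
    rw [hB, Nat.succ_eq_add_one, Nat.add_sub_cancel, hS]
    push_cast
    ring

theorem Bf_LL (H : Ctm 𝓕 ε a u mm) (n : ℕ) : LL 𝓕 ε u (Bf ε u n) := by
  have h0 := H.toCtx.eps_pos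
  have hu := H.toCtx.hu
  have bc := H.toCtx.bb_c
  have b1 : BB 𝓕 ε (fun i z => 2 * ((n + 1 : ℂ) * cf u i z ^ (n + 1) - n * cf u i z ^ (n - 1))) :=
    ((((bc.pow h0 (n + 1)).const_mul h0 (n + 1 : ℂ)).sub h0 ((bc.pow h0 (n - 1)).const_mul h0 (n : ℂ))).const_mul
      h0 2)
  refine ((Bf_as H n).1.add h0 hu (LL.mul_BB h0 hu b1 (ll_Rn H n))).congr fun i z _ => ?_
  ring

end Pool.Agent.Helper74.CE
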