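import Pool.Agent.Helper74.CE.CalcN

/-!
# CL-E08: closure properties of `Sm`, `BB`, `Slow`

`ball 0 2 ⊆ ball 0 3`, so that `CalcN` applies on the open set `ball 0 3` at the points of `ball 0 2`.
* `BB.mul`: `scaled_mul_le` with `C` a common bound for the finitely many orders `i ≤ k` (`Filter.eventually_all_finset`
  / induction), then bound the sum.
* `BB.ex`: `ε^k ‖D^k (ε dx g)‖ ≤ ε^(k+1) ‖D^(k+1) g‖` (`norm_itd_dx_le`, `iteratedFDeriv_const_smul_apply`; note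
  `ε * dx g` is `(ε : ℂ) • dx g`).
* `BB.comp`: `scaled_comp_le` (with a bound `K ≥ 1`); `norm_itd_ofReal` to pass from `uc u` to `u`.
* `BB.of_bounded`, `Slow.of_bounded`: eventually `ε ≤ 1`, and `√ε → 0` for the derivative (`norm_itd_one`).
* `Slow.mul`: `D (g h) = Dg h + g Dh`, with `g, h` bounded (`BB` for `k = 0`).
* congruence: `itd_congr`, as the functions agree on the neighbourhood `ball 0 3` of the points of `ball 0 2`.
-/

namespace Pool.Agent.Helper74.CE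

open MeasureTheory Filter Topology Metric Pool.Agent.Helper53.CL
open scoped ContDiff Real ComplexConjugate

variable {ι : Type*} {𝓕 : Filter ι} {ε : ι → ℝ} {u : ι → ℂ → ℝ} {g h : ι → ℂ → ℂ}

private theorem bbc_sub {z : ℂ} (hz : z ∈ ball (0 : ℂ) 2) : z ∈ ball (0 : ℂ) 3 :=
  ball_subset_ball (by norm_num) hz

private theorem bbc_ev {f f' : ℂ → ℂ} (h : ∀ z ∈ ball (0 : ℂ) 3, f z = f' z) {z : ℂ}
    (hz : z ∈ ball (0 : ℂ) 3) : f =ᶠ[𝓝 z] f' :=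
  Filter.eventuallyEq_of_mem (isOpen_ball.mem_nhds hz) h

private theorem bbc_scl {f : ℂ → ℂ} (hf : ContDiffOn ℝ ∞ f (ball 0 3)) {z : ℂ}
    (hz : z ∈ ball (0 : ℂ) 3) {e : ℝ} (he : 0 < e) (k : ℕ) :
    ‖iteratedFDeriv ℝ k (fun w => (e : ℂ) * f w) z‖ = e * ‖iteratedFDeriv ℝ k f z‖ := by
  have h1 : (fun w => (e : ℂ) * f w) = e • f := by
    funext w
    simp
  have h2 : ContDiffAt ℝ k f z :=
    (hf.contDiffAt (isOpen_ball.mem_nhds hz)).of_le (by exact_mod_cast le_top)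
  rw [h1, iteratedFDeriv_const_smul_apply h2, norm_smul, Real.norm_eq_abs, abs_of_pos he]

/-! ### Smooth families -/

theorem Sm.congr (hg : Sm g) (hh : ∀ i, ∀ z ∈ ball (0 : ℂ) 3, g i z = h i z) : Sm h :=
  fun i => (hg i).congr fun z hz => (hh i z hz).symm

theorem Sm.add (hg : Sm g) (hh : Sm h) : Sm (fun i z => g i z + h i z) :=
  fun i => (hg i).add (hh i)

theorem Sm.sub (hg : Sm g) (hh : Sm h) : Sm (fun i z => g i z - h i z) :=
  fun i => (hg i).sub (hh i)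

theorem Sm.mul (hg : Sm g) (hh : Sm h) : Sm (fun i z => g i z * h i z) :=
  fun i => (hg i).mul (hh i)

theorem Sm.pow (hg : Sm g) (n : ℕ) : Sm (fun i z => g i z ^ n) :=
  fun i => (hg i).pow n

theorem Sm.const (c : ℂ) : Sm (fun (_ : ι) _ => c) := fun _ => contDiffOn_const

theorem Sm.conj (hg : Sm g) : Sm (fun i z => conj (g i z)) :=
  fun i => Complex.conjCLE.contDiff.comp_contDiffOn (hg i)

theorem Sm.ex (hg : Sm g) : Sm (ex ε g) :=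
  fun i => contDiffOn_const.mul (smooth_dx isOpen_ball (hg i))

theorem Sm.ey (hg : Sm g) : Sm (ey ε g) :=
  fun i => contDiffOn_const.mul (smooth_dy isOpen_ball (hg i))

theorem Sm.ez (hg : Sm g) : Sm (ez ε g) :=
  fun i => contDiffOn_const.mul (smooth_dz isOpen_ball (hg i))

theorem Sm.ezb (hg : Sm g) : Sm (ezb ε g) :=
  fun i => contDiffOn_const.mul (smooth_dzb isOpen_ball (hg i))

theorem Sm.diffAt (hg : Sm g) (i : ι) {z : ℂ} (hz : z ∈ ball (0 : ℂ) 3) : DifferentiableAt ℝ (g i) z :=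
  diffAt_of_smooth isOpen_ball (hg i) hz

theorem Sm.continuousOn (hg : Sm g) (i : ι) : ContinuousOn (g i) (ball 0 3) := (hg i).continuousOn

/-! ### Scaled derivatives of families, at a point of `ball 0 3` -/

theorem ex_eq (i : ι) (z : ℂ) : ex ε g i z = ez ε g i z + ezb ε g i z := by
  unfold ex ez ezb dz dzb
  ring

theorem ey_eq (i : ι) (z : ℂ) : ey ε g i z = Complex.I * (ez ε g i z - ezb ε g i z) := by
  unfold ey ez ezb dz dzb
  linear_combination ((ε i : ℂ) * dy (g i) z) * Complex.I_sq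

theorem ez_eq (i : ι) (z : ℂ) : ez ε g i z = (ex ε g i z - Complex.I * ey ε g i z) / 2 := by
  unfold ex ey ez dz
  ring

theorem ezb_eq (i : ι) (z : ℂ) : ezb ε g i z = (ex ε g i z + Complex.I * ey ε g i z) / 2 := by
  unfold ex ey ezb dzb
  ring

theorem ex_mul (hg : Sm g) (hh : Sm h) (i : ι) {z : ℂ} (hz : z ∈ ball (0 : ℂ) 3) :
    ex ε (fun i z => g i z * h i z) i z = ex ε g i z * h i z + g i z * ex ε h i z := by
  show (ε i : ℂ) * dx (fun w => g i w * h i w) z =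
    (ε i * dx (g i) z) * h i z + g i z * (ε i * dx (h i) z)
  rw [dx_mul (hg.diffAt i hz) (hh.diffAt i hz)]
  ring

theorem ey_mul (hg : Sm g) (hh : Sm h) (i : ι) {z : ℂ} (hz : z ∈ ball (0 : ℂ) 3) :
    ey ε (fun i z => g i z * h i z) i z = ey ε g i z * h i z + g i z * ey ε h i z := by
  show (ε i : ℂ) * dy (fun w => g i w * h i w) z =
    (ε i * dy (g i) z) * h i z + g i z * (ε i * dy (h i) z)
  rw [dy_mul (hg.diffAt i hz) (hh.diffAt i hz)]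
  ring

theorem ez_mul (hg : Sm g) (hh : Sm h) (i : ι) {z : ℂ} (hz : z ∈ ball (0 : ℂ) 3) :
    ez ε (fun i z => g i z * h i z) i z = ez ε g i z * h i z + g i z * ez ε h i z := by
  show (ε i : ℂ) * dz (fun w => g i w * h i w) z =
    (ε i * dz (g i) z) * h i z + g i z * (ε i * dz (h i) z)
  rw [dz_mul (hg.diffAt i hz) (hh.diffAt i hz)]
  ring

theorem ez_add (hg : Sm g) (hh : Sm h) (i : ι) {z : ℂ} (hz : z ∈ ball (0 : ℂ) 3) :
    ez ε (fun i z => g i z + h i z) i z = ez ε g i z + ez ε h i z := by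
  show (ε i : ℂ) * dz (fun w => g i w + h i w) z = ε i * dz (g i) z + ε i * dz (h i) z
  rw [dz_add (hg.diffAt i hz) (hh.diffAt i hz)]
  ring

theorem ez_sub (hg : Sm g) (hh : Sm h) (i : ι) {z : ℂ} (hz : z ∈ ball (0 : ℂ) 3) :
    ez ε (fun i z => g i z - h i z) i z = ez ε g i z - ez ε h i z := by
  show (ε i : ℂ) * dz (fun w => g i w - h i w) z = ε i * dz (g i) z - ε i * dz (h i) z
  rw [dz_sub (hg.diffAt i hz) (hh.diffAt i hz)]
  ring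

theorem ez_const_mul (c : ℂ) (i : ι) (z : ℂ) : ez ε (fun i z => c * g i z) i z = c * ez ε g i z := by
  show (ε i : ℂ) * dz (fun w => c * g i w) z = c * (ε i * dz (g i) z)
  rw [dz_const_mul]
  ring

theorem ez_pow (hg : Sm g) (n : ℕ) (i : ι) {z : ℂ} (hz : z ∈ ball (0 : ℂ) 3) :
    ez ε (fun i z => g i z ^ n) i z = n * g i z ^ (n - 1) * ez ε g i z := by
  show (ε i : ℂ) * dz (fun w => g i w ^ n) z = n * g i z ^ (n - 1) * (ε i * dz (g i) z)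
  rw [dz_pow (hg.diffAt i hz)]
  ring

theorem ez_congr (hh : ∀ i, ∀ z ∈ ball (0 : ℂ) 3, g i z = h i z) (i : ι) {z : ℂ} (hz : z ∈ ball (0 : ℂ) 3) :
    ez ε g i z = ez ε h i z := by
  show (ε i : ℂ) * dz (g i) z = ε i * dz (h i) z
  rw [dz_congr (bbc_ev (hh i) hz)]

theorem norm_ez_le (h0 : ∀ i, 0 < ε i) (i : ι) (z : ℂ) : ‖ez ε g i z‖ ≤ ε i * ‖fderiv ℝ (g i) z‖ := by
  show ‖(ε i : ℂ) * dz (g i) z‖ ≤ _
  rw [norm_mul, Complex.norm_real, Real.norm_eq_abs, abs_of_pos (h0 i)]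
  exact mul_le_mul_of_nonneg_left norm_dz_le (h0 i).le

/-! ### Bounded families -/

theorem BB.congr (hg : BB 𝓕 ε g) (hh : ∀ i, ∀ z ∈ ball (0 : ℂ) 3, g i z = h i z) : BB 𝓕 ε h := by
  refine ⟨hg.1.congr hh, fun k => ?_⟩
  obtain ⟨C, hC⟩ := hg.2 k
  refine ⟨C, ?_⟩
  filter_upwards [hC] with i hi z hz
  rw [← itd_congr (bbc_ev (hh i) (bbc_sub hz)) k]
  exact hi z hz

theorem BB.const (h0 : ∀ i, 0 < ε i) (c : ℂ) : BB 𝓕 ε (fun _ _ => c) := by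
  refine ⟨Sm.const c, fun k => ⟨‖c‖, Eventually.of_forall fun i z _ => ?_⟩⟩
  rcases Nat.eq_zero_or_pos k with hk | hk
  · subst hk
    rw [norm_iteratedFDeriv_zero, pow_zero, one_mul]
  · rw [iteratedFDeriv_const_of_ne (by omega)]
    simp

/-- Bounds of all orders `i ≤ k` at once. -/
private theorem bb_bound_le (hg : BB 𝓕 ε g) (k : ℕ) : ∃ C : ℝ, 0 < C ∧ ∀ᶠ i in 𝓕, ∀ z ∈ ball (0 : ℂ) 2, ∀ j ≤ k,
    ε i ^ j * ‖iteratedFDeriv ℝ j (g i) z‖ ≤ C := by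
  choose C hC using hg.2
  have hnn : 0 ≤ ∑ j ∈ Finset.range (k + 1), |C j| := Finset.sum_nonneg fun j _ => abs_nonneg _
  refine ⟨1 + ∑ j ∈ Finset.range (k + 1), |C j|, by positivity, ?_⟩
  have h1 : ∀ᶠ i in 𝓕, ∀ j ∈ Finset.range (k + 1), ∀ z ∈ ball (0 : ℂ) 2,
      ε i ^ j * ‖iteratedFDeriv ℝ j (g i) z‖ ≤ C j :=
    (Filter.eventually_all_finset (Finset.range (k + 1))).2 fun j _ => hC j
  filter_upwards [h1] with i hi z hz j hj
  have hj' : j ∈ Finset.range (k + 1) := Finset.mem_range.2 (by omega)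
  have h2 := hi j hj' z hz
  have h3 : |C j| ≤ ∑ j ∈ Finset.range (k + 1), |C j| :=
    Finset.single_le_sum (f := fun j => |C j|) (fun j _ => abs_nonneg _) hj'
  have h4 := le_abs_self (C j)
  linarith

private theorem bb_neg (hh : BB 𝓕 ε h) : BB 𝓕 ε (fun i z => -h i z) := by
  refine ⟨fun i => (hh.1 i).neg, fun k => ?_⟩
  obtain ⟨C, hC⟩ := hh.2 k
  refine ⟨C, ?_⟩
  filter_upwards [hC] with i hi z hz
  have h1 : iteratedFDeriv ℝ k (fun z => -h i z) z = -iteratedFDeriv ℝ k (h i) z :=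
    iteratedFDeriv_neg_apply
  rw [h1, norm_neg]
  exact hi z hz

theorem BB.add (h0 : ∀ i, 0 < ε i) (hg : BB 𝓕 ε g) (hh : BB 𝓕 ε h) : BB 𝓕 ε (fun i z => g i z + h i z) := by
  refine ⟨hg.1.add hh.1, fun k => ?_⟩
  obtain ⟨C, hC⟩ := hg.2 k
  obtain ⟨C', hC'⟩ := hh.2 k
  refine ⟨C + C', ?_⟩
  filter_upwards [hC, hC'] with i hi hi' z hz
  have h1 := norm_itd_add_le isOpen_ball (hg.1 i) (hh.1 i) (bbc_sub hz) k
  have h2 : 0 ≤ ε i ^ k := pow_nonneg (h0 i).le k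
  calc ε i ^ k * ‖iteratedFDeriv ℝ k (fun z => g i z + h i z) z‖
      ≤ ε i ^ k * (‖iteratedFDeriv ℝ k (g i) z‖ + ‖iteratedFDeriv ℝ k (h i) z‖) :=
        mul_le_mul_of_nonneg_left h1 h2
    _ = ε i ^ k * ‖iteratedFDeriv ℝ k (g i) z‖ + ε i ^ k * ‖iteratedFDeriv ℝ k (h i) z‖ := by ring
    _ ≤ C + C' := add_le_add (hi z hz) (hi' z hz)

theorem BB.sub (h0 : ∀ i, 0 < ε i) (hg : BB 𝓕 ε g) (hh : BB 𝓕 ε h) : BB 𝓕 ε (fun i z => g i z - h i z) := by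
  refine (BB.add h0 hg (bb_neg hh)).congr fun i z _ => ?_
  ring

theorem BB.mul (h0 : ∀ i, 0 < ε i) (hg : BB 𝓕 ε g) (hh : BB 𝓕 ε h) : BB 𝓕 ε (fun i z => g i z * h i z) := by
  refine ⟨hg.1.mul hh.1, fun k => ?_⟩
  obtain ⟨C, hC0, hC⟩ := bb_bound_le hg k
  obtain ⟨C', hC'0, hC'⟩ := bb_bound_le hh k
  refine ⟨2 ^ k * C * ∑ j ∈ Finset.range (k + 1), C', ?_⟩
  filter_upwards [hC, hC'] with i hi hi' z hz
  refine (scaled_mul_le isOpen_ball (hg.1 i) (hh.1 i) (bbc_sub hz) k (h0 i) (hi z hz)).trans ?_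
  apply mul_le_mul_of_nonneg_left _ (by positivity)
  exact Finset.sum_le_sum fun j hj => hi' z hz j (by
    have := Finset.mem_range.1 hj
    omega)

theorem BB.const_mul (h0 : ∀ i, 0 < ε i) (hg : BB 𝓕 ε g) (c : ℂ) : BB 𝓕 ε (fun i z => c * g i z) :=
  BB.mul h0 (BB.const h0 c) hg

theorem BB.pow (h0 : ∀ i, 0 < ε i) (hg : BB 𝓕 ε g) (n : ℕ) : BB 𝓕 ε (fun i z => g i z ^ n) := by
  induction n with
  | zero => exact (BB.const h0 1).congr fun i z _ => (pow_zero _).symm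
  | succ n ih => exact (BB.mul h0 ih hg).congr fun i z _ => (pow_succ _ _).symm

theorem BB.sum (h0 : ∀ i, 0 < ε i) {κ : Type*} (s : Finset κ) {G : κ → ι → ℂ → ℂ} (hG : ∀ p ∈ s, BB 𝓕 ε (G p)) :
    BB 𝓕 ε (fun i z => ∑ p ∈ s, G p i z) := by
  classical
  induction s using Finset.induction_on with
  | empty => exact (BB.const h0 0).congr fun i z _ => by simp
  | insert a s ha ih =>
    refine (BB.add h0 (hG a (Finset.mem_insert_self a s))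
      (ih fun p hp => hG p (Finset.mem_insert_of_mem hp))).congr fun i z _ => ?_
    rw [Finset.sum_insert ha]

theorem BB.conj (hg : BB 𝓕 ε g) : BB 𝓕 ε (fun i z => conj (g i z)) := by
  refine ⟨hg.1.conj, fun k => ?_⟩
  obtain ⟨C, hC⟩ := hg.2 k
  refine ⟨C, ?_⟩
  filter_upwards [hC] with i hi z hz
  rw [norm_itd_conj isOpen_ball (hg.1 i) (bbc_sub hz) k]
  exact hi z hz

private theorem bb_scaled (h0 : ∀ i, 0 < ε i) (hg : BB 𝓕 ε g) {d : (ℂ → ℂ) → ℂ → ℂ}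
    (hd : ∀ f : ℂ → ℂ, ContDiffOn ℝ ∞ f (ball 0 3) → ContDiffOn ℝ ∞ (d f) (ball 0 3))
    (hn : ∀ f : ℂ → ℂ, ContDiffOn ℝ ∞ f (ball 0 3) → ∀ z ∈ ball (0 : ℂ) 3, ∀ k : ℕ,
      ‖iteratedFDeriv ℝ k (d f) z‖ ≤ ‖iteratedFDeriv ℝ (k + 1) f z‖) :
    BB 𝓕 ε (fun i z => (ε i : ℂ) * d (g i) z) := by
  refine ⟨fun i => contDiffOn_const.mul (hd _ (hg.1 i)), fun k => ?_⟩
  obtain ⟨C, hC⟩ := hg.2 (k + 1)
  refine ⟨C, ?_⟩
  filter_upwards [hC] with i hi z hz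
  refine le_trans ?_ (hi z hz)
  rw [bbc_scl (hd _ (hg.1 i)) (bbc_sub hz) (h0 i) k, ← mul_assoc, ← pow_succ]
  exact mul_le_mul_of_nonneg_left (hn _ (hg.1 i) z (bbc_sub hz) k) (pow_nonneg (h0 i).le _)

theorem BB.ex (h0 : ∀ i, 0 < ε i) (hg : BB 𝓕 ε g) : BB 𝓕 ε (ex ε g) :=
  bb_scaled h0 hg (d := dx) (fun _ hf => smooth_dx isOpen_ball hf)
    (fun _ hf _ hz k => norm_itd_dx_le isOpen_ball hf hz k)

theorem BB.ey (h0 : ∀ i, 0 < ε i) (hg : BB 𝓕 ε g) : BB 𝓕 ε (ey ε g) :=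
  bb_scaled h0 hg (d := dy) (fun _ hf => smooth_dy isOpen_ball hf)
    (fun _ hf _ hz k => norm_itd_dy_le isOpen_ball hf hz k)

theorem BB.ez (h0 : ∀ i, 0 < ε i) (hg : BB 𝓕 ε g) : BB 𝓕 ε (ez ε g) :=
  bb_scaled h0 hg (d := dz) (fun _ hf => smooth_dz isOpen_ball hf)
    (fun _ hf _ hz k => norm_itd_dz_le isOpen_ball hf hz k)

theorem BB.ezb (h0 : ∀ i, 0 < ε i) (hg : BB 𝓕 ε g) : BB 𝓕 ε (ezb ε g) :=
  bb_scaled h0 hg (d := dzb) (fun _ hf => smooth_dzb isOpen_ball hf)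
    (fun _ hf _ hz k => norm_itd_dzb_le isOpen_ball hf hz k)

theorem BB.bound (hg : BB 𝓕 ε g) : ∃ C : ℝ, 0 < C ∧ ∀ᶠ i in 𝓕, ∀ z ∈ ball (0 : ℂ) 2, ‖g i z‖ ≤ C := by
  obtain ⟨C, hC⟩ := hg.2 0
  refine ⟨|C| + 1, by positivity, ?_⟩
  filter_upwards [hC] with i hi z hz
  have h1 := hi z hz
  rw [norm_iteratedFDeriv_zero, pow_zero, one_mul] at h1
  linarith [le_abs_self C]

/-- Bounds of all orders `i ≤ k` at once. -/
theorem BB.bound_le (hg : BB 𝓕 ε g) (k : ℕ) : ∃ C : ℝ, 0 < C ∧ ∀ᶠ i in 𝓕, ∀ z ∈ ball (0 : ℂ) 2, ∀ j ≤ k,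
    ε i ^ j * ‖iteratedFDeriv ℝ j (g i) z‖ ≤ C := bb_bound_le hg k

theorem BB.comp (h0 : ∀ i, 0 < ε i) (hu : BB 𝓕 ε (uc u)) (hs : ∀ i, ContDiffOn ℝ ∞ (u i) (ball 0 3))
    {G : ℝ → ℝ} (hG : ContDiff ℝ ∞ G)
    (hb : ∀ k : ℕ, ∃ C : ℝ, ∀ t, ‖iteratedFDeriv ℝ k G t‖ ≤ C) : BB 𝓕 ε (fun i z => ((G (u i z) : ℝ) : ℂ)) := by
  refine ⟨fun i => smooth_comp_real hG (hs i), fun k => ?_⟩
  choose A hA using hb
  set A' : ℝ := ∑ j ∈ Finset.range (k + 1), |A j| with hA'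
  have hA2 : ∀ j ≤ k, ∀ t, ‖iteratedFDeriv ℝ j G t‖ ≤ A' := by
    intro j hj t
    have h3 : |A j| ≤ A' := Finset.single_le_sum (f := fun j => |A j|) (fun j _ => abs_nonneg _)
      (Finset.mem_range.2 (by omega))
    exact (hA j t).trans ((le_abs_self _).trans h3)
  obtain ⟨C, hC0, hC⟩ := bb_bound_le hu k
  refine ⟨k.factorial * A' * (max 1 C) ^ k, ?_⟩
  filter_upwards [hC] with i hi z hz
  refine scaled_comp_le hG k hA2 (le_max_left 1 C) (ball 0 3) (u i) z (ε i) isOpen_ball (hs i)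
    (bbc_sub hz) (h0 i) fun j _ hj => ?_
  rw [← norm_itd_ofReal isOpen_ball (hs i) (bbc_sub hz) j]
  exact (hi z hz j hj).trans (le_max_right 1 C)

theorem BB.of_bounded (h0 : ∀ i, 0 < ε i) (h1 : Tendsto ε 𝓕 (𝓝 0)) (hg : Sm g)
    (hb : ∀ k : ℕ, ∃ C : ℝ, ∀ᶠ i in 𝓕, ∀ z ∈ ball (0 : ℂ) 2, ‖iteratedFDeriv ℝ k (g i) z‖ ≤ C) :
    BB 𝓕 ε g := by
  refine ⟨hg, fun k => ?_⟩
  obtain ⟨C, hC⟩ := hb k
  refine ⟨C, ?_⟩
  filter_upwards [hC, h1.eventually_le_const (show (0 : ℝ) < 1 by norm_num)] with i hi hi1 z hz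
  refine le_trans ?_ (hi z hz)
  calc ε i ^ k * ‖iteratedFDeriv ℝ k (g i) z‖ ≤ 1 * ‖iteratedFDeriv ℝ k (g i) z‖ :=
        mul_le_mul_of_nonneg_right (pow_le_one₀ (h0 i).le hi1) (norm_nonneg _)
    _ = _ := one_mul _

/-! ### Slowly varying families -/

theorem Slow.of_bounded (h0 : ∀ i, 0 < ε i) (h1 : Tendsto ε 𝓕 (𝓝 0)) (hg : Sm g)
    (hb : ∀ k : ℕ, ∃ C : ℝ, ∀ᶠ i in 𝓕, ∀ z ∈ ball (0 : ℂ) 2, ‖iteratedFDeriv ℝ k (g i) z‖ ≤ C) :
    Slow 𝓕 ε g := by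
  refine ⟨BB.of_bounded h0 h1 hg hb, fun η hη => ?_⟩
  obtain ⟨C, hC⟩ := hb 1
  have h2 : Tendsto (fun i => √(ε i)) 𝓕 (𝓝 0) := by
    have := (Real.continuous_sqrt.tendsto 0).comp h1
    rwa [Real.sqrt_zero] at this
  have h3 : 0 < η / (|C| + 1) := by positivity
  filter_upwards [hC, h2.eventually_le_const h3] with i hi hi2 z hz
  have h4 : ‖fderiv ℝ (g i) z‖ ≤ |C| + 1 := by
    rw [← norm_itd_one]
    have := hi z hz
    linarith [le_abs_self C]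
  calc √(ε i) * ‖fderiv ℝ (g i) z‖ ≤ η / (|C| + 1) * (|C| + 1) :=
        mul_le_mul hi2 h4 (norm_nonneg _) h3.le
    _ = η := by field_simp

theorem Slow.congr (hg : Slow 𝓕 ε g) (hh : ∀ i, ∀ z ∈ ball (0 : ℂ) 3, g i z = h i z) : Slow 𝓕 ε h := by
  refine ⟨hg.1.congr hh, fun η hη => ?_⟩
  filter_upwards [hg.2 η hη] with i hi z hz
  rw [← (bbc_ev (hh i) (bbc_sub hz)).fderiv_eq]
  exact hi z hz

theorem Slow.const (h0 : ∀ i, 0 < ε i) (c : ℂ) : Slow 𝓕 ε (fun _ _ => c) := by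
  refine ⟨BB.const h0 c, fun η hη => Eventually.of_forall fun i z _ => ?_⟩
  rw [fderiv_fun_const]
  simp [hη.le]

theorem Slow.mul (h0 : ∀ i, 0 < ε i) (hg : Slow 𝓕 ε g) (hh : Slow 𝓕 ε h) :
    Slow 𝓕 ε (fun i z => g i z * h i z) := by
  refine ⟨BB.mul h0 hg.1 hh.1, fun η hη => ?_⟩
  obtain ⟨C, hC0, hC⟩ := hg.1.bound
  obtain ⟨C', hC'0, hC'⟩ := hh.1.bound
  have e1 : 0 < η / (2 * C) := by positivity
  have e2 : 0 < η / (2 * C') := by positivity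
  filter_upwards [hC, hC', hg.2 _ e2, hh.2 _ e1] with i hi hi' h1 h2 z hz
  have h3 : fderiv ℝ (fun z => g i z * h i z) z = g i z • fderiv ℝ (h i) z + h i z • fderiv ℝ (g i) z :=
    fderiv_fun_mul (hg.1.1.diffAt i (bbc_sub hz)) (hh.1.1.diffAt i (bbc_sub hz))
  have h4 : ‖fderiv ℝ (fun z => g i z * h i z) z‖ ≤
      C * ‖fderiv ℝ (h i) z‖ + C' * ‖fderiv ℝ (g i) z‖ := by
    rw [h3]
    refine (norm_add_le _ _).trans ?_
    rw [norm_smul, norm_smul]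
    exact add_le_add (mul_le_mul_of_nonneg_right (hi z hz) (norm_nonneg _))
      (mul_le_mul_of_nonneg_right (hi' z hz) (norm_nonneg _))
  have h5 := h1 z hz
  have h6 := h2 z hz
  have h7 : 0 ≤ √(ε i) := Real.sqrt_nonneg _
  calc √(ε i) * ‖fderiv ℝ (fun z => g i z * h i z) z‖
      ≤ √(ε i) * (C * ‖fderiv ℝ (h i) z‖ + C' * ‖fderiv ℝ (g i) z‖) :=
        mul_le_mul_of_nonneg_left h4 h7
    _ = C * (√(ε i) * ‖fderiv ℝ (h i) z‖) + C' * (√(ε i) * ‖fderiv ℝ (g i) z‖) := by ring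
    _ ≤ C * (η / (2 * C)) + C' * (η / (2 * C')) :=
        add_le_add (mul_le_mul_of_nonneg_left h6 hC0.le) (mul_le_mul_of_nonneg_left h5 hC'0.le)
    _ = η := by field_simp; ring

theorem Slow.add (h0 : ∀ i, 0 < ε i) (hg : Slow 𝓕 ε g) (hh : Slow 𝓕 ε h) :
    Slow 𝓕 ε (fun i z => g i z + h i z) := by
  refine ⟨BB.add h0 hg.1 hh.1, fun η hη => ?_⟩
  filter_upwards [hg.2 (η / 2) (by positivity), hh.2 (η / 2) (by positivity)] with i h1 h2 z hz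
  have h3 : fderiv ℝ (fun z => g i z + h i z) z = fderiv ℝ (g i) z + fderiv ℝ (h i) z :=
    fderiv_fun_add (hg.1.1.diffAt i (bbc_sub hz)) (hh.1.1.diffAt i (bbc_sub hz))
  have h5 := h1 z hz
  have h6 := h2 z hz
  rw [h3]
  have h7 := mul_le_mul_of_nonneg_left (norm_add_le (fderiv ℝ (g i) z) (fderiv ℝ (h i) z))
    (Real.sqrt_nonneg (ε i))
  rw [mul_add] at h7
  linarith

theorem Slow.pow (h0 : ∀ i, 0 < ε i) (hg : Slow 𝓕 ε g) (n : ℕ) : Slow 𝓕 ε (fun i z => g i z ^ n) := by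
  induction n with
  | zero => exact (Slow.const h0 1).congr fun i z _ => (pow_zero _).symm
  | succ n ih => exact (Slow.mul h0 ih hg).congr fun i z _ => (pow_succ _ _).symm

end Pool.Agent.Helper74.CE
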