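import Pool.Agent.Helper74.CE.NegC

/-!
# CL-E13: first consequences of `Ctx`

* `Ctx.bb_S`, `Ctx.bb_c`, `Ctx.bb_W`, ...: `BB.comp` with `G = sin (· / 2)`, `cos (· / 2)`, `sin`, `cos` (derivatives of all
  orders bounded: e.g. `iteratedFDeriv` and `iteratedDeriv`, `norm_iteratedFDeriv_eq_norm_iteratedDeriv`, and induction:
  the derivative of `x ↦ A sin (b x) + B cos (b x)` is again of this form, with bounded coefficients).
* `Ctx.ll_P`: `P = ez (uc u) = (ex (uc u) - I ey (uc u)) / 2`, `LL.sub`, `LL.const_mul`.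
* `Ctx.slow_a`: `Slow.of_bounded`, `norm_itd_ofReal`; `Ctx.slow_al`: with `norm_itd_dz_le`.
* `ez_S`, `ez_c`, `ez_pc`: `dz_comp_real` (`S' = cos (u/2) / 2`, `c' = - sin (u/2) / 2`, and for `p (cos (u/2))`:
  `- p' (c) S / 2`).
* `P_disc`: `‖P‖² = ε² ‖gr u‖² / 4` (`norm_dz_real`) and `a S² = a (1 - cos u) / 2`, so `‖P‖² - a S² = (ε / 2) disc`.
* `Ctx.neg_disc`: from `P_disc` and the field `disc0`; continuity of `z ↦ ‖P‖² - a S²`.
* `Wf_eq`: `1 - cos u = 2 sin² (u/2)`.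
-/

namespace Pool.Agent.Helper74.CE

open MeasureTheory Filter Topology Metric Pool.Agent.Helper53.CL
open scoped ContDiff Real ComplexConjugate

variable {ι : Type*} {𝓕 : Filter ι} {ε : ι → ℝ} {a u : ι → ℂ → ℝ} {mm : ι → ℂ → ℂ}

private theorem trig_smooth (A B b : ℝ) :
    ContDiff ℝ ∞ (fun t : ℝ => A * Real.sin (b * t) + B * Real.cos (b * t)) := by
  have h1 : ContDiff ℝ ∞ (fun t : ℝ => b * t) := contDiff_const.mul contDiff_id
  exact (contDiff_const.mul (Real.contDiff_sin.comp h1)).add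
    (contDiff_const.mul (Real.contDiff_cos.comp h1))

private theorem trig_bound (b : ℝ) (k : ℕ) : ∀ A B : ℝ, ∃ C : ℝ, ∀ t : ℝ,
    ‖iteratedFDeriv ℝ k (fun t : ℝ => A * Real.sin (b * t) + B * Real.cos (b * t)) t‖ ≤ C := by
  induction k with
  | zero =>
    intro A B
    refine ⟨|A| + |B|, fun t => ?_⟩
    rw [norm_iteratedFDeriv_zero]
    refine (norm_add_le _ _).trans (add_le_add ?_ ?_)
    · rw [norm_mul, Real.norm_eq_abs, Real.norm_eq_abs]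
      exact mul_le_of_le_one_right (abs_nonneg _) (Real.abs_sin_le_one _)
    · rw [norm_mul, Real.norm_eq_abs, Real.norm_eq_abs]
      exact mul_le_of_le_one_right (abs_nonneg _) (Real.abs_cos_le_one _)
  | succ k ih =>
    intro A B
    obtain ⟨C, hC⟩ := ih (-(B * b)) (A * b)
    refine ⟨C, fun t => ?_⟩
    have h1 := hC t
    rw [norm_iteratedFDeriv_eq_norm_iteratedDeriv] at h1 ⊢
    rw [iteratedDeriv_succ']
    have h2 : deriv (fun t : ℝ => A * Real.sin (b * t) + B * Real.cos (b * t)) =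
        fun t : ℝ => -(B * b) * Real.sin (b * t) + A * b * Real.cos (b * t) := by
      funext s
      have h3 : HasDerivAt (fun t : ℝ => b * t) b s := by
        simpa using (hasDerivAt_id s).const_mul b
      have h4 := (h3.sin.const_mul A).add (h3.cos.const_mul B)
      have h5 : deriv (fun t : ℝ => A * Real.sin (b * t) + B * Real.cos (b * t)) s =
          A * (Real.cos (b * s) * b) + B * (-Real.sin (b * s) * b) := h4.deriv
      rw [h5]
      ring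
    rw [h2]
    exact h1

private theorem bb_trig (H : Ctx 𝓕 ε a u) (A B b : ℝ) :
    BB 𝓕 ε (fun i z => ((A * Real.sin (b * u i z) + B * Real.cos (b * u i z) : ℝ) : ℂ)) :=
  BB.comp (G := fun t : ℝ => A * Real.sin (b * t) + B * Real.cos (b * t)) H.eps_pos H.u_bb
    (fun i => (H.sol i).smooth) (trig_smooth A B b) fun k => trig_bound b k A B

theorem Ctx.hu (H : Ctx 𝓕 ε a u) : ∀ i, ContinuousOn (u i) (ball 0 3) := fun i =>
  (H.sol i).smooth.continuousOn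

theorem Ctx.sm_u (H : Ctx 𝓕 ε a u) : Sm (uc u) := fun i => smooth_ofReal (H.sol i).smooth

theorem Ctx.bb_S (H : Ctx 𝓕 ε a u) : BB 𝓕 ε (Sf u) := by
  refine (bb_trig H 1 0 (1 / 2)).congr fun i z _ => ?_
  unfold Sf
  rw [show 1 / 2 * u i z = u i z / 2 by ring, zero_mul, add_zero, one_mul]

theorem Ctx.bb_c (H : Ctx 𝓕 ε a u) : BB 𝓕 ε (cf u) := by
  refine (bb_trig H 0 1 (1 / 2)).congr fun i z _ => ?_
  unfold cf
  rw [show 1 / 2 * u i z = u i z / 2 by ring, zero_mul, zero_add, one_mul]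

theorem Ctx.bb_sin (H : Ctx 𝓕 ε a u) : BB 𝓕 ε (fun i z => ((Real.sin (u i z) : ℝ) : ℂ)) := by
  refine (bb_trig H 1 0 1).congr fun i z _ => ?_
  rw [one_mul, zero_mul, add_zero, one_mul]

theorem Ctx.bb_cos (H : Ctx 𝓕 ε a u) : BB 𝓕 ε (fun i z => ((Real.cos (u i z) : ℝ) : ℂ)) := by
  refine (bb_trig H 0 1 1).congr fun i z _ => ?_
  rw [one_mul, zero_mul, zero_add, one_mul]

theorem Ctx.bb_P (H : Ctx 𝓕 ε a u) : BB 𝓕 ε (Pf ε u) := BB.ez H.eps_pos H.u_bb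

theorem Ctx.ll_P (H : Ctx 𝓕 ε a u) : LL 𝓕 ε u (Pf ε u) := by
  have h1 := LL.const_mul H.eps_pos H.hu H.uy_ll Complex.I
  have h2 := LL.sub H.eps_pos H.hu H.ux_ll h1
  have h3 := LL.const_mul H.eps_pos H.hu h2 (1 / 2)
  refine h3.congr fun i z _ => ?_
  show _ = ez ε (uc u) i z
  rw [ez_eq]
  ring

theorem Ctx.bb_pc (H : Ctx 𝓕 ε a u) (p : Polynomial ℝ) : BB 𝓕 ε (pc p u) := by
  induction p using Polynomial.induction_on' with
  | add p q hp hq =>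
    refine (BB.add H.eps_pos hp hq).congr fun i z _ => ?_
    unfold pc
    rw [Polynomial.eval_add]
    push_cast
    ring
  | monomial n r =>
    refine (BB.const_mul H.eps_pos (BB.pow H.eps_pos H.bb_c n) (r : ℂ)).congr fun i z _ => ?_
    unfold pc cf
    rw [Polynomial.eval_monomial]
    push_cast
    ring

theorem Ctx.slow_a (H : Ctx 𝓕 ε a u) : Slow 𝓕 ε (fun i z => (a i z : ℂ)) := by
  refine Slow.of_bounded H.eps_pos H.eps_lim (fun i => smooth_ofReal (H.a_smooth i)) fun k => ?_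
  obtain ⟨C, hC⟩ := H.a_bd k
  refine ⟨C, ?_⟩
  filter_upwards [hC] with i hi z hz
  rw [norm_itd_ofReal isOpen_ball (H.a_smooth i) (ball_subset_ball (by norm_num) hz)]
  exact hi z hz

theorem Ctx.slow_al (H : Ctx 𝓕 ε a u) : Slow 𝓕 ε (al a) := by
  refine Slow.of_bounded H.eps_pos H.eps_lim
    (fun i => smooth_dz isOpen_ball (smooth_ofReal (H.a_smooth i))) fun k => ?_
  obtain ⟨C, hC⟩ := H.a_bd (k + 1)
  refine ⟨C, ?_⟩
  filter_upwards [hC] with i hi z hz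
  have hz3 : z ∈ ball (0 : ℂ) 3 := ball_subset_ball (by norm_num) hz
  refine (norm_itd_dz_le isOpen_ball (smooth_ofReal (H.a_smooth i)) hz3 k).trans ?_
  rw [norm_itd_ofReal isOpen_ball (H.a_smooth i) hz3]
  exact hi z hz

theorem Ctm.slow_Lam (H : Ctm 𝓕 ε a u mm) : Slow 𝓕 ε (Lam a mm) := by
  have h1 := Slow.mul H.eps_pos (Slow.const (𝓕 := 𝓕) H.eps_pos (1 / 4))
    (Slow.mul H.eps_pos H.slow H.toCtx.slow_a)
  refine h1.congr fun i z _ => ?_
  unfold Lam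
  ring

private theorem hu_diff (H : Ctx 𝓕 ε a u) (i : ι) {z : ℂ} (hz : z ∈ ball (0 : ℂ) 3) :
    DifferentiableAt ℝ (u i) z := diffAt_of_smooth isOpen_ball (H.sol i).smooth hz

theorem ez_S (H : Ctx 𝓕 ε a u) (i : ι) {z : ℂ} (hz : z ∈ ball (0 : ℂ) 3) :
    ez ε (Sf u) i z = cf u i z / 2 * Pf ε u i z := by
  have h1 : HasDerivAt (fun t : ℝ => Real.sin (t / 2)) (Real.cos (u i z / 2) * (1 / 2)) (u i z) :=
    ((hasDerivAt_id (u i z)).div_const 2).sin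
  have h2 := dz_comp_real h1 (hu_diff H i hz)
  show (ε i : ℂ) * dz (fun w => ((Real.sin (u i w / 2) : ℝ) : ℂ)) z =
    (Real.cos (u i z / 2) : ℂ) / 2 * ((ε i : ℂ) * dz (fun w => (u i w : ℂ)) z)
  rw [h2]
  push_cast
  ring

theorem ez_c (H : Ctx 𝓕 ε a u) (i : ι) {z : ℂ} (hz : z ∈ ball (0 : ℂ) 3) :
    ez ε (cf u) i z = -(Sf u i z / 2 * Pf ε u i z) := by
  have h1 : HasDerivAt (fun t : ℝ => Real.cos (t / 2)) (-Real.sin (u i z / 2) * (1 / 2)) (u i z) :=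
    ((hasDerivAt_id (u i z)).div_const 2).cos
  have h2 := dz_comp_real h1 (hu_diff H i hz)
  show (ε i : ℂ) * dz (fun w => ((Real.cos (u i w / 2) : ℝ) : ℂ)) z =
    -((Real.sin (u i z / 2) : ℂ) / 2 * ((ε i : ℂ) * dz (fun w => (u i w : ℂ)) z))
  rw [h2]
  push_cast
  ring

theorem ez_pc (H : Ctx 𝓕 ε a u) (p : Polynomial ℝ) (i : ι) {z : ℂ} (hz : z ∈ ball (0 : ℂ) 3) :
    ez ε (pc p u) i z = -(pc p.derivative u i z * (Sf u i z / 2 * Pf ε u i z)) := by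
  have h1 : HasDerivAt (fun t : ℝ => Real.cos (t / 2)) (-Real.sin (u i z / 2) * (1 / 2)) (u i z) :=
    ((hasDerivAt_id (u i z)).div_const 2).cos
  have h3 : HasDerivAt (fun t : ℝ => p.eval (Real.cos (t / 2)))
      (p.derivative.eval (Real.cos (u i z / 2)) * (-Real.sin (u i z / 2) * (1 / 2))) (u i z) :=
    HasDerivAt.comp (h₂ := fun x => p.eval x) (h := fun t : ℝ => Real.cos (t / 2)) (u i z)
      (p.hasDerivAt (Real.cos (u i z / 2))) h1
  have h2 := dz_comp_real h3 (hu_diff H i hz)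
  show (ε i : ℂ) * dz (fun w => ((p.eval (Real.cos (u i w / 2)) : ℝ) : ℂ)) z =
    -(((p.derivative.eval (Real.cos (u i z / 2)) : ℝ) : ℂ) *
      ((Real.sin (u i z / 2) : ℂ) / 2 * ((ε i : ℂ) * dz (fun w => (u i w : ℂ)) z)))
  rw [h2]
  push_cast
  ring

theorem Sf_sq (i : ι) (z : ℂ) : Sf u i z ^ 2 = 1 - cf u i z ^ 2 := by
  unfold Sf cf
  rw [← Complex.ofReal_pow, ← Complex.ofReal_pow, Real.sin_sq]
  push_cast
  ring

theorem Wf_eq (i : ι) (z : ℂ) : Wf u i z = 2 * Sf u i z ^ 2 := by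
  unfold Wf Sf
  rw [← Complex.ofReal_pow, Real.sin_sq_eq_half_sub, show 2 * (u i z / 2) = u i z by ring]
  push_cast
  ring

theorem sin_eq (i : ι) (z : ℂ) : ((Real.sin (u i z) : ℝ) : ℂ) = 2 * Sf u i z * cf u i z := by
  unfold Sf cf
  have h : Real.sin (u i z) = 2 * Real.sin (u i z / 2) * Real.cos (u i z / 2) := by
    rw [← Real.sin_two_mul]
    congr 1
    ring
  rw [h]
  push_cast
  ring

theorem cos_eq (i : ι) (z : ℂ) : ((Real.cos (u i z) : ℝ) : ℂ) = 2 * cf u i z ^ 2 - 1 := by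
  unfold cf
  have h : Real.cos (u i z) = 2 * Real.cos (u i z / 2) ^ 2 - 1 := by
    rw [← Real.cos_two_mul]
    congr 1
    ring
  rw [h]
  push_cast
  ring

theorem norm_Sf_le (i : ι) (z : ℂ) : ‖Sf u i z‖ ≤ 1 := by
  unfold Sf
  rw [Complex.norm_real, Real.norm_eq_abs]
  exact Real.abs_sin_le_one _

theorem norm_Sf_sq (i : ι) (z : ℂ) : ‖Sf u i z‖ ^ 2 = (1 - Real.cos (u i z)) / 2 := by
  unfold Sf
  rw [Complex.norm_real, Real.norm_eq_abs, sq_abs, Real.sin_sq_eq_half_sub,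
    show 2 * (u i z / 2) = u i z by ring]
  ring

theorem P_disc (H : Ctx 𝓕 ε a u) (i : ι) {z : ℂ} (hz : z ∈ ball (0 : ℂ) 3) :
    ‖Pf ε u i z‖ ^ 2 - a i z * ‖Sf u i z‖ ^ 2 = ε i / 2 * disc (ε i) (a i) (u i) z := by
  have h1 : ‖Pf ε u i z‖ ^ 2 = ε i ^ 2 * (‖gr (u i) z‖ ^ 2 / 4) := by
    show ‖(ε i : ℂ) * dz (fun w => (u i w : ℂ)) z‖ ^ 2 = _
    rw [norm_mul, mul_pow, norm_dz_real (hu_diff H i hz), Complex.norm_real, Real.norm_eq_abs, sq_abs]
  rw [h1, norm_Sf_sq]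
  unfold disc
  have h2 := H.eps_pos i
  field_simp
  ring

theorem Ctx.neg_disc (H : Ctx 𝓕 ε a u) :
    Neg 𝓕 ε (fun i z => ((‖Pf ε u i z‖ ^ 2 - a i z * ‖Sf u i z‖ ^ 2 : ℝ) : ℂ)) := by
  refine ⟨fun i => ?_, fun r hr => ?_⟩
  · have h1 := (H.bb_P.1.continuousOn i).norm.pow 2
    have h2 := (H.a_smooth i).continuousOn.mul ((H.bb_S.1.continuousOn i).norm.pow 2)
    exact Complex.continuous_ofReal.comp_continuousOn (h1.sub h2)
  · have h1 := (H.disc0 r hr).const_mul (1 / 2)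
    rw [mul_zero] at h1
    refine h1.congr fun i => ?_
    have h2 : ∫ z in ball (0 : ℂ) r, ‖((‖Pf ε u i z‖ ^ 2 - a i z * ‖Sf u i z‖ ^ 2 : ℝ) : ℂ)‖ =
        ∫ z in ball (0 : ℂ) r, ε i / 2 * |disc (ε i) (a i) (u i) z| := by
      apply setIntegral_congr_fun measurableSet_ball
      intro z hz
      have hz3 : z ∈ ball (0 : ℂ) 3 := ball_subset_ball (by linarith) hz
      show ‖((‖Pf ε u i z‖ ^ 2 - a i z * ‖Sf u i z‖ ^ 2 : ℝ) : ℂ)‖ = _
      rw [P_disc H i hz3, Complex.norm_real, Real.norm_eq_abs, abs_mul,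
        abs_of_pos (half_pos (H.eps_pos i))]
    rw [h2, integral_const_mul]
    have h3 := H.eps_pos i
    field_simp

theorem Ctx.ev_le_one (H : Ctx 𝓕 ε a u) : ∀ᶠ i in 𝓕, ε i ≤ 1 := by
  filter_upwards [H.eps_lim.eventually_lt_const (zero_lt_one)] with i hi
  exact hi.le

private theorem BB_comap {κ : Type*} {𝓖 : Filter κ} {g : ι → ℂ → ℂ} (hg : BB 𝓕 ε g) {φ : κ → ι}
    (hφ : Tendsto φ 𝓖 𝓕) : BB 𝓖 (fun i => ε (φ i)) (fun i => g (φ i)) := by
  refine ⟨fun i => hg.1 (φ i), fun k => ?_⟩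
  obtain ⟨C, hC⟩ := hg.2 k
  exact ⟨C, hφ.eventually hC⟩

private theorem LL_comap {κ : Type*} {𝓖 : Filter κ} {g : ι → ℂ → ℂ} (hg : LL 𝓕 ε u g) {φ : κ → ι}
    (hφ : Tendsto φ 𝓖 𝓕) : LL 𝓖 (fun i => ε (φ i)) (fun i => u (φ i)) (fun i => g (φ i)) := by
  refine ⟨BB_comap hg.1 hφ, fun k r hr => ?_⟩
  obtain ⟨⟨C, hC⟩, h2⟩ := hg.2 k r hr
  refine ⟨⟨C, hφ.eventually hC⟩, fun η hη => ?_⟩
  obtain ⟨δ, hδ, h3⟩ := h2 η hη
  exact ⟨δ, hδ, hφ.eventually h3⟩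

/-- Restriction to another index family. -/
theorem Ctx.comap {κ : Type*} {𝓖 : Filter κ} (H : Ctx 𝓕 ε a u) {φ : κ → ι} (hφ : Tendsto φ 𝓖 𝓕) :
    Ctx 𝓖 (fun i => ε (φ i)) (fun i => a (φ i)) (fun i => u (φ i)) where
  eps_pos i := H.eps_pos (φ i)
  eps_lim := H.eps_lim.comp hφ
  a_smooth i := H.a_smooth (φ i)
  a_pos i := H.a_pos (φ i)
  sol i := H.sol (φ i)
  a_bd k := by
    obtain ⟨C, hC⟩ := H.a_bd k
    exact ⟨C, hφ.eventually hC⟩
  a_low := by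
    obtain ⟨c, hc, hC⟩ := H.a_low
    exact ⟨c, hc, hφ.eventually hC⟩
  u_bb := BB_comap H.u_bb hφ
  ux_ll := LL_comap H.ux_ll hφ
  uy_ll := LL_comap H.uy_ll hφ
  s_ll := LL_comap H.s_ll hφ
  disc0 r hr := (H.disc0 r hr).comp hφ

end Pool.Agent.Helper74.CE
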