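import Pool.Agent.Helper74.CE.NegC
import Pool.Agent.Helper74.CE.CtxB

/-!
# CL-E21: `P^2 ≡ m a S^2`, along the iterated limit

Notation: `A_j = 4 ε_j (∂ u_j)² = 4 P² / ε`, `V_j = ε_j ‖gr u_j‖²`; `‖A_j‖ = V_j` (`norm_dz_real`) and
`V_j = ed + disc`. So for `f : ℂ → ℝ` continuous with compact support in `ball 0 2`, by `EConv` and `hd`
(`|∫ f disc| ≤ sup |f| ∫_{ball 0 r} |disc| → 0`, the support of `f` being in `ball 0 r`, `r < 2`), `∫ f V_j → ∫ f dμ`, and by
`MConv` `∫ f A_j → ∫ f m dμ`; the same holds for complex valued continuous `f` (real and imaginary parts).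

Let `r < 2` and `χ : ℂ → ℝ` continuous with compact support in `ball 0 2`, `0 ≤ χ`, `χ = 1` on `ball 0 r`. For `M = M k`:
```
‖A - M V‖² = V (V (1 + ‖M‖²) - 2 Re (A conj M))                      (as ‖A‖ = V)
∫ χ ‖A - M V‖ ≤ (∫ χ V)^{1/2} (∫ χ (V (1 + ‖M‖²) - 2 Re (A conj M)))^{1/2}    (Cauchy–Schwarz; or 2xy ≤ θx² + y²/θ)
```
The second factor tends, as `j → ∞`, to `∫ χ (1 + ‖M_k‖² - 2 Re (m conj M_k)) dμ = ∫ χ ‖m - M_k‖² dμ` (`‖m‖ = 1`), which tends
to `0` as `k → ∞` (`hM3`). So `∫_{ball 0 r} ‖A_j - M_k V_j‖ → 0` along `atTop.curry atTop` (for all `η > 0`, for all large `k`,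
for all large `j`, it is `≤ η`; `Filter.eventually_curry_iff`, `Metric.tendsto_nhds`).
Finally `P² - M a S² = (ε / 4) (A - M V) + M (ε V / 4 - a S²)`, and `ε V / 4 = ‖P‖²`, `‖P‖² - a S² = (ε / 2) disc` (`P_disc`-type
computation, to be done directly here from `LSol`: `ε V_j / 4 - a (1 - cos u) / 2 = (ε / 2) disc`), so
`ε^{-1} ∫_{ball 0 r} ‖P² - M a S²‖ ≤ ¼ ∫_{ball 0 r} ‖A - M V‖ + 2 · ½ ∫_{ball 0 r} |disc| → 0`.
-/

namespace Pool.Agent.Helper74.CE

open MeasureTheory Filter Topology Metric Pool.Agent.Helper53.CL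
open scoped ContDiff Real

variable {a : ℂ → ℝ} {aj : ℕ → ℂ → ℝ} {ε : ℕ → ℝ} {u : ℕ → ℂ → ℝ} {μ : Measure ℂ} {m : ℂ → ℂ}

section aux

private theorem cont_dx (H : LocSeq a aj ε u) (j : ℕ) : ContinuousOn (dx (u j)) (ball 0 3) :=
  (smooth_dx isOpen_ball (H.sol j).smooth).continuousOn

private theorem cont_dy (H : LocSeq a aj ε u) (j : ℕ) : ContinuousOn (dy (u j)) (ball 0 3) :=
  (smooth_dy isOpen_ball (H.sol j).smooth).continuousOn

private theorem cont_V (H : LocSeq a aj ε u) (j : ℕ) :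
    ContinuousOn (fun z => ε j * ‖gr (u j) z‖ ^ 2) (ball 0 3) := by
  simp only [norm_gr_sq]
  have h1 := cont_dx H j
  have h2 := cont_dy H j
  fun_prop

private theorem cont_pot (H : LocSeq a aj ε u) (j : ℕ) :
    ContinuousOn (fun z => 1 / ε j * (aj j z * (1 - Real.cos (u j z)))) (ball 0 3) := by
  have h1 := (H.aj_smooth j).continuousOn
  have h2 := (H.sol j).smooth.continuousOn
  have h3 : ContinuousOn (fun z => Real.cos (u j z)) (ball 0 3) :=
    Real.continuous_cos.comp_continuousOn h2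
  fun_prop

private theorem cont_disc (H : LocSeq a aj ε u) (j : ℕ) :
    ContinuousOn (disc (ε j) (aj j) (u j)) (ball 0 3) := by
  have h1 := cont_V H j
  have h2 := cont_pot H j
  have h3 : disc (ε j) (aj j) (u j) = fun z => (1 / 2 : ℝ) * (ε j * ‖gr (u j) z‖ ^ 2) -
      1 / ε j * (aj j z * (1 - Real.cos (u j z))) := by
    funext z
    unfold disc
    ring
  rw [h3]
  exact (continuousOn_const.mul h1).sub h2

private theorem cont_ed (H : LocSeq a aj ε u) (j : ℕ) :
    ContinuousOn (ed (ε j) (aj j) (u j)) (ball 0 3) := by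
  have h1 := cont_V H j
  have h2 := cont_pot H j
  have h3 : ed (ε j) (aj j) (u j) = fun z => (1 / 2 : ℝ) * (ε j * ‖gr (u j) z‖ ^ 2) +
      1 / ε j * (aj j z * (1 - Real.cos (u j z))) := by
    funext z
    unfold ed
    ring
  rw [h3]
  exact (continuousOn_const.mul h1).add h2

private theorem cont_dz (H : LocSeq a aj ε u) (j : ℕ) :
    ContinuousOn (dz (fun z => (u j z : ℂ))) (ball 0 3) :=
  (smooth_dz isOpen_ball (smooth_ofReal (H.sol j).smooth)).continuousOn

private theorem V_eq (j : ℕ) (z : ℂ) :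
    ε j * ‖gr (u j) z‖ ^ 2 = ed (ε j) (aj j) (u j) z + disc (ε j) (aj j) (u j) z := by
  unfold ed disc
  ring

private theorem cont_smul {F : Type*} [NormedAddCommGroup F] [NormedSpace ℝ F] {f : ℂ → ℝ} {g : ℂ → F}
    (hf : Continuous f) (hs : tsupport f ⊆ ball 0 2) (hg : ContinuousOn g (ball 0 3)) :
    Continuous (fun z => f z • g z) := by
  have hsub : tsupport (fun z => f z • g z) ⊆ tsupport f := tsupport_smul_subset_left f g
  exact ContinuousOn.continuous_of_tsupport_subset (hf.continuousOn.smul hg) isOpen_ball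
    (hsub.trans (hs.trans (ball_subset_ball (by norm_num))))

private theorem int_smul {F : Type*} [NormedAddCommGroup F] [NormedSpace ℝ F] {f : ℂ → ℝ} {g : ℂ → F}
    (hf : Continuous f) (hc : HasCompactSupport f) (hs : tsupport f ⊆ ball 0 2)
    (hg : ContinuousOn g (ball 0 3)) : Integrable (fun z => f z • g z) :=
  (cont_smul hf hs hg).integrable_of_hasCompactSupport (hc.smul_right)

end aux

/-- The measures `ε ‖gr u‖² dz` converge to `μ`. -/
theorem vconv (H : LocSeq a aj ε u) [IsFiniteMeasure μ] (hE : EConv aj ε u μ)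
    (hd : ∀ r < 2, Tendsto (fun j => ∫ z in ball (0 : ℂ) r, |disc (ε j) (aj j) (u j) z|) atTop (𝓝 0))
    {f : ℂ → ℝ} (hf : Continuous f) (hc : HasCompactSupport f) (hs : tsupport f ⊆ ball 0 2) :
    Tendsto (fun j => ∫ z, f z * (ε j * ‖gr (u j) z‖ ^ 2)) atTop (𝓝 (∫ z, f z ∂μ)) := by
  obtain ⟨r, hr, hsr⟩ := exists_lt_subset_ball (isClosed_tsupport f) hs
  obtain ⟨K, hK⟩ := hc.exists_bound_of_continuous hf
  have hint1 : ∀ j, Integrable (fun z => f z * ed (ε j) (aj j) (u j) z) := fun j =>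
    int_smul hf hc hs (cont_ed H j)
  have hint2 : ∀ j, Integrable (fun z => f z * disc (ε j) (aj j) (u j) z) := fun j =>
    int_smul hf hc hs (cont_disc H j)
  have h1 : ∀ j, ∫ z, f z * (ε j * ‖gr (u j) z‖ ^ 2) =
      (∫ z, f z * ed (ε j) (aj j) (u j) z) + ∫ z, f z * disc (ε j) (aj j) (u j) z := by
    intro j
    rw [← integral_add (hint1 j) (hint2 j)]
    congr 1
    funext z
    rw [V_eq (aj := aj)]
    ring
  have hsub : ball (0 : ℂ) r ⊆ ball 0 3 := ball_subset_ball (by linarith)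
  have hsub2 : closedBall (0 : ℂ) r ⊆ ball 0 3 := closedBall_subset_ball (by linarith)
  have hdi : ∀ j, IntegrableOn (fun z => |disc (ε j) (aj j) (u j) z|) (ball 0 r) := fun j =>
    (((cont_disc H j).abs.mono hsub2).integrableOn_compact (isCompact_closedBall 0 r)).mono_set
      ball_subset_closedBall
  have h2 : Tendsto (fun j => ∫ z, f z * disc (ε j) (aj j) (u j) z) atTop (𝓝 0) := by
    have h3 : ∀ j, ‖∫ z, f z * disc (ε j) (aj j) (u j) z‖ ≤
        K * ∫ z in ball (0 : ℂ) r, |disc (ε j) (aj j) (u j) z| := by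
      intro j
      rw [← setIntegral_eq_integral_of_forall_compl_eq_zero (s := ball (0 : ℂ) r)
        (fun z hz => by
          have : f z = 0 := image_eq_zero_of_notMem_tsupport (fun h => hz (hsr h))
          simp [this]), ← integral_const_mul]
      apply norm_integral_le_of_norm_le ((hdi j).const_mul K)
      refine Eventually.of_forall (fun z => ?_)
      rw [norm_mul, Real.norm_eq_abs (disc _ _ _ _)]
      exact mul_le_mul_of_nonneg_right (hK z) (abs_nonneg _)
    have h4 := (hd r hr).const_mul K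
    rw [mul_zero] at h4
    exact squeeze_zero_norm h3 h4
  have h5 := (hE f hf hc hs).add h2
  rw [add_zero] at h5
  refine h5.congr (fun j => (h1 j).symm)

section aux2

private theorem exists_cutoff {r : ℝ} (hr : r < 2) : ∃ χ : ℂ → ℝ, Continuous χ ∧ HasCompactSupport χ ∧
    tsupport χ ⊆ ball 0 2 ∧ (∀ z, 0 ≤ χ z) ∧ (∀ z, χ z ≤ 1) ∧ ∀ z ∈ ball (0 : ℂ) r, χ z = 1 := by
  have hpos : 0 < (2 - r) / 2 := by linarith
  have hs : tsupport (fun z : ℂ => max 0 (min 1 (((r + 2) / 2 - ‖z‖) / ((2 - r) / 2)))) ⊆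
      closedBall 0 ((r + 2) / 2) := by
    apply closure_minimal _ isClosed_closedBall
    intro z hz
    by_contra h
    apply hz
    rw [mem_closedBall, dist_zero_right, not_le] at h
    have : ((r + 2) / 2 - ‖z‖) / ((2 - r) / 2) ≤ 0 := by
      apply div_nonpos_of_nonpos_of_nonneg <;> linarith
    simp only
    rw [max_eq_left]
    exact (min_le_right _ _).trans this
  refine ⟨fun z => max 0 (min 1 (((r + 2) / 2 - ‖z‖) / ((2 - r) / 2))), ?_, ?_, ?_, ?_, ?_, ?_⟩
  · fun_prop
  · exact (isCompact_closedBall (0 : ℂ) ((r + 2) / 2)).of_isClosed_subset (isClosed_tsupport _) hs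
  · exact hs.trans (closedBall_subset_ball (by linarith))
  · intro z; exact le_max_left _ _
  · intro z; exact max_le (by norm_num) (min_le_left _ _)
  · intro z hz
    rw [mem_ball, dist_zero_right] at hz
    have : 1 ≤ ((r + 2) / 2 - ‖z‖) / ((2 - r) / 2) := by
      rw [le_div_iff₀ hpos]
      linarith
    simp only
    rw [min_eq_left this]
    norm_num

private theorem norm_A (H : LocSeq a aj ε u) (j : ℕ) {z : ℂ} (hz : z ∈ ball (0 : ℂ) 3) :
    ‖4 * (ε j : ℂ) * dz (fun z => (u j z : ℂ)) z ^ 2‖ = ε j * ‖gr (u j) z‖ ^ 2 := by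
  rw [norm_mul, norm_mul, norm_pow,
    norm_dz_real (diffAt_of_smooth isOpen_ball (H.sol j).smooth hz), Complex.norm_real,
    Real.norm_of_nonneg (H.eps_pos j).le]
  norm_num
  ring

private theorem key_ineq {A M : ℂ} {V θ : ℝ} (hV : ‖A‖ = V) (hθ : 0 < θ) :
    ‖A - M * V‖ ≤ θ / 2 * V + 1 / (2 * θ) * (V * (1 + ‖M‖ ^ 2) - 2 * (A.re * M.re + A.im * M.im)) := by
  have hV0 : 0 ≤ V := hV ▸ norm_nonneg _
  have hA : A.re ^ 2 + A.im ^ 2 = V ^ 2 := by
    rw [← hV, ← Complex.normSq_eq_norm_sq, Complex.normSq_apply]; ring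
  have hM : ‖M‖ ^ 2 = M.re ^ 2 + M.im ^ 2 := by
    rw [← Complex.normSq_eq_norm_sq, Complex.normSq_apply]; ring
  have hN : ‖A - M * V‖ ^ 2 =
      V * (V * (1 + ‖M‖ ^ 2) - 2 * (A.re * M.re + A.im * M.im)) := by
    rw [hM, ← Complex.normSq_eq_norm_sq, Complex.normSq_apply]
    simp only [Complex.sub_re, Complex.sub_im, Complex.mul_re, Complex.mul_im, Complex.ofReal_re,
      Complex.ofReal_im]
    linear_combination hA
  set W : ℝ := V * (1 + ‖M‖ ^ 2) - 2 * (A.re * M.re + A.im * M.im) with hW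
  have hW0 : 0 ≤ W := by
    rcases hV0.eq_or_lt with h | h
    · have h1 : A = 0 := by rw [← norm_eq_zero, hV, ← h]
      rw [hW, ← h, h1]
      simp
    · by_contra hneg
      have : V * W < 0 := mul_neg_of_pos_of_neg h (not_le.1 hneg)
      rw [← hN] at this
      exact absurd this (not_lt.2 (by positivity))
  have h2 : 0 ≤ θ / 2 * V + 1 / (2 * θ) * W := by positivity
  apply le_of_sq_le_sq _ h2
  rw [hN]
  have h3 : (θ / 2 * V + 1 / (2 * θ) * W) ^ 2 - V * W = (θ / 2 * V - 1 / (2 * θ) * W) ^ 2 := by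
    field_simp
    ring
  nlinarith [sq_nonneg (θ / 2 * V - 1 / (2 * θ) * W)]

end aux2

theorem base (H : LocSeq a aj ε u) [IsFiniteMeasure μ] (hE : EConv aj ε u μ) (hM : MConv ε u μ m)
    (hm : Measurable m) (h1 : ∀ z, ‖m z‖ = 1)
    (hd : ∀ r < 2, Tendsto (fun j => ∫ z in ball (0 : ℂ) r, |disc (ε j) (aj j) (u j) z|) atTop (𝓝 0))
    {M : ℕ → ℂ → ℂ} (hM1 : ∀ k, ContDiff ℝ ∞ (M k)) (hM2 : ∀ k z, ‖M k z‖ ≤ 2)
    (hM3 : Tendsto (fun k => ∫ z, ‖M k z - m z‖ ^ 2 ∂μ) atTop (𝓝 0)) :
    Neg ((atTop : Filter ℕ).curry (atTop : Filter ℕ)) (fun p => ε p.2)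
      (fun p z => Pf ε u p.2 z ^ 2 - M p.1 z * (aj p.2 z : ℂ) * Sf u p.2 z ^ 2) := by
  have hAc : ∀ j, ContinuousOn (fun z => 4 * (ε j : ℂ) * dz (fun z => (u j z : ℂ)) z ^ 2) (ball 0 3) := by
    intro j
    have := cont_dz H j
    fun_prop
  -- pointwise identity
  have hpt : ∀ k j, ∀ z ∈ ball (0 : ℂ) 3,
      Pf ε u j z ^ 2 - M k z * (aj j z : ℂ) * Sf u j z ^ 2 =
        (ε j / 4 : ℝ) * (4 * (ε j : ℂ) * dz (fun z => (u j z : ℂ)) z ^ 2 -
          M k z * (ε j * ‖gr (u j) z‖ ^ 2 : ℝ)) + M k z * (ε j / 2 * disc (ε j) (aj j) (u j) z : ℝ) := by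
    intro k j z hz
    have h1 : Sf u j z ^ 2 = ((1 - Real.cos (u j z)) / 2 : ℝ) := by
      unfold Sf
      rw [← Complex.ofReal_pow]
      congr 1
      have := Real.cos_sq (u j z / 2)
      have h2 := Real.sin_sq_add_cos_sq (u j z / 2)
      rw [show 2 * (u j z / 2) = u j z by ring] at this
      linarith
    have h2 : Pf ε u j z = ε j * dz (fun z => (u j z : ℂ)) z := rfl
    have h3 : ε j / 2 * disc (ε j) (aj j) (u j) z =
        ε j / 4 * (ε j * ‖gr (u j) z‖ ^ 2) - aj j z * ((1 - Real.cos (u j z)) / 2) := by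
      unfold disc
      have := (H.eps_pos j).ne'
      field_simp
      ring
    rw [h1, h2, h3]
    push_cast
    ring
  have hcontM : ∀ k, Continuous (M k) := fun k => (hM1 k).continuous
  refine ⟨?_, ?_⟩
  · rintro ⟨k, j⟩
    have h1 := (hcontM k).continuousOn (s := ball 0 3)
    have h2 := (H.aj_smooth j).continuousOn
    have h3 := (H.sol j).smooth.continuousOn
    have h4 : ContinuousOn (Pf ε u j) (ball 0 3) := continuousOn_const.mul (cont_dz H j)
    have h5 : ContinuousOn (Sf u j) (ball 0 3) :=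
      Complex.continuous_ofReal.comp_continuousOn
        (Real.continuous_sin.comp_continuousOn (h3.div_const 2))
    have h6 : ContinuousOn (fun z => (aj j z : ℂ)) (ball 0 3) :=
      Complex.continuous_ofReal.comp_continuousOn h2
    exact (h4.pow 2).sub ((h1.mul h6).mul (h5.pow 2))
  · intro r hr
    obtain ⟨χ, hχ, hχc, hχs, hχ0, hχ1, hχr⟩ := exists_cutoff hr
    have hsub3 : ball (0 : ℂ) r ⊆ ball 0 3 := ball_subset_ball (by linarith)
    have hsub3' : closedBall (0 : ℂ) r ⊆ ball 0 3 := closedBall_subset_ball (by linarith)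
    -- integrals of `V`
    have hv := vconv H hE hd hχ hχc hχs
    set v : ℝ := ∫ z, χ z ∂μ with hvdef
    have hv0 : 0 ≤ v := integral_nonneg hχ0
    -- integrals of `W`
    set w : ℕ → ℕ → ℝ := fun k j => ∫ z, χ z *
      (ε j * ‖gr (u j) z‖ ^ 2 * (1 + ‖M k z‖ ^ 2) -
        2 * ((4 * (ε j : ℂ) * dz (fun z => (u j z : ℂ)) z ^ 2).re * (M k z).re +
          (4 * (ε j : ℂ) * dz (fun z => (u j z : ℂ)) z ^ 2).im * (M k z).im)) with hw
    have hw_lim : ∀ k, Tendsto (w k) atTop (𝓝 (∫ z, χ z * ‖M k z - m z‖ ^ 2 ∂μ)) := by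
      intro k
      -- the test functions
      have hf1 : Continuous (fun z => χ z * (1 + ‖M k z‖ ^ 2)) := by
        have := hcontM k
        fun_prop
      have hf1s : tsupport (fun z => χ z * (1 + ‖M k z‖ ^ 2)) ⊆ ball 0 2 :=
        (tsupport_mul_subset_left (f := χ)).trans hχs
      have hf2 : Continuous (fun z => χ z * (M k z).re) :=
        hχ.mul (Complex.continuous_re.comp (hcontM k))
      have hf2s : tsupport (fun z => χ z * (M k z).re) ⊆ ball 0 2 :=
        (tsupport_mul_subset_left (f := χ)).trans hχs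
      have hf3 : Continuous (fun z => χ z * (M k z).im) :=
        hχ.mul (Complex.continuous_im.comp (hcontM k))
      have hf3s : tsupport (fun z => χ z * (M k z).im) ⊆ ball 0 2 :=
        (tsupport_mul_subset_left (f := χ)).trans hχs
      have hl1 := vconv H hE hd hf1 (hχc.mul_right) hf1s
      have hl2 := (Complex.continuous_re.tendsto _).comp (hM _ hf2 (hχc.mul_right) hf2s)
      have hl3 := (Complex.continuous_im.tendsto _).comp (hM _ hf3 (hχc.mul_right) hf3s)
      have hlim := (hl1.sub ((hl2.add hl3).const_mul 2))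
      -- measurable and bounded functions are integrable
      have hbd : ∀ g : ℂ → ℝ, Measurable g → (∃ K, ∀ z, |g z| ≤ K) → Integrable g μ := by
        rintro g hg ⟨K, hK⟩
        exact Integrable.of_bound hg.aestronglyMeasurable K (Eventually.of_forall fun z => hK z)
      have hmr : ∀ z, |(m z).re| ≤ 1 := fun z => (Complex.abs_re_le_norm _).trans (h1 z).le
      have hmi : ∀ z, |(m z).im| ≤ 1 := fun z => (Complex.abs_im_le_norm _).trans (h1 z).le
      have hMr : ∀ z, |(M k z).re| ≤ 2 := fun z => (Complex.abs_re_le_norm _).trans (hM2 k z)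
      have hMi : ∀ z, |(M k z).im| ≤ 2 := fun z => (Complex.abs_im_le_norm _).trans (hM2 k z)
      have hmre : Measurable (fun z => (m z).re) := Complex.measurable_re.comp hm
      have hmim : Measurable (fun z => (m z).im) := Complex.measurable_im.comp hm
      have hg1 : Integrable (fun z => χ z * (1 + ‖M k z‖ ^ 2)) μ := by
        apply hbd _ hf1.measurable
        obtain ⟨K, hK⟩ := (hχc.mul_right (f' := fun z => 1 + ‖M k z‖ ^ 2)).exists_bound_of_continuous hf1
        exact ⟨K, hK⟩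
      have hg2 : Integrable (fun z => χ z * (M k z).re * (m z).re) μ := by
        apply hbd _ (hf2.measurable.mul hmre)
        refine ⟨2, fun z => ?_⟩
        change |χ z * (M k z).re * (m z).re| ≤ 2
        rw [abs_mul, abs_mul, abs_of_nonneg (hχ0 z)]
        calc χ z * |(M k z).re| * |(m z).re| ≤ 1 * 2 * 1 := by
              gcongr
              · exact hχ1 z
              · exact hMr z
              · exact hmr z
          _ = 2 := by norm_num
      have hg3 : Integrable (fun z => χ z * (M k z).im * (m z).im) μ := by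
        apply hbd _ (hf3.measurable.mul hmim)
        refine ⟨2, fun z => ?_⟩
        change |χ z * (M k z).im * (m z).im| ≤ 2
        rw [abs_mul, abs_mul, abs_of_nonneg (hχ0 z)]
        calc χ z * |(M k z).im| * |(m z).im| ≤ 1 * 2 * 1 := by
              gcongr
              · exact hχ1 z
              · exact hMi z
              · exact hmi z
          _ = 2 := by norm_num
      have hmint : ∀ g : ℂ → ℝ, Continuous g → (∃ K, ∀ z, |g z| ≤ K) →
          Integrable (fun z => (g z : ℂ) * m z) μ := by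
        rintro g hg ⟨K, hK⟩
        refine Integrable.of_bound ((Complex.measurable_ofReal.comp hg.measurable).mul
          hm).aestronglyMeasurable K (Eventually.of_forall fun z => ?_)
        change ‖(g z : ℂ) * m z‖ ≤ K
        rw [norm_mul, h1 z, mul_one, Complex.norm_real]
        exact hK z
      have hre : (∫ z, ((χ z * (M k z).re : ℝ) : ℂ) * m z ∂μ).re =
          ∫ z, χ z * (M k z).re * (m z).re ∂μ := by
        have hi := hmint _ hf2 (by
          obtain ⟨K, hK⟩ := (hχc.mul_right (f' := fun z => (M k z).re)).exists_bound_of_continuous hf2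
          exact ⟨K, hK⟩)
        have := Complex.reCLM.integral_comp_comm hi
        simp only [Complex.reCLM_apply, Complex.re_ofReal_mul] at this
        exact this.symm
      have him : (∫ z, ((χ z * (M k z).im : ℝ) : ℂ) * m z ∂μ).im =
          ∫ z, χ z * (M k z).im * (m z).im ∂μ := by
        have hi := hmint _ hf3 (by
          obtain ⟨K, hK⟩ := (hχc.mul_right (f' := fun z => (M k z).im)).exists_bound_of_continuous hf3
          exact ⟨K, hK⟩)
        have := Complex.imCLM.integral_comp_comm hi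
        simp only [Complex.imCLM_apply, Complex.im_ofReal_mul] at this
        exact this.symm
      have hlimit : (∫ z, χ z * (1 + ‖M k z‖ ^ 2) ∂μ) -
          2 * ((∫ z, ((χ z * (M k z).re : ℝ) : ℂ) * m z ∂μ).re +
            (∫ z, ((χ z * (M k z).im : ℝ) : ℂ) * m z ∂μ).im) =
          ∫ z, χ z * ‖M k z - m z‖ ^ 2 ∂μ := by
        have hg4 : Integrable (fun z => 2 * (χ z * (M k z).re * (m z).re +
            χ z * (M k z).im * (m z).im)) μ := (hg2.add hg3).const_mul 2
        rw [hre, him, ← integral_add hg2 hg3, ← integral_const_mul, ← integral_sub hg1 hg4]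
        congr 1
        funext z
        have e1 : ‖M k z - m z‖ ^ 2 = ((M k z).re - (m z).re) ^ 2 + ((M k z).im - (m z).im) ^ 2 := by
          rw [← Complex.normSq_eq_norm_sq, Complex.normSq_apply, Complex.sub_re, Complex.sub_im]
          ring
        have e2 : ‖M k z‖ ^ 2 = (M k z).re ^ 2 + (M k z).im ^ 2 := by
          rw [← Complex.normSq_eq_norm_sq, Complex.normSq_apply]; ring
        have e3 : (m z).re ^ 2 + (m z).im ^ 2 = 1 := by
          have : ‖m z‖ ^ 2 = (m z).re ^ 2 + (m z).im ^ 2 := by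
            rw [← Complex.normSq_eq_norm_sq, Complex.normSq_apply]; ring
          rw [← this, h1 z]; norm_num
        rw [e1, e2]
        linear_combination (-χ z) * e3
      rw [← hlimit]
      refine hlim.congr (fun j => ?_)
      simp only [Function.comp, hw]
      have hA2 : Integrable (fun z => ((χ z * (M k z).re : ℝ) : ℂ) *
          (4 * (ε j : ℂ) * dz (fun z => (u j z : ℂ)) z ^ 2)) := by
        have := int_smul hf2 (hχc.mul_right) hf2s (hAc j)
        simpa only [Complex.real_smul] using this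
      have hA3 : Integrable (fun z => ((χ z * (M k z).im : ℝ) : ℂ) *
          (4 * (ε j : ℂ) * dz (fun z => (u j z : ℂ)) z ^ 2)) := by
        have := int_smul hf3 (hχc.mul_right) hf3s (hAc j)
        simpa only [Complex.real_smul] using this
      have hV1 : Integrable (fun z => χ z * (1 + ‖M k z‖ ^ 2) * (ε j * ‖gr (u j) z‖ ^ 2)) :=
        int_smul hf1 (hχc.mul_right) hf1s (cont_V H j)
      have r2 := Complex.reCLM.integral_comp_comm hA2
      have r3 := Complex.imCLM.integral_comp_comm hA3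
      have i2 : Integrable (fun z => Complex.reCLM (((χ z * (M k z).re : ℝ) : ℂ) *
          (4 * (ε j : ℂ) * dz (fun z => (u j z : ℂ)) z ^ 2))) := Complex.reCLM.integrable_comp hA2
      have i3 : Integrable (fun z => Complex.imCLM (((χ z * (M k z).im : ℝ) : ℂ) *
          (4 * (ε j : ℂ) * dz (fun z => (u j z : ℂ)) z ^ 2))) := Complex.imCLM.integrable_comp hA3
      rw [Complex.reCLM_apply] at r2
      rw [Complex.imCLM_apply] at r3
      have i4 : Integrable (fun z => 2 * (Complex.reCLM (((χ z * (M k z).re : ℝ) : ℂ) *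
          (4 * (ε j : ℂ) * dz (fun z => (u j z : ℂ)) z ^ 2)) +
          Complex.imCLM (((χ z * (M k z).im : ℝ) : ℂ) *
          (4 * (ε j : ℂ) * dz (fun z => (u j z : ℂ)) z ^ 2)))) := (i2.add i3).const_mul 2
      rw [← r2, ← r3, ← integral_add i2 i3, ← integral_const_mul, ← integral_sub hV1 i4]
      congr 1
      funext z
      simp only [Complex.reCLM_apply, Complex.imCLM_apply, Complex.re_ofReal_mul,
        Complex.im_ofReal_mul]
      ring
    have hw_le : ∀ k, ∫ z, χ z * ‖M k z - m z‖ ^ 2 ∂μ ≤ ∫ z, ‖M k z - m z‖ ^ 2 ∂μ := by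
      intro k
      have hmeas : Measurable (fun z => ‖M k z - m z‖ ^ 2) :=
        (((hcontM k).measurable.sub hm).norm.pow_const 2)
      have hb : ∀ z, ‖M k z - m z‖ ^ 2 ≤ 9 := by
        intro z
        have : ‖M k z - m z‖ ≤ 3 := by
          have := norm_sub_le (M k z) (m z)
          have := hM2 k z
          have := h1 z
          linarith
        calc ‖M k z - m z‖ ^ 2 ≤ 3 ^ 2 := by gcongr
          _ = 9 := by norm_num
      apply integral_mono_of_nonneg
      · exact Eventually.of_forall fun z => mul_nonneg (hχ0 z) (sq_nonneg _)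
      · exact Integrable.of_bound hmeas.aestronglyMeasurable 9 (Eventually.of_forall fun z => by
          rw [Real.norm_of_nonneg (sq_nonneg _)]; exact hb z)
      · exact Eventually.of_forall fun z => mul_le_of_le_one_left (sq_nonneg _) (hχ1 z)
    -- the main estimate
    have hmain : ∀ θ : ℝ, 0 < θ → ∀ k j,
        (∫ z in ball (0 : ℂ) r, ‖Pf ε u j z ^ 2 - M k z * (aj j z : ℂ) * Sf u j z ^ 2‖) / ε j ≤
          1 / 4 * (θ / 2 * (∫ z, χ z * (ε j * ‖gr (u j) z‖ ^ 2)) + 1 / (2 * θ) * w k j) +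
            ∫ z in ball (0 : ℂ) r, |disc (ε j) (aj j) (u j) z| := by
      intro θ hθ k j
      have hε := H.eps_pos j
      have hdi : IntegrableOn (fun z => |disc (ε j) (aj j) (u j) z|) (ball 0 r) :=
        (((cont_disc H j).abs.mono hsub3').integrableOn_compact (isCompact_closedBall 0 r)).mono_set
          ball_subset_closedBall
      have hV : Integrable (fun z => χ z * (ε j * ‖gr (u j) z‖ ^ 2)) :=
        int_smul hχ hχc hχs (cont_V H j)
      have hWc : ContinuousOn (fun z => ε j * ‖gr (u j) z‖ ^ 2 * (1 + ‖M k z‖ ^ 2) -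
        2 * ((4 * (ε j : ℂ) * dz (fun z => (u j z : ℂ)) z ^ 2).re * (M k z).re +
          (4 * (ε j : ℂ) * dz (fun z => (u j z : ℂ)) z ^ 2).im * (M k z).im)) (ball 0 3) := by
        have e1 := cont_V H j
        have e2 := (hcontM k).norm.continuousOn (s := ball 0 3)
        have e3 := Complex.continuous_re.comp_continuousOn (hAc j)
        have e4 := Complex.continuous_im.comp_continuousOn (hAc j)
        have e5 := (Complex.continuous_re.comp (hcontM k)).continuousOn (s := ball 0 3)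
        have e6 := (Complex.continuous_im.comp (hcontM k)).continuousOn (s := ball 0 3)
        exact (e1.mul (continuousOn_const.add (e2.pow 2))).sub
          (continuousOn_const.mul ((e3.mul e5).add (e4.mul e6)))
      have hW : Integrable (fun z => χ z * (ε j * ‖gr (u j) z‖ ^ 2 * (1 + ‖M k z‖ ^ 2) -
        2 * ((4 * (ε j : ℂ) * dz (fun z => (u j z : ℂ)) z ^ 2).re * (M k z).re +
          (4 * (ε j : ℂ) * dz (fun z => (u j z : ℂ)) z ^ 2).im * (M k z).im))) :=
        int_smul hχ hχc hχs hWc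
      rw [div_le_iff₀ hε]
      have hG : Integrable (fun z => θ / 2 * (χ z * (ε j * ‖gr (u j) z‖ ^ 2)) +
          1 / (2 * θ) * (χ z * (ε j * ‖gr (u j) z‖ ^ 2 * (1 + ‖M k z‖ ^ 2) -
        2 * ((4 * (ε j : ℂ) * dz (fun z => (u j z : ℂ)) z ^ 2).re * (M k z).re +
          (4 * (ε j : ℂ) * dz (fun z => (u j z : ℂ)) z ^ 2).im * (M k z).im)))) :=
        (hV.const_mul _).add (hW.const_mul _)
      have hGnn : ∀ z, 0 ≤ θ / 2 * (χ z * (ε j * ‖gr (u j) z‖ ^ 2)) +
          1 / (2 * θ) * (χ z * (ε j * ‖gr (u j) z‖ ^ 2 * (1 + ‖M k z‖ ^ 2) -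
        2 * ((4 * (ε j : ℂ) * dz (fun z => (u j z : ℂ)) z ^ 2).re * (M k z).re +
          (4 * (ε j : ℂ) * dz (fun z => (u j z : ℂ)) z ^ 2).im * (M k z).im))) := by
        intro z
        by_cases hz : z ∈ ball (0 : ℂ) 3
        · have h := key_ineq (M := M k z) (norm_A H j hz) hθ
          have h' := mul_nonneg (hχ0 z) ((norm_nonneg _).trans h)
          linarith
        · have : χ z = 0 := image_eq_zero_of_notMem_tsupport fun h =>
            hz (ball_subset_ball (by norm_num) (hχs h))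
          simp [this]
      have step1 : ∫ z in ball (0 : ℂ) r, ‖Pf ε u j z ^ 2 - M k z * (aj j z : ℂ) * Sf u j z ^ 2‖ ≤
          ∫ z in ball (0 : ℂ) r, (ε j * (1 / 4 * (θ / 2 * (χ z * (ε j * ‖gr (u j) z‖ ^ 2)) +
          1 / (2 * θ) * (χ z * (ε j * ‖gr (u j) z‖ ^ 2 * (1 + ‖M k z‖ ^ 2) -
        2 * ((4 * (ε j : ℂ) * dz (fun z => (u j z : ℂ)) z ^ 2).re * (M k z).re +
          (4 * (ε j : ℂ) * dz (fun z => (u j z : ℂ)) z ^ 2).im * (M k z).im))))) +
            ε j * |disc (ε j) (aj j) (u j) z|) := by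
        apply integral_mono_of_nonneg
        · exact Eventually.of_forall fun z => norm_nonneg _
        · exact ((hG.integrableOn.const_mul (1 / 4)).const_mul (ε j)).add (hdi.const_mul (ε j))
        · refine (ae_restrict_iff' measurableSet_ball).2 (Eventually.of_forall fun z hz => ?_)
          have hz3 := hsub3 hz
          simp only
          rw [hpt k j z hz3, hχr z hz, one_mul, one_mul]
          have h := key_ineq (M := M k z) (norm_A H j hz3) hθ
          refine (norm_add_le _ _).trans ?_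
          rw [norm_mul, norm_mul, Complex.norm_real, Complex.norm_real,
            Real.norm_of_nonneg (by positivity : 0 ≤ ε j / 4), Real.norm_eq_abs, abs_mul,
            abs_of_pos (by positivity : 0 < ε j / 2)]
          have h2 : ‖M k z‖ * (ε j / 2 * |disc (ε j) (aj j) (u j) z|) ≤
              ε j * |disc (ε j) (aj j) (u j) z| := by
            have h3 : 0 ≤ ε j / 2 * |disc (ε j) (aj j) (u j) z| := by positivity
            have := mul_le_mul_of_nonneg_right (hM2 k z) h3
            linarith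
          have h4 := mul_le_mul_of_nonneg_left h (by positivity : 0 ≤ ε j / 4)
          linarith
      have step2 : ∫ z in ball (0 : ℂ) r, (ε j * (1 / 4 * (θ / 2 * (χ z * (ε j * ‖gr (u j) z‖ ^ 2)) +
          1 / (2 * θ) * (χ z * (ε j * ‖gr (u j) z‖ ^ 2 * (1 + ‖M k z‖ ^ 2) -
        2 * ((4 * (ε j : ℂ) * dz (fun z => (u j z : ℂ)) z ^ 2).re * (M k z).re +
          (4 * (ε j : ℂ) * dz (fun z => (u j z : ℂ)) z ^ 2).im * (M k z).im))))) +
            ε j * |disc (ε j) (aj j) (u j) z|) =
          ε j * (1 / 4 * ∫ z in ball (0 : ℂ) r, (θ / 2 * (χ z * (ε j * ‖gr (u j) z‖ ^ 2)) +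
          1 / (2 * θ) * (χ z * (ε j * ‖gr (u j) z‖ ^ 2 * (1 + ‖M k z‖ ^ 2) -
        2 * ((4 * (ε j : ℂ) * dz (fun z => (u j z : ℂ)) z ^ 2).re * (M k z).re +
          (4 * (ε j : ℂ) * dz (fun z => (u j z : ℂ)) z ^ 2).im * (M k z).im))))) +
            ε j * ∫ z in ball (0 : ℂ) r, |disc (ε j) (aj j) (u j) z| := by
        rw [integral_add ((hG.integrableOn.const_mul (1 / 4)).const_mul (ε j)) (hdi.const_mul (ε j)),
          integral_const_mul, integral_const_mul, integral_const_mul]
      have step3 : ∫ z in ball (0 : ℂ) r, (θ / 2 * (χ z * (ε j * ‖gr (u j) z‖ ^ 2)) +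
          1 / (2 * θ) * (χ z * (ε j * ‖gr (u j) z‖ ^ 2 * (1 + ‖M k z‖ ^ 2) -
        2 * ((4 * (ε j : ℂ) * dz (fun z => (u j z : ℂ)) z ^ 2).re * (M k z).re +
          (4 * (ε j : ℂ) * dz (fun z => (u j z : ℂ)) z ^ 2).im * (M k z).im)))) ≤
          θ / 2 * (∫ z, χ z * (ε j * ‖gr (u j) z‖ ^ 2)) + 1 / (2 * θ) * w k j := by
        refine (setIntegral_le_integral hG (Eventually.of_forall hGnn)).trans (le_of_eq ?_)
        rw [integral_add (hV.const_mul _) (hW.const_mul _), integral_const_mul, integral_const_mul]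
      calc _ ≤ _ := step1
        _ = _ := step2
        _ ≤ ε j * (1 / 4 * (θ / 2 * (∫ z, χ z * (ε j * ‖gr (u j) z‖ ^ 2)) + 1 / (2 * θ) * w k j)) +
            ε j * ∫ z in ball (0 : ℂ) r, |disc (ε j) (aj j) (u j) z| := by gcongr
        _ = _ := by ring
    -- conclusion
    rw [Metric.tendsto_nhds]
    intro η hη
    rw [Filter.eventually_curry_iff]
    set θ : ℝ := η / (v + 1) with hθ
    have hθ0 : 0 < θ := by positivity
    have hk : ∀ᶠ k in (atTop : Filter ℕ), ∫ z, ‖M k z - m z‖ ^ 2 ∂μ < θ * η :=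
      hM3.eventually_lt_const (by positivity)
    filter_upwards [hk] with k hk
    have hwk : ∀ᶠ j in (atTop : Filter ℕ), w k j < θ * η :=
      (hw_lim k).eventually_lt_const ((hw_le k).trans_lt hk)
    have hvj : ∀ᶠ j in (atTop : Filter ℕ), ∫ z, χ z * (ε j * ‖gr (u j) z‖ ^ 2) < v + 1 :=
      hv.eventually_lt_const (by linarith)
    have hdj : ∀ᶠ j in (atTop : Filter ℕ), ∫ z in ball (0 : ℂ) r, |disc (ε j) (aj j) (u j) z| < η / 2 :=
      (hd r hr).eventually_lt_const (by positivity)
    filter_upwards [hwk, hvj, hdj] with j h1 h2 h3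
    have h4 := hmain θ hθ0 k j
    rw [Real.dist_eq, sub_zero, abs_of_nonneg (div_nonneg (integral_nonneg fun z => norm_nonneg _)
      (H.eps_pos j).le)]
    refine h4.trans_lt ?_
    have h5 : θ / 2 * (∫ z, χ z * (ε j * ‖gr (u j) z‖ ^ 2)) ≤ η / 2 := by
      calc _ ≤ θ / 2 * (v + 1) := by gcongr
        _ = η / 2 := by rw [hθ]; field_simp
    have h6 : 1 / (2 * θ) * w k j ≤ η / 2 := by
      calc _ ≤ 1 / (2 * θ) * (θ * η) := by gcongr
        _ = η / 2 := by field_simp
    linarith

/-- The smooth functions `M k` form a slowly varying family along the iterated limit. -/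
theorem slow_Mk {ε : ℕ → ℝ} (h0 : ∀ j, 0 < ε j) (h1 : Tendsto ε atTop (𝓝 0)) {M : ℕ → ℂ → ℂ}
    (hM1 : ∀ k, ContDiff ℝ ∞ (M k)) (hM2 : ∀ k z, ‖M k z‖ ≤ 2) :
    Slow ((atTop : Filter ℕ).curry (atTop : Filter ℕ)) (fun p => ε p.2) (fun p => M p.1) := by
  have hlim : ∀ n : ℕ, n ≠ 0 → ∀ C : ℝ, Tendsto (fun j => ε j ^ n * C) atTop (𝓝 0) := by
    intro n hn C
    have := (h1.pow n).mul_const C
    rwa [zero_pow hn, zero_mul] at this
  have hder : ∀ n k : ℕ, ∃ C : ℝ, ∀ z ∈ ball (0 : ℂ) 2, ‖iteratedFDeriv ℝ n (M k) z‖ ≤ C := by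
    intro n k
    have hc : Continuous (fun z => ‖iteratedFDeriv ℝ n (M k) z‖) :=
      ((hM1 k).continuous_iteratedFDeriv (by exact_mod_cast le_top)).norm
    obtain ⟨C, hC⟩ := (isCompact_closedBall (0 : ℂ) 2).exists_bound_of_continuousOn hc.continuousOn
    refine ⟨C, fun z hz => ?_⟩
    have := hC z (ball_subset_closedBall hz)
    rwa [norm_norm] at this
  refine ⟨⟨fun p => (hM1 p.1).contDiffOn, fun n => ⟨2, ?_⟩⟩, ?_⟩
  · rw [Filter.eventually_curry_iff]
    refine Eventually.of_forall fun k => ?_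
    rcases Nat.eq_zero_or_pos n with rfl | hn
    · refine Eventually.of_forall fun j z _ => ?_
      rw [pow_zero, one_mul, norm_iteratedFDeriv_zero]
      exact hM2 k z
    · obtain ⟨C, hC⟩ := hder n k
      have h2 := (hlim n hn.ne' C).eventually_lt_const (show (0 : ℝ) < 2 by norm_num)
      filter_upwards [h2] with j hj z hz
      refine le_trans ?_ hj.le
      exact mul_le_mul_of_nonneg_left (hC z hz) (pow_nonneg (h0 j).le n)
  · intro η hη
    rw [Filter.eventually_curry_iff]
    refine Eventually.of_forall fun k => ?_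
    obtain ⟨C, hC⟩ := hder 1 k
    have h2 : Tendsto (fun j => √(ε j) * C) atTop (𝓝 0) := by
      have h3 : Tendsto (fun j => √(ε j)) atTop (𝓝 (√0)) := (Real.continuous_sqrt.tendsto 0).comp h1
      rw [Real.sqrt_zero] at h3
      have := h3.mul_const C
      rwa [zero_mul] at this
    filter_upwards [h2.eventually_lt_const hη] with j hj z hz
    refine le_trans ?_ hj.le
    have h4 := hC z hz
    rw [norm_itd_one] at h4
    exact mul_le_mul_of_nonneg_left h4 (Real.sqrt_nonneg _)

end Pool.Agent.Helper74.CE
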