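import Pool.Agent.Helper74.CE.Defs

/-!
# CL-E01: pointwise calculus for `dx, dy, dz, dzb`

All statements are direct consequences of the rules for `fderiv ℝ` at a point: `fderiv_add`, `fderiv_mul`
(`DifferentiableAt.fderiv..`, `fderiv_fun_mul`), `Filter.EventuallyEq.fderiv_eq`, the chain rule
(`HasFDerivAt.comp`, `HasDerivAt.comp_hasFDerivAt`).

* `dzb_dz_real`: for `f = (u : ℂ)`, on the open set `D`, `dz f = (dx f - I dy f) / 2` there and `dx f = (dx u : ℂ)`,
  `dy f = (dy u : ℂ)` (`ofRealCLM` is linear), so that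
  `4 dzb (dz f) = (dx + I dy) (dx f - I dy f) = dx dx f + dy dy f + I (dy dx f - dx dy f)` and the last term vanishes
  by the symmetry of the second derivative (`ContDiffAt.isSymmSndFDerivAt`, real differentiability of order `2`).
* `dz_dzb_comm`: the same symmetry.
* `norm_dz_real`: `dz u = (u_x - I u_y) / 2`, with real `u_x, u_y`, and `gr u = u_x + I u_y`.
* smoothness: `ContDiffOn.fderiv_of_isOpen`, evaluated at `1` and `I` (`ContDiffOn.clm_apply`).
-/

namespace Pool.Agent.Helper74.CE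

open MeasureTheory Filter Topology Metric Pool.Agent.Helper53.CL
open scoped ContDiff Real ComplexConjugate

variable {F : Type*} [NormedAddCommGroup F] [NormedSpace ℝ F] {z : ℂ} {D : Set ℂ}

theorem dx_congr {f g : ℂ → F} (h : f =ᶠ[𝓝 z] g) : dx f z = dx g z := by
  unfold dx
  rw [h.fderiv_eq]

theorem dy_congr {f g : ℂ → F} (h : f =ᶠ[𝓝 z] g) : dy f z = dy g z := by
  unfold dy
  rw [h.fderiv_eq]

theorem dz_congr {f g : ℂ → ℂ} (h : f =ᶠ[𝓝 z] g) : dz f z = dz g z := by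
  unfold dz
  rw [dx_congr h, dy_congr h]

theorem dzb_congr {f g : ℂ → ℂ} (h : f =ᶠ[𝓝 z] g) : dzb f z = dzb g z := by
  unfold dzb
  rw [dx_congr h, dy_congr h]

/-! ### Addition -/

theorem dx_add {f g : ℂ → F} (hf : DifferentiableAt ℝ f z) (hg : DifferentiableAt ℝ g z) :
    dx (fun w => f w + g w) z = dx f z + dx g z := by
  unfold dx
  rw [fderiv_fun_add hf hg]
  rfl

theorem dy_add {f g : ℂ → F} (hf : DifferentiableAt ℝ f z) (hg : DifferentiableAt ℝ g z) :
    dy (fun w => f w + g w) z = dy f z + dy g z := by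
  unfold dy
  rw [fderiv_fun_add hf hg]
  rfl

theorem dz_add {f g : ℂ → ℂ} (hf : DifferentiableAt ℝ f z) (hg : DifferentiableAt ℝ g z) :
    dz (fun w => f w + g w) z = dz f z + dz g z := by
  unfold dz
  rw [dx_add hf hg, dy_add hf hg]
  ring

theorem dzb_add {f g : ℂ → ℂ} (hf : DifferentiableAt ℝ f z) (hg : DifferentiableAt ℝ g z) :
    dzb (fun w => f w + g w) z = dzb f z + dzb g z := by
  unfold dzb
  rw [dx_add hf hg, dy_add hf hg]
  ring

private theorem dx_sub {f g : ℂ → F} (hf : DifferentiableAt ℝ f z) (hg : DifferentiableAt ℝ g z) :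
    dx (fun w => f w - g w) z = dx f z - dx g z := by
  unfold dx
  rw [fderiv_fun_sub hf hg]
  rfl

private theorem dy_sub {f g : ℂ → F} (hf : DifferentiableAt ℝ f z) (hg : DifferentiableAt ℝ g z) :
    dy (fun w => f w - g w) z = dy f z - dy g z := by
  unfold dy
  rw [fderiv_fun_sub hf hg]
  rfl

theorem dz_sub {f g : ℂ → ℂ} (hf : DifferentiableAt ℝ f z) (hg : DifferentiableAt ℝ g z) :
    dz (fun w => f w - g w) z = dz f z - dz g z := by
  unfold dz
  rw [dx_sub hf hg, dy_sub hf hg]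
  ring

theorem dzb_sub {f g : ℂ → ℂ} (hf : DifferentiableAt ℝ f z) (hg : DifferentiableAt ℝ g z) :
    dzb (fun w => f w - g w) z = dzb f z - dzb g z := by
  unfold dzb
  rw [dx_sub hf hg, dy_sub hf hg]
  ring

/-! ### Multiplication -/

theorem dx_mul {f g : ℂ → ℂ} (hf : DifferentiableAt ℝ f z) (hg : DifferentiableAt ℝ g z) :
    dx (fun w => f w * g w) z = dx f z * g z + f z * dx g z := by
  unfold dx
  rw [fderiv_fun_mul hf hg]
  simp only [add_apply, smul_apply, smul_eq_mul]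
  ring

theorem dy_mul {f g : ℂ → ℂ} (hf : DifferentiableAt ℝ f z) (hg : DifferentiableAt ℝ g z) :
    dy (fun w => f w * g w) z = dy f z * g z + f z * dy g z := by
  unfold dy
  rw [fderiv_fun_mul hf hg]
  simp only [add_apply, smul_apply, smul_eq_mul]
  ring

theorem dz_mul {f g : ℂ → ℂ} (hf : DifferentiableAt ℝ f z) (hg : DifferentiableAt ℝ g z) :
    dz (fun w => f w * g w) z = dz f z * g z + f z * dz g z := by
  unfold dz
  rw [dx_mul hf hg, dy_mul hf hg]
  ring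

theorem dzb_mul {f g : ℂ → ℂ} (hf : DifferentiableAt ℝ f z) (hg : DifferentiableAt ℝ g z) :
    dzb (fun w => f w * g w) z = dzb f z * g z + f z * dzb g z := by
  unfold dzb
  rw [dx_mul hf hg, dy_mul hf hg]
  ring

theorem dz_const (c : ℂ) : dz (fun _ => c) z = 0 := by
  unfold dz dx dy
  rw [fderiv_fun_const]
  simp

theorem dzb_const (c : ℂ) : dzb (fun _ => c) z = 0 := by
  unfold dzb dx dy
  rw [fderiv_fun_const]
  simp

private theorem fderiv_cmul {f : ℂ → ℂ} (c v : ℂ) :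
    fderiv ℝ (fun w => c * f w) z v = c * fderiv ℝ f z v := by
  have h : fderiv ℝ (c • f) z = c • fderiv ℝ f z := by
    rw [fderiv_const_smul_field]
    rfl
  have h2 : (fun w => c * f w) = c • f := rfl
  rw [h2, h]
  rfl

theorem dz_const_mul {f : ℂ → ℂ} (c : ℂ) : dz (fun w => c * f w) z = c * dz f z := by
  unfold dz dx dy
  rw [fderiv_cmul, fderiv_cmul]
  ring

theorem dzb_const_mul {f : ℂ → ℂ} (c : ℂ) : dzb (fun w => c * f w) z = c * dzb f z := by
  unfold dzb dx dy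
  rw [fderiv_cmul, fderiv_cmul]
  ring

theorem dz_pow {f : ℂ → ℂ} (hf : DifferentiableAt ℝ f z) (n : ℕ) :
    dz (fun w => f w ^ n) z = n * f z ^ (n - 1) * dz f z := by
  unfold dz dx dy
  have h := (hf.hasFDerivAt.pow n).fderiv
  rw [h]
  simp only [smul_apply, smul_eq_mul, nsmul_eq_mul]
  ring

/-! ### Conjugation, real functions -/

private theorem fderiv_conj_apply {f : ℂ → ℂ} (v : ℂ) :
    fderiv ℝ (fun w => conj (f w)) z v = conj (fderiv ℝ f z v) := by
  have h : fderiv ℝ (Complex.conjCLE ∘ f) z = (Complex.conjCLE : ℂ →L[ℝ] ℂ).comp (fderiv ℝ f z) :=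
    ContinuousLinearEquiv.comp_fderiv _
  have h2 : (fun w => conj (f w)) = Complex.conjCLE ∘ f := rfl
  rw [h2, h]
  rfl

theorem dz_conj {f : ℂ → ℂ} : dz (fun w => conj (f w)) z = conj (dzb f z) := by
  unfold dz dzb dx dy
  rw [fderiv_conj_apply, fderiv_conj_apply]
  simp only [map_div₀, map_add, map_mul, Complex.conj_I, Complex.conj_ofNat]
  ring

theorem dzb_conj {f : ℂ → ℂ} : dzb (fun w => conj (f w)) z = conj (dz f z) := by
  unfold dz dzb dx dy
  rw [fderiv_conj_apply, fderiv_conj_apply]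
  simp only [map_div₀, map_sub, map_mul, Complex.conj_I, Complex.conj_ofNat]
  ring

private theorem fderiv_ofReal_apply {u : ℂ → ℝ} (hu : DifferentiableAt ℝ u z) (v : ℂ) :
    fderiv ℝ (fun w => (u w : ℂ)) z v = ((fderiv ℝ u z v : ℝ) : ℂ) := by
  have h := (Complex.ofRealCLM.hasFDerivAt.comp z hu.hasFDerivAt).fderiv
  have h2 : (fun w => (u w : ℂ)) = Complex.ofRealCLM ∘ u := rfl
  rw [h2, h]
  rfl

theorem dx_ofReal {u : ℂ → ℝ} (hu : DifferentiableAt ℝ u z) :
    dx (fun w => (u w : ℂ)) z = ((dx u z : ℝ) : ℂ) := fderiv_ofReal_apply hu 1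

theorem dy_ofReal {u : ℂ → ℝ} (hu : DifferentiableAt ℝ u z) :
    dy (fun w => (u w : ℂ)) z = ((dy u z : ℝ) : ℂ) := fderiv_ofReal_apply hu Complex.I

theorem norm_gr_sq (u : ℂ → ℝ) : ‖gr u z‖ ^ 2 = dx u z ^ 2 + dy u z ^ 2 := by
  rw [← Complex.normSq_eq_norm_sq, Complex.normSq_apply]
  unfold gr
  ring

theorem norm_dz_real {u : ℂ → ℝ} (hu : DifferentiableAt ℝ u z) :
    ‖dz (fun w => (u w : ℂ)) z‖ ^ 2 = ‖gr u z‖ ^ 2 / 4 := by
  unfold dz
  rw [dx_ofReal hu, dy_ofReal hu, norm_gr_sq, ← Complex.normSq_eq_norm_sq, Complex.normSq_apply]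
  have e1 : ((((dx u z : ℝ) : ℂ) - Complex.I * ((dy u z : ℝ) : ℂ)) / 2).re = dx u z / 2 := by
    simp
  have e2 : ((((dx u z : ℝ) : ℂ) - Complex.I * ((dy u z : ℝ) : ℂ)) / 2).im = -(dy u z) / 2 := by
    simp
  rw [e1, e2]
  ring

private theorem fderiv_comp_real {u : ℂ → ℝ} {G : ℝ → ℝ} {G' : ℝ} (hG : HasDerivAt G G' (u z))
    (hu : DifferentiableAt ℝ u z) (v : ℂ) :
    fderiv ℝ (fun w => G (u w)) z v = G' * fderiv ℝ u z v := by
  have h := (hG.comp_hasFDerivAt z hu.hasFDerivAt).fderiv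
  have h2 : (fun w => G (u w)) = G ∘ u := rfl
  rw [h2, h]
  rfl

/-- The chain rule for real functions. -/
theorem dx_comp_real {u : ℂ → ℝ} {G : ℝ → ℝ} {G' : ℝ} (hG : HasDerivAt G G' (u z))
    (hu : DifferentiableAt ℝ u z) : dx (fun w => G (u w)) z = G' * dx u z :=
  fderiv_comp_real hG hu 1

theorem dy_comp_real {u : ℂ → ℝ} {G : ℝ → ℝ} {G' : ℝ} (hG : HasDerivAt G G' (u z))
    (hu : DifferentiableAt ℝ u z) : dy (fun w => G (u w)) z = G' * dy u z :=
  fderiv_comp_real hG hu Complex.I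

/-- The chain rule for real functions. -/
theorem dz_comp_real {u : ℂ → ℝ} {G : ℝ → ℝ} {G' : ℝ} (hG : HasDerivAt G G' (u z))
    (hu : DifferentiableAt ℝ u z) :
    dz (fun w => ((G (u w) : ℝ) : ℂ)) z = G' * dz (fun w => (u w : ℂ)) z := by
  have hGu : DifferentiableAt ℝ (fun w => G (u w)) z :=
    (hG.comp_hasFDerivAt z hu.hasFDerivAt).differentiableAt
  unfold dz
  rw [dx_ofReal hu, dy_ofReal hu, dx_ofReal hGu, dy_ofReal hGu, dx_comp_real hG hu, dy_comp_real hG hu]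
  push_cast
  ring

/-! ### Smoothness and second derivatives -/

theorem smooth_dx {f : ℂ → F} (hD : IsOpen D) (hf : ContDiffOn ℝ ∞ f D) : ContDiffOn ℝ ∞ (dx f) D :=
  (hf.fderiv_of_isOpen hD (by simp)).clm_apply contDiffOn_const

theorem smooth_dy {f : ℂ → F} (hD : IsOpen D) (hf : ContDiffOn ℝ ∞ f D) : ContDiffOn ℝ ∞ (dy f) D :=
  (hf.fderiv_of_isOpen hD (by simp)).clm_apply contDiffOn_const

theorem smooth_dz {f : ℂ → ℂ} (hD : IsOpen D) (hf : ContDiffOn ℝ ∞ f D) : ContDiffOn ℝ ∞ (dz f) D := by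
  have h : dz f = fun z => (1 / 2 : ℂ) * (dx f z - Complex.I * dy f z) := by
    funext z
    unfold dz
    ring
  rw [h]
  exact contDiffOn_const.mul ((smooth_dx hD hf).sub (contDiffOn_const.mul (smooth_dy hD hf)))

theorem smooth_dzb {f : ℂ → ℂ} (hD : IsOpen D) (hf : ContDiffOn ℝ ∞ f D) : ContDiffOn ℝ ∞ (dzb f) D := by
  have h : dzb f = fun z => (1 / 2 : ℂ) * (dx f z + Complex.I * dy f z) := by
    funext z
    unfold dzb
    ring
  rw [h]
  exact contDiffOn_const.mul ((smooth_dx hD hf).add (contDiffOn_const.mul (smooth_dy hD hf)))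

theorem smooth_ofReal {u : ℂ → ℝ} (hu : ContDiffOn ℝ ∞ u D) : ContDiffOn ℝ ∞ (fun w => (u w : ℂ)) D :=
  Complex.ofRealCLM.contDiff.comp_contDiffOn hu

theorem smooth_comp_real {u : ℂ → ℝ} {G : ℝ → ℝ} (hG : ContDiff ℝ ∞ G) (hu : ContDiffOn ℝ ∞ u D) :
    ContDiffOn ℝ ∞ (fun w => ((G (u w) : ℝ) : ℂ)) D :=
  smooth_ofReal (hG.comp_contDiffOn hu)

theorem diffAt_of_smooth {f : ℂ → F} (hD : IsOpen D) (hf : ContDiffOn ℝ ∞ f D) (hz : z ∈ D) :
    DifferentiableAt ℝ f z :=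
  (hf.contDiffAt (hD.mem_nhds hz)).differentiableAt (by simp)

private theorem dx_dy_comm {f : ℂ → F} (hD : IsOpen D) (hf : ContDiffOn ℝ ∞ f D) (hz : z ∈ D) :
    dx (dy f) z = dy (dx f) z := by
  have h1 : DifferentiableAt ℝ (fderiv ℝ f) z :=
    ((hf.fderiv_of_isOpen hD (m := ∞) (by simp)).contDiffAt (hD.mem_nhds hz)).differentiableAt (by simp)
  have h2 : IsSymmSndFDerivAt ℝ f z := (hf.contDiffAt (hD.mem_nhds hz)).isSymmSndFDerivAt (by
    rw [minSmoothness_of_isRCLikeNormedField]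
    norm_cast)
  have h3 : ∀ v w : ℂ, fderiv ℝ (fun y => fderiv ℝ f y v) z w = fderiv ℝ (fderiv ℝ f) z w v := by
    intro v w
    have h4 := (h1.hasFDerivAt.clm_apply (hasFDerivAt_const v z)).fderiv
    rw [h4]
    simp
  show fderiv ℝ (fun y => fderiv ℝ f y Complex.I) z 1 = fderiv ℝ (fun y => fderiv ℝ f y 1) z Complex.I
  rw [h3, h3]
  exact h2 1 Complex.I

theorem dz_dzb_comm {f : ℂ → ℂ} (hD : IsOpen D) (hf : ContDiffOn ℝ ∞ f D) (hz : z ∈ D) :
    dz (dzb f) z = dzb (dz f) z := by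
  have hx := diffAt_of_smooth hD (smooth_dx hD hf) hz
  have hy := diffAt_of_smooth hD (smooth_dy hD hf) hz
  have hyI : DifferentiableAt ℝ (fun z => Complex.I * dy f z) z := hy.const_mul _
  have e1 : dzb f = fun z => (1 / 2 : ℂ) * (dx f z + Complex.I * dy f z) := by
    funext z
    unfold dzb
    ring
  have e2 : dz f = fun z => (1 / 2 : ℂ) * (dx f z - Complex.I * dy f z) := by
    funext z
    unfold dz
    ring
  rw [e1, e2, dz_const_mul, dzb_const_mul, dz_add hx hyI, dzb_sub hx hyI, dz_const_mul, dzb_const_mul]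
  have h := dx_dy_comm hD hf hz
  unfold dz dzb
  rw [h]
  ring

theorem dzb_dz_real {u : ℂ → ℝ} (hD : IsOpen D) (hu : ContDiffOn ℝ ∞ u D) (hz : z ∈ D) :
    4 * dzb (dz (fun w => (u w : ℂ))) z = ((lap u z : ℝ) : ℂ) := by
  have hx := diffAt_of_smooth hD (smooth_dx hD hu) hz
  have hy := diffAt_of_smooth hD (smooth_dy hD hu) hz
  have hxc : DifferentiableAt ℝ (fun w => ((dx u w : ℝ) : ℂ)) z :=
    diffAt_of_smooth hD (smooth_ofReal (smooth_dx hD hu)) hz
  have hyc : DifferentiableAt ℝ (fun w => ((dy u w : ℝ) : ℂ)) z :=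
    diffAt_of_smooth hD (smooth_ofReal (smooth_dy hD hu)) hz
  have hyI : DifferentiableAt ℝ (fun w => Complex.I * ((dy u w : ℝ) : ℂ)) z := hyc.const_mul _
  have e1 : dz (fun w => (u w : ℂ)) =ᶠ[𝓝 z]
      fun w => (1 / 2 : ℂ) * (((dx u w : ℝ) : ℂ) - Complex.I * ((dy u w : ℝ) : ℂ)) := by
    filter_upwards [hD.mem_nhds hz] with w hw
    have hu' := diffAt_of_smooth hD hu hw
    unfold dz
    rw [dx_ofReal hu', dy_ofReal hu']
    ring
  rw [dzb_congr e1, dzb_const_mul, dzb_sub hxc hyI, dzb_const_mul]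
  unfold dzb
  rw [dx_ofReal hx, dy_ofReal hx, dx_ofReal hy, dy_ofReal hy, dx_dy_comm hD hu hz]
  unfold lap
  push_cast
  linear_combination (-((dy (dy u) z : ℝ) : ℂ)) * Complex.I_sq

end Pool.Agent.Helper74.CE
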