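import Pool.Agent.Helper74.CE.Calc

/-!
# CL-E02: norms of iterated derivatives

* `norm_iteratedFDeriv_dx_le` etc.: near `z`, `dx f = L ∘ fderiv ℝ f`, where `L A = A 1` is a continuous linear map of
  norm at most `1` (`ContinuousLinearMap.apply ℝ F (1 : ℂ)`); use `ContinuousLinearMap.norm_iteratedFDeriv_comp_left`
  style lemmas (`ContinuousLinearMap.norm_iteratedFDeriv_comp_le`? search `iteratedFDeriv_comp_left`), and
  `norm_iteratedFDeriv_fderiv : ‖iteratedFDeriv 𝕜 n (fderiv 𝕜 f) x‖ = ‖iteratedFDeriv 𝕜 (n + 1) f x‖`.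
  For `dz f = (dx f - I dy f) / 2` use `dx` and `dy` (for `dz`, the map `A ↦ (A 1 - I A I) / 2` is linear, of norm `≤ 1`).
* `norm_iteratedFDeriv_succ_le`: `fderiv ℝ f z v = v.re • dx f z + v.im • dy f z`, that is
  `fderiv ℝ f = L₁ ∘ dx f + L₂ ∘ dy f` with `L₁ y = (v ↦ v.re • y)`, `L₂ y = (v ↦ v.im • y)` of norm `≤ 1`
  (`ContinuousLinearMap.smulRightL`, or `ContinuousLinearMap.smulRight`).
* `norm_fderiv_mul_le`, `norm_iteratedFDeriv_mul_le'`: Mathlib `norm_iteratedFDeriv_mul_le` needs `ContDiff` or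
  `ContDiffAt`?; otherwise `norm_iteratedFDerivWithin_mul_le` on the open set `D` and `iteratedFDerivWithin_of_isOpen`.
* `norm_iteratedFDeriv_comp_open`: `norm_iteratedFDerivWithin_comp_le` with the open set `D` and `univ`.
* conj, ofReal: linear isometries, `LinearIsometry.norm_iteratedFDeriv_comp_left` (for `conj`,
  `Complex.conjLIE`; for `ofReal`, `Complex.ofRealLI`).
-/

namespace Pool.Agent.Helper74.CE

open MeasureTheory Filter Topology Metric Pool.Agent.Helper53.CL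
open scoped ContDiff Real ComplexConjugate

variable {F : Type*} [NormedAddCommGroup F] [NormedSpace ℝ F] {z : ℂ} {D : Set ℂ}

theorem itd_congr {f g : ℂ → F} (h : f =ᶠ[𝓝 z] g) (k : ℕ) :
    iteratedFDeriv ℝ k f z = iteratedFDeriv ℝ k g z := (h.iteratedFDeriv ℝ k).self_of_nhds

theorem itd_clm_le {E' F' : Type*} [NormedAddCommGroup E'] [NormedSpace ℝ E'] [NormedAddCommGroup F'] [NormedSpace ℝ F']
    (L : E' →L[ℝ] F') {C : ℝ} (hL : ‖L‖ ≤ C) {f : ℂ → E'} (hD : IsOpen D) (hf : ContDiffOn ℝ ∞ f D) (hz : z ∈ D)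
    (k : ℕ) : ‖iteratedFDeriv ℝ k (fun w => L (f w)) z‖ ≤ C * ‖iteratedFDeriv ℝ k f z‖ := by
  have h1 : ContDiffAt ℝ k f z := (hf.contDiffAt (hD.mem_nhds hz)).of_le (by exact_mod_cast le_top)
  have h2 := L.iteratedFDeriv_comp_left h1 (i := k) le_rfl
  have h3 : (fun w => L (f w)) = L ∘ f := rfl
  rw [h3, h2]
  exact (ContinuousLinearMap.norm_compContinuousMultilinearMap_le _ _).trans
    (mul_le_mul_of_nonneg_right hL (norm_nonneg _))

theorem smooth_fderiv' {f : ℂ → F} (hD : IsOpen D) (hf : ContDiffOn ℝ ∞ f D) :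
    ContDiffOn ℝ ∞ (fderiv ℝ f) D := hf.fderiv_of_isOpen hD (by simp)

theorem norm_apply_le (v : ℂ) (hv : ‖v‖ ≤ 1) : ‖ContinuousLinearMap.apply ℝ F v‖ ≤ 1 := by
  refine ContinuousLinearMap.opNorm_le_bound _ zero_le_one fun A => ?_
  rw [ContinuousLinearMap.apply_apply, one_mul]
  exact (A.le_opNorm v).trans (mul_le_of_le_one_right (norm_nonneg _) hv)

theorem norm_itd_dx_le {f : ℂ → F} (hD : IsOpen D) (hf : ContDiffOn ℝ ∞ f D) (hz : z ∈ D) (k : ℕ) :
    ‖iteratedFDeriv ℝ k (dx f) z‖ ≤ ‖iteratedFDeriv ℝ (k + 1) f z‖ := by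
  have h := itd_clm_le (ContinuousLinearMap.apply ℝ F (1 : ℂ)) (norm_apply_le 1 (by simp)) hD
    (smooth_fderiv' hD hf) hz k
  rw [one_mul, norm_iteratedFDeriv_fderiv] at h
  exact h

theorem norm_itd_dy_le {f : ℂ → F} (hD : IsOpen D) (hf : ContDiffOn ℝ ∞ f D) (hz : z ∈ D) (k : ℕ) :
    ‖iteratedFDeriv ℝ k (dy f) z‖ ≤ ‖iteratedFDeriv ℝ (k + 1) f z‖ := by
  have h := itd_clm_le (ContinuousLinearMap.apply ℝ F Complex.I) (norm_apply_le Complex.I (by simp)) hD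
    (smooth_fderiv' hD hf) hz k
  rw [one_mul, norm_iteratedFDeriv_fderiv] at h
  exact h

/-- the map `A ↦ (A 1 + c A I) / 2` -/
noncomputable def wirt (c : ℂ) : (ℂ →L[ℝ] ℂ) →L[ℝ] ℂ :=
  (1 / 2 : ℂ) • (ContinuousLinearMap.apply ℝ ℂ (1 : ℂ) + c • ContinuousLinearMap.apply ℝ ℂ Complex.I)

theorem wirt_apply (c : ℂ) (A : ℂ →L[ℝ] ℂ) : wirt c A = (A 1 + c * A Complex.I) / 2 := by
  simp only [wirt, ContinuousLinearMap.smul_apply, ContinuousLinearMap.add_apply,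
    ContinuousLinearMap.apply_apply, smul_eq_mul]
  ring

theorem norm_wirt_le {c : ℂ} (hc : ‖c‖ = 1) : ‖wirt c‖ ≤ 1 := by
  refine ContinuousLinearMap.opNorm_le_bound _ zero_le_one fun A => ?_
  rw [wirt_apply, one_mul, norm_div]
  have h1 : ‖A 1‖ ≤ ‖A‖ := by simpa using A.le_opNorm 1
  have h2 : ‖A Complex.I‖ ≤ ‖A‖ := by simpa using A.le_opNorm Complex.I
  have h3 : ‖A 1 + c * A Complex.I‖ ≤ ‖A 1‖ + ‖A Complex.I‖ := by
    refine (norm_add_le _ _).trans ?_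
    rw [norm_mul, hc, one_mul]
  have h4 : ‖(2 : ℂ)‖ = 2 := by simp
  rw [h4, div_le_iff₀ (by norm_num)]
  linarith

theorem norm_itd_dz_le {f : ℂ → ℂ} (hD : IsOpen D) (hf : ContDiffOn ℝ ∞ f D) (hz : z ∈ D) (k : ℕ) :
    ‖iteratedFDeriv ℝ k (dz f) z‖ ≤ ‖iteratedFDeriv ℝ (k + 1) f z‖ := by
  have h := itd_clm_le (wirt (-Complex.I)) (norm_wirt_le (by simp)) hD (smooth_fderiv' hD hf) hz k
  rw [one_mul, norm_iteratedFDeriv_fderiv] at h
  have h2 : (fun w => wirt (-Complex.I) (fderiv ℝ f w)) = dz f := by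
    funext w
    rw [wirt_apply, dz, dx, dy]
    ring
  rwa [h2] at h

theorem norm_itd_dzb_le {f : ℂ → ℂ} (hD : IsOpen D) (hf : ContDiffOn ℝ ∞ f D) (hz : z ∈ D) (k : ℕ) :
    ‖iteratedFDeriv ℝ k (dzb f) z‖ ≤ ‖iteratedFDeriv ℝ (k + 1) f z‖ := by
  have h := itd_clm_le (wirt Complex.I) (norm_wirt_le (by simp)) hD (smooth_fderiv' hD hf) hz k
  rw [one_mul, norm_iteratedFDeriv_fderiv] at h
  have h2 : (fun w => wirt Complex.I (fderiv ℝ f w)) = dzb f := by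
    funext w
    rw [wirt_apply, dzb, dx, dy]
  rwa [h2] at h

theorem fderiv_split {f : ℂ → F} (w : ℂ) : fderiv ℝ f w =
    ContinuousLinearMap.smulRightL ℝ ℂ F Complex.reCLM (dx f w) +
      ContinuousLinearMap.smulRightL ℝ ℂ F Complex.imCLM (dy f w) := by
  ext v
  have h : v = v.re • (1 : ℂ) + v.im • Complex.I := by
    apply Complex.ext <;> simp
  conv_lhs => rw [h]
  rw [map_add, map_smul, map_smul]
  rfl

theorem norm_smulRightL_le (L : ℂ →L[ℝ] ℝ) (hL : ‖L‖ ≤ 1) : ‖ContinuousLinearMap.smulRightL ℝ ℂ F L‖ ≤ 1 := by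
  refine ContinuousLinearMap.opNorm_le_bound _ zero_le_one fun y => ?_
  have : ContinuousLinearMap.smulRightL ℝ ℂ F L y = L.smulRight y := rfl
  rw [this, ContinuousLinearMap.norm_smulRight_apply]
  exact mul_le_mul_of_nonneg_right hL (norm_nonneg _)

theorem norm_itd_add_le {f g : ℂ → F} (hD : IsOpen D) (hf : ContDiffOn ℝ ∞ f D) (hg : ContDiffOn ℝ ∞ g D)
    (hz : z ∈ D) (k : ℕ) : ‖iteratedFDeriv ℝ k (fun w => f w + g w) z‖ ≤
      ‖iteratedFDeriv ℝ k f z‖ + ‖iteratedFDeriv ℝ k g z‖ := by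
  have h1 : ContDiffAt ℝ k f z := (hf.contDiffAt (hD.mem_nhds hz)).of_le (by exact_mod_cast le_top)
  have h2 : ContDiffAt ℝ k g z := (hg.contDiffAt (hD.mem_nhds hz)).of_le (by exact_mod_cast le_top)
  have h3 : (fun w => f w + g w) = f + g := rfl
  rw [h3, iteratedFDeriv_add_apply h1 h2]
  exact norm_add_le _ _

theorem norm_itd_succ_le {f : ℂ → F} (hD : IsOpen D) (hf : ContDiffOn ℝ ∞ f D) (hz : z ∈ D) (k : ℕ) :
    ‖iteratedFDeriv ℝ (k + 1) f z‖ ≤ ‖iteratedFDeriv ℝ k (dx f) z‖ + ‖iteratedFDeriv ℝ k (dy f) z‖ := by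
  rw [← norm_iteratedFDeriv_fderiv]
  have h0 : fderiv ℝ f = fun w => ContinuousLinearMap.smulRightL ℝ ℂ F Complex.reCLM (dx f w) +
      ContinuousLinearMap.smulRightL ℝ ℂ F Complex.imCLM (dy f w) := funext fun w => fderiv_split w
  have hx := smooth_dx hD hf
  have hy := smooth_dy hD hf
  have h1 := itd_clm_le (ContinuousLinearMap.smulRightL ℝ ℂ F Complex.reCLM)
    (norm_smulRightL_le _ (by rw [Complex.reCLM_norm])) hD hx hz k
  have h2 := itd_clm_le (ContinuousLinearMap.smulRightL ℝ ℂ F Complex.imCLM)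
    (norm_smulRightL_le _ (by rw [Complex.imCLM_norm])) hD hy hz k
  rw [one_mul] at h1 h2
  rw [h0]
  refine (norm_itd_add_le hD ?_ ?_ hz k).trans (add_le_add h1 h2)
  · exact (ContinuousLinearMap.smulRightL ℝ ℂ F Complex.reCLM).contDiff.comp_contDiffOn hx
  · exact (ContinuousLinearMap.smulRightL ℝ ℂ F Complex.imCLM).contDiff.comp_contDiffOn hy

theorem norm_itd_mul_le {f g : ℂ → ℂ} (hD : IsOpen D) (hf : ContDiffOn ℝ ∞ f D) (hg : ContDiffOn ℝ ∞ g D)
    (hz : z ∈ D) (k : ℕ) : ‖iteratedFDeriv ℝ k (fun w => f w * g w) z‖ ≤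
      ∑ i ∈ Finset.range (k + 1), (k.choose i : ℝ) * ‖iteratedFDeriv ℝ i f z‖ * ‖iteratedFDeriv ℝ (k - i) g z‖ := by
  have h := norm_iteratedFDerivWithin_mul_le hf hg hD.uniqueDiffOn hz (n := k) (by exact_mod_cast le_top)
  rw [iteratedFDerivWithin_of_isOpen k hD hz] at h
  refine h.trans (le_of_eq ?_)
  refine Finset.sum_congr rfl fun i _ => ?_
  rw [iteratedFDerivWithin_of_isOpen i hD hz, iteratedFDerivWithin_of_isOpen (k - i) hD hz]

/-- The scaled product rule: with `C` a bound of `e ^ i * ‖D^i f‖` for `i ≤ k`. -/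
theorem scaled_mul_le {f g : ℂ → ℂ} (hD : IsOpen D) (hf : ContDiffOn ℝ ∞ f D) (hg : ContDiffOn ℝ ∞ g D)
    (hz : z ∈ D) (k : ℕ) {e C : ℝ} (he : 0 < e) (hC : ∀ i ≤ k, e ^ i * ‖iteratedFDeriv ℝ i f z‖ ≤ C) :
    e ^ k * ‖iteratedFDeriv ℝ k (fun w => f w * g w) z‖ ≤
      2 ^ k * C * ∑ i ∈ Finset.range (k + 1), e ^ i * ‖iteratedFDeriv ℝ i g z‖ := by
  have hC0 : 0 ≤ C := le_trans (by positivity) (hC 0 (Nat.zero_le _))
  have h := norm_itd_mul_le hD hf hg hz k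
  calc e ^ k * ‖iteratedFDeriv ℝ k (fun w => f w * g w) z‖
      ≤ e ^ k * ∑ i ∈ Finset.range (k + 1), (k.choose i : ℝ) * ‖iteratedFDeriv ℝ i f z‖ *
          ‖iteratedFDeriv ℝ (k - i) g z‖ := mul_le_mul_of_nonneg_left h (by positivity)
    _ = ∑ i ∈ Finset.range (k + 1), (k.choose i : ℝ) * (e ^ i * ‖iteratedFDeriv ℝ i f z‖) *
          (e ^ (k - i) * ‖iteratedFDeriv ℝ (k - i) g z‖) := by
        rw [Finset.mul_sum]
        refine Finset.sum_congr rfl fun i hi => ?_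
        have hik : i ≤ k := Nat.lt_succ_iff.1 (Finset.mem_range.1 hi)
        have : e ^ k = e ^ i * e ^ (k - i) := by rw [← pow_add, Nat.add_sub_cancel' hik]
        rw [this]
        ring
    _ ≤ ∑ i ∈ Finset.range (k + 1), (2 : ℝ) ^ k * C * (e ^ (k - i) * ‖iteratedFDeriv ℝ (k - i) g z‖) := by
        refine Finset.sum_le_sum fun i hi => ?_
        have hik : i ≤ k := Nat.lt_succ_iff.1 (Finset.mem_range.1 hi)
        have h1 : (k.choose i : ℝ) ≤ 2 ^ k := by exact_mod_cast Nat.choose_le_two_pow k i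
        have h2 := hC i hik
        apply mul_le_mul_of_nonneg_right _ (by positivity)
        exact mul_le_mul h1 h2 (by positivity) (by positivity)
    _ = 2 ^ k * C * ∑ i ∈ Finset.range (k + 1), e ^ i * ‖iteratedFDeriv ℝ i g z‖ := by
        rw [← Finset.mul_sum]
        congr 1
        have := Finset.sum_range_reflect (fun i => e ^ i * ‖iteratedFDeriv ℝ i g z‖) (k + 1)
        rw [← this]
        refine Finset.sum_congr rfl fun i hi => ?_
        have e1 : k + 1 - 1 - i = k - i := by omega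
        rw [e1]

theorem norm_itd_conj {f : ℂ → ℂ} (hD : IsOpen D) (hf : ContDiffOn ℝ ∞ f D) (hz : z ∈ D) (k : ℕ) :
    ‖iteratedFDeriv ℝ k (fun w => conj (f w)) z‖ = ‖iteratedFDeriv ℝ k f z‖ := by
  have h1 : ContDiffAt ℝ k f z := (hf.contDiffAt (hD.mem_nhds hz)).of_le (by exact_mod_cast le_top)
  have h2 := (Complex.conjLIE.toLinearIsometry).norm_iteratedFDeriv_comp_left h1 (i := k) le_rfl
  exact h2

theorem norm_itd_ofReal {u : ℂ → ℝ} (hD : IsOpen D) (hu : ContDiffOn ℝ ∞ u D) (hz : z ∈ D) (k : ℕ) :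
    ‖iteratedFDeriv ℝ k (fun w => (u w : ℂ)) z‖ = ‖iteratedFDeriv ℝ k u z‖ := by
  have h1 : ContDiffAt ℝ k u z := (hu.contDiffAt (hD.mem_nhds hz)).of_le (by exact_mod_cast le_top)
  have h2 := (Complex.ofRealLI).norm_iteratedFDeriv_comp_left h1 (i := k) le_rfl
  exact h2

theorem norm_itd_one {f : ℂ → F} : ‖iteratedFDeriv ℝ 1 f z‖ = ‖fderiv ℝ f z‖ := norm_iteratedFDeriv_one f

theorem norm_dx_le {f : ℂ → F} : ‖dx f z‖ ≤ ‖fderiv ℝ f z‖ := by
  have := (fderiv ℝ f z).le_opNorm 1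
  simpa [dx] using this

theorem norm_dy_le {f : ℂ → F} : ‖dy f z‖ ≤ ‖fderiv ℝ f z‖ := by
  have := (fderiv ℝ f z).le_opNorm Complex.I
  simpa [dy] using this

theorem norm_dz_le {f : ℂ → ℂ} : ‖dz f z‖ ≤ ‖fderiv ℝ f z‖ := by
  have h1 := norm_wirt_le (c := -Complex.I) (by simp)
  have h2 := (wirt (-Complex.I)).le_opNorm (fderiv ℝ f z)
  have h3 : wirt (-Complex.I) (fderiv ℝ f z) = dz f z := by
    rw [wirt_apply, dz, dx, dy]
    ring
  rw [h3] at h2
  exact h2.trans (mul_le_of_le_one_left (norm_nonneg _) h1)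

theorem norm_dzb_le {f : ℂ → ℂ} : ‖dzb f z‖ ≤ ‖fderiv ℝ f z‖ := by
  have h1 := norm_wirt_le (c := Complex.I) (by simp)
  have h2 := (wirt Complex.I).le_opNorm (fderiv ℝ f z)
  have h3 : wirt Complex.I (fderiv ℝ f z) = dzb f z := by
    rw [wirt_apply, dzb, dx, dy]
  rw [h3] at h2
  exact h2.trans (mul_le_of_le_one_left (norm_nonneg _) h1)

/-- Composition with a function all of whose derivatives are bounded: scaled estimate. -/
theorem scaled_comp_le {G : ℝ → ℝ} (hG : ContDiff ℝ ∞ G) (k : ℕ) {A K : ℝ}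
    (hA : ∀ i ≤ k, ∀ t, ‖iteratedFDeriv ℝ i G t‖ ≤ A) (hK : 1 ≤ K) :
    ∀ (D : Set ℂ) (u : ℂ → ℝ) (z : ℂ) (e : ℝ), IsOpen D → ContDiffOn ℝ ∞ u D → z ∈ D → 0 < e →
      (∀ i, 1 ≤ i → i ≤ k → e ^ i * ‖iteratedFDeriv ℝ i u z‖ ≤ K) →
      e ^ k * ‖iteratedFDeriv ℝ k (fun w => ((G (u w) : ℝ) : ℂ)) z‖ ≤ k.factorial * A * K ^ k := by
  intro D u z e hD hu hz he hb
  have hGu : ContDiffOn ℝ ∞ (fun w => G (u w)) D := hG.comp_contDiffOn hu
  rw [norm_itd_ofReal hD hGu hz k]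
  have h := norm_iteratedFDerivWithin_comp_le (g := G) (f := u) (n := k) (s := D) (t := Set.univ) (x := z)
    (N := ∞) hG.contDiffOn hu (by exact_mod_cast le_top) uniqueDiffOn_univ hD.uniqueDiffOn
    (Set.mapsTo_univ _ _) hz (C := A) (D := K / e) (by
      intro i hi
      rw [iteratedFDerivWithin_univ]
      exact hA i hi _) (by
      intro i h1 hi
      rw [iteratedFDerivWithin_of_isOpen i hD hz, div_pow, le_div_iff₀ (by positivity), mul_comm]
      exact (hb i h1 hi).trans (le_self_pow₀ hK (by omega)))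
  rw [iteratedFDerivWithin_of_isOpen k hD hz] at h
  have h2 := mul_le_mul_of_nonneg_left h (pow_pos he k).le
  refine h2.trans (le_of_eq ?_)
  rw [div_pow]
  field_simp

end Pool.Agent.Helper74.CE
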