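import Pool.Agent.Helper74.CE.UxLL
import Pool.Agent.Helper74.CE.Ibp

/-!
# CL-E19: a local sequence satisfies `Ctx`

* `s_LL`: `S = sin (u / 2)` is in `BB` by `BB.comp`; `ex S = (c / 2) ex u`, `ey S = (c / 2) ey u` (`dx_comp_real`, ...;
  `c = cos (u/2)` in `BB`), so `ex S, ey S ∈ LL` by `LL.mul_BB`; by `LL.of_deriv` it remains to consider `k = 0`:
  `‖S‖² = (1 - cos u) / 2 ≤ (ε / (2 c₀)) ed` with `c₀` the lower bound of `a_j` (`aj_low`), so that
  `∫_{ball 0 r} ‖S‖² ≤ (ε / (2 c₀)) E` (`LocSeq.energy`), and the tails are at most `(ε / (2 c₀)) K δ` by `Wells`.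
* `ctx_of_locSeq`: `disc0`: for `r < 2` take `χ` continuous with compact support in `ball 0 2`, `0 ≤ χ`, `χ = 1` on
  `ball 0 r` (e.g. `fun z => max 0 (min 1 ((r' - ‖z‖) / (r' - r)))` with `max r 0 < r' < 2`, or `exists_cutoff` in `Ibp`), and
  `∫_{ball 0 r} |disc| ≤ ∫ χ |disc| → 0` by `Disc0`. (For `r ≤ 0` the set is empty.) Other fields: `aj_bound`, `aj_low`,
  `uc_BB`, `ux_LL`, `uy_LL`, and `LocSeq`.
-/

namespace Pool.Agent.Helper74.CE

open MeasureTheory Filter Topology Metric Pool.Agent.Helper53.CL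
open scoped ContDiff Real

variable {a : ℂ → ℝ} {aj : ℕ → ℂ → ℝ} {ε : ℕ → ℝ} {u : ℕ → ℂ → ℝ}

private theorem cm_bd {f : ℝ → ℝ} (hf : ContDiff ℝ ∞ f) (hb : ∀ (n : ℕ) (x : ℝ), |iteratedDeriv n f x| ≤ 1) (k : ℕ) :
    ∃ C : ℝ, ∀ t, ‖iteratedFDeriv ℝ k (fun t => f (1 / 2 * t)) t‖ ≤ C := by
  refine ⟨1, fun t => ?_⟩
  rw [norm_iteratedFDeriv_eq_norm_iteratedDeriv,
    iteratedDeriv_comp_const_mul (hf.of_le (by exact_mod_cast le_top)) (1 / 2), norm_mul, Real.norm_eq_abs,
    Real.norm_eq_abs, abs_of_nonneg (by positivity)]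
  have h1 : ((1 / 2 : ℝ)) ^ k ≤ 1 := pow_le_one₀ (by norm_num) (by norm_num)
  have h2 := hb k (1 / 2 * t)
  calc (1 / 2 : ℝ) ^ k * |iteratedDeriv k f (1 / 2 * t)| ≤ 1 * 1 :=
        mul_le_mul h1 h2 (abs_nonneg _) zero_le_one
    _ = 1 := one_mul 1

private theorem cm_pt (H : LocSeq a aj ε u) {c : ℝ} (hc : 0 < c) (hlow : ∀ j, ∀ z ∈ ball (0 : ℂ) 2, c ≤ aj j z)
    (j : ℕ) {z : ℂ} (hz : z ∈ ball (0 : ℂ) 2) :
    ‖Sf u j z‖ ^ 2 ≤ ε j * (1 / (2 * c)) * ed (ε j) (aj j) (u j) z := by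
  have h0 := H.eps_pos j
  have h1 : ‖Sf u j z‖ ^ 2 = (1 - Real.cos (u j z)) / 2 := by
    unfold Sf
    rw [Complex.norm_real, Real.norm_eq_abs, sq_abs]
    have h := Real.cos_two_mul (u j z / 2)
    rw [show 2 * (u j z / 2) = u j z by ring] at h
    have h2 := Real.sin_sq_add_cos_sq (u j z / 2)
    linarith
  rw [h1]
  have h2 : 0 ≤ 1 - Real.cos (u j z) := by linarith [Real.cos_le_one (u j z)]
  have h3 : 1 / ε j * (c * (1 - Real.cos (u j z))) ≤ ed (ε j) (aj j) (u j) z := by
    unfold ed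
    have h4 : 0 ≤ ε j / 2 * ‖gr (u j) z‖ ^ 2 := by positivity
    have h5 : 1 / ε j * (c * (1 - Real.cos (u j z))) ≤ 1 / ε j * (aj j z * (1 - Real.cos (u j z))) := by
      have := hlow j z hz
      gcongr
    linarith
  calc (1 - Real.cos (u j z)) / 2 = ε j * (1 / (2 * c)) * (1 / ε j * (c * (1 - Real.cos (u j z)))) := by
        field_simp
    _ ≤ _ := by gcongr

private theorem cm_ed_cont (H : LocSeq a aj ε u) (j : ℕ) :
    ContinuousOn (ed (ε j) (aj j) (u j)) (ball 0 3) := by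
  have hD : IsOpen (ball (0 : ℂ) 3) := isOpen_ball
  have hu := (H.sol j).smooth
  have hf : ContinuousOn (fderiv ℝ (u j)) (ball 0 3) :=
    (hu.of_le (by simp : (1 : WithTop ℕ∞) ≤ ∞)).continuousOn_fderiv_of_isOpen hD le_rfl
  have h1 : ContinuousOn (dx (u j)) (ball 0 3) := hf.clm_apply continuousOn_const
  have h2 : ContinuousOn (dy (u j)) (ball 0 3) := hf.clm_apply continuousOn_const
  have e : ed (ε j) (aj j) (u j) = fun z => ε j / 2 * (dx (u j) z ^ 2 + dy (u j) z ^ 2) +
      1 / ε j * (aj j z * (1 - Real.cos (u j z))) := by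
    funext z
    unfold ed
    rw [norm_gr_sq]
  rw [e]
  exact (continuousOn_const.mul ((h1.pow 2).add (h2.pow 2))).add (continuousOn_const.mul
    ((H.aj_smooth j).continuousOn.mul (continuousOn_const.sub
      (Real.continuous_cos.comp_continuousOn hu.continuousOn))))

private theorem cm_ed_nonneg (H : LocSeq a aj ε u) (j : ℕ) {z : ℂ} (hz : z ∈ ball (0 : ℂ) 3) :
    0 ≤ ed (ε j) (aj j) (u j) z := by
  have h0 := H.eps_pos j
  have h1 := H.aj_pos j z hz
  have h2 : 0 ≤ 1 - Real.cos (u j z) := by linarith [Real.cos_le_one (u j z)]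
  unfold ed
  positivity

/-- Comparison of the integrals of the square of `S` with the energy. -/
private theorem cm_int (H : LocSeq a aj ε u) {c : ℝ} (hc : 0 < c) (hlow : ∀ j, ∀ z ∈ ball (0 : ℂ) 2, c ≤ aj j z)
    (j : ℕ) {A : Set ℂ} (hA : MeasurableSet A) (hA2 : A ⊆ ball 0 2) :
    ∫ z in A, ‖Sf u j z‖ ^ 2 ≤ ε j * (1 / (2 * c)) * ∫ z in A, ed (ε j) (aj j) (u j) z := by
  rw [← integral_const_mul]
  have hi : IntegrableOn (ed (ε j) (aj j) (u j)) A :=
    (integrableOn_ball (cm_ed_cont H j) (r := 2) (by norm_num)).mono_set hA2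
  refine integral_mono_of_nonneg (Eventually.of_forall fun z => by positivity) (hi.const_mul _) ?_
  refine (ae_restrict_iff' hA).mpr (Eventually.of_forall fun z hz => ?_)
  exact cm_pt H hc hlow j (hA2 hz)

theorem s_LL (hB : Iface.Bnd2) (hW : Iface.Wells) (H : LocSeq a aj ε u) : LL atTop ε u (Sf u) := by
  have h0 := H.eps_pos
  have hus : ∀ i, ContDiffOn ℝ ∞ (u i) (ball 0 3) := fun i => (H.sol i).smooth
  have hu : ∀ i, ContinuousOn (u i) (ball 0 3) := fun i => (hus i).continuousOn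
  have eS : Sf u = fun i z => (((fun t : ℝ => Real.sin (1 / 2 * t)) (u i z) : ℝ) : ℂ) := by
    funext i z
    unfold Sf
    simp only
    congr 2
    ring
  have eC : (fun i z => (((fun t : ℝ => Real.cos (1 / 2 * t)) (u i z) : ℝ) : ℂ)) = cf u := by
    funext i z
    unfold cf
    simp only
    congr 2
    ring
  have hSB : BB atTop ε (Sf u) := by
    rw [eS]
    exact BB.comp h0 (uc_BB H) hus (Real.contDiff_sin.comp (contDiff_const.mul contDiff_id))
      (cm_bd Real.contDiff_sin Real.abs_iteratedDeriv_sin_le_one)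
  have hCB : BB atTop ε (cf u) := by
    rw [← eC]
    exact BB.comp h0 (uc_BB H) hus (Real.contDiff_cos.comp (contDiff_const.mul contDiff_id))
      (cm_bd Real.contDiff_cos Real.abs_iteratedDeriv_cos_le_one)
  have hC2 : BB atTop ε (fun i z => (1 / 2 : ℂ) * cf u i z) := BB.const_mul h0 hCB _
  have hd : ∀ (i : ℕ) {z : ℂ}, z ∈ ball (0 : ℂ) 3 → DifferentiableAt ℝ (u i) z := fun i z hz =>
    ((hus i).contDiffAt (isOpen_ball.mem_nhds hz)).differentiableAt (by simp)
  have hder : ∀ t : ℝ, HasDerivAt (fun t : ℝ => Real.sin (t / 2)) (Real.cos (t / 2) * (1 / 2)) t := by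
    intro t
    exact (Real.hasDerivAt_sin (t / 2)).comp t ((hasDerivAt_id t).div_const 2)
  have hexS : LL atTop ε u (ex ε (Sf u)) := by
    refine (LL.mul_BB h0 hu hC2 (ux_LL hB hW H)).congr fun i z hz => ?_
    have h1 : DifferentiableAt ℝ (fun w => Real.sin (u i w / 2)) z :=
      ((hder (u i z)).comp_hasFDerivAt z (hd i hz).hasFDerivAt).differentiableAt
    unfold ex uc Sf cf
    rw [dx_ofReal (hd i hz), dx_ofReal h1, dx_comp_real (hder (u i z)) (hd i hz)]
    push_cast
    ring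
  have heyS : LL atTop ε u (ey ε (Sf u)) := by
    refine (LL.mul_BB h0 hu hC2 (uy_LL hB hW H)).congr fun i z hz => ?_
    have h1 : DifferentiableAt ℝ (fun w => Real.sin (u i w / 2)) z :=
      ((hder (u i z)).comp_hasFDerivAt z (hd i hz).hasFDerivAt).differentiableAt
    unfold ey uc Sf cf
    rw [dy_ofReal (hd i hz), dy_ofReal h1, dy_comp_real (hder (u i z)) (hd i hz)]
    push_cast
    ring
  obtain ⟨c, hc, hlow⟩ := aj_low H
  obtain ⟨E, hE⟩ := H.energy
  refine LL.of_deriv h0 hu hSB hexS heyS (fun r hr => ⟨1 / (2 * c) * E, Eventually.of_forall fun i => ?_⟩)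
    fun r hr η hη => ?_
  · have h1 := cm_int H hc hlow i (A := ball 0 r) measurableSet_ball (ball_subset_ball hr.le)
    have h2 : ∫ z in ball (0 : ℂ) r, ed (ε i) (aj i) (u i) z ≤ E := by
      refine le_trans ?_ (hE i)
      refine setIntegral_mono_set (integrableOn_ball (cm_ed_cont H i) (by norm_num)) ?_
        (ball_subset_ball hr.le).eventuallyLE
      refine (ae_restrict_iff' measurableSet_ball).mpr (Eventually.of_forall fun z hz => ?_)
      exact cm_ed_nonneg H i (ball_subset_ball (by norm_num) hz)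
    have h3 := h0 i
    calc _ ≤ ε i * (1 / (2 * c)) * ∫ z in ball (0 : ℂ) r, ed (ε i) (aj i) (u i) z := h1
      _ ≤ ε i * (1 / (2 * c)) * E := by gcongr
      _ = 1 / (2 * c) * E * ε i := by ring
  · obtain ⟨K, hK⟩ := hW a aj ε u H r hr
    set δ : ℝ := min (1 / 2) (η * (2 * c) / (|K| + 1)) with hδdef
    have hδ0 : 0 < δ := lt_min (by norm_num) (by positivity)
    have hδ1 : δ < 1 := lt_of_le_of_lt (min_le_left _ _) (by norm_num)
    refine ⟨δ, hδ0, ?_⟩
    filter_upwards [hK δ ⟨hδ0, hδ1⟩] with i hi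
    have h1 := cm_int H hc hlow i (A := ball (0 : ℂ) r ∩ {z | 1 - Real.cos (u i z) < δ ^ 2})
      (measurableSet_tail (hu i) (by linarith) _) (Set.inter_subset_left.trans (ball_subset_ball hr.le))
    have h3 := h0 i
    refine h1.trans ?_
    calc ε i * (1 / (2 * c)) * ∫ z in ball (0 : ℂ) r ∩ {z | 1 - Real.cos (u i z) < δ ^ 2}, ed (ε i) (aj i) (u i) z
        ≤ ε i * (1 / (2 * c)) * (|K| * δ) := by
          gcongr
          exact hi.trans (by gcongr; exact le_abs_self K)
      _ ≤ ε i * (1 / (2 * c)) * (|K| * (η * (2 * c) / (|K| + 1))) := by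
          gcongr
          exact min_le_right _ _
      _ = ε i * (η * (|K| / (|K| + 1))) := by field_simp
      _ ≤ ε i * (η * 1) := by
          gcongr
          rw [div_le_one (by positivity)]
          linarith
      _ = η * ε i := by ring

theorem ctx_of_locSeq (hB : Iface.Bnd2) (hD : Iface.Disc0) (hW : Iface.Wells) (H : LocSeq a aj ε u)
    {μ : Measure ℂ} [IsFiniteMeasure μ] (hE : EConv aj ε u μ) : Ctx atTop ε aj u := by
  obtain ⟨M, hM⟩ := aj_bound H
  obtain ⟨c, hc, hlow⟩ := aj_low H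
  refine
    { eps_pos := H.eps_pos
      eps_lim := H.eps_lim
      a_smooth := H.aj_smooth
      a_pos := H.aj_pos
      sol := H.sol
      a_bd := fun k => ⟨M k, Eventually.of_forall fun i z hz => hM k i z hz⟩
      a_low := ⟨c, hc, Eventually.of_forall fun i z hz => hlow i z hz⟩
      u_bb := uc_BB H
      ux_ll := ux_LL hB hW H
      uy_ll := uy_LL hB hW H
      s_ll := s_LL hB hW H
      disc0 := fun r hr => ?_ }
  obtain ⟨χ, hχ1, hχ2, -, hχ4, hχ5, hχ6⟩ := exists_cutoff hr (by norm_num : (0 : ℝ) < 2)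
  have h := hD a aj ε u μ H hE inferInstance χ hχ1.continuous hχ5 hχ6
  have hdc : ∀ j, ContinuousOn (fun z => |disc (ε j) (aj j) (u j) z|) (ball 0 3) := by
    intro j
    have hu := (H.sol j).smooth
    have e : disc (ε j) (aj j) (u j) = fun z => ed (ε j) (aj j) (u j) z -
        2 * (1 / ε j * (aj j z * (1 - Real.cos (u j z)))) := by
      funext z
      unfold disc ed
      ring
    rw [e]
    exact ((cm_ed_cont H j).sub (continuousOn_const.mul (continuousOn_const.mul
      ((H.aj_smooth j).continuousOn.mul (continuousOn_const.sub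
        (Real.continuous_cos.comp_continuousOn hu.continuousOn)))))).abs
  refine squeeze_zero (fun j => setIntegral_nonneg measurableSet_ball fun z _ => abs_nonneg _)
    (fun j => ?_) h
  have hi : Integrable fun z => χ z * |disc (ε j) (aj j) (u j) z| := by
    have h1 : IntegrableOn (fun z => χ z * |disc (ε j) (aj j) (u j) z|) (ball (0 : ℂ) 2) :=
      integrableOn_ball (hχ1.continuous.continuousOn.mul (hdc j)) (by norm_num)
    refine (integrableOn_iff_integrable_of_support_subset ?_).mp h1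
    intro z hz
    have h2 : z ∈ Function.support χ := fun h => hz (by simp [h])
    exact hχ6 (subset_tsupport χ h2)
  calc ∫ z in ball (0 : ℂ) r, |disc (ε j) (aj j) (u j) z| =
      ∫ z in ball (0 : ℂ) r, χ z * |disc (ε j) (aj j) (u j) z| := by
        refine setIntegral_congr_fun measurableSet_ball fun z hz => ?_
        rw [hχ4 z (ball_subset_closedBall hz), one_mul]
    _ ≤ _ := setIntegral_le_integral hi (Eventually.of_forall fun z => mul_nonneg (hχ2 z) (abs_nonneg _))

end Pool.Agent.Helper74.CE
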