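import Pool.Agent.Helper74.CE.BAs

/-!
# CL-E25: the leading term of `D_n`: `D_n ≡ (α / 8) R_{n-2} g_n(c)` modulo `ZZ`, for `n ≥ 2`

`D_0 = D_1 = 0` (`Dn_zero`, `Dn_one`), `g_0 = g_1 = 0`. Strong induction on `n ≥ 1` for the statement at `n + 1`. By
`Dn_succ`, `D_{n+1} = ez D_n + P ∑_{i+j=n} Q_i D_j + α B_{n-1} / 8` (`n ≥ 1`).
* `n = 1`: `D_1 = 0`, the terms of the sum vanish (`Q_0 = 0`, `D_0 = 0`), `D_2 = α B_0 / 8 ≡ (α/8) R_0 · 2 c` and
  `g_2 = 2 c` (`gp_succ`).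
* `n ≥ 2`: `α B_{n-1} / 8 ≡ (α/8) R_{n-1} · 2 (n c^n - (n-1) c^{n-2})` (`Bf_as`).
  `ez D_n ≡ ez ((α/8) R_{n-2} g_n(c)) = (ez α / 8) R_{n-2} g_n(c) + (α/8) (ez R_{n-2} g_n(c) - R_{n-2} (S/2) P g_n'(c))
  ≡ (α/8) R_{n-1} (c g_n(c) - (1 - c²) g_n'(c))` (`ZZ.of_slow` with `Ctx.slow_al`, `ez_Rn`, `ez_pc`, `Rn_SP`, `Sf_sq`).
  For `i ≥ 1`, `j ≥ 2`, `i + j = n`: `P Q_i D_j ≡ P R_i c^{i-1} (α/8) R_{j-2} g_j(c) = (α/8) 2 c^{i-1} g_j(c) (P/2) R_i R_{j-2}
  ≡ (α/8) 2 (1 - c²) c^{i-1} g_j(c) R_{n-1}` (`P_Rn_Rn`, `i + (j-2) + 1 = n - 1`; replace `Q_i`, then `D_j`: `ZZ · BB`). For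
  `i = 0` or `j ≤ 1` both sides are `0`.
The sum is `(α/8) R_{n-1} g_{n+1}(c)` by `gp_succ` (evaluate the polynomials: `pc` is additive and multiplicative in the
polynomial).
-/

namespace Pool.Agent.Helper74.CE

open MeasureTheory Filter Topology Metric Pool.Agent.Helper53.CL
open scoped ContDiff Real

variable {ι : Type*} {𝓕 : Filter ι} {ε : ι → ℝ} {a u : ι → ℂ → ℝ} {mm : ι → ℂ → ℂ}

/-- The leading term of `D_n`. -/
private noncomputable def dE (ε : ι → ℝ) (a u : ι → ℂ → ℝ) (mm : ι → ℂ → ℂ) (n : ℕ) : ι → ℂ → ℂ := fun i z =>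
  al a i z / 8 * (Rn ε a u mm (n - 2) i z * pc (gp n) u i z)

private theorem dE_LL (H : Ctm 𝓕 ε a u mm) (n : ℕ) : LL 𝓕 ε u (dE ε a u mm n) := by
  have h0 := H.eps_pos
  have hu := H.toCtx.hu
  have b1 : BB 𝓕 ε (fun i z => (1 / 8 : ℂ) * (pc (gp n) u i z * al a i z)) :=
    BB.const_mul h0 (BB.mul h0 (H.toCtx.bb_pc (gp n)) H.toCtx.slow_al.1) _
  refine (LL.mul_BB h0 hu b1 (ll_Rn H (n - 2))).congr fun i z _ => ?_
  unfold dE
  ring

private theorem Df_LL_of (H : Ctm 𝓕 ε a u mm) {n : ℕ}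
    (h : ZZ 𝓕 ε u (fun i z => Df ε a u n i z - dE ε a u mm n i z)) : LL 𝓕 ε u (Df ε a u n) :=
  (LL.add H.eps_pos H.toCtx.hu h.1 (dE_LL H n)).congr fun i z _ => by ring

private theorem das_zero (n : ℕ) (hn : gp n = 0) (i : ι) (z : ℂ) : dE ε a u mm n i z = 0 := by
  unfold dE pc
  rw [hn]
  simp

private theorem das_ez (H : Ctm 𝓕 ε a u mm) {n : ℕ} (hn : 2 ≤ n) :
    ZZ 𝓕 ε u (fun i z => ez ε (dE ε a u mm n) i z - al a i z / 8 * (Rn ε a u mm (n - 1) i z *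
      pc (Polynomial.X * gp n - (1 - Polynomial.X ^ 2) * Polynomial.derivative (gp n)) u i z)) := by
  have h0 := H.eps_pos
  have hu := H.toCtx.hu
  have bal := H.toCtx.slow_al.1
  have bR := (ll_Rn H (n - 2)).1
  have bp := H.toCtx.bb_pc (gp n)
  have bp' := H.toCtx.bb_pc (Polynomial.derivative (gp n))
  have e1 : n - 2 + 1 = n - 1 := by omega
  have z1 : ZZ 𝓕 ε u (fun i z => ez ε (al a) i z * ((1 / 8 : ℂ) * (pc (gp n) u i z * Rn ε a u mm (n - 2) i z))) :=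
    ZZ.of_slow h0 hu H.toCtx.slow_al (LL.const_mul h0 hu (LL.mul_BB h0 hu bp (ll_Rn H (n - 2))) _)
  have z2 := ZZ.mul_BB h0 hu (BB.const_mul h0 (BB.mul h0 bal bp) (1 / 8)) (ez_Rn H (n - 2))
  have z3 := ZZ.mul_BB h0 hu (BB.const_mul h0 (BB.mul h0 bal bp') (1 / 8)) (Rn_SP H (n - 2))
  rw [e1] at z2 z3
  refine (ZZ.sub h0 hu (ZZ.add h0 hu z1 z2) z3).congr fun i z hz => ?_
  have d1 : ez ε (dE ε a u mm n) i z = ez ε (al a) i z * (1 / 8 * (Rn ε a u mm (n - 2) i z * pc (gp n) u i z)) +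
      al a i z * (1 / 8 * (ez ε (Rn ε a u mm (n - 2)) i z * pc (gp n) u i z +
        Rn ε a u mm (n - 2) i z * -(pc (Polynomial.derivative (gp n)) u i z * (Sf u i z / 2 * Pf ε u i z)))) := by
    rw [← ez_pc H.toCtx (gp n) i hz, ← ez_mul bR.1 bp.1 i hz, ← ez_const_mul,
      ← ez_mul bal.1 (BB.const_mul h0 (BB.mul h0 bR bp) (1 / 8)).1 i hz]
    apply ez_congr _ i hz
    intro i z _
    unfold dE
    ring
  have d2 : pc (Polynomial.X * gp n - (1 - Polynomial.X ^ 2) * Polynomial.derivative (gp n)) u i z =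
      cf u i z * pc (gp n) u i z - Sf u i z ^ 2 * pc (Polynomial.derivative (gp n)) u i z := by
    rw [Sf_sq]
    unfold pc cf
    simp
  rw [d1, d2]
  ring

private theorem das_prod (H : Ctm 𝓕 ε a u mm) {n : ℕ} (ih : ∀ k ≤ n, ZZ 𝓕 ε u
      (fun i z => Df ε a u k i z - dE ε a u mm k i z)) {p : ℕ × ℕ} (hp : p.1 + p.2 = n) :
    ZZ 𝓕 ε u (fun i z => Pf ε u i z * (Qf ε u p.1 i z * Df ε a u p.2 i z) -
      al a i z / 8 * (Rn ε a u mm (n - 1) i z * pc (2 * (1 - Polynomial.X ^ 2) *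
        ((if p.1 = 0 then 0 else Polynomial.X ^ (p.1 - 1)) * gp p.2)) u i z)) := by
  have h0 := H.eps_pos
  have hu := H.toCtx.hu
  obtain ⟨j, k⟩ := p
  change j + k = n at hp
  change ZZ 𝓕 ε u (fun i z => Pf ε u i z * (Qf ε u j i z * Df ε a u k i z) -
      al a i z / 8 * (Rn ε a u mm (n - 1) i z * pc (2 * (1 - Polynomial.X ^ 2) *
        ((if j = 0 then 0 else Polynomial.X ^ (j - 1)) * gp k)) u i z))
  rcases Nat.eq_zero_or_pos j with hj | hj
  · refine (ZZ.zero h0).congr fun i z _ => ?_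
    subst hj
    have e : Qf ε u 0 i z = 0 := by
      unfold Qf
      rw [Qn_zero]
    rw [e, if_pos rfl]
    unfold pc
    simp
  rcases Nat.lt_or_ge k 2 with hk | hk
  · refine (ZZ.zero h0).congr fun i z _ => ?_
    have e : Df ε a u k i z = 0 := by
      unfold Df
      interval_cases k
      · rw [Dn_zero]
      · rw [Dn_one]
    have e' : gp k = 0 := by
      interval_cases k
      · exact gp_zero
      · exact gp_one
    rw [e, e']
    unfold pc
    simp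
  have bP := H.toCtx.bb_P
  have bD := (Df_LL_of H (ih k (by omega))).1
  have bR := (ll_Rn H j).1
  have bc := BB.pow h0 H.toCtx.bb_c (j - 1)
  have bal := H.toCtx.slow_al.1
  have bp := H.toCtx.bb_pc (gp k)
  have z1 := ZZ.mul_BB h0 hu (BB.mul h0 bP bD) (Qf_as H (n := j) hj)
  have z2 := ZZ.mul_BB h0 hu (BB.mul h0 bP (BB.mul h0 bR bc)) (ih k (by omega))
  have z3 := ZZ.mul_BB h0 hu (BB.const_mul h0 (BB.mul h0 bal (BB.mul h0 bc bp)) (1 / 4)) (P_Rn_Rn H j (k - 2))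
  have e1 : j + (k - 2) + 1 = n - 1 := by omega
  rw [e1] at z3
  refine (ZZ.add h0 hu (ZZ.add h0 hu z1 z2) z3).congr fun i z _ => ?_
  have d2 : pc (2 * (1 - Polynomial.X ^ 2) * ((if j = 0 then 0 else Polynomial.X ^ (j - 1)) * gp k)) u i z =
      2 * Sf u i z ^ 2 * (cf u i z ^ (j - 1) * pc (gp k) u i z) := by
    rw [if_neg (by omega), Sf_sq]
    unfold pc cf
    simp
  rw [d2]
  unfold dE
  ring

private theorem das_step (H : Ctm 𝓕 ε a u mm) {n : ℕ} (hn : 1 ≤ n) (ih : ∀ k ≤ n, ZZ 𝓕 ε u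
      (fun i z => Df ε a u k i z - dE ε a u mm k i z)) :
    ZZ 𝓕 ε u (fun i z => Df ε a u (n + 1) i z - dE ε a u mm (n + 1) i z) := by
  have h0 := H.eps_pos
  have hu := H.toCtx.hu
  have bal := H.toCtx.slow_al.1
  have z1 := ZZ.ez h0 H.eps_lim hu (ih n le_rfl)
  have z2 : ZZ 𝓕 ε u (fun i z => ez ε (dE ε a u mm n) i z - al a i z / 8 * (Rn ε a u mm (n - 1) i z *
      pc (Polynomial.X * gp n - (1 - Polynomial.X ^ 2) * Polynomial.derivative (gp n)) u i z)) := by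
    rcases Nat.lt_or_ge n 2 with h2 | h2
    · have h1 : n = 1 := by omega
      subst h1
      refine (ZZ.zero h0).congr fun i z hz => ?_
      have e : ez ε (dE ε a u mm 1) i z = 0 := by
        have e1 : ez ε (dE ε a u mm 1) i z = ez ε (fun i z => (0 : ℂ) * (0 : ℂ)) i z := by
          apply ez_congr _ i hz
          intro i z _
          rw [das_zero 1 gp_one, mul_zero]
        rw [e1, ez_const_mul, zero_mul]
      rw [e, gp_one]
      unfold pc
      simp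
    · exact das_ez H h2
  have z3 := ZZ.sum h0 hu (Finset.HasAntidiagonal.antidiagonal n) (fun p hp => das_prod H ih
    (Finset.HasAntidiagonal.mem_antidiagonal.1 hp))
  have z4 := ZZ.mul_BB h0 hu (BB.const_mul h0 bal (1 / 8)) (Bf_as H (n - 1))
  refine (ZZ.add h0 hu (ZZ.add h0 hu (ZZ.add h0 hu z1 z2) z3) z4).congr fun i z hz => ?_
  have s1 : Sm (Df ε a u n) := (Df_LL_of H (ih n le_rfl)).1.1
  have s2 : Sm (dE ε a u mm n) := (dE_LL H n).1.1
  have d1 : Df ε a u (n + 1) i z = ez ε (Df ε a u n) i z +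
      Pf ε u i z * (∑ p ∈ Finset.HasAntidiagonal.antidiagonal n, Qf ε u p.1 i z * Df ε a u p.2 i z) +
      al a i z * Bf ε u (n - 1) i z / 8 := by
    have := Dn_succ (e := ε i) (a := a i) (u := u i) n z
    rw [if_neg (by omega)] at this
    exact this
  have d2 : dE ε a u mm (n + 1) i z = al a i z / 8 * (Rn ε a u mm (n - 1) i z *
      (pc (Polynomial.X * gp n - (1 - Polynomial.X ^ 2) * Polynomial.derivative (gp n)) u i z +
        ∑ p ∈ Finset.HasAntidiagonal.antidiagonal n, pc (2 * (1 - Polynomial.X ^ 2) *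
          ((if p.1 = 0 then 0 else Polynomial.X ^ (p.1 - 1)) * gp p.2)) u i z +
        2 * ((n : ℂ) * cf u i z ^ n - ((n - 1 : ℕ) : ℂ) * cf u i z ^ (n - 2)))) := by
    have e1 : n + 1 - 2 = n - 1 := by omega
    have e2 : pc (gp (n + 1)) u i z =
      pc (Polynomial.X * gp n - (1 - Polynomial.X ^ 2) * Polynomial.derivative (gp n)) u i z +
        ∑ p ∈ Finset.HasAntidiagonal.antidiagonal n, pc (2 * (1 - Polynomial.X ^ 2) *
          ((if p.1 = 0 then 0 else Polynomial.X ^ (p.1 - 1)) * gp p.2)) u i z +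
        2 * ((n : ℂ) * cf u i z ^ n - ((n - 1 : ℕ) : ℂ) * cf u i z ^ (n - 2)) := by
      rw [gp_succ, if_neg (by omega : ¬ n = 0), Finset.mul_sum]
      unfold pc cf
      rw [Polynomial.eval_add, Polynomial.eval_add, Polynomial.eval_finset_sum, Complex.ofReal_add,
        Complex.ofReal_add, Complex.ofReal_sum]
      congr 1
      simp
    unfold dE
    rw [e1, e2]
  have d3 : ((n - 1 : ℕ) : ℂ) + 1 = n := by
    have : n - 1 + 1 = n := by omega
    exact_mod_cast this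
  have d4 : n - 1 + 1 = n := by omega
  have d5 : n - 1 - 1 = n - 2 := by omega
  have d6 : ez ε (fun i z => Df ε a u n i z - dE ε a u mm n i z) i z =
      ez ε (Df ε a u n) i z - ez ε (dE ε a u mm n) i z := ez_sub s1 s2 i hz
  rw [d1, d2, d3, d4, d5, d6, Finset.sum_sub_distrib, ← Finset.mul_sum, ← Finset.mul_sum, ← Finset.mul_sum]
  ring

private theorem das_all (H : Ctm 𝓕 ε a u mm) (n : ℕ) :
    ZZ 𝓕 ε u (fun i z => Df ε a u n i z - dE ε a u mm n i z) := by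
  induction n using Nat.strong_induction_on with
  | _ n ih =>
    rcases n with _ | n
    · refine (ZZ.zero H.eps_pos).congr fun i z _ => ?_
      rw [das_zero 0 gp_zero]
      unfold Df
      rw [Dn_zero]
      simp
    · rcases Nat.eq_zero_or_pos n with hn | hn
      · subst hn
        refine (ZZ.zero H.eps_pos).congr fun i z _ => ?_
        rw [das_zero 1 gp_one]
        unfold Df
        rw [Dn_one]
        simp
      · exact das_step H hn fun k hk => ih k (by omega)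

theorem Df_as (H : Ctm 𝓕 ε a u mm) {n : ℕ} (hn : 2 ≤ n) :
    ZZ 𝓕 ε u (fun i z => Df ε a u n i z - al a i z / 8 * (Rn ε a u mm (n - 2) i z * pc (gp n) u i z)) :=
  das_all H n

theorem Df_LL (H : Ctm 𝓕 ε a u mm) (n : ℕ) : LL 𝓕 ε u (Df ε a u n) := Df_LL_of H (das_all H n)

end Pool.Agent.Helper74.CE
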