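import Pool.Agent.Helper53.CL.Iface

/-!
# Project CL (MP_6f990d_gt), block E (conservation laws of the limit): common definitions

The index type `ι` with its filter `𝓕` is arbitrary (`ℕ` with `atTop`, or `ℕ × ℕ` with `atTop.curry atTop`).
A *family* is a map `g : ι → ℂ → ℂ`.  All estimates are at scale `ε`.

* `BB` : smooth families whose scaled derivatives `ε^k D^k g` are bounded on `ball 0 2`;
* `LL` : families of `BB` whose scaled derivatives are, in addition, square integrable for `dx / ε`, with small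
  contribution of the points where `u` is near the wells;
* `LB` : families of products of two families of `LL`: bounded in `L^1(dx / ε)`;
* `Neg`: families which are negligible in `L^1(dx / ε)`;
* `ZZ` : families of `LL` which are negligible in `L^2(dx / ε)`.
-/

namespace Pool.Agent.Helper74.CE

open MeasureTheory Filter Topology Metric Pool.Agent.Helper53.CL
open scoped ContDiff Real

section Families

variable {ι : Type*}

/-- Families of functions, smooth on the disc of radius `3`. -/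
def Sm (g : ι → ℂ → ℂ) : Prop := ∀ i, ContDiffOn ℝ ∞ (g i) (ball 0 3)

/-- The scaled derivatives. -/
noncomputable def ex (ε : ι → ℝ) (g : ι → ℂ → ℂ) : ι → ℂ → ℂ := fun i z => ε i * dx (g i) z

/-- The scaled derivatives. -/
noncomputable def ey (ε : ι → ℝ) (g : ι → ℂ → ℂ) : ι → ℂ → ℂ := fun i z => ε i * dy (g i) z

/-- The scaled derivatives. -/
noncomputable def ez (ε : ι → ℝ) (g : ι → ℂ → ℂ) : ι → ℂ → ℂ := fun i z => ε i * dz (g i) z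

/-- The scaled derivatives. -/
noncomputable def ezb (ε : ι → ℝ) (g : ι → ℂ → ℂ) : ι → ℂ → ℂ := fun i z => ε i * dzb (g i) z

/-- Bounded families. -/
def BB (𝓕 : Filter ι) (ε : ι → ℝ) (g : ι → ℂ → ℂ) : Prop :=
  Sm g ∧ ∀ k : ℕ, ∃ C : ℝ, ∀ᶠ i in 𝓕, ∀ z ∈ ball (0 : ℂ) 2, ε i ^ k * ‖iteratedFDeriv ℝ k (g i) z‖ ≤ C

/-- Bounded families with small derivative. -/
def Slow (𝓕 : Filter ι) (ε : ι → ℝ) (g : ι → ℂ → ℂ) : Prop :=
  BB 𝓕 ε g ∧ ∀ η > 0, ∀ᶠ i in 𝓕, ∀ z ∈ ball (0 : ℂ) 2, √(ε i) * ‖fderiv ℝ (g i) z‖ ≤ η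

/-- Families of linear type. -/
def LL (𝓕 : Filter ι) (ε : ι → ℝ) (u : ι → ℂ → ℝ) (g : ι → ℂ → ℂ) : Prop :=
  BB 𝓕 ε g ∧ ∀ k : ℕ, ∀ r < 2,
    (∃ C : ℝ, ∀ᶠ i in 𝓕, ∫ z in ball (0 : ℂ) r, (ε i ^ k * ‖iteratedFDeriv ℝ k (g i) z‖) ^ 2 ≤ C * ε i) ∧
    ∀ η > 0, ∃ δ > 0, ∀ᶠ i in 𝓕,
      ∫ z in ball (0 : ℂ) r ∩ {z | 1 - Real.cos (u i z) < δ ^ 2},
        (ε i ^ k * ‖iteratedFDeriv ℝ k (g i) z‖) ^ 2 ≤ η * ε i

/-- Negligible families (in `L^1(dx / ε)`). -/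
def Neg (𝓕 : Filter ι) (ε : ι → ℝ) (g : ι → ℂ → ℂ) : Prop :=
  (∀ i, ContinuousOn (g i) (ball 0 3)) ∧
    ∀ r < 2, Tendsto (fun i => (∫ z in ball (0 : ℂ) r, ‖g i z‖) / ε i) 𝓕 (𝓝 0)

/-- Families of linear type, negligible in `L^2(dx / ε)`. -/
def ZZ (𝓕 : Filter ι) (ε : ι → ℝ) (u : ι → ℂ → ℝ) (g : ι → ℂ → ℂ) : Prop :=
  LL 𝓕 ε u g ∧ ∀ r < 2, Tendsto (fun i => (∫ z in ball (0 : ℂ) r, ‖g i z‖ ^ 2) / ε i) 𝓕 (𝓝 0)

/-- Families bounded in `L^1(dx / ε)`, with all their scaled derivatives. -/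
def LB (𝓕 : Filter ι) (ε : ι → ℝ) (g : ι → ℂ → ℂ) : Prop :=
  Sm g ∧ ∀ k : ℕ, ∀ r < 2, ∃ C : ℝ, ∀ᶠ i in 𝓕,
    ∫ z in ball (0 : ℂ) r, ε i ^ k * ‖iteratedFDeriv ℝ k (g i) z‖ ≤ C * ε i

/-- `u` as a complex family. -/
def uc (u : ι → ℂ → ℝ) : ι → ℂ → ℂ := fun i z => (u i z : ℂ)

/-- `P = ε ∂ u`. -/
noncomputable def Pf (ε : ι → ℝ) (u : ι → ℂ → ℝ) : ι → ℂ → ℂ := ez ε (uc u)

/-- `S = sin (u / 2)`. -/
noncomputable def Sf (u : ι → ℂ → ℝ) : ι → ℂ → ℂ := fun i z => (Real.sin (u i z / 2) : ℂ)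

/-- `c = cos (u / 2)`. -/
noncomputable def cf (u : ι → ℂ → ℝ) : ι → ℂ → ℂ := fun i z => (Real.cos (u i z / 2) : ℂ)

/-- The general situation: solutions `u` of `ε^2 Δ u = a sin u` with all the estimates. -/
structure Ctx (𝓕 : Filter ι) (ε : ι → ℝ) (a u : ι → ℂ → ℝ) : Prop where
  eps_pos : ∀ i, 0 < ε i
  eps_lim : Tendsto ε 𝓕 (𝓝 0)
  a_smooth : ∀ i, ContDiffOn ℝ ∞ (a i) (ball 0 3)
  a_pos : ∀ i, ∀ z ∈ ball (0 : ℂ) 3, 0 < a i z
  sol : ∀ i, LSol (ball 0 3) (ε i) (a i) (u i)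
  a_bd : ∀ k : ℕ, ∃ C : ℝ, ∀ᶠ i in 𝓕, ∀ z ∈ ball (0 : ℂ) 2, ‖iteratedFDeriv ℝ k (a i) z‖ ≤ C
  a_low : ∃ c : ℝ, 0 < c ∧ ∀ᶠ i in 𝓕, ∀ z ∈ ball (0 : ℂ) 2, c ≤ a i z
  u_bb : BB 𝓕 ε (uc u)
  ux_ll : LL 𝓕 ε u (ex ε (uc u))
  uy_ll : LL 𝓕 ε u (ey ε (uc u))
  s_ll : LL 𝓕 ε u (Sf u)
  disc0 : ∀ r < 2, Tendsto (fun i => ∫ z in ball (0 : ℂ) r, |disc (ε i) (a i) (u i) z|) 𝓕 (𝓝 0)

/-- The general situation, with in addition a slowly varying family `mm` such that `P^2 ≡ mm a S^2`. -/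
structure Ctm (𝓕 : Filter ι) (ε : ι → ℝ) (a u : ι → ℂ → ℝ) (mm : ι → ℂ → ℂ) : Prop extends
    Ctx 𝓕 ε a u where
  slow : Slow 𝓕 ε mm
  base : Neg 𝓕 ε (fun i z => Pf ε u i z ^ 2 - mm i z * (a i z : ℂ) * Sf u i z ^ 2)

/-- The coefficient `Λ = m a / 4`. -/
noncomputable def Lam (a : ι → ℂ → ℝ) (mm : ι → ℂ → ℂ) : ι → ℂ → ℂ := fun i z => mm i z * (a i z : ℂ) / 4

/-- The leading terms: `Λ^((n-1)/2) P / 2` for odd `n`, `Λ^(n/2) S` for even `n`. -/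
noncomputable def Rn (ε : ι → ℝ) (a u : ι → ℂ → ℝ) (mm : ι → ℂ → ℂ) (n : ℕ) : ι → ℂ → ℂ := fun i z =>
  if Odd n then Lam a mm i z ^ ((n - 1) / 2) * (Pf ε u i z / 2) else Lam a mm i z ^ (n / 2) * Sf u i z

end Families

section Recursion

/-- Recursion in which the value at `n + 1` is computed from the values at `0, ..., n`. -/
def stg {X : Type*} (x : X) (F : ℕ → (ℕ → X) → X) : ℕ → ℕ → X
  | 0 => fun _ => x
  | n + 1 => Function.update (stg x F n) (n + 1) (F n (stg x F n))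

/-- Recursion in which the value at `n + 1` is computed from the values at `0, ..., n`. -/
def srec {X : Type*} (x : X) (F : ℕ → (ℕ → X) → X) (n : ℕ) : X := stg x F n n

theorem stg_of_le {X : Type*} (x : X) (F : ℕ → (ℕ → X) → X) {k n : ℕ} (h : k ≤ n) :
    stg x F n k = srec x F k := by
  induction n with
  | zero => obtain rfl : k = 0 := by omega
            rfl
  | succ n ih =>
    rcases Nat.lt_or_ge n k with h1 | h1
    · obtain rfl : k = n + 1 := by omega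
      rfl
    · rw [← ih h1]
      change Function.update (stg x F n) (n + 1) _ k = _
      rw [Function.update_of_ne (by omega)]

theorem srec_zero {X : Type*} (x : X) (F : ℕ → (ℕ → X) → X) : srec x F 0 = x := rfl

theorem srec_succ {X : Type*} (x : X) (F : ℕ → (ℕ → X) → X) (n : ℕ)
    (hF : ∀ g h : ℕ → X, (∀ k ≤ n, g k = h k) → F n g = F n h) :
    srec x F (n + 1) = F n (srec x F) := by
  have h1 : srec x F (n + 1) = F n (stg x F n) := by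
    change Function.update (stg x F n) (n + 1) _ (n + 1) = _
    rw [Function.update_self]
  rw [h1]
  exact hF _ _ fun k hk => stg_of_le x F hk

/-- `P = e ∂ u`. -/
noncomputable def P1 (e : ℝ) (u : ℂ → ℝ) (z : ℂ) : ℂ := e * dz (fun w => (u w : ℂ)) z

/-- The coefficients of `Q = η (e ∂ Q + (1 + Q^2) P / 2)`. -/
noncomputable def Qn (e : ℝ) (u : ℂ → ℝ) : ℕ → ℂ → ℂ := srec (fun _ => 0) fun n g z =>
  e * dz (g n) z + P1 e u z / 2 * ((if n = 0 then 1 else 0) + ∑ p ∈ Finset.HasAntidiagonal.antidiagonal n, g p.1 z * g p.2 z)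

/-- The coefficients of `B = (1 - Q^2) sin u + 2 Q cos u`. -/
noncomputable def Bn (e : ℝ) (u : ℂ → ℝ) (n : ℕ) (z : ℂ) : ℂ :=
  2 * Real.cos (u z) * Qn e u n z +
    Real.sin (u z) * ((if n = 0 then 1 else 0) - ∑ p ∈ Finset.HasAntidiagonal.antidiagonal n, Qn e u p.1 z * Qn e u p.2 z)

/-- The coefficients of `D = η (e ∂ D + Q P D) + (η^2 / 8) (∂ a) B`. -/
noncomputable def Dn (e : ℝ) (a u : ℂ → ℝ) : ℕ → ℂ → ℂ := srec (fun _ => 0) fun n g z =>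
  e * dz (g n) z + P1 e u z * (∑ p ∈ Finset.HasAntidiagonal.antidiagonal n, Qn e u p.1 z * g p.2 z) +
    (if n = 0 then 0 else dz (fun w => (a w : ℂ)) z * Bn e u (n - 1) z / 8)

/-- The second density: `1 - cos u` for `n = 1`, `Q_{n-1} sin u` for `n ≥ 2`. -/
noncomputable def Tn (e : ℝ) (u : ℂ → ℝ) (n : ℕ) (z : ℂ) : ℂ :=
  if n = 1 then ((1 - Real.cos (u z) : ℝ) : ℂ) else Qn e u (n - 1) z * Real.sin (u z)

open Polynomial in
/-- The polynomials `g_n`. -/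
noncomputable def gp : ℕ → ℝ[X] := srec 0 fun n g =>
  X * g n - (1 - X ^ 2) * derivative (g n) +
    2 * (1 - X ^ 2) * (∑ p ∈ Finset.HasAntidiagonal.antidiagonal n, (if p.1 = 0 then 0 else X ^ (p.1 - 1)) * g p.2) +
    (if n = 0 then 0 else 2 * ((n : ℝ[X]) * X ^ n - ((n - 1 : ℕ) : ℝ[X]) * X ^ (n - 2)))

end Recursion

section RecFam

variable {ι : Type*}

/-- `Q_n` as a family. -/
noncomputable def Qf (ε : ι → ℝ) (u : ι → ℂ → ℝ) (n : ℕ) : ι → ℂ → ℂ := fun i z => Qn (ε i) (u i) n z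

/-- `B_n` as a family. -/
noncomputable def Bf (ε : ι → ℝ) (u : ι → ℂ → ℝ) (n : ℕ) : ι → ℂ → ℂ := fun i z => Bn (ε i) (u i) n z

/-- `D_n` as a family. -/
noncomputable def Df (ε : ι → ℝ) (a u : ι → ℂ → ℝ) (n : ℕ) : ι → ℂ → ℂ := fun i z => Dn (ε i) (a i) (u i) n z

/-- `T_n` as a family. -/
noncomputable def Tf (ε : ι → ℝ) (u : ι → ℂ → ℝ) (n : ℕ) : ι → ℂ → ℂ := fun i z => Tn (ε i) (u i) n z

/-- `α = ∂ a` (not scaled) as a family. -/
noncomputable def al (a : ι → ℂ → ℝ) : ι → ℂ → ℂ := fun i z => dz (fun w => (a i w : ℂ)) z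

/-- `1 - cos u` as a family. -/
noncomputable def Wf (u : ι → ℂ → ℝ) : ι → ℂ → ℂ := fun i z => ((1 - Real.cos (u i z) : ℝ) : ℂ)

/-- A polynomial in `c = cos (u / 2)` as a family. -/
noncomputable def pc (p : Polynomial ℝ) (u : ι → ℂ → ℝ) : ι → ℂ → ℂ := fun i z =>
  ((p.eval (Real.cos (u i z / 2)) : ℝ) : ℂ)

end RecFam

end Pool.Agent.Helper74.CE
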