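import Pool.Agent.Helper74.CE.Rec

/-!
# CL-E27: the polynomials `g_n` and their integrals

* `gp_two_step`: let `G = ∑ g_n η^n` in `ℝ[X]⟦η⟧` and `f = ∑_{i ≥ 1} X^{i-1} η^i`, so that `(1 - X η) f = η`. With `b_n =
  2 ((n+1) X^{n+1} - n X^{n-1})`, `gp_succ` reads `G = η (X G - (1 - X²) G' + 2 (1 - X²) f G) + η² ∑ b_n η^n`. Multiply by
  `1 - X η` and take the coefficient of `η^n`, `n ≥ 3`:
  `g_n - X g_{n-1} = X g_{n-1} - X² g_{n-2} - (1 - X²)(g_{n-1}' - X g_{n-2}') + 2 (1 - X²) g_{n-2} + b_{n-2} - X b_{n-3}`, and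
  `b_{n-2} - X b_{n-3} = 2 (X^{n-1} - X^{n-3})`.
  (Directly: with `s_n = ∑_{i+j=n, i ≥ 1} X^{i-1} g_j` one has `s_{n+1} = X s_n + g_n` (split `i = 1`, `i ≥ 2`:
  `Finset.Nat.antidiagonal_succ` or `Finset.sum` over `range`), so `g_n - X g_{n-1}` follows from `gp_succ` at `n-1` and `n-2`.)
* `gp_int`: integrate over `[-1, 1]`: `∫ (1 - x²) g' = ∫ 2 x g` and `∫ (1 - x²) x g' = - ∫ (1 - 3 x²) g` by parts (boundary
  terms vanish: `∫ ((1 - x²) g)' = 0`), so that `I_n + ∫ (x² + 1 - 3x² - 2 + 2x²) g_{n-2} = I_n - I_{n-2}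
  = 2 (∫ x^{n-1} - ∫ x^{n-3}) = 4/n - 4/(n-2)` for odd `n ≥ 3`; `I_1 = 0 = 4/1 - 4`. Induction by steps of two.
* `antideriv`: let `A = ∑ (coeff p k / (k+1)) X^{k+1} + C c`, with `c` such that `A(-1) = 0`; then `A' = p` and `A(1) - A(-1) =
  ∫ p = 0`, so `A` is divisible by `X + 1` and `X - 1`, hence by `X² - 1` (`Polynomial.dvd_iff_isRoot`, coprime factors:
  `IsCoprime.mul_dvd`): `A = (X² - 1) q`, `p = A' = -((1 - X²) q)'`.
-/

namespace Pool.Agent.Helper74.CE

open Polynomial MeasureTheory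

private theorem h7_s (n : ℕ) :
    (∑ p ∈ Finset.HasAntidiagonal.antidiagonal (n + 1), (if p.1 = 0 then 0 else (X : ℝ[X]) ^ (p.1 - 1)) * gp p.2) =
      X * (∑ p ∈ Finset.HasAntidiagonal.antidiagonal n, (if p.1 = 0 then 0 else (X : ℝ[X]) ^ (p.1 - 1)) * gp p.2) +
        gp n := by
  have h1 : (∑ p ∈ Finset.HasAntidiagonal.antidiagonal n, (if p.1 = 0 then gp p.2 else 0)) = gp n := by
    rw [Finset.sum_eq_single (0, n)]
    · simp
    · rintro ⟨a, b⟩ hab hne
      have hab' : a + b = n := Finset.HasAntidiagonal.mem_antidiagonal.1 hab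
      by_cases ha : a = 0
      · subst ha
        exfalso
        apply hne
        rw [zero_add] at hab'
        rw [hab']
      · simp [ha]
    · intro h
      exact absurd (Finset.HasAntidiagonal.mem_antidiagonal.2 (zero_add n)) h
  rw [Finset.Nat.sum_antidiagonal_succ, ← h1, Finset.mul_sum, ← Finset.sum_add_distrib]
  simp only [if_true, zero_mul, zero_add, Nat.add_eq_zero_iff, one_ne_zero, and_false, if_false,
    Nat.add_sub_cancel]
  refine Finset.sum_congr rfl fun p _ => ?_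
  by_cases hp : p.1 = 0
  · simp [hp]
  · obtain ⟨k, hk⟩ := Nat.exists_eq_succ_of_ne_zero hp
    simp only [hk, Nat.succ_eq_add_one, Nat.add_eq_zero_iff, one_ne_zero, and_false, if_false,
      Nat.add_sub_cancel, add_zero]
    ring

theorem gp_two_step {n : ℕ} (hn : 3 ≤ n) :
    gp n - 2 * X * gp (n - 1) + X ^ 2 * gp (n - 2) +
      (1 - X ^ 2) * (derivative (gp (n - 1)) - X * derivative (gp (n - 2))) - 2 * (1 - X ^ 2) * gp (n - 2) =
    2 * (X ^ (n - 1) - X ^ (n - 3)) := by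
  obtain ⟨m, rfl⟩ := Nat.exists_eq_add_of_le' hn
  have e1 : m + 3 - 1 = m + 2 := by omega
  have e2 : m + 3 - 2 = m + 1 := by omega
  have e3 : m + 3 - 3 = m := by omega
  rw [e1, e2, e3]
  have h3 := gp_succ (m + 2)
  have h2 := gp_succ (m + 1)
  have hs := h7_s (m + 1)
  rw [if_neg (by omega)] at h3 h2
  have f1 : m + 2 - 1 = m + 1 := by omega
  have f2 : m + 2 - 2 = m := by omega
  have f3 : m + 1 - 1 = m := by omega
  have f4 : m + 1 - 2 = m - 1 := by omega
  rw [f1, f2] at h3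
  rw [f3, f4] at h2
  have hX : (X : ℝ[X]) * ((m : ℝ[X]) * X ^ (m - 1)) = (m : ℝ[X]) * X ^ m := by
    rcases m with _ | k
    · simp
    · rw [Nat.add_sub_cancel, pow_succ]
      ring
  push_cast at h3 h2
  rw [hs] at h3
  linear_combination h3 - X * h2 + 2 * hX

private theorem h7_ftc (A : ℝ[X]) :
    ∫ x in (-1 : ℝ)..1, (derivative A).eval x = A.eval 1 - A.eval (-1) := by
  rw [intervalIntegral.integral_eq_sub_of_hasDerivAt (f := fun x => A.eval x)
    (fun x _ => A.hasDerivAt x)]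
  exact ((derivative A).continuous).intervalIntegrable _ _

private theorem h7_int (p : ℝ[X]) : IntervalIntegrable (fun x => p.eval x) volume (-1 : ℝ) 1 :=
  p.continuous.intervalIntegrable _ _

theorem pow_int {n : ℕ} (hn : Odd n) : ∫ x in (-1 : ℝ)..1, (X ^ (n - 1) : ℝ[X]).eval x = 2 / n := by
  obtain ⟨k, rfl⟩ := hn
  simp only [Nat.add_sub_cancel, eval_pow, eval_X]
  rw [integral_pow, Odd.neg_one_pow ⟨k, rfl⟩, one_pow]
  push_cast
  ring

theorem gp_int {n : ℕ} (hn : Odd n) : ∫ x in (-1 : ℝ)..1, (gp n).eval x = 4 / n - 4 := by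
  obtain ⟨k, rfl⟩ := hn
  induction k with
  | zero =>
    simp only [mul_zero, zero_add, gp_one, eval_zero, intervalIntegral.integral_zero]
    norm_num
  | succ k ih =>
    have h1 := gp_two_step (n := 2 * (k + 1) + 1) (by omega)
    have e1 : 2 * (k + 1) + 1 - 1 = 2 * k + 2 := by omega
    have e2 : 2 * (k + 1) + 1 - 2 = 2 * k + 1 := by omega
    have e3 : 2 * (k + 1) + 1 - 3 = 2 * k + 1 - 1 := by omega
    rw [e1, e2, e3] at h1
    set S : ℝ[X] := -((1 - X ^ 2) * (gp (2 * k + 2) - X * gp (2 * k + 1))) with hS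
    have h2 : gp (2 * (k + 1) + 1) = gp (2 * k + 1) + derivative S +
        (C 2 * X ^ (2 * k + 3 - 1) - C 2 * X ^ (2 * k + 1 - 1)) := by
      have h3 : derivative S = 2 * X * (gp (2 * k + 2) - X * gp (2 * k + 1)) -
          (1 - X ^ 2) * (derivative (gp (2 * k + 2)) - gp (2 * k + 1) - X * derivative (gp (2 * k + 1))) := by
        rw [hS]
        simp only [derivative_neg, derivative_mul, derivative_sub, derivative_one, derivative_X_pow,
          derivative_X]
        have : (C ((2 : ℕ) : ℝ) : ℝ[X]) = 2 := rfl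
        rw [this]
        ring
      have e4 : 2 * k + 3 - 1 = 2 * k + 2 := by omega
      rw [h3, e4]
      have hC : (C 2 : ℝ[X]) = 2 := rfl
      rw [hC]
      linear_combination h1
    have h4 : ∫ x in (-1 : ℝ)..1, (gp (2 * (k + 1) + 1)).eval x =
        (∫ x in (-1 : ℝ)..1, (gp (2 * k + 1)).eval x) + (S.eval 1 - S.eval (-1)) +
        (2 * (∫ x in (-1 : ℝ)..1, (X ^ (2 * k + 3 - 1) : ℝ[X]).eval x) -
          2 * (∫ x in (-1 : ℝ)..1, (X ^ (2 * k + 1 - 1) : ℝ[X]).eval x)) := by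
      rw [← h7_ftc S, ← intervalIntegral.integral_const_mul, ← intervalIntegral.integral_const_mul,
        ← intervalIntegral.integral_sub, ← intervalIntegral.integral_add (h7_int _) (h7_int _),
        ← intervalIntegral.integral_add]
      · rw [h2]
        simp only [eval_add, eval_sub, eval_mul, eval_C]
      · exact (h7_int _).add (h7_int _)
      · exact ((h7_int _).const_mul 2).sub ((h7_int _).const_mul 2)
      · exact (h7_int _).const_mul 2
      · exact (h7_int _).const_mul 2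
    have hS1 : S.eval 1 = 0 := by rw [hS]; simp
    have hS2 : S.eval (-1) = 0 := by rw [hS]; simp
    rw [h4, ih, pow_int ⟨k + 1, by ring⟩, pow_int ⟨k, rfl⟩, hS1, hS2]
    push_cast
    have hk1 : (2 * (k : ℝ) + 1) ≠ 0 := by positivity
    have hk2 : (2 * (k : ℝ) + 3) ≠ 0 := by positivity
    have hk3 : (2 * ((k : ℝ) + 1) + 1) ≠ 0 := by positivity
    field_simp
    ring

private theorem h7_prim (p : ℝ[X]) : ∃ A : ℝ[X], derivative A = p := by
  induction p using Polynomial.induction_on' with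
  | add p q hp hq =>
    obtain ⟨A, hA⟩ := hp
    obtain ⟨B, hB⟩ := hq
    exact ⟨A + B, by rw [derivative_add, hA, hB]⟩
  | monomial n a =>
    refine ⟨monomial (n + 1) (a / (n + 1)), ?_⟩
    rw [derivative_monomial]
    have : ((n : ℝ) + 1) ≠ 0 := by positivity
    push_cast
    rw [div_mul_cancel₀ _ this]

theorem antideriv (p : ℝ[X]) (hp : ∫ x in (-1 : ℝ)..1, p.eval x = 0) :
    ∃ q : ℝ[X], p = -derivative ((1 - X ^ 2) * q) := by
  obtain ⟨A₀, hA₀⟩ := h7_prim p
  set A := A₀ - C (A₀.eval (-1)) with hA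
  have hA' : derivative A = p := by rw [hA, derivative_sub, derivative_C, sub_zero, hA₀]
  have h1 : A.eval (-1) = 0 := by rw [hA]; simp
  have h2 : A.eval 1 = 0 := by
    have := h7_ftc A
    rw [hA', hp, h1, sub_zero] at this
    exact this.symm
  have d1 : (X - C 1 : ℝ[X]) ∣ A := dvd_iff_isRoot.2 h2
  have d2 : (X - C (-1) : ℝ[X]) ∣ A := dvd_iff_isRoot.2 h1
  have hc : IsCoprime (X - C 1 : ℝ[X]) (X - C (-1)) := by
    apply isCoprime_X_sub_C_of_isUnit_sub
    norm_num
  obtain ⟨q, hq⟩ := hc.mul_dvd d1 d2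
  refine ⟨q, ?_⟩
  have h3 : (1 - X ^ 2) * q = -A := by
    rw [hq, C_neg, C_1]
    ring
  rw [h3, derivative_neg, hA', neg_neg]

end Pool.Agent.Helper74.CE
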