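import Pool.Agent.Helper74.CE.CtxB
import Pool.Agent.Helper74.CE.Ibp
import Pool.Agent.Helper74.CE.Gp

/-!
# CL-E28: equidistribution of the energy along the values of the heteroclinic solution

Let `q` be given by `antideriv`, `p = -((1 - X²) q)'`, and `f(t) = sin (t/2) q(cos (t/2))`, smooth, bounded with its
derivative on `ℝ`. For fixed `i` (dropped), the function `κ ε f(u) ∂_x u` is smooth with compact support
(`smooth_mul_of_tsupport`), so that the integral of its `dx` vanishes, and the same for `y`. Adding, with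
`ε Δu = (a / ε) sin u` (`LSol.eq`), on `ball 0 3`
```
0 = ∫ ε f(u) (κ_x u_x + κ_y u_y) + ∫ κ (ε f'(u) ‖gr u‖² + (a / ε) f(u) sin u) .
```
As `ε ‖gr u‖² = 2 disc + (2 / ε) a W`, `W = 1 - cos u`, the last bracket is `2 f'(u) disc + (a / ε)(2 W f'(u) + f(u) sin u)`, and
with `S = sin (u/2)`, `c = cos (u/2)`: `f' = (c/2) q - (S²/2) q'`, `f sin u = 2 S² c q = W c q`, so
`2 W f' + f sin u = W (2 c q - (1 - c²) q') = - W ((1 - X²) q)'(c) = W p(c)`. Hence
```
∫ κ (a / ε) W p(c) = - ∫ ε f(u) (κ_x u_x + κ_y u_y) - 2 ∫ κ f'(u) disc .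
```
Both terms tend to `0`: the first is at most `C √ε sup ‖Dκ‖ · ε^{-1/2} ∫_{ball 0 r} (‖ε u_x‖ + ‖ε u_y‖)` and
`∫_{ball 0 r'} ‖ε u_x‖ ≤ (area)^{1/2} (∫ ‖ε u_x‖²)^{1/2} ≤ C' √ε` (`Ctx.ux_ll`, `k = 0`, `r < r' < 2`), with
`√ε sup ‖Dκ‖ → 0` (`Slow`); the second is at most `C ∫_{ball 0 r'} |disc| → 0` (`Ctx.disc0`; `κ` bounded).
(`κ` and its derivatives vanish outside `closedBall 0 r ⊆ ball 0 r'`.)
-/

namespace Pool.Agent.Helper74.CE

open MeasureTheory Filter Topology Metric Pool.Agent.Helper53.CL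
open scoped ContDiff Real

variable {ι : Type*} {𝓕 : Filter ι} {ε : ι → ℝ} {a u : ι → ℂ → ℝ} {κ : ι → ℂ → ℂ}

private noncomputable def ff (q : Polynomial ℝ) (t : ℝ) : ℝ := Real.sin (t / 2) * q.eval (Real.cos (t / 2))

private noncomputable def ff1 (q : Polynomial ℝ) (t : ℝ) : ℝ :=
  Real.cos (t / 2) / 2 * q.eval (Real.cos (t / 2)) -
    Real.sin (t / 2) ^ 2 / 2 * (Polynomial.derivative q).eval (Real.cos (t / 2))

private theorem ff_smooth (q : Polynomial ℝ) : ContDiff ℝ ∞ (ff q) := by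
  have h1 : ContDiff ℝ ∞ (fun t : ℝ => t / 2) := contDiff_id.div_const 2
  have h2 : ContDiff ℝ ∞ (fun t : ℝ => Real.sin (t / 2)) := Real.contDiff_sin.comp h1
  have h3 : ContDiff ℝ ∞ (fun t : ℝ => Real.cos (t / 2)) := Real.contDiff_cos.comp h1
  have h4 : ContDiff ℝ ∞ (fun x : ℝ => q.eval x) := by
    have := q.contDiff_aeval (𝕜 := ℝ) (n := ∞)
    simpa [Polynomial.coe_aeval_eq_eval] using this
  exact h2.mul (h4.comp h3)

private theorem ff_deriv (q : Polynomial ℝ) (t : ℝ) : HasDerivAt (ff q) (ff1 q t) t := by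
  have h1 : HasDerivAt (fun t : ℝ => t / 2) (1 / 2) t := (hasDerivAt_id t).div_const 2
  have hs : HasDerivAt (fun t : ℝ => Real.sin (t / 2)) (Real.cos (t / 2) * (1 / 2)) t := h1.sin
  have hc : HasDerivAt (fun t : ℝ => Real.cos (t / 2)) (-Real.sin (t / 2) * (1 / 2)) t := h1.cos
  have hq : HasDerivAt (fun t : ℝ => q.eval (Real.cos (t / 2)))
      ((Polynomial.derivative q).eval (Real.cos (t / 2)) * (-Real.sin (t / 2) * (1 / 2))) t :=
    HasDerivAt.comp (h₂ := fun x => q.eval x) t (q.hasDerivAt (Real.cos (t / 2))) hc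
  refine (hs.mul hq).congr_deriv ?_
  unfold ff1
  ring

private theorem poly_bound (q : Polynomial ℝ) : ∃ C : ℝ, 0 < C ∧ ∀ x : ℝ, |x| ≤ 1 → |q.eval x| ≤ C := by
  obtain ⟨C, hC⟩ := (isCompact_Icc (a := (-1 : ℝ)) (b := 1)).exists_bound_of_continuousOn
    (f := fun x => q.eval x) q.continuous.continuousOn
  refine ⟨|C| + 1, by positivity, fun x hx => ?_⟩
  have := hC x (abs_le.1 hx)
  rw [Real.norm_eq_abs] at this
  have h2 := le_abs_self C
  linarith

private theorem ff_bound (q : Polynomial ℝ) : ∃ C : ℝ, 0 < C ∧ (∀ t, |ff q t| ≤ C) ∧ ∀ t, |ff1 q t| ≤ C := by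
  obtain ⟨C1, hC1, h1⟩ := poly_bound q
  obtain ⟨C2, hC2, h2⟩ := poly_bound (Polynomial.derivative q)
  refine ⟨C1 + C2, by positivity, fun t => ?_, fun t => ?_⟩
  · unfold ff
    rw [abs_mul]
    have h3 := h1 _ (Real.abs_cos_le_one (t / 2))
    have h4 := Real.abs_sin_le_one (t / 2)
    have h5 := abs_nonneg (q.eval (Real.cos (t / 2)))
    have h6 := abs_nonneg (Real.sin (t / 2))
    nlinarith
  · unfold ff1
    have h3 := h1 _ (Real.abs_cos_le_one (t / 2))
    have h4 := h2 _ (Real.abs_cos_le_one (t / 2))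
    have h5 := abs_nonneg (q.eval (Real.cos (t / 2)))
    have h6 := abs_nonneg ((Polynomial.derivative q).eval (Real.cos (t / 2)))
    have h7 := Real.abs_cos_le_one (t / 2)
    have h8 := abs_nonneg (Real.cos (t / 2))
    have h9 : Real.sin (t / 2) ^ 2 ≤ 1 := Real.sin_sq_le_one (t / 2)
    have h10 := sq_nonneg (Real.sin (t / 2))
    have h11 : |Real.cos (t / 2) / 2 * q.eval (Real.cos (t / 2))| ≤ C1 := by
      rw [abs_mul, abs_div, abs_two]
      nlinarith
    have h12 : |Real.sin (t / 2) ^ 2 / 2 * (Polynomial.derivative q).eval (Real.cos (t / 2))| ≤ C2 := by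
      rw [abs_mul, abs_of_nonneg (by positivity : 0 ≤ Real.sin (t / 2) ^ 2 / 2)]
      nlinarith
    exact (abs_sub _ _).trans (add_le_add h11 h12)

private theorem ff_key {p q : Polynomial ℝ} (hq : p = -Polynomial.derivative ((1 - Polynomial.X ^ 2) * q)) (t : ℝ) :
    2 * (1 - Real.cos t) * ff1 q t + ff q t * Real.sin t = (1 - Real.cos t) * p.eval (Real.cos (t / 2)) := by
  have hc : Real.cos t = 2 * Real.cos (t / 2) ^ 2 - 1 := by
    rw [← Real.cos_two_mul]
    congr 1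
    ring
  have hs : Real.sin t = 2 * Real.sin (t / 2) * Real.cos (t / 2) := by
    rw [← Real.sin_two_mul]
    congr 1
    ring
  have h1 : Real.sin (t / 2) ^ 2 = 1 - Real.cos (t / 2) ^ 2 := Real.sin_sq _
  have h2 : p.eval (Real.cos (t / 2)) = 2 * Real.cos (t / 2) * q.eval (Real.cos (t / 2)) -
      (1 - Real.cos (t / 2) ^ 2) * (Polynomial.derivative q).eval (Real.cos (t / 2)) := by
    rw [hq]
    simp only [Polynomial.derivative_mul, Polynomial.derivative_sub, Polynomial.derivative_one,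
      Polynomial.derivative_X_pow, Polynomial.eval_neg, Polynomial.eval_add, Polynomial.eval_mul,
      Polynomial.eval_sub, Polynomial.eval_one, Polynomial.eval_pow, Polynomial.eval_X,
      Polynomial.eval_zero, Polynomial.eval_C]
    simp
    ring
  rw [h2, hc, hs]
  unfold ff ff1
  linear_combination (-(1 - (2 * Real.cos (t / 2) ^ 2 - 1)) * (Polynomial.derivative q).eval (Real.cos (t / 2)) +
    2 * Real.cos (t / 2) * q.eval (Real.cos (t / 2))) * h1

private theorem tendsto_of_le {g : ι → ℂ} (M : ℝ) (h : ∀ η > 0, ∀ᶠ i in 𝓕, ‖g i‖ ≤ M * η) :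
    Tendsto g 𝓕 (𝓝 0) := by
  rw [NormedAddGroup.tendsto_nhds_zero]
  intro δ hδ
  have hM : 0 < |M| + 1 := by positivity
  filter_upwards [h (δ / (|M| + 1)) (by positivity)] with i hi
  refine hi.trans_lt ?_
  have h1 : M * (δ / (|M| + 1)) ≤ |M| * (δ / (|M| + 1)) :=
    mul_le_mul_of_nonneg_right (le_abs_self M) (by positivity)
  refine h1.trans_lt ?_
  rw [mul_div_assoc', div_lt_iff₀ hM]
  nlinarith [abs_nonneg M]

/-- the pointwise identity -/
private theorem ptw (H : Ctx 𝓕 ε a u) (hκ : Sm κ) {p q : Polynomial ℝ}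
    (hq : p = -Polynomial.derivative ((1 - Polynomial.X ^ 2) * q)) (i : ι) {z : ℂ} (hz : z ∈ ball (0 : ℂ) 3) :
    κ i z * ((a i z : ℂ) / ε i * (Wf u i z * pc p u i z)) -
      ε i * (dx (fun w => κ i w * (((ff q (u i w) : ℝ) : ℂ) * ((dx (u i) w : ℝ) : ℂ))) z +
        dy (fun w => κ i w * (((ff q (u i w) : ℝ) : ℂ) * ((dy (u i) w : ℝ) : ℂ))) z) =
    -(ε i * ff q (u i z) * (dx (κ i) z * dx (u i) z + dy (κ i) z * dy (u i) z)) -
      2 * κ i z * ff1 q (u i z) * disc (ε i) (a i) (u i) z := by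
  have hD : IsOpen (ball (0 : ℂ) 3) := isOpen_ball
  have he := H.eps_pos i
  have hsm := (H.sol i).smooth
  have hu : DifferentiableAt ℝ (u i) z := diffAt_of_smooth hD hsm hz
  have hux : DifferentiableAt ℝ (dx (u i)) z := diffAt_of_smooth hD (smooth_dx hD hsm) hz
  have huy : DifferentiableAt ℝ (dy (u i)) z := diffAt_of_smooth hD (smooth_dy hD hsm) hz
  have hk : DifferentiableAt ℝ (κ i) z := hκ.diffAt i hz
  have hf : DifferentiableAt ℝ (fun w => ff q (u i w)) z :=
    ((ff_smooth q).differentiable (by norm_num)).differentiableAt.comp z hu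
  have hfc : DifferentiableAt ℝ (fun w => ((ff q (u i w) : ℝ) : ℂ)) z :=
    Complex.ofRealCLM.differentiableAt.comp z hf
  have huxc : DifferentiableAt ℝ (fun w => ((dx (u i) w : ℝ) : ℂ)) z :=
    Complex.ofRealCLM.differentiableAt.comp z hux
  have huyc : DifferentiableAt ℝ (fun w => ((dy (u i) w : ℝ) : ℂ)) z :=
    Complex.ofRealCLM.differentiableAt.comp z huy
  have d1 : dx (fun w => κ i w * (((ff q (u i w) : ℝ) : ℂ) * ((dx (u i) w : ℝ) : ℂ))) z =
      dx (κ i) z * (((ff q (u i z) : ℝ) : ℂ) * ((dx (u i) z : ℝ) : ℂ)) +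
      κ i z * (((ff1 q (u i z) * dx (u i) z : ℝ) : ℂ) * ((dx (u i) z : ℝ) : ℂ) +
        ((ff q (u i z) : ℝ) : ℂ) * ((dx (dx (u i)) z : ℝ) : ℂ)) := by
    have hm : DifferentiableAt ℝ (fun w => ((ff q (u i w) : ℝ) : ℂ) * ((dx (u i) w : ℝ) : ℂ)) z := hfc.mul huxc
    rw [dx_mul hk hm, dx_mul hfc huxc, dx_ofReal hf, dx_ofReal hux,
      dx_comp_real (ff_deriv q (u i z)) hu]
  have d2 : dy (fun w => κ i w * (((ff q (u i w) : ℝ) : ℂ) * ((dy (u i) w : ℝ) : ℂ))) z =
      dy (κ i) z * (((ff q (u i z) : ℝ) : ℂ) * ((dy (u i) z : ℝ) : ℂ)) +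
      κ i z * (((ff1 q (u i z) * dy (u i) z : ℝ) : ℂ) * ((dy (u i) z : ℝ) : ℂ) +
        ((ff q (u i z) : ℝ) : ℂ) * ((dy (dy (u i)) z : ℝ) : ℂ)) := by
    have hm : DifferentiableAt ℝ (fun w => ((ff q (u i w) : ℝ) : ℂ) * ((dy (u i) w : ℝ) : ℂ)) z := hfc.mul huyc
    rw [dy_mul hk hm, dy_mul hfc huyc, dy_ofReal hf, dy_ofReal huy,
      dy_comp_real (ff_deriv q (u i z)) hu]
  have hreal : a i z / ε i * ((1 - Real.cos (u i z)) * p.eval (Real.cos (u i z / 2))) =
      ε i * (ff1 q (u i z) * (dx (u i) z ^ 2 + dy (u i) z ^ 2) +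
        ff q (u i z) * (dx (dx (u i)) z + dy (dy (u i)) z)) -
      2 * ff1 q (u i z) * disc (ε i) (a i) (u i) z := by
    have h1 := (H.sol i).eq z hz
    have h2 := ff_key hq (u i z)
    have h3 := norm_gr_sq (z := z) (u i)
    unfold lap at h1
    unfold disc
    rw [h3, ← h2]
    have h4 : dx (dx (u i)) z + dy (dy (u i)) z = a i z * Real.sin (u i z) / ε i ^ 2 := by
      rw [eq_div_iff (by positivity), ← h1]
      ring
    rw [h4]
    field_simp
    ring
  have hcx : ((a i z : ℂ) / ε i * (Wf u i z * pc p u i z)) =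
      ((a i z / ε i * ((1 - Real.cos (u i z)) * p.eval (Real.cos (u i z / 2))) : ℝ) : ℂ) := by
    unfold Wf pc
    push_cast
    ring
  rw [hcx, hreal, d1, d2]
  push_cast
  ring

theorem equi (H : Ctx 𝓕 ε a u) (hκ : Slow 𝓕 ε κ) {r : ℝ} (hr : r < 2) (hs : ∀ i, tsupport (κ i) ⊆ closedBall 0 r)
    (p : Polynomial ℝ) (hp : ∫ x in (-1 : ℝ)..1, p.eval x = 0) :
    Tendsto (fun i => ∫ z, κ i z * ((a i z : ℂ) / ε i * (Wf u i z * pc p u i z))) 𝓕 (𝓝 0) := by
  obtain ⟨q, hq⟩ := antideriv p hp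
  obtain ⟨Cf, hCf, hf0, hf1⟩ := ff_bound q
  obtain ⟨Cκ, hCκ, hκb⟩ := hκ.1.bound
  set r' := (r + 2) / 2 with hr'
  have hr1 : r < r' := by rw [hr']; linarith
  have hr2 : r' < 2 := by rw [hr']; linarith
  obtain ⟨⟨C1, hC1⟩, -⟩ := H.ux_ll.2 0 r' hr2
  obtain ⟨⟨C2, hC2⟩, -⟩ := H.uy_ll.2 0 r' hr2
  set vol := (volume : Measure ℂ).real (ball (0 : ℂ) r') with hvol
  have hD : IsOpen (ball (0 : ℂ) 3) := isOpen_ball
  refine tendsto_of_le (Cf / 2 * (2 * vol + C1 + C2) + 2 * Cκ * Cf) fun η hη => ?_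
  have hdisc : ∀ᶠ i in 𝓕, ∫ z in ball (0 : ℂ) r', |disc (ε i) (a i) (u i) z| ≤ η := by
    have := (H.disc0 r' hr2).eventually (gt_mem_nhds hη)
    filter_upwards [this] with i hi using hi.le
  filter_upwards [hκb, hC1, hC2, hdisc, hκ.2 η hη] with i k1 k2 k3 k4 k5
  have he := H.eps_pos i
  have hsm := (H.sol i).smooth
  -- smooth functions with compact support
  have sfc : ContDiffOn ℝ ∞ (fun w => ((ff q (u i w) : ℝ) : ℂ)) (ball 0 3) := smooth_comp_real (ff_smooth q) hsm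
  have sG1 := smooth_mul_of_tsupport (r := r) (R := 3) (by linarith) (hκ.1.1 i) (hs i)
    (sfc.mul (smooth_ofReal (smooth_dx hD hsm)))
  have sG2 := smooth_mul_of_tsupport (r := r) (R := 3) (by linarith) (hκ.1.1 i) (hs i)
    (sfc.mul (smooth_ofReal (smooth_dy hD hsm)))
  have sW : ContDiffOn ℝ ∞ (fun z => (a i z : ℂ) / ε i * (Wf u i z * pc p u i z)) (ball 0 3) := by
    have w1 : ContDiffOn ℝ ∞ (fun z => Wf u i z) (ball 0 3) :=
      smooth_comp_real (G := fun t => 1 - Real.cos t) (contDiff_const.sub Real.contDiff_cos) hsm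
    exact ((smooth_ofReal (H.a_smooth i)).div_const _).mul (w1.mul ((H.bb_pc p).1 i))
  have sL := smooth_mul_of_tsupport (r := r) (R := 3) (by linarith) (hκ.1.1 i) (hs i) sW
  set G1 : ℂ → ℂ := fun w => κ i w * (((ff q (u i w) : ℝ) : ℂ) * ((dx (u i) w : ℝ) : ℂ)) with hG1
  set G2 : ℂ → ℂ := fun w => κ i w * (((ff q (u i w) : ℝ) : ℂ) * ((dy (u i) w : ℝ) : ℂ)) with hG2
  set Lf : ℂ → ℂ := fun z => κ i z * ((a i z : ℂ) / ε i * (Wf u i z * pc p u i z)) with hLf
  have iL : Integrable Lf := sL.1.continuous.integrable_of_hasCompactSupport sL.2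
  have z1 : ∫ z, dx G1 z = 0 := integral_dx_eq_zero (sG1.1.of_le (by exact_mod_cast le_top)) sG1.2
  have z2 : ∫ z, dy G2 z = 0 := integral_dy_eq_zero (sG2.1.of_le (by exact_mod_cast le_top)) sG2.2
  have c1 : Continuous (dx G1) := by
    have := (sG1.1.continuous_fderiv (by norm_num)).clm_apply (continuous_const (y := (1 : ℂ)))
    exact this
  have c2 : Continuous (dy G2) := by
    have := (sG2.1.continuous_fderiv (by norm_num)).clm_apply (continuous_const (y := Complex.I))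
    exact this
  have s1 : HasCompactSupport (dx G1) := (sG1.2.fderiv (𝕜 := ℝ)).comp_left (g := fun L : ℂ →L[ℝ] ℂ => L 1) (by simp)
  have s2 : HasCompactSupport (dy G2) :=
    (sG2.2.fderiv (𝕜 := ℝ)).comp_left (g := fun L : ℂ →L[ℝ] ℂ => L Complex.I) (by simp)
  have i1 : Integrable (dx G1) := c1.integrable_of_hasCompactSupport s1
  have i2 : Integrable (dy G2) := c2.integrable_of_hasCompactSupport s2
  set Ef : ℂ → ℂ := fun z => Lf z - ε i * (dx G1 z + dy G2 z) with hEf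
  have hLE : ∫ z, Lf z = ∫ z, Ef z := by
    have i3 : Integrable (fun z => (ε i : ℂ) * (dx G1 z + dy G2 z)) := (i1.add i2).const_mul _
    have e3 : ∫ z, (ε i : ℂ) * (dx G1 z + dy G2 z) = 0 := by
      rw [integral_const_mul, integral_add i1 i2, z1, z2]
      simp
    rw [hEf, integral_sub iL i3, e3, sub_zero]
  have hE0 : ∀ z, z ∉ ball (0 : ℂ) r' → Ef z = 0 := by
    intro z hz
    have hz' : z ∉ tsupport (κ i) := fun h => hz (closedBall_subset_ball hr1 (hs i h))
    have ev : κ i =ᶠ[𝓝 z] 0 := notMem_tsupport_iff_eventuallyEq.1 hz'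
    have hk0 : κ i z = 0 := ev.eq_of_nhds
    have e1 : dx G1 z = 0 := by
      have : G1 =ᶠ[𝓝 z] fun _ => 0 := by
        filter_upwards [ev] with w hw
        rw [hG1]
        simp only
        rw [hw]
        simp
      rw [dx_congr this]
      simp [dx]
    have e2 : dy G2 z = 0 := by
      have : G2 =ᶠ[𝓝 z] fun _ => 0 := by
        filter_upwards [ev] with w hw
        rw [hG2]
        simp only
        rw [hw]
        simp
      rw [dy_congr this]
      simp [dy]
    rw [hEf, hLf]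
    simp only
    rw [hk0, e1, e2]
    simp
  have hEs : ∫ z, Ef z = ∫ z in ball (0 : ℂ) r', Ef z :=
    (setIntegral_eq_integral_of_forall_compl_eq_zero hE0).symm
  set X : ℂ → ℝ := fun z => (ε i ^ 0 * ‖iteratedFDeriv ℝ 0 (ex ε (uc u) i) z‖) ^ 2 with hX
  set Y : ℂ → ℝ := fun z => (ε i ^ 0 * ‖iteratedFDeriv ℝ 0 (ey ε (uc u) i) z‖) ^ 2 with hY
  have hXe : ∀ z, X z = ‖ex ε (uc u) i z‖ ^ 2 := by
    intro z
    rw [hX]
    simp only [pow_zero, one_mul, norm_iteratedFDeriv_zero]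
  have hYe : ∀ z, Y z = ‖ey ε (uc u) i z‖ ^ 2 := by
    intro z
    rw [hY]
    simp only [pow_zero, one_mul, norm_iteratedFDeriv_zero]
  have hcb : closedBall (0 : ℂ) r' ⊆ ball 0 3 := closedBall_subset_ball (by linarith)
  have intOn : ∀ {g : ℂ → ℝ}, ContinuousOn g (ball 0 3) → IntegrableOn g (ball (0 : ℂ) r') := by
    intro g hg
    exact ((hg.mono hcb).integrableOn_compact (isCompact_closedBall _ _)).mono_set ball_subset_closedBall
  have iX : IntegrableOn X (ball (0 : ℂ) r') := by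
    refine intOn ?_
    have : X = fun z => ‖ex ε (uc u) i z‖ ^ 2 := funext hXe
    rw [this]
    exact ((Sm.ex H.sm_u).continuousOn i).norm.pow 2
  have iY : IntegrableOn Y (ball (0 : ℂ) r') := by
    refine intOn ?_
    have : Y = fun z => ‖ey ε (uc u) i z‖ ^ 2 := funext hYe
    rw [this]
    exact ((Sm.ey H.sm_u).continuousOn i).norm.pow 2
  have iD : IntegrableOn (fun z => |disc (ε i) (a i) (u i) z|) (ball (0 : ℂ) r') := by
    refine intOn ?_
    have : (fun z => |disc (ε i) (a i) (u i) z|) = fun z => |ε i / 2 * (dx (u i) z ^ 2 + dy (u i) z ^ 2) -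
        1 / ε i * (a i z * (1 - Real.cos (u i z)))| := by
      funext z
      unfold disc
      rw [norm_gr_sq]
    rw [this]
    have hux := (smooth_dx hD hsm).continuousOn
    have huy := (smooth_dy hD hsm).continuousOn
    have hu := hsm.continuousOn
    have ha := (H.a_smooth i).continuousOn
    exact ((continuousOn_const.mul ((hux.pow 2).add (huy.pow 2))).sub
      (continuousOn_const.mul (ha.mul (continuousOn_const.sub (Real.continuous_cos.comp_continuousOn hu))))).abs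
  have hbound : ∀ z ∈ ball (0 : ℂ) r', ‖Ef z‖ ≤ Cf * (η / 2) * (2 + (X z + Y z) / ε i) +
      2 * Cκ * Cf * |disc (ε i) (a i) (u i) z| := by
    intro z hz
    have hz3 : z ∈ ball (0 : ℂ) 3 := hcb (ball_subset_closedBall hz)
    have hz2 : z ∈ ball (0 : ℂ) 2 := ball_subset_ball hr2.le hz
    have hpt : Ef z = -(ε i * ff q (u i z) * (dx (κ i) z * dx (u i) z + dy (κ i) z * dy (u i) z)) -
      2 * κ i z * ff1 q (u i z) * disc (ε i) (a i) (u i) z := ptw H hκ.1.1 hq i hz3
    have hud : DifferentiableAt ℝ (u i) z := diffAt_of_smooth hD hsm hz3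
    have ex1 : ‖ex ε (uc u) i z‖ = ε i * |dx (u i) z| := by
      unfold ex uc
      rw [dx_ofReal hud, norm_mul, Complex.norm_real, Complex.norm_real, Real.norm_eq_abs, Real.norm_eq_abs,
        abs_of_pos he]
    have ey1 : ‖ey ε (uc u) i z‖ = ε i * |dy (u i) z| := by
      unfold ey uc
      rw [dy_ofReal hud, norm_mul, Complex.norm_real, Complex.norm_real, Real.norm_eq_abs, Real.norm_eq_abs,
        abs_of_pos he]
    set K := ‖fderiv ℝ (κ i) z‖ with hK
    have hK0 : 0 ≤ K := norm_nonneg _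
    have kx : ‖dx (κ i) z‖ ≤ K := by
      have := (fderiv ℝ (κ i) z).le_opNorm 1
      simpa [dx] using this
    have ky : ‖dy (κ i) z‖ ≤ K := by
      have := (fderiv ℝ (κ i) z).le_opNorm Complex.I
      simpa [dy] using this
    have hKη : √(ε i) * K ≤ η := k5 z hz2
    have hse : 0 < √(ε i) := Real.sqrt_pos.2 he
    have hse2 : √(ε i) ^ 2 = ε i := Real.sq_sqrt he.le
    have amgm : ∀ x : ℝ, 0 ≤ x → K * x ≤ η / 2 * (1 + x ^ 2 / ε i) := by
      intro x hx
      have h1 : K * x = (√(ε i) * K) * (x / √(ε i)) := by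
        field_simp
      have h2 : x / √(ε i) ≤ (1 + x ^ 2 / ε i) / 2 := by
        have h3 : x ^ 2 / ε i = (x / √(ε i)) ^ 2 := by
          rw [div_pow, hse2]
        rw [h3]
        nlinarith [sq_nonneg (x / √(ε i) - 1)]
      rw [h1]
      have h4 : 0 ≤ x / √(ε i) := by positivity
      calc √(ε i) * K * (x / √(ε i)) ≤ η * ((1 + x ^ 2 / ε i) / 2) :=
            mul_le_mul hKη h2 h4 hη.le
        _ = η / 2 * (1 + x ^ 2 / ε i) := by ring
    have t1 : ‖(ε i : ℂ) * ff q (u i z) * (dx (κ i) z * dx (u i) z + dy (κ i) z * dy (u i) z)‖ ≤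
        Cf * (η / 2) * (2 + (X z + Y z) / ε i) := by
      have n1 : ‖dx (κ i) z * dx (u i) z + dy (κ i) z * dy (u i) z‖ ≤ K * |dx (u i) z| + K * |dy (u i) z| := by
        refine (norm_add_le _ _).trans ?_
        rw [norm_mul, norm_mul, Complex.norm_real, Complex.norm_real, Real.norm_eq_abs, Real.norm_eq_abs]
        gcongr
      have n2 : ‖(ε i : ℂ) * ff q (u i z)‖ ≤ Cf * ε i := by
        rw [norm_mul, Complex.norm_real, Complex.norm_real, Real.norm_eq_abs, Real.norm_eq_abs, abs_of_pos he,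
          mul_comm]
        exact mul_le_mul_of_nonneg_right (hf0 _) he.le
      rw [norm_mul]
      calc ‖(ε i : ℂ) * ff q (u i z)‖ * ‖dx (κ i) z * dx (u i) z + dy (κ i) z * dy (u i) z‖
          ≤ (Cf * ε i) * (K * |dx (u i) z| + K * |dy (u i) z|) :=
            mul_le_mul n2 n1 (norm_nonneg _) (by positivity)
        _ = Cf * (K * ‖ex ε (uc u) i z‖ + K * ‖ey ε (uc u) i z‖) := by
            rw [ex1, ey1]
            ring
        _ ≤ Cf * (η / 2 * (1 + X z / ε i) + η / 2 * (1 + Y z / ε i)) := by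
            rw [hXe, hYe]
            have m1 := amgm _ (norm_nonneg (ex ε (uc u) i z))
            have m2 := amgm _ (norm_nonneg (ey ε (uc u) i z))
            gcongr
        _ = Cf * (η / 2) * (2 + (X z + Y z) / ε i) := by ring
    have t2 : ‖2 * κ i z * ff1 q (u i z) * disc (ε i) (a i) (u i) z‖ ≤
        2 * Cκ * Cf * |disc (ε i) (a i) (u i) z| := by
      rw [norm_mul, norm_mul, norm_mul, Complex.norm_real, Complex.norm_real, Real.norm_eq_abs, Real.norm_eq_abs,
        Complex.norm_ofNat]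
      have n1 := k1 z hz2
      have n2 := hf1 (u i z)
      gcongr
    rw [hpt]
    refine (norm_sub_le _ _).trans ?_
    rw [norm_neg]
    exact add_le_add t1 t2
  have iB : IntegrableOn (fun z => Cf * (η / 2) * (2 + (X z + Y z) / ε i) +
      2 * Cκ * Cf * |disc (ε i) (a i) (u i) z|) (ball (0 : ℂ) r') := by
    have hc2 : IntegrableOn (fun _ : ℂ => (2 : ℝ)) (ball (0 : ℂ) r') := intOn continuousOn_const
    exact ((hc2.add ((iX.add iY).div_const _)).const_mul _).add (iD.const_mul _)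
  show ‖∫ z, Lf z‖ ≤ _
  rw [hLE, hEs]
  have hle : ‖∫ z in ball (0 : ℂ) r', Ef z‖ ≤ ∫ z in ball (0 : ℂ) r', (Cf * (η / 2) * (2 + (X z + Y z) / ε i) +
      2 * Cκ * Cf * |disc (ε i) (a i) (u i) z|) := by
    refine norm_integral_le_of_norm_le iB ?_
    exact (ae_restrict_iff' measurableSet_ball).2 (Eventually.of_forall hbound)
  refine hle.trans ?_
  have hc2 : IntegrableOn (fun _ : ℂ => (2 : ℝ)) (ball (0 : ℂ) r') := intOn continuousOn_const
  have hcalc : ∫ z in ball (0 : ℂ) r', (Cf * (η / 2) * (2 + (X z + Y z) / ε i) +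
      2 * Cκ * Cf * |disc (ε i) (a i) (u i) z|) =
      Cf * (η / 2) * (2 * vol + ((∫ z in ball (0 : ℂ) r', X z) + ∫ z in ball (0 : ℂ) r', Y z) / ε i) +
      2 * Cκ * Cf * ∫ z in ball (0 : ℂ) r', |disc (ε i) (a i) (u i) z| := by
    have j1 : IntegrableOn (fun z => (X z + Y z) / ε i) (ball (0 : ℂ) r') := (iX.add iY).div_const _
    have j2 : IntegrableOn (fun z => Cf * (η / 2) * (2 + (X z + Y z) / ε i)) (ball (0 : ℂ) r') :=
      (hc2.add j1).const_mul _
    have j3 : IntegrableOn (fun z => 2 * Cκ * Cf * |disc (ε i) (a i) (u i) z|) (ball (0 : ℂ) r') :=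
      iD.const_mul _
    rw [integral_add j2 j3, integral_const_mul, integral_const_mul, integral_add hc2 j1, integral_div,
      integral_add iX iY, setIntegral_const, smul_eq_mul, mul_comm vol 2]
  rw [hcalc]
  have q1 : ((∫ z in ball (0 : ℂ) r', X z) + ∫ z in ball (0 : ℂ) r', Y z) / ε i ≤ C1 + C2 := by
    rw [div_le_iff₀ he]
    linarith [k2, k3]
  have q2 : Cf * (η / 2) * (2 * vol + ((∫ z in ball (0 : ℂ) r', X z) + ∫ z in ball (0 : ℂ) r', Y z) / ε i) ≤
      Cf * (η / 2) * (2 * vol + (C1 + C2)) := by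
    gcongr
  have q3 : 2 * Cκ * Cf * ∫ z in ball (0 : ℂ) r', |disc (ε i) (a i) (u i) z| ≤ 2 * Cκ * Cf * η := by
    gcongr
  calc _ ≤ Cf * (η / 2) * (2 * vol + (C1 + C2)) + 2 * Cκ * Cf * η := add_le_add q2 q3
    _ = (Cf / 2 * (2 * vol + C1 + C2) + 2 * Cκ * Cf) * η := by ring

end Pool.Agent.Helper74.CE
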