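import Pool.Agent.Helper74.CE.Defs

/-!
# CL-E20: smooth approximations of the direction

`m ∈ L²(μ)` (bounded, measurable, finite measure): `MemLp.exists_hasCompactSupport_eLpNorm_sub_le` gives continuous `g`
(with compact support) with `∫ ‖g - m‖² dμ ≤ η`. Radial truncation: `g₁ = g / max 1 ‖g‖` is continuous, `‖g₁‖ ≤ 1` and
`‖g₁ - m‖ ≤ ‖g - m‖`-type bound: `x ↦ x / max 1 ‖x‖` is the projection on the closed unit disc, which is `1`-Lipschitz
and fixes `m z`; alternatively it is enough to use that it is `2`-Lipschitz. Then `Continuous.exists_contDiff_approx`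
(Mathlib, `Geometry/Manifold/SmoothApprox`) gives a smooth `g₂` with `‖g₂ z - g₁ z‖ ≤ min 1 √η` for all `z`; then `‖g₂‖ ≤ 2`
and `∫ ‖g₂ - m‖² ≤ 2 ∫ ‖g₂ - g₁‖² + 2 ∫ ‖g₁ - m‖² ≤ 2 η μ(univ) + 8 η`. Take `η = 1 / (k + 1)`.

`Mk_pow`: `‖x^p - y^p‖ ≤ p 2^p ‖x - y‖` for `‖x‖, ‖y‖ ≤ 2`, and `∫ ‖M k - m‖ ≤ (μ univ)^{1/2} (∫ ‖M k - m‖²)^{1/2}` (or
`‖x‖ ≤ θ + ‖x‖² / θ`).
-/

namespace Pool.Agent.Helper74.CE

open MeasureTheory Filter Topology Metric Pool.Agent.Helper53.CL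
open scoped ContDiff Real

private theorem Mk_approx (μ : Measure ℂ) [IsFiniteMeasure μ] {m : ℂ → ℂ} (hm : Measurable m)
    (h1 : ∀ z, ‖m z‖ = 1) {η : ℝ} (hη : 0 < η) :
    ∃ M : ℂ → ℂ, ContDiff ℝ ∞ M ∧ (∀ z, ‖M z‖ ≤ 2) ∧ ∫ z, ‖M z - m z‖ ^ 2 ∂μ ≤ η := by
  have hint : Integrable m μ :=
    (integrable_const (1 : ℝ)).mono' hm.aestronglyMeasurable (Eventually.of_forall fun z => (h1 z).le)
  set V : ℝ := μ.real Set.univ with hV
  have hV0 : 0 ≤ V := measureReal_nonneg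
  obtain ⟨g, -, hg1, hgc, hgi⟩ := hint.exists_hasCompactSupport_integral_sub_le
    (show 0 < η / 12 by positivity)
  set g1 : ℂ → ℂ := fun z => ((max 1 ‖g z‖ : ℝ)⁻¹ : ℝ) • g z with hg1def
  have hmax : ∀ z, 0 < max 1 ‖g z‖ := fun z => lt_of_lt_of_le one_pos (le_max_left _ _)
  have hg1c : Continuous g1 := by
    refine Continuous.smul (Continuous.inv₀ ?_ fun z => (hmax z).ne') hgc
    exact continuous_const.max hgc.norm
  have hg1n : ∀ z, ‖g1 z‖ ≤ 1 := by
    intro z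
    simp only [hg1def]
    rw [norm_smul, norm_inv, Real.norm_eq_abs, abs_of_pos (hmax z), inv_mul_le_one₀ (hmax z)]
    exact le_max_right _ _
  have hg1m : ∀ z, ‖g1 z - m z‖ ≤ 2 * ‖m z - g z‖ := by
    intro z
    rcases le_total ‖g z‖ 1 with h | h
    · have : g1 z = g z := by
        simp only [hg1def]
        rw [max_eq_left h, inv_one, one_smul]
      rw [this, norm_sub_rev]
      linarith [norm_nonneg (m z - g z)]
    · have h2 : ‖g1 z - g z‖ = ‖g z‖ - 1 := by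
        have h0 : 0 < ‖g z‖ := lt_of_lt_of_le one_pos h
        have e : g1 z - g z = ((‖g z‖⁻¹ - 1 : ℝ)) • g z := by
          simp only [hg1def]
          rw [max_eq_right h, sub_smul, one_smul]
        rw [e, norm_smul, Real.norm_eq_abs, abs_of_nonpos]
        · field_simp
          ring
        · have : ‖g z‖⁻¹ ≤ 1 := inv_le_one_of_one_le₀ h
          linarith
      have h3 : ‖g z‖ - 1 ≤ ‖m z - g z‖ := by
        rw [← h1 z, norm_sub_rev]
        exact norm_sub_norm_le _ _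
      calc ‖g1 z - m z‖ ≤ ‖g1 z - g z‖ + ‖g z - m z‖ := norm_sub_le_norm_sub_add_norm_sub _ _ _
        _ ≤ 2 * ‖m z - g z‖ := by
          rw [h2, norm_sub_rev (g z) (m z)]
          linarith
  set κ : ℝ := min 1 (η / (6 * V + 1)) with hκ
  have hκ0 : 0 < κ := lt_min one_pos (by positivity)
  obtain ⟨M, hM1, hM2, -⟩ := hg1c.exists_contDiff_approx (⊤ : ℕ∞) (ε := fun _ => κ) continuous_const
    fun _ => hκ0
  have hM2' : ∀ z, ‖M z - g1 z‖ < κ := fun z => by rw [← dist_eq_norm]; exact hM2 z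
  have hMn : ∀ z, ‖M z‖ ≤ 2 := by
    intro z
    have e : M z = (M z - g1 z) + g1 z := by ring
    rw [e]
    refine (norm_add_le _ _).trans ?_
    linarith [hM2' z, hg1n z, min_le_left 1 (η / (6 * V + 1))]
  refine ⟨M, hM1, hMn, ?_⟩
  have hb : ∀ z, ‖M z - m z‖ ^ 2 ≤ 3 * κ + 6 * ‖m z - g z‖ := by
    intro z
    have a1 : ‖M z - m z‖ ≤ 3 := by
      refine (norm_sub_le _ _).trans ?_
      linarith [hMn z, h1 z]
    have a2 : ‖M z - m z‖ ≤ κ + 2 * ‖m z - g z‖ := by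
      calc ‖M z - m z‖ ≤ ‖M z - g1 z‖ + ‖g1 z - m z‖ := norm_sub_le_norm_sub_add_norm_sub _ _ _
        _ ≤ _ := add_le_add (hM2' z).le (hg1m z)
    have a0 := norm_nonneg (M z - m z)
    nlinarith
  have hsub : Integrable (fun z => ‖m z - g z‖) μ := (hint.sub hgi).norm
  calc ∫ z, ‖M z - m z‖ ^ 2 ∂μ ≤ ∫ z, (3 * κ + 6 * ‖m z - g z‖) ∂μ := by
        refine integral_mono_of_nonneg (Eventually.of_forall fun z => by positivity)
          ((integrable_const _).add (hsub.const_mul 6)) (Eventually.of_forall hb)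
    _ = V * (3 * κ) + 6 * ∫ z, ‖m z - g z‖ ∂μ := by
        rw [integral_add (integrable_const _) (hsub.const_mul 6), integral_const, integral_const_mul,
          smul_eq_mul]
    _ ≤ V * (3 * (η / (6 * V + 1))) + 6 * (η / 12) := by
        gcongr
        exact min_le_right _ _
    _ ≤ η := by
        have : V * (3 * (η / (6 * V + 1))) ≤ η / 2 := by
          rw [show V * (3 * (η / (6 * V + 1))) = η * (3 * V) / (6 * V + 1) by ring,
            div_le_iff₀ (by positivity)]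
          nlinarith
        linarith

theorem exists_Mk (μ : Measure ℂ) [IsFiniteMeasure μ] {m : ℂ → ℂ} (hm : Measurable m) (h1 : ∀ z, ‖m z‖ = 1) :
    ∃ M : ℕ → ℂ → ℂ, (∀ k, ContDiff ℝ ∞ (M k)) ∧ (∀ k z, ‖M k z‖ ≤ 2) ∧
      Tendsto (fun k => ∫ z, ‖M k z - m z‖ ^ 2 ∂μ) atTop (𝓝 0) := by
  have h : ∀ k : ℕ, ∃ M : ℂ → ℂ, ContDiff ℝ ∞ M ∧ (∀ z, ‖M z‖ ≤ 2) ∧
      ∫ z, ‖M z - m z‖ ^ 2 ∂μ ≤ 1 / ((k : ℝ) + 1) := fun k => Mk_approx μ hm h1 (by positivity)
  choose M hM1 hM2 hM3 using h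
  refine ⟨M, hM1, hM2, ?_⟩
  refine squeeze_zero (fun k => integral_nonneg fun z => by positivity) hM3 ?_
  exact tendsto_one_div_add_atTop_nhds_zero_nat

theorem Mk_pow {μ : Measure ℂ} [IsFiniteMeasure μ] {m : ℂ → ℂ} (hm : Measurable m) (h1 : ∀ z, ‖m z‖ = 1)
    {M : ℕ → ℂ → ℂ} (hM1 : ∀ k, ContDiff ℝ ∞ (M k)) (hM2 : ∀ k z, ‖M k z‖ ≤ 2)
    (hM3 : Tendsto (fun k => ∫ z, ‖M k z - m z‖ ^ 2 ∂μ) atTop (𝓝 0)) (p : ℕ) :
    Tendsto (fun k => ∫ z, ‖M k z ^ p - m z ^ p‖ ∂μ) atTop (𝓝 0) := by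
  -- pointwise Lipschitz bound
  have hpow : ∀ (q : ℕ) (x y : ℂ), ‖x‖ ≤ 2 → ‖y‖ ≤ 2 → ‖x ^ q - y ^ q‖ ≤ q * 2 ^ q * ‖x - y‖ := by
    intro q x y hx hy
    induction q with
    | zero => simp
    | succ q ih =>
      have e : x ^ (q + 1) - y ^ (q + 1) = x * (x ^ q - y ^ q) + (x - y) * y ^ q := by ring
      rw [e]
      have h2 : ‖y ^ q‖ ≤ 2 ^ q := by rw [norm_pow]; gcongr
      calc ‖x * (x ^ q - y ^ q) + (x - y) * y ^ q‖ ≤ ‖x‖ * ‖x ^ q - y ^ q‖ + ‖x - y‖ * ‖y ^ q‖ := by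
            refine (norm_add_le _ _).trans ?_
            rw [norm_mul, norm_mul]
        _ ≤ 2 * (q * 2 ^ q * ‖x - y‖) + ‖x - y‖ * 2 ^ q := by gcongr
        _ ≤ ((q + 1 : ℕ) : ℝ) * 2 ^ (q + 1) * ‖x - y‖ := by
            push_cast
            have h3 : 0 ≤ 2 ^ q * ‖x - y‖ := by positivity
            have e2 : ((q : ℝ) + 1) * 2 ^ (q + 1) * ‖x - y‖ =
                2 * (q * 2 ^ q * ‖x - y‖) + 2 * (2 ^ q * ‖x - y‖) := by rw [pow_succ]; ring
            rw [e2]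
            linarith
  set V : ℝ := μ.real Set.univ with hV
  have hV0 : 0 ≤ V := measureReal_nonneg
  have hmeas : ∀ k, Measurable (M k) := fun k => (hM1 k).continuous.measurable
  have hi2 : ∀ k, Integrable (fun z => ‖M k z - m z‖ ^ 2) μ := by
    intro k
    refine (integrable_const (9 : ℝ)).mono' (((hmeas k).sub hm).norm.pow_const 2).aestronglyMeasurable
      (Eventually.of_forall fun z => ?_)
    have a1 : ‖M k z - m z‖ ≤ 3 := by
      refine (norm_sub_le _ _).trans ?_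
      linarith [hM2 k z, h1 z]
    rw [Real.norm_eq_abs, abs_of_nonneg (by positivity)]
    nlinarith [norm_nonneg (M k z - m z)]
  set c : ℝ := p * 2 ^ p with hc
  have hc0 : 0 ≤ c := by positivity
  rw [Metric.tendsto_atTop]
  intro η hη
  set θ : ℝ := η / (2 * c * V + 1) with hθ
  have hθ0 : 0 < θ := by positivity
  obtain ⟨N, hN⟩ := (Metric.tendsto_atTop.mp hM3) (η * θ / (2 * c + 1)) (by positivity)
  refine ⟨N, fun k hk => ?_⟩
  have h2 := hN k hk
  rw [Real.dist_eq, sub_zero, abs_of_nonneg (integral_nonneg fun z => by positivity)] at h2 ⊢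
  have hb : ∀ z, ‖M k z ^ p - m z ^ p‖ ≤ c * θ + c / θ * ‖M k z - m z‖ ^ 2 := by
    intro z
    refine (hpow p _ _ (hM2 k z) (by rw [h1 z]; norm_num)).trans ?_
    set t := ‖M k z - m z‖
    have ht : 0 ≤ t := norm_nonneg _
    have h3 : t ≤ θ + t ^ 2 / θ := by
      rw [← sub_nonneg]
      have : θ + t ^ 2 / θ - t = ((θ - t) ^ 2 + θ * t) / θ := by field_simp; ring
      rw [this]
      positivity
    calc c * t ≤ c * (θ + t ^ 2 / θ) := by gcongr
      _ = _ := by ring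
  calc ∫ z, ‖M k z ^ p - m z ^ p‖ ∂μ ≤ ∫ z, (c * θ + c / θ * ‖M k z - m z‖ ^ 2) ∂μ := by
        refine integral_mono_of_nonneg (Eventually.of_forall fun z => norm_nonneg _)
          ((integrable_const _).add ((hi2 k).const_mul _)) (Eventually.of_forall hb)
    _ = V * (c * θ) + c / θ * ∫ z, ‖M k z - m z‖ ^ 2 ∂μ := by
        rw [integral_add (integrable_const _) ((hi2 k).const_mul _), integral_const, integral_const_mul,
          smul_eq_mul]
    _ ≤ V * (c * θ) + c / θ * (η * θ / (2 * c + 1)) := by gcongr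
    _ < η := by
        have e1 : V * (c * θ) < η / 2 := by
          rw [hθ, show V * (c * (η / (2 * c * V + 1))) = η * (c * V) / (2 * c * V + 1) by ring,
            div_lt_iff₀ (by positivity)]
          nlinarith [mul_nonneg hc0 hV0]
        have e2 : c / θ * (η * θ / (2 * c + 1)) = η * c / (2 * c + 1) := by field_simp
        have e3 : η * c / (2 * c + 1) ≤ η / 2 := by
          rw [div_le_iff₀ (by positivity)]
          nlinarith
        rw [e2]
        linarith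

end Pool.Agent.Helper74.CE
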