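import Pool.Agent.Helper74.CE.Defs

/-!
# CL-E29: the measures `(2 a / ε) (1 - cos u) dz` converge to `μ`

`(2 / ε) a (1 - cos u) = ed - disc`. Let `r < r' < 2` (`r' > 0`). The total mass on `ball 0 r'` is bounded:
`∫_{ball 0 r'} (2/ε) a (1 - cos u) ≤ 2 ∫_{ball 0 2} ed ≤ 2 E` (`LocSeq.energy`: `ed ≥ a (1 - cos u) / ε ≥ 0`, everything being
continuous on `ball 0 3`). So `|∫ G (h_j - h) (2/ε) a W| ≤ sup_{closedBall 0 r} |G| · sup |h_j - h| · 2 E → 0`, and it remains to
treat the fixed continuous function `G h` with compact support in `ball 0 2`: real and imaginary parts `f`;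
`∫ f (2/ε) a W = ∫ f ed - ∫ f disc → ∫ f dμ` by `EConv` and `|∫ f disc| ≤ sup |f| ∫_{ball 0 r'} |disc| → 0` (`hd`).
-/

namespace Pool.Agent.Helper74.CE

open MeasureTheory Filter Topology Metric Pool.Agent.Helper53.CL
open scoped ContDiff Real

section Aux

variable {E : Type*} [NormedAddCommGroup E] [NormedSpace ℝ E]

private theorem wc_int {F : ℂ → E} (hF : Continuous F) {r : ℝ} (hr : r < 2)
    (h0 : ∀ z, z ∉ closedBall (0 : ℂ) r → F z = 0) {g : ℂ → ℝ} (hg : ContinuousOn g (ball 0 3)) :
    Integrable fun z => g z • F z := by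
  have hsub : closedBall (0 : ℂ) r ⊆ ball 0 3 := closedBall_subset_ball (by linarith)
  have h1 : IntegrableOn (fun z => g z • F z) (closedBall (0 : ℂ) r) :=
    ((hg.mono hsub).smul hF.continuousOn).integrableOn_compact (isCompact_closedBall _ _)
  refine (integrableOn_iff_integrable_of_support_subset ?_).1 h1
  intro z hz
  by_contra hc
  refine hz ?_
  change g z • F z = 0
  rw [h0 z hc, smul_zero]

private theorem wc_norm {F : ℂ → E} {r r' M : ℝ} (hrr : r < r') (hr' : r' < 2)
    (h0 : ∀ z, z ∉ closedBall (0 : ℂ) r → F z = 0) (hM : ∀ z, ‖F z‖ ≤ M) {g : ℂ → ℝ}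
    (hg : ContinuousOn g (ball 0 3)) :
    ‖∫ z, g z • F z‖ ≤ M * ∫ z in ball (0 : ℂ) r', |g z| := by
  have hsub : closedBall (0 : ℂ) r' ⊆ ball 0 3 := closedBall_subset_ball (by linarith)
  have h1 : ∫ z in ball (0 : ℂ) r', g z • F z = ∫ z, g z • F z := by
    refine setIntegral_eq_integral_of_forall_compl_eq_zero fun z hz => ?_
    rw [h0 z fun hc => hz (closedBall_subset_ball hrr hc), smul_zero]
  have h2 : IntegrableOn (fun z => |g z|) (ball (0 : ℂ) r') :=
    (((hg.mono hsub).abs).integrableOn_compact (isCompact_closedBall _ _)).mono_set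
      ball_subset_closedBall
  rw [← h1, ← integral_const_mul]
  refine norm_integral_le_of_norm_le (h2.const_mul M) (Eventually.of_forall fun z => ?_)
  rw [norm_smul, Real.norm_eq_abs, mul_comm]
  exact mul_le_mul_of_nonneg_right (hM z) (abs_nonneg _)

end Aux

variable {a : ℂ → ℝ} {aj : ℕ → ℂ → ℝ} {ε : ℕ → ℝ} {u : ℕ → ℂ → ℝ} {μ : Measure ℂ}

private theorem wc_gr (H : LocSeq a aj ε u) (j : ℕ) : ContinuousOn (gr (u j)) (ball 0 3) := by
  have h1 := (H.sol j).smooth.continuousOn_fderiv_of_isOpen isOpen_ball (by simp)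
  have h2 : gr (u j) = fun z => ((fderiv ℝ (u j) z 1 : ℝ) : ℂ) +
      ((fderiv ℝ (u j) z Complex.I : ℝ) : ℂ) * Complex.I := by
    funext z
    exact Complex.mk_eq_add_mul_I _ _
  rw [h2]
  exact (Complex.continuous_ofReal.comp_continuousOn (h1.clm_apply continuousOn_const)).add
    ((Complex.continuous_ofReal.comp_continuousOn (h1.clm_apply continuousOn_const)).mul
      continuousOn_const)

private theorem wc_pot (H : LocSeq a aj ε u) (j : ℕ) :
    ContinuousOn (fun z => 1 / ε j * (aj j z * (1 - Real.cos (u j z)))) (ball 0 3) :=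
  continuousOn_const.mul ((H.aj_smooth j).continuousOn.mul
    (continuousOn_const.sub (Real.continuous_cos.comp_continuousOn (H.sol j).smooth.continuousOn)))

private theorem wc_ed (H : LocSeq a aj ε u) (j : ℕ) :
    ContinuousOn (fun z => ed (ε j) (aj j) (u j) z) (ball 0 3) := by
  unfold ed
  exact (continuousOn_const.mul ((wc_gr H j).norm.pow 2)).add (wc_pot H j)

private theorem wc_disc (H : LocSeq a aj ε u) (j : ℕ) :
    ContinuousOn (fun z => disc (ε j) (aj j) (u j) z) (ball 0 3) := by
  unfold disc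
  exact (continuousOn_const.mul ((wc_gr H j).norm.pow 2)).sub (wc_pot H j)

theorem wconv (H : LocSeq a aj ε u) [IsFiniteMeasure μ] (hE : EConv aj ε u μ)
    (hd : ∀ r < 2, Tendsto (fun j => ∫ z in ball (0 : ℂ) r, |disc (ε j) (aj j) (u j) z|) atTop (𝓝 0))
    {G : ℂ → ℂ} (hG : Continuous G) {h : ℂ → ℂ} {hj : ℕ → ℂ → ℂ} (hh : Continuous h) (hhj : ∀ j, Continuous (hj j))
    {r : ℝ} (hr : r < 2) (hs : tsupport h ⊆ closedBall 0 r) (hsj : ∀ j, tsupport (hj j) ⊆ closedBall 0 r)
    (hu : TendstoUniformly hj h atTop) :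
    Tendsto (fun j => ∫ z, G z * hj j z * ((2 * aj j z / ε j : ℝ) * Wf u j z)) atTop (𝓝 (∫ z, G z * h z ∂μ)) := by
  obtain ⟨r', hrr, hr2⟩ := exists_between hr
  set w : ℕ → ℂ → ℝ := fun j z => ed (ε j) (aj j) (u j) z - disc (ε j) (aj j) (u j) z with hw
  have hwe : ∀ j z, w j z = 2 * aj j z / ε j * (1 - Real.cos (u j z)) := by
    intro j z
    rw [hw]
    simp only [ed, disc]
    ring
  have hwc : ∀ j, ContinuousOn (w j) (ball 0 3) := fun j => (wc_ed H j).sub (wc_disc H j)
  -- the total mass is bounded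
  obtain ⟨E₀, hE₀⟩ := H.energy
  have hmass : ∀ j, ∫ z in ball (0 : ℂ) r', |w j z| ≤ 2 * E₀ := by
    intro j
    have hε := H.eps_pos j
    have hp : ∀ z ∈ ball (0 : ℂ) 3, 0 ≤ 1 / ε j * (aj j z * (1 - Real.cos (u j z))) := by
      intro z hz
      have h1 := H.aj_pos j z hz
      have h2 : 0 ≤ 1 - Real.cos (u j z) := by linarith [Real.cos_le_one (u j z)]
      positivity
    have he : ∀ z ∈ ball (0 : ℂ) 3, |w j z| ≤ 2 * ed (ε j) (aj j) (u j) z := by
      intro z hz
      have h1 := hp z hz
      have h2 : w j z = 2 * (1 / ε j * (aj j z * (1 - Real.cos (u j z)))) := by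
        rw [hwe]
        ring
      rw [h2, abs_of_nonneg (by linarith)]
      unfold ed
      have h3 : 0 ≤ ε j / 2 * ‖gr (u j) z‖ ^ 2 := by positivity
      linarith
    have hed0 : ∀ z ∈ ball (0 : ℂ) 3, 0 ≤ ed (ε j) (aj j) (u j) z := by
      intro z hz
      have := he z hz
      have := abs_nonneg (w j z)
      linarith
    have hi : IntegrableOn (fun z => ed (ε j) (aj j) (u j) z) (ball (0 : ℂ) 2) :=
      (((wc_ed H j).mono (closedBall_subset_ball (by norm_num))).integrableOn_compact
        (isCompact_closedBall (0 : ℂ) 2)).mono_set ball_subset_closedBall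
    have hsub : ball (0 : ℂ) r' ⊆ ball 0 2 := ball_subset_ball hr2.le
    have hsub3 : ball (0 : ℂ) 2 ⊆ ball 0 3 := ball_subset_ball (by norm_num)
    calc ∫ z in ball (0 : ℂ) r', |w j z| ≤ ∫ z in ball (0 : ℂ) r', 2 * ed (ε j) (aj j) (u j) z := by
          refine setIntegral_mono_on ?_ ((hi.mono_set hsub).const_mul 2) measurableSet_ball
            fun z hz => he z (hsub3 (hsub hz))
          exact ((((hwc j).mono (closedBall_subset_ball (by norm_num))).abs.integrableOn_compact
            (isCompact_closedBall (0 : ℂ) 2)).mono_set ball_subset_closedBall).mono_set hsub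
      _ = 2 * ∫ z in ball (0 : ℂ) r', ed (ε j) (aj j) (u j) z := integral_const_mul _ _
      _ ≤ 2 * ∫ z in ball (0 : ℂ) 2, ed (ε j) (aj j) (u j) z := by
          refine mul_le_mul_of_nonneg_left ?_ zero_le_two
          refine setIntegral_mono_set hi ?_ (Eventually.of_forall hsub)
          exact (ae_restrict_iff' measurableSet_ball).2
            (Eventually.of_forall fun z hz => hed0 z (hsub3 hz))
      _ ≤ 2 * E₀ := mul_le_mul_of_nonneg_left (hE₀ j) zero_le_two
  -- real functions
  have key : ∀ F : ℂ → ℝ, Continuous F → (∀ z, z ∉ closedBall (0 : ℂ) r → F z = 0) →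
      Tendsto (fun j => ∫ z, w j z * F z) atTop (𝓝 (∫ z, F z ∂μ)) := by
    intro F hF h0
    have hcs : HasCompactSupport F := HasCompactSupport.intro (isCompact_closedBall _ _) h0
    have hts : tsupport F ⊆ ball 0 2 := by
      have h1 : tsupport F ⊆ closedBall 0 r := by
        refine closure_minimal ?_ isClosed_closedBall
        intro z hz
        by_contra hc
        exact hz (h0 z hc)
      exact h1.trans (closedBall_subset_ball hr)
    have h1 := hE F hF hcs hts
    obtain ⟨M, hM⟩ := hcs.exists_bound_of_continuous hF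
    have h2 : Tendsto (fun j => ∫ z, disc (ε j) (aj j) (u j) z • F z) atTop (𝓝 0) := by
      have h3 : Tendsto (fun j => M * ∫ z in ball (0 : ℂ) r', |disc (ε j) (aj j) (u j) z|) atTop
          (𝓝 0) := by
        have := (hd r' hr2).const_mul M
        rwa [mul_zero] at this
      exact squeeze_zero_norm (fun j => wc_norm hrr hr2 h0 hM (wc_disc H j)) h3
    have h4 : ∀ j, ∫ z, w j z * F z = (∫ z, F z * ed (ε j) (aj j) (u j) z) -
        ∫ z, disc (ε j) (aj j) (u j) z • F z := by
      intro j
      have h5 := wc_int hF hr h0 (wc_ed H j)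
      have h6 := wc_int hF hr h0 (wc_disc H j)
      have h7 : (∫ z, F z * ed (ε j) (aj j) (u j) z) = ∫ z, ed (ε j) (aj j) (u j) z • F z :=
        integral_congr_ae (Eventually.of_forall fun z => by
          simp only [smul_eq_mul]
          ring)
      rw [h7, ← integral_sub h5 h6]
      refine integral_congr_ae (Eventually.of_forall fun z => ?_)
      simp only [smul_eq_mul, hw]
      ring
    have h8 : (fun j => ∫ z, w j z * F z) = fun j => (∫ z, F z * ed (ε j) (aj j) (u j) z) -
        ∫ z, disc (ε j) (aj j) (u j) z • F z := funext h4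
    rw [h8]
    have h9 := h1.sub h2
    rwa [sub_zero] at h9
  have hz0 : ∀ z, z ∉ closedBall (0 : ℂ) r → h z = 0 := fun z hz =>
    image_eq_zero_of_notMem_tsupport fun hc => hz (hs hc)
  have hzj : ∀ j z, z ∉ closedBall (0 : ℂ) r → hj j z = 0 := fun j z hz =>
    image_eq_zero_of_notMem_tsupport fun hc => hz (hsj j hc)
  -- the fixed function
  have hfix : Tendsto (fun j => ∫ z, w j z • (G z * h z)) atTop (𝓝 (∫ z, G z * h z ∂μ)) := by
    have hFc : Continuous fun z => G z * h z := hG.mul hh
    have hF0 : ∀ z, z ∉ closedBall (0 : ℂ) r → G z * h z = 0 := fun z hz => by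
      rw [hz0 z hz, mul_zero]
    have hcs : HasCompactSupport fun z => G z * h z :=
      HasCompactSupport.intro (isCompact_closedBall _ _) hF0
    have hre := key (fun z => (G z * h z).re) (Complex.continuous_re.comp hFc)
      (fun z hz => by rw [hF0 z hz, Complex.zero_re])
    have him := key (fun z => (G z * h z).im) (Complex.continuous_im.comp hFc)
      (fun z hz => by rw [hF0 z hz, Complex.zero_im])
    have h1 : ∀ ν : Measure ℂ, ∀ f : ℂ → ℂ, Integrable f ν →
        ∫ z, f z ∂ν = ((∫ z, (f z).re ∂ν : ℝ) : ℂ) + ((∫ z, (f z).im ∂ν : ℝ) : ℂ) * Complex.I := by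
      intro ν f hf
      exact (integral_re_add_im hf).symm
    rw [h1 μ _ (hFc.integrable_of_hasCompactSupport hcs)]
    have h2 : (fun j => ∫ z, w j z • (G z * h z)) = fun j =>
        ((∫ z, w j z * (G z * h z).re : ℝ) : ℂ) +
          ((∫ z, w j z * (G z * h z).im : ℝ) : ℂ) * Complex.I := by
      funext j
      rw [h1 volume _ (wc_int hFc hr hF0 (hwc j))]
      simp only [Complex.real_smul, Complex.re_ofReal_mul, Complex.im_ofReal_mul]
    rw [h2]
    exact ((Complex.continuous_ofReal.tendsto _).comp hre).add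
      (((Complex.continuous_ofReal.tendsto _).comp him).mul_const _)
  -- the error
  have herr : Tendsto (fun j => ∫ z, w j z • (G z * (hj j z - h z))) atTop (𝓝 0) := by
    obtain ⟨MG, hMG⟩ := (isCompact_closedBall (0 : ℂ) r).exists_bound_of_continuousOn
      hG.continuousOn
    rw [Metric.tendsto_nhds]
    intro η hη
    have hMG' : 0 < |MG| + 1 := by positivity
    have hE' : 0 < 2 * |E₀| + 1 := by positivity
    have hδ : 0 < η / ((|MG| + 1) * (2 * |E₀| + 1)) := by positivity
    filter_upwards [Metric.tendstoUniformly_iff.1 hu _ hδ] with j hj'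
    set δ : ℝ := η / ((|MG| + 1) * (2 * |E₀| + 1)) with hδd
    have hb : ∀ z, ‖G z * (hj j z - h z)‖ ≤ |MG| * δ := by
      intro z
      by_cases hz : z ∈ closedBall (0 : ℂ) r
      · rw [norm_mul]
        refine mul_le_mul ((hMG z hz).trans (le_abs_self _)) ?_ (norm_nonneg _) (abs_nonneg _)
        have := hj' z
        rw [dist_comm, dist_eq_norm] at this
        exact this.le
      · rw [hzj j z hz, hz0 z hz, sub_self, mul_zero, norm_zero]
        positivity
    have h0 : ∀ z, z ∉ closedBall (0 : ℂ) r → G z * (hj j z - h z) = 0 := fun z hz => by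
      rw [hzj j z hz, hz0 z hz, sub_self, mul_zero]
    have h1 := wc_norm (F := fun z => G z * (hj j z - h z)) hrr hr2 h0 hb (hwc j)
    rw [dist_zero_right]
    have h2 : (|MG| * δ) * ∫ z in ball (0 : ℂ) r', |w j z| ≤ (|MG| * δ) * (2 * |E₀|) := by
      refine mul_le_mul_of_nonneg_left ((hmass j).trans ?_) (by positivity)
      linarith [le_abs_self E₀]
    have h3 : (|MG| * δ) * (2 * |E₀|) < η := by
      have h4 : δ * ((|MG| + 1) * (2 * |E₀| + 1)) = η := by
        rw [hδd]
        field_simp
      have h5 : |MG| * (2 * |E₀|) < (|MG| + 1) * (2 * |E₀| + 1) := by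
        nlinarith [abs_nonneg MG, abs_nonneg E₀]
      calc (|MG| * δ) * (2 * |E₀|) = δ * (|MG| * (2 * |E₀|)) := by ring
        _ < δ * ((|MG| + 1) * (2 * |E₀| + 1)) := mul_lt_mul_of_pos_left h5 hδ
        _ = η := h4
    linarith
  have hfin : ∀ j, ∫ z, G z * hj j z * ((2 * aj j z / ε j : ℝ) * Wf u j z) =
      (∫ z, w j z • (G z * h z)) + ∫ z, w j z • (G z * (hj j z - h z)) := by
    intro j
    have h5 := wc_int (F := fun z => G z * h z) (hG.mul hh) hr
      (fun z hz => by rw [hz0 z hz, mul_zero]) (hwc j)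
    have h6 := wc_int (F := fun z => G z * (hj j z - h z)) (hG.mul ((hhj j).sub hh)) hr
      (fun z hz => by rw [hzj j z hz, hz0 z hz, sub_self, mul_zero]) (hwc j)
    rw [← integral_add h5 h6]
    refine integral_congr_ae (Eventually.of_forall fun z => ?_)
    simp only [Complex.real_smul, hwe, Wf]
    push_cast
    ring
  have h10 := hfix.add herr
  rw [add_zero] at h10
  refine h10.congr fun j => ?_
  exact (hfin j).symm

end Pool.Agent.Helper74.CE
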