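import Pool.Agent.Helper74.CE.NegC
import Pool.Agent.Helper74.CE.WConv
import Pool.Agent.Helper74.CE.Mk
import Pool.Agent.Helper74.CE.Equi

/-!
# CL-E30, part 1: limits of the terms of the conservation laws (helper74)
-/

namespace Pool.Agent.Helper74.CE

open MeasureTheory Filter Topology Metric Pool.Agent.Helper53.CL
open scoped ContDiff Real

section General

variable {ι : Type*} {𝓕 : Filter ι} {ε : ι → ℝ}

/-- Integrals of negligible families. -/
theorem int_err (h0 : ∀ i, 0 < ε i) {F φ : ι → ℂ → ℂ} {K r : ℝ} (hr : r < 2)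
    (hφ : ∀ᶠ i in 𝓕, ∀ z ∈ ball (0 : ℂ) 2, ‖φ i z‖ ≤ K) (hs : ∀ i, ∀ z ∉ closedBall (0 : ℂ) r, φ i z = 0)
    (hF : Neg 𝓕 ε F) : Tendsto (fun i => (∫ z, φ i z * F i z) / ε i) 𝓕 (𝓝 0) := by
  set r' := (max r 0 + 2) / 2 with hr'
  have h1 : r < r' := by
    have := le_max_left r 0
    have : max r 0 < 2 := max_lt hr (by norm_num)
    rw [hr']; linarith [le_max_left r 0]
  have h2 : r' < 2 := by
    have : max r 0 < 2 := max_lt hr (by norm_num)
    rw [hr']; linarith
  have h3 := hF.2 r' h2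
  rw [tendsto_zero_iff_norm_tendsto_zero]
  have h4 : Tendsto (fun i => |K| * ((∫ z in ball (0 : ℂ) r', ‖F i z‖) / ε i)) 𝓕 (𝓝 0) := by
    simpa using h3.const_mul |K|
  refine squeeze_zero' (Eventually.of_forall fun i => norm_nonneg _) ?_ h4
  filter_upwards [hφ] with i hi
  have hint : IntegrableOn (fun z => ‖F i z‖) (ball (0 : ℂ) r') :=
    (integrableOn_ball (hF.1 i) (by linarith)).norm
  have h5 : ‖∫ z, φ i z * F i z‖ ≤ |K| * ∫ z in ball (0 : ℂ) r', ‖F i z‖ := by
    rw [← integral_const_mul, ← integral_indicator measurableSet_ball]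
    refine norm_integral_le_of_norm_le ?_ (Eventually.of_forall fun z => ?_)
    · exact (integrable_indicator_iff measurableSet_ball).2 (hint.const_mul _)
    · by_cases hz : z ∈ ball (0 : ℂ) r'
      · rw [Set.indicator_of_mem hz, norm_mul]
        exact mul_le_mul_of_nonneg_right ((hi z (ball_subset_ball h2.le hz)).trans (le_abs_self K)) (norm_nonneg _)
      · rw [Set.indicator_of_notMem hz, hs i z fun h => hz (closedBall_subset_ball h1 h)]
        simp
  rw [norm_div, Complex.norm_real, Real.norm_of_nonneg (h0 i).le, ← mul_div_assoc]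
  exact div_le_div_of_nonneg_right h5 (h0 i).le

end General

theorem tendsto_curry {X : Type*} [PseudoMetricSpace X] {F : ℕ × ℕ → X} {G : ℕ → X} {L : X}
    (h1 : ∀ k, Tendsto (fun j => F (k, j)) atTop (𝓝 (G k))) (h2 : Tendsto G atTop (𝓝 L)) :
    Tendsto F ((atTop : Filter ℕ).curry (atTop : Filter ℕ)) (𝓝 L) := by
  rw [Metric.tendsto_nhds]
  intro η hη
  rw [Filter.eventually_curry_iff]
  filter_upwards [(Metric.tendsto_nhds.1 h2) (η / 2) (by positivity)] with k hk
  filter_upwards [(Metric.tendsto_nhds.1 (h1 k)) (η / 2) (by positivity)] with j hj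
  calc dist (F (k, j)) L ≤ dist (F (k, j)) (G k) + dist (G k) L := dist_triangle _ _ _
    _ < η := by linarith

theorem tendsto_snd_curry : Tendsto (Prod.snd : ℕ × ℕ → ℕ) ((atTop : Filter ℕ).curry (atTop : Filter ℕ)) atTop :=
  tendsto_snd.mono_left Filter.curry_le_prod

variable {a : ℂ → ℝ} {aj : ℕ → ℂ → ℝ} {ε : ℕ → ℝ} {u : ℕ → ℂ → ℝ} {μ : Measure ℂ} {m : ℂ → ℂ}

/-- Limit of the terms with the constant polynomial. -/
theorem lim_W (H : LocSeq a aj ε u) [IsFiniteMeasure μ] (hE : EConv aj ε u μ)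
    (hd : ∀ r < 2, Tendsto (fun j => ∫ z in ball (0 : ℂ) r, |disc (ε j) (aj j) (u j) z|) atTop (𝓝 0))
    (hm : Measurable m) (h1 : ∀ z, ‖m z‖ = 1)
    {M : ℕ → ℂ → ℂ} (hM1 : ∀ k, ContDiff ℝ ∞ (M k)) (hM2 : ∀ k z, ‖M k z‖ ≤ 2)
    (hM3 : Tendsto (fun k => ∫ z, ‖M k z - m z‖ ^ 2 ∂μ) atTop (𝓝 0))
    {h : ℂ → ℂ} {hj : ℕ → ℂ → ℂ} (hh : Continuous h) (hhj : ∀ j, Continuous (hj j))
    {r : ℝ} (hr : r < 2) (hs : tsupport h ⊆ closedBall 0 r) (hsj : ∀ j, tsupport (hj j) ⊆ closedBall 0 r)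
    (hu : TendstoUniformly hj h atTop) (q : ℕ) :
    Tendsto (fun p : ℕ × ℕ => ∫ z, M p.1 z ^ q * hj p.2 z * ((aj p.2 z : ℂ) / ε p.2 * Wf u p.2 z))
      ((atTop : Filter ℕ).curry (atTop : Filter ℕ)) (𝓝 (2⁻¹ * ∫ z, m z ^ q * h z ∂μ)) := by
  have hcs : HasCompactSupport h := HasCompactSupport.of_support_subset_isCompact (isCompact_closedBall 0 r)
    ((subset_tsupport _).trans hs)
  obtain ⟨K, hK⟩ := hh.bounded_above_of_compact_support hcs
  refine tendsto_curry (G := fun k => 2⁻¹ * ∫ z, M k z ^ q * h z ∂μ) (fun k => ?_) ?_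
  · have := (wconv H hE hd ((hM1 k).continuous.pow q) hh hhj hr hs hsj hu).const_mul (2⁻¹ : ℂ)
    refine this.congr fun j => ?_
    simp only
    rw [← integral_const_mul]
    refine integral_congr_ae (Eventually.of_forall fun z => ?_)
    simp only [Complex.ofReal_div, Complex.ofReal_mul, Complex.ofReal_ofNat, Pi.pow_apply]
    ring
  · refine Tendsto.const_mul _ ?_
    rw [← tendsto_sub_nhds_zero_iff, tendsto_zero_iff_norm_tendsto_zero]
    have h5 : Tendsto (fun k => K * ∫ z, ‖M k z ^ q - m z ^ q‖ ∂μ) atTop (𝓝 0) := by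
      simpa using (Mk_pow hm h1 hM1 hM2 hM3 q).const_mul K
    have hmeas : ∀ k, AEStronglyMeasurable (fun z => M k z ^ q) μ := fun k =>
      ((hM1 k).continuous.pow q).aestronglyMeasurable
    have hmeas' : AEStronglyMeasurable (fun z => m z ^ q) μ := (hm.pow_const q).aestronglyMeasurable
    have hi1 : ∀ k, Integrable (fun z => M k z ^ q * h z) μ := fun k => by
      refine Integrable.of_bound ((hmeas k).mul hh.aestronglyMeasurable) (2 ^ q * K)
        (Eventually.of_forall fun z => ?_)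
      rw [norm_mul, norm_pow]
      exact mul_le_mul (pow_le_pow_left₀ (norm_nonneg _) (hM2 k z) q) (hK z) (norm_nonneg _) (by positivity)
    have hi2 : Integrable (fun z => m z ^ q * h z) μ := by
      refine Integrable.of_bound (hmeas'.mul hh.aestronglyMeasurable) K (Eventually.of_forall fun z => ?_)
      rw [norm_mul, norm_pow, h1, one_pow, one_mul]
      exact hK z
    have hi3 : ∀ k, Integrable (fun z => ‖M k z ^ q - m z ^ q‖) μ := fun k => by
      refine Integrable.of_bound ((hmeas k).sub hmeas').norm (2 ^ q + 1) (Eventually.of_forall fun z => ?_)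
      rw [norm_norm]
      refine (norm_sub_le _ _).trans (add_le_add ?_ ?_)
      · rw [norm_pow]; exact pow_le_pow_left₀ (norm_nonneg _) (hM2 k z) q
      · rw [norm_pow, h1, one_pow]
    refine squeeze_zero (fun k => norm_nonneg _) (fun k => ?_) h5
    rw [← integral_sub (hi1 k) hi2, ← integral_const_mul]
    refine norm_integral_le_of_norm_le ((hi3 k).const_mul _) (Eventually.of_forall fun z => ?_)
    rw [← sub_mul, norm_mul, mul_comm]
    exact mul_le_mul_of_nonneg_right (hK z) (norm_nonneg _)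

/-- Limit of the terms with a general polynomial. -/
theorem lim_R (H : LocSeq a aj ε u) [IsFiniteMeasure μ] (hE : EConv aj ε u μ)
    (hd : ∀ r < 2, Tendsto (fun j => ∫ z in ball (0 : ℂ) r, |disc (ε j) (aj j) (u j) z|) atTop (𝓝 0))
    (hm : Measurable m) (h1 : ∀ z, ‖m z‖ = 1)
    {M : ℕ → ℂ → ℂ} (hM1 : ∀ k, ContDiff ℝ ∞ (M k)) (hM2 : ∀ k z, ‖M k z‖ ≤ 2)
    (hM3 : Tendsto (fun k => ∫ z, ‖M k z - m z‖ ^ 2 ∂μ) atTop (𝓝 0))
    (hC : Ctx ((atTop : Filter ℕ).curry (atTop : Filter ℕ)) (fun p => ε p.2) (fun p => aj p.2) (fun p => u p.2))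
    {h : ℂ → ℂ} {hj : ℕ → ℂ → ℂ} (hh : Continuous h) (hhj : ∀ j, ContDiff ℝ ∞ (hj j))
    {r : ℝ} (hr : r < 2) (hs : tsupport h ⊆ closedBall 0 r) (hsj : ∀ j, tsupport (hj j) ⊆ closedBall 0 r)
    (hu : TendstoUniformly hj h atTop) (q : ℕ)
    (hslow : Slow ((atTop : Filter ℕ).curry (atTop : Filter ℕ)) (fun p => ε p.2)
      (fun p z => M p.1 z ^ q * hj p.2 z)) (R : Polynomial ℝ) :
    Tendsto (fun p : ℕ × ℕ => ∫ z, M p.1 z ^ q * hj p.2 z * ((aj p.2 z : ℂ) / ε p.2 *
        (Wf u p.2 z * pc R u p.2 z)))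
      ((atTop : Filter ℕ).curry (atTop : Filter ℕ))
      (𝓝 (4⁻¹ * ((∫ x in (-1 : ℝ)..1, R.eval x : ℝ) : ℂ) * ∫ z, m z ^ q * h z ∂μ)) := by
  set c0 : ℝ := 2⁻¹ * ∫ x in (-1 : ℝ)..1, R.eval x with hc0
  have hR0 : ∫ x in (-1 : ℝ)..1, (R - Polynomial.C c0).eval x = 0 := by
    have : ∀ x : ℝ, (R - Polynomial.C c0).eval x = R.eval x - c0 := fun x => by simp
    simp only [this]
    rw [intervalIntegral.integral_sub (R.continuous.intervalIntegrable _ _) (by simp)]
    rw [intervalIntegral.integral_const, hc0]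
    simp only [smul_eq_mul]
    ring
  have hse : ∀ p : ℕ × ℕ, tsupport (fun z => M p.1 z ^ q * hj p.2 z) ⊆ closedBall 0 r := fun p =>
    (tsupport_mul_subset_right (f := fun z => M p.1 z ^ q) (g := hj p.2)).trans (hsj p.2)
  have e1 := equi hC hslow hr hse (R - Polynomial.C c0) hR0
  have e2 := (lim_W H hE hd hm h1 hM1 hM2 hM3 hh (fun j => (hhj j).continuous) hr hs hsj hu q).const_mul (c0 : ℂ)
  have e3 := e1.add e2
  have e4 : (0 : ℂ) + (c0 : ℂ) * (2⁻¹ * ∫ z, m z ^ q * h z ∂μ) =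
      4⁻¹ * ((∫ x in (-1 : ℝ)..1, R.eval x : ℝ) : ℂ) * ∫ z, m z ^ q * h z ∂μ := by
    rw [hc0]; push_cast; ring
  rw [e4] at e3
  refine e3.congr fun p => ?_
  have hcont : ContinuousOn (u p.2) (ball 0 3) := (H.sol p.2).smooth.continuousOn
  have key : ∀ G : ℝ → ℝ, Continuous G → Integrable (fun z => M p.1 z ^ q * hj p.2 z *
      ((aj p.2 z : ℂ) / ε p.2 * ((G (u p.2 z) : ℝ) : ℂ))) := fun G hG => by
    have hr3 : r < 3 := by linarith
    refine (integrableOn_iff_integrable_of_support_subset (s := closedBall 0 r) ?_).1 ?_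
    · intro z hz
      have hz' : hj p.2 z ≠ 0 := fun h0 => hz (by simp [h0])
      exact hsj p.2 (subset_tsupport _ hz')
    · refine ContinuousOn.integrableOn_compact (isCompact_closedBall 0 r) ?_
      have hsub : closedBall (0 : ℂ) r ⊆ ball 0 3 := closedBall_subset_ball hr3
      refine ContinuousOn.mul (((hM1 p.1).continuous.pow q).mul (hhj p.2).continuous).continuousOn ?_
      refine ContinuousOn.mul (ContinuousOn.div_const ?_ _) ?_
      · exact Complex.continuous_ofReal.comp_continuousOn ((H.aj_smooth p.2).continuousOn.mono hsub)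
      · exact Complex.continuous_ofReal.comp_continuousOn (hG.comp_continuousOn (hcont.mono hsub))
  have k1 := key (fun t => (1 - Real.cos t) * (R - Polynomial.C c0).eval (Real.cos (t / 2))) (by fun_prop)
  have k2 := key (fun t => 1 - Real.cos t) (by fun_prop)
  rw [← integral_const_mul, ← integral_add]
  · refine integral_congr_ae (Eventually.of_forall fun z => ?_)
    simp only [pc, Wf, Polynomial.eval_sub, Polynomial.eval_C]
    push_cast
    ring
  · refine k1.congr (Eventually.of_forall fun z => ?_)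
    simp only [pc, Wf]
    push_cast
    ring
  · refine (k2.const_mul (c0 : ℂ)).congr (Eventually.of_forall fun z => ?_)
    simp only [Wf]

end Pool.Agent.Helper74.CE
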