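import Pool.Agent.Helper74.CE.Final1
import Pool.Agent.Helper74.CE.CtxMk
import Pool.Agent.Helper74.CE.Base

/-!
# CL-E30, part 2: coefficients (helper74)
-/

namespace Pool.Agent.Helper74.CE

open MeasureTheory Filter Topology Metric Pool.Agent.Helper53.CL
open scoped ContDiff Real

variable {a : ℂ → ℝ} {aj : ℕ → ℂ → ℝ} {ε : ℕ → ℝ} {u : ℕ → ℂ → ℝ} {μ : Measure ℂ} {m : ℂ → ℂ}

theorem aj_tlu (H : LocSeq a aj ε u) :
    TendstoLocallyUniformlyOn (fun j z => (aj j z : ℂ)) (fun z => (a z : ℂ)) atTop (closedBall 0 2) := by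
  refine TendstoUniformlyOn.tendstoLocallyUniformlyOn ?_
  rw [Metric.tendstoUniformlyOn_iff]
  intro η hη
  filter_upwards [Metric.tendstoUniformlyOn_iff.1 (H.aj_lim 0) η hη] with j hj z hz
  have := hj z hz
  rw [iteratedFDeriv_zero_eq_comp, iteratedFDeriv_zero_eq_comp] at this
  simp only [Function.comp_apply, LinearIsometryEquiv.dist_map] at this
  simpa [Complex.dist_of_re_eq, dist_eq_norm, ← Complex.ofReal_sub] using this

theorem al_tlu (H : LocSeq a aj ε u) :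
    TendstoLocallyUniformlyOn (fun j => dz (fun w => (aj j w : ℂ))) (dz fun w => (a w : ℂ)) atTop
      (closedBall 0 2) := by
  refine TendstoUniformlyOn.tendstoLocallyUniformlyOn ?_
  rw [Metric.tendstoUniformlyOn_iff]
  intro η hη
  filter_upwards [Metric.tendstoUniformlyOn_iff.1 (H.aj_lim 1) η hη] with j hj z hz
  have h3 : z ∈ ball (0 : ℂ) 3 := closedBall_subset_ball (by norm_num) hz
  have da := diffAt_of_smooth isOpen_ball H.a_smooth h3
  have dj := diffAt_of_smooth isOpen_ball (H.aj_smooth j) h3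
  have key : ∀ v : ℂ, ‖v‖ = 1 → |fderiv ℝ a z v - fderiv ℝ (aj j) z v| ≤
      dist (iteratedFDeriv ℝ 1 a z) (iteratedFDeriv ℝ 1 (aj j) z) := by
    intro v hv
    have e1 : fderiv ℝ a z v - fderiv ℝ (aj j) z v =
        (iteratedFDeriv ℝ 1 a z - iteratedFDeriv ℝ 1 (aj j) z) (fun _ => v) := by
      rw [ContinuousMultilinearMap.sub_apply, iteratedFDeriv_one_apply, iteratedFDeriv_one_apply]
    rw [e1, dist_eq_norm, ← Real.norm_eq_abs]
    refine (ContinuousMultilinearMap.le_opNorm _ _).trans ?_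
    simp [hv]
  have k1 := key 1 (by simp)
  have k2 := key Complex.I (by simp)
  rw [dist_eq_norm]
  have e2 : dz (fun w => (a w : ℂ)) z - dz (fun w => (aj j w : ℂ)) z =
      (((dx a z - dx (aj j) z : ℝ) : ℂ) - Complex.I * ((dy a z - dy (aj j) z : ℝ) : ℂ)) / 2 := by
    simp only [dz]
    rw [dx_ofReal da, dy_ofReal da, dx_ofReal dj, dy_ofReal dj]
    push_cast
    ring
  rw [e2, norm_div]
  have e3 : ‖((dx a z - dx (aj j) z : ℝ) : ℂ) - Complex.I * ((dy a z - dy (aj j) z : ℝ) : ℂ)‖ ≤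
      |dx a z - dx (aj j) z| + |dy a z - dy (aj j) z| := by
    refine (norm_sub_le _ _).trans ?_
    rw [norm_mul, Complex.norm_I, one_mul, Complex.norm_real, Complex.norm_real]
    rfl
  have e4 := hj z hz
  have e5 : |dx a z - dx (aj j) z| ≤ dist (iteratedFDeriv ℝ 1 a z) (iteratedFDeriv ℝ 1 (aj j) z) := k1
  have e6 : |dy a z - dy (aj j) z| ≤ dist (iteratedFDeriv ℝ 1 a z) (iteratedFDeriv ℝ 1 (aj j) z) := k2
  have : ‖(2 : ℂ)‖ = 2 := by simp
  rw [this]
  linarith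

theorem hj_tu {A : ℂ → ℂ} {Aj : ℕ → ℂ → ℂ} (hA : TendstoLocallyUniformlyOn Aj A atTop (closedBall 0 2))
    {φ : ℂ → ℂ} (hφ : Continuous φ) (hc : HasCompactSupport φ) (hs : tsupport φ ⊆ closedBall 0 2) :
    TendstoUniformly (fun j z => φ z * Aj j z) (fun z => φ z * A z) atTop := by
  rw [tendstoLocallyUniformlyOn_iff_tendstoUniformlyOn_of_compact (isCompact_closedBall 0 2),
    Metric.tendstoUniformlyOn_iff] at hA
  obtain ⟨K, hK⟩ := hφ.bounded_above_of_compact_support hc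
  have hK0 : 0 ≤ K := (norm_nonneg _).trans (hK 0)
  rw [Metric.tendstoUniformly_iff]
  intro η hη
  filter_upwards [hA (η / (K + 1)) (by positivity)] with j hj z
  by_cases hz : z ∈ closedBall (0 : ℂ) 2
  · have := hj z hz
    rw [dist_eq_norm, ← mul_sub, norm_mul]
    rw [dist_eq_norm, lt_div_iff₀ (by positivity)] at this
    have h6 : ‖φ z‖ * ‖A z - Aj j z‖ ≤ K * ‖A z - Aj j z‖ := mul_le_mul_of_nonneg_right (hK z) (norm_nonneg _)
    nlinarith [norm_nonneg (A z - Aj j z)]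
  · have : φ z = 0 := by
      by_contra h
      exact hz (hs (subset_tsupport _ h))
    simp [this, hη]

theorem tsupport_dz_subset {f : ℂ → ℂ} : tsupport (dz f) ⊆ tsupport f := by
  refine closure_minimal (fun z hz => ?_) (isClosed_tsupport f)
  by_contra h
  refine hz ?_
  have h1 : f =ᶠ[𝓝 z] fun _ => 0 := notMem_tsupport_iff_eventuallyEq.1 h
  rw [dz_congr h1, dz_const]

theorem tsupport_dzb_subset {f : ℂ → ℂ} : tsupport (dzb f) ⊆ tsupport f := by
  refine closure_minimal (fun z hz => ?_) (isClosed_tsupport f)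
  by_contra h
  refine hz ?_
  have h1 : f =ᶠ[𝓝 z] fun _ => 0 := notMem_tsupport_iff_eventuallyEq.1 h
  rw [dzb_congr h1, dzb_const]

theorem cont_coef {A φ : ℂ → ℂ} {r : ℝ} (hr : r < 2) (hA : ContDiffOn ℝ ∞ A (ball 0 3)) (hφ : ContDiff ℝ ∞ φ)
    (hs : tsupport φ ⊆ closedBall 0 r) : ContDiff ℝ ∞ (fun z => φ z * A z) :=
  (smooth_mul_of_tsupport (R := 3) (by linarith) hφ.contDiffOn hs hA).1

theorem tsupport_coef {A φ : ℂ → ℂ} : tsupport (fun z => φ z * A z) ⊆ tsupport φ :=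
  tsupport_mul_subset_left (f := φ) (g := A)

theorem slow_phi {ι : Type*} {𝓕 : Filter ι} {ε : ι → ℝ} (h0 : ∀ i, 0 < ε i) (h1 : Tendsto ε 𝓕 (𝓝 0)) {φ : ℂ → ℂ}
    (hφ : ContDiff ℝ ∞ φ) : Slow 𝓕 ε (fun _ => φ) := by
  refine Slow.of_bounded h0 h1 (fun _ => hφ.contDiffOn) fun k => ?_
  have hc : Continuous fun z => ‖iteratedFDeriv ℝ k φ z‖ :=
    (hφ.continuous_iteratedFDeriv (m := k) (by exact_mod_cast le_top)).norm
  obtain ⟨C, hC⟩ := (isCompact_closedBall (0 : ℂ) 2).exists_bound_of_continuousOn hc.continuousOn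
  refine ⟨C, Eventually.of_forall fun i z hz => ?_⟩
  have := hC z (ball_subset_closedBall hz)
  rwa [norm_norm] at this

theorem dz_log (H : LocSeq a aj ε u) {z : ℂ} (hz : z ∈ ball (0 : ℂ) 3) :
    dz (fun w => (Real.log (a w) : ℂ)) z = dz (fun w => (a w : ℂ)) z / a z := by
  have da := diffAt_of_smooth isOpen_ball H.a_smooth hz
  rw [dz_comp_real (Real.hasDerivAt_log (H.a_pos z hz).ne') da]
  push_cast
  ring

/-- The general situation along the iterated limit. -/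
theorem ctm (hB : Iface.Bnd2) (hD : Iface.Disc0) (hW : Iface.Wells) (H : LocSeq a aj ε u)
    [IsFiniteMeasure μ] (hE : EConv aj ε u μ) (hM : MConv ε u μ m) (hm : Measurable m) (h1 : ∀ z, ‖m z‖ = 1)
    {M : ℕ → ℂ → ℂ} (hM1 : ∀ k, ContDiff ℝ ∞ (M k)) (hM2 : ∀ k z, ‖M k z‖ ≤ 2)
    (hM3 : Tendsto (fun k => ∫ z, ‖M k z - m z‖ ^ 2 ∂μ) atTop (𝓝 0)) :
    Ctm ((atTop : Filter ℕ).curry (atTop : Filter ℕ)) (fun p => ε p.2) (fun p => aj p.2) (fun p => u p.2)
      (fun p => M p.1) where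
  toCtx := (ctx_of_locSeq hB hD hW H hE).comap tendsto_snd_curry
  slow := slow_Mk H.eps_pos H.eps_lim hM1 hM2
  base := base H hE hM hm h1 (ctx_of_locSeq hB hD hW H hE).disc0 hM1 hM2 hM3

end Pool.Agent.Helper74.CE
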