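import Pool.Agent.Helper74.CE.Defs

/-!
# CL-E17: averages over small discs

`∫_{x ∈ A} ∫_{y ∈ ball x ρ} g y dy dx = ∫∫ 1_A x 1_{|y - x| < ρ} g y ≤ ∫_{y ∈ B} g y |ball y ρ| dy`, as `x ∈ A`,
`‖y - x‖ < ρ` imply `y ∈ B`; the area of a disc of radius `ρ` is `π ρ²` (`Complex.volume_ball`). Use `lintegral_lintegral_swap`
with `ENNReal.ofReal (g y)` (measurability of `{(x, y) | dist y x < ρ}`: open set), or Fubini for the integrable function on
the product `A × ball 0 2` (`A, B` are measurable subsets of the disc `ball 0 2`, `g ≥ 0` is integrable on `B`).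
-/

namespace Pool.Agent.Helper74.CE

open MeasureTheory Filter Topology Metric Pool.Agent.Helper53.CL
open scoped ContDiff Real

theorem fub {A B : Set ℂ} (hA : MeasurableSet A) (hB : MeasurableSet B) {ρ : ℝ} (hρ : 0 < ρ) (hA2 : A ⊆ ball 0 2)
    (hAB : ∀ x ∈ A, ∀ y, ‖y - x‖ < ρ → y ∈ B) {g : ℂ → ℝ} (hg : IntegrableOn g B) (h0 : ∀ y ∈ B, 0 ≤ g y) :
    IntegrableOn (fun x => ∫ y in ball x ρ, g y) A ∧
      ∫ x in A, (∫ y in ball x ρ, g y) ≤ π * ρ ^ 2 * ∫ y in B, g y := by
  have hAfin : volume A ≠ ⊤ := ne_top_of_le_ne_top measure_ball_lt_top.ne (measure_mono hA2)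
  have hfin : IsFiniteMeasure (volume.restrict A) := ⟨by
    rw [Measure.restrict_apply_univ]
    exact lt_top_iff_ne_top.2 hAfin⟩
  set D : Set (ℂ × ℂ) := {p | ‖p.2 - p.1‖ < ρ} with hD
  have hDo : MeasurableSet D :=
    (isOpen_lt (continuous_snd.sub continuous_fst).norm continuous_const).measurableSet
  set G : ℂ × ℂ → ℝ := D.indicator (fun p => g p.2) with hG
  have hGi : Integrable G ((volume.restrict A).prod (volume.restrict B)) :=
    (Integrable.comp_snd hg (volume.restrict A)).indicator hDo
  have h1 : ∀ x ∈ A, ∫ y in B, G (x, y) = ∫ y in ball x ρ, g y := by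
    intro x hx
    have h2 : (fun y => G (x, y)) = (ball x ρ).indicator g := by
      funext y
      have h3 : (x, y) ∈ D ↔ y ∈ ball x ρ := by
        rw [mem_ball, dist_eq_norm]
        exact Iff.rfl
      by_cases hy : y ∈ ball x ρ
      · rw [Set.indicator_of_mem hy]
        exact Set.indicator_of_mem (h3.2 hy) _
      · rw [Set.indicator_of_notMem hy]
        exact Set.indicator_of_notMem (fun hh => hy (h3.1 hh)) _
    rw [h2, integral_indicator measurableSet_ball, Measure.restrict_restrict measurableSet_ball]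
    have h4 : ball x ρ ∩ B = ball x ρ :=
      Set.inter_eq_left.2 fun y hy => hAB x hx y (by rwa [mem_ball, dist_eq_norm] at hy)
    rw [h4]
  have h5 : ∀ y ∈ B, ∫ x in A, G (x, y) ≤ π * ρ ^ 2 * g y := by
    intro y hy
    have h2 : (fun x => G (x, y)) = (ball y ρ).indicator (fun _ => g y) := by
      funext x
      have h3 : (x, y) ∈ D ↔ x ∈ ball y ρ := by
        rw [mem_ball, dist_comm, dist_eq_norm]
        exact Iff.rfl
      by_cases hx : x ∈ ball y ρ
      · rw [Set.indicator_of_mem hx]
        exact Set.indicator_of_mem (h3.2 hx) _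
      · rw [Set.indicator_of_notMem hx]
        exact Set.indicator_of_notMem (fun hh => hx (h3.1 hh)) _
    rw [h2, integral_indicator measurableSet_ball, Measure.restrict_restrict measurableSet_ball,
      setIntegral_const, smul_eq_mul]
    refine mul_le_mul_of_nonneg_right ?_ (h0 y hy)
    have h6 : volume.real (ball y ρ) = π * ρ ^ 2 := by
      rw [Measure.real, Complex.volume_ball, ENNReal.toReal_mul, ENNReal.toReal_pow,
        ENNReal.toReal_ofReal hρ.le]
      rw [mul_comm]
      rfl
    rw [← h6]
    exact measureReal_mono Set.inter_subset_left measure_ball_lt_top.ne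
  have h7 : Integrable (fun x => ∫ y in B, G (x, y)) (volume.restrict A) :=
    hGi.integral_prod_left
  have h8 : ∀ᵐ x ∂(volume.restrict A), ∫ y in B, G (x, y) = ∫ y in ball x ρ, g y :=
    (ae_restrict_iff' hA).2 (Eventually.of_forall h1)
  refine ⟨h7.congr h8, ?_⟩
  have h9 : Integrable (Function.uncurry fun x y => G (x, y))
      ((volume.restrict A).prod (volume.restrict B)) := hGi
  rw [← integral_congr_ae h8, integral_integral_swap h9, ← integral_const_mul]
  refine integral_mono_ae hGi.integral_prod_right (hg.const_mul _) ?_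
  exact (ae_restrict_iff' hB).2 (Eventually.of_forall h5)

end Pool.Agent.Helper74.CE
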