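import Pool.Agent.Helper74.CE.Calc

/-!
# CL-E16: `sin (u / 2) + √e` varies slowly

From `disc e a u z ≤ C`: `e² ‖gr u‖² ≤ 2 a (1 - cos u) + 2 C e = 4 a S² + 2 C e`, `S = sin (u / 2) ≥ 0` (as
`0 ≤ u ≤ 2π`). With `G = S + √e > 0`, of class `C^1` on `ball 0 2`, `‖D G‖ ≤ ‖gr u‖ / 2` (`G' = cos (u/2) / 2 · u'`), so
`e ‖D G‖ ≤ ½ √(4 M S² + 2 |C| e) ≤ L (S + √e) = L G`, `L = √M + √|C| + 1` (for instance).
For `x, y ∈ ball 0 2` with `‖x - y‖ ≤ 2 e` consider `φ t = log G (x + t (y - x))`, `t ∈ [0,1]` (the segment is in the convex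
set `ball 0 2`): `|φ'| ≤ ‖DG‖ ‖y - x‖ / G ≤ 2 L`, so by the mean value inequality
`G y ≤ exp (2 L) G x` (`Convex.norm_image_sub_le_of_norm_hasFDerivWithin_le` for `log ∘ G`). `K = exp (2 L)`.
-/

namespace Pool.Agent.Helper74.CE

open MeasureTheory Filter Topology Metric Pool.Agent.Helper53.CL
open scoped ContDiff Real

/-- The norm of the derivative of a real function is at most the norm of its gradient. -/
private theorem norm_fderiv_le_gr (u : ℂ → ℝ) (z : ℂ) : ‖fderiv ℝ u z‖ ≤ ‖gr u z‖ := by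
  refine ContinuousLinearMap.opNorm_le_bound _ (norm_nonneg _) fun v => ?_
  have hv : v = v.re • (1 : ℂ) + v.im • Complex.I := by
    apply Complex.ext <;> simp
  have h1 : fderiv ℝ u z v = v.re * dx u z + v.im * dy u z := by
    conv_lhs => rw [hv]
    rw [map_add, map_smul, map_smul]
    rfl
  rw [h1, Real.norm_eq_abs]
  have h2 : ‖gr u z‖ ^ 2 = dx u z ^ 2 + dy u z ^ 2 := norm_gr_sq u
  have h3 : ‖v‖ ^ 2 = v.re ^ 2 + v.im ^ 2 := by
    rw [← Complex.normSq_eq_norm_sq, Complex.normSq_apply]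
    ring
  refine abs_le_of_sq_le_sq ?_ (by positivity)
  rw [mul_pow, h2, h3]
  nlinarith [sq_nonneg (v.re * dy u z - v.im * dx u z)]

theorem gron (C M : ℝ) : ∃ K : ℝ, 1 ≤ K ∧ ∀ (e : ℝ) (a u : ℂ → ℝ), 0 < e → (∀ z ∈ ball (0 : ℂ) 2, 0 < a z ∧ a z ≤ M) →
    LSol (ball 0 2) e a u → (∀ z ∈ ball (0 : ℂ) 2, disc e a u z ≤ C) →
    ∀ x ∈ ball (0 : ℂ) 2, ∀ y ∈ ball (0 : ℂ) 2, ‖x - y‖ ≤ 2 * e →
      Real.sin (u y / 2) + √e ≤ K * (Real.sin (u x / 2) + √e) := by
  set L : ℝ := √|M| + √|C| + 1 with hL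
  have hL0 : 0 ≤ L := by positivity
  refine ⟨Real.exp (2 * L), Real.one_le_exp (by positivity), ?_⟩
  intro e a u he ha hu hdisc x hx y hy hxy
  have hse : 0 < √e := Real.sqrt_pos.mpr he
  have hsee : √e ^ 2 = e := Real.sq_sqrt he.le
  set G : ℂ → ℝ := fun z => Real.sin (u z / 2) + √e with hG
  have hS : ∀ z ∈ ball (0 : ℂ) 2, 0 ≤ Real.sin (u z / 2) := by
    intro z hz
    have h0 := hu.nonneg z hz
    have h1 := hu.le z hz
    exact Real.sin_nonneg_of_nonneg_of_le_pi (by linarith) (by linarith)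
  have hGpos : ∀ z ∈ ball (0 : ℂ) 2, 0 < G z := fun z hz => by
    have := hS z hz
    simp only [hG]
    linarith
  have hder : ∀ z ∈ ball (0 : ℂ) 2, HasFDerivAt G ((Real.cos (u z / 2) / 2) • fderiv ℝ u z) z := by
    intro z hz
    have hd : DifferentiableAt ℝ u z := diffAt_of_smooth isOpen_ball hu.smooth hz
    have h1 : HasDerivAt (fun t : ℝ => Real.sin (t / 2) + √e) (Real.cos (u z / 2) / 2) (u z) := by
      have h2 : HasDerivAt (fun t : ℝ => t / 2) (1 / 2) (u z) := (hasDerivAt_id (u z)).div_const 2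
      have h3 := ((Real.hasDerivAt_sin (u z / 2)).comp (u z) h2).add_const (√e)
      have h4 : Real.cos (u z / 2) * (1 / 2) = Real.cos (u z / 2) / 2 := by ring
      rw [h4] at h3
      exact h3
    exact h1.comp_hasFDerivAt z hd.hasFDerivAt
  have hbd : ∀ z ∈ ball (0 : ℂ) 2, e * ‖(Real.cos (u z / 2) / 2) • fderiv ℝ u z‖ ≤ L * G z := by
    intro z hz
    have hS0 := hS z hz
    have h1 : ‖(Real.cos (u z / 2) / 2) • fderiv ℝ u z‖ ≤ ‖gr u z‖ / 2 := by
      rw [norm_smul, Real.norm_eq_abs, abs_div, abs_two]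
      have h2 := Real.abs_cos_le_one (u z / 2)
      have h3 := norm_fderiv_le_gr u z
      have h4 := norm_nonneg (fderiv ℝ u z)
      nlinarith
    have h5 : e ^ 2 * ‖gr u z‖ ^ 2 ≤ 4 * |M| * Real.sin (u z / 2) ^ 2 + 2 * |C| * e := by
      have h6 := hdisc z hz
      unfold disc at h6
      have h7 : 1 - Real.cos (u z) = 2 * Real.sin (u z / 2) ^ 2 := by
        have h8 : u z = 2 * (u z / 2) := by ring
        conv_lhs => rw [h8]
        rw [Real.cos_two_mul]
        have := Real.sin_sq_add_cos_sq (u z / 2)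
        linarith
      rw [h7] at h6
      have h9 : e / 2 * ‖gr u z‖ ^ 2 ≤ C + 1 / e * (a z * (2 * Real.sin (u z / 2) ^ 2)) := by linarith
      have h10 : 2 * e * (e / 2 * ‖gr u z‖ ^ 2) ≤
          2 * e * (C + 1 / e * (a z * (2 * Real.sin (u z / 2) ^ 2))) :=
        mul_le_mul_of_nonneg_left h9 (by positivity)
      have h11 : 2 * e * (C + 1 / e * (a z * (2 * Real.sin (u z / 2) ^ 2))) =
          2 * C * e + 4 * a z * Real.sin (u z / 2) ^ 2 := by
        field_simp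
        ring
      have h12 : a z * Real.sin (u z / 2) ^ 2 ≤ |M| * Real.sin (u z / 2) ^ 2 :=
        mul_le_mul_of_nonneg_right ((ha z hz).2.trans (le_abs_self M)) (sq_nonneg _)
      have h13 : C * e ≤ |C| * e := mul_le_mul_of_nonneg_right (le_abs_self C) he.le
      nlinarith
    have h6 : e * (‖gr u z‖ / 2) ≤ √|M| * Real.sin (u z / 2) + √|C| * √e := by
      refine le_of_sq_le_sq ?_ (by positivity)
      have h7 : √|M| ^ 2 = |M| := Real.sq_sqrt (abs_nonneg M)
      have h8 : √|C| ^ 2 = |C| := Real.sq_sqrt (abs_nonneg C)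
      have h9 : (e * (‖gr u z‖ / 2)) ^ 2 = e ^ 2 * ‖gr u z‖ ^ 2 / 4 := by ring
      have h10 : (√|M| * Real.sin (u z / 2) + √|C| * √e) ^ 2 =
          |M| * Real.sin (u z / 2) ^ 2 + |C| * e + 2 * (√|M| * Real.sin (u z / 2) * (√|C| * √e)) := by
        rw [add_sq, mul_pow, mul_pow, h7, h8, hsee]
        ring
      have h11 : 0 ≤ √|M| * Real.sin (u z / 2) * (√|C| * √e) := by positivity
      have h12 : 0 ≤ |C| * e := by positivity
      rw [h9, h10]
      nlinarith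
    calc e * ‖(Real.cos (u z / 2) / 2) • fderiv ℝ u z‖ ≤ e * (‖gr u z‖ / 2) :=
          mul_le_mul_of_nonneg_left h1 he.le
      _ ≤ √|M| * Real.sin (u z / 2) + √|C| * √e := h6
      _ ≤ L * G z := by
          simp only [hG, hL]
          have h7 : 0 ≤ √|M| := Real.sqrt_nonneg _
          have h8 : 0 ≤ √|C| := Real.sqrt_nonneg _
          nlinarith [mul_nonneg h7 hse.le, mul_nonneg h8 hS0]
  -- the logarithm of `G`
  have hlog : ∀ z ∈ ball (0 : ℂ) 2, HasFDerivWithinAt (fun w => Real.log (G w))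
      ((G z)⁻¹ • ((Real.cos (u z / 2) / 2) • fderiv ℝ u z)) (ball (0 : ℂ) 2) z := by
    intro z hz
    exact ((hder z hz).log (hGpos z hz).ne').hasFDerivWithinAt
  have hlogbd : ∀ z ∈ ball (0 : ℂ) 2,
      ‖(G z)⁻¹ • ((Real.cos (u z / 2) / 2) • fderiv ℝ u z)‖ ≤ L / e := by
    intro z hz
    have hg := hGpos z hz
    rw [norm_smul, norm_inv, Real.norm_of_nonneg hg.le, le_div_iff₀ he]
    have h1 := hbd z hz
    have h2 : (G z)⁻¹ * ‖(Real.cos (u z / 2) / 2) • fderiv ℝ u z‖ * e =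
        (G z)⁻¹ * (e * ‖(Real.cos (u z / 2) / 2) • fderiv ℝ u z‖) := by ring
    rw [h2]
    calc (G z)⁻¹ * (e * ‖(Real.cos (u z / 2) / 2) • fderiv ℝ u z‖) ≤ (G z)⁻¹ * (L * G z) :=
          mul_le_mul_of_nonneg_left h1 (by positivity)
      _ = L := by field_simp
  have hmv := (convex_ball (0 : ℂ) 2).norm_image_sub_le_of_norm_hasFDerivWithin_le hlog hlogbd hx hy
  have h1 : Real.log (G y) - Real.log (G x) ≤ 2 * L := by
    refine (le_abs_self _).trans ?_
    rw [← Real.norm_eq_abs]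
    refine hmv.trans ?_
    have h2 : ‖y - x‖ ≤ 2 * e := by rwa [norm_sub_rev]
    calc L / e * ‖y - x‖ ≤ L / e * (2 * e) := mul_le_mul_of_nonneg_left h2 (by positivity)
      _ = 2 * L := by field_simp
  have h2 : Real.log (G y) ≤ 2 * L + Real.log (G x) := by linarith
  have h3 := Real.exp_le_exp.mpr h2
  rw [Real.exp_add, Real.exp_log (hGpos y hy), Real.exp_log (hGpos x hx)] at h3
  exact h3

end Pool.Agent.Helper74.CE
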