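import Pool.Agent.Helper74.CE.LLc

/-!
# CL-E11: the interpolation inequality in `L^1`

For `x ∈ ball 0 r`, `‖v‖ = 1` and `0 < t ≤ τ`, `x + t v ∈ ball 0 (r + τ)`. Taylor with integral remainder for
`φ t = F (x + t v)` on `[0, τ]` (`φ' t = fderiv ℝ F (x + t v) v`, `‖φ'' t‖ ≤ ‖iteratedFDeriv ℝ 2 F (x + t v)‖`) gives
```
τ ‖fderiv ℝ F x v‖ ≤ ‖F (x + τ v)‖ + ‖F x‖ + ∫_0^τ (τ - t) ‖iteratedFDeriv ℝ 2 F (x + t v)‖ dt
```
(or: `φ' 0 = φ' t - ∫_0^t φ''`, integrated in `t ∈ [0, τ]`: `τ ‖φ' 0‖ ≤ ‖φ τ - φ 0‖ + τ ∫_0^τ ‖φ''‖`, which gives the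
inequality with the constant `τ²` directly). Integrate over `x ∈ ball 0 r` : the translates of `ball 0 r` by `t v`,
`0 ≤ t ≤ τ`, are contained in `ball 0 (r + τ)`, so that `∫_{ball 0 r} ‖F (x + t v)‖ dx ≤ ∫_{ball 0 (r + τ)} ‖F‖`
(translation invariance of Lebesgue measure: `setIntegral` change of variables, `MeasureTheory.integral_add_right_eq_self`
applied to the indicator), and the same for the second derivative, with Fubini (`intervalIntegral` / `integral_integral_swap`)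
on `[0, τ] × ball 0 r`, on which everything is continuous and bounded (the closure of `ball 0 (r+τ)` is a compact subset of
`ball 0 3`; use lintegrals with `ENNReal` if more convenient). If `r ≤ 0` the left side is `0`.
-/

namespace Pool.Agent.Helper74.CE

open MeasureTheory Filter Topology Metric Pool.Agent.Helper53.CL
open scoped ContDiff Real

/-- the inequality on a segment -/
private lemma segment {F : ℂ → ℂ} (hF : ContDiffOn ℝ ∞ F (ball 0 3)) {x v : ℂ} {τ : ℝ} (hτ : 0 < τ)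
    (hv : ‖v‖ = 1) (hx : ∀ t ∈ Set.Icc 0 τ, x + t • v ∈ ball (0 : ℂ) 3) :
    τ * ‖fderiv ℝ F x v‖ ≤ ‖F (x + τ • v)‖ + ‖F x‖ +
      τ * ∫ t in (0 : ℝ)..τ, ‖iteratedFDeriv ℝ 2 F (x + t • v)‖ := by
  have hopen : IsOpen (ball (0 : ℂ) 3) := isOpen_ball
  have hγ : ∀ t : ℝ, HasDerivAt (fun t : ℝ => x + t • v) v t := by
    intro t
    have : HasDerivAt (fun t : ℝ => x + t • v) ((1 : ℝ) • v) t :=
      ((hasDerivAt_id t).smul_const v).const_add x
    simpa using this
  have hγc : Continuous (fun t : ℝ => x + t • v) := by fun_prop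
  have hF1 : ContDiffOn ℝ ∞ (fderiv ℝ F) (ball 0 3) := hF.fderiv_of_isOpen hopen (by simp)
  have hF2 : ContDiffOn ℝ ∞ (fderiv ℝ (fderiv ℝ F)) (ball 0 3) := hF1.fderiv_of_isOpen hopen (by simp)
  have d1 : ∀ t ∈ Set.Icc 0 τ, HasDerivAt (fun t : ℝ => F (x + t • v)) (fderiv ℝ F (x + t • v) v) t := by
    intro t ht
    have h1 : DifferentiableAt ℝ F (x + t • v) :=
      (hF.contDiffAt (hopen.mem_nhds (hx t ht))).differentiableAt (by simp)
    exact h1.hasFDerivAt.comp_hasDerivAt t (hγ t)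
  have d2 : ∀ t ∈ Set.Icc 0 τ, HasDerivAt (fun t : ℝ => fderiv ℝ F (x + t • v) v)
      (fderiv ℝ (fderiv ℝ F) (x + t • v) v v) t := by
    intro t ht
    have h1 : DifferentiableAt ℝ (fderiv ℝ F) (x + t • v) :=
      (hF1.contDiffAt (hopen.mem_nhds (hx t ht))).differentiableAt (by simp)
    have h2 : HasDerivAt (fun t : ℝ => fderiv ℝ F (x + t • v)) (fderiv ℝ (fderiv ℝ F) (x + t • v) v) t :=
      h1.hasFDerivAt.comp_hasDerivAt t (hγ t)
    have h3 := h2.clm_apply (hasDerivAt_const t v)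
    simpa using h3
  have hb : ∀ y : ℂ, ‖fderiv ℝ (fderiv ℝ F) y v v‖ ≤ ‖iteratedFDeriv ℝ 2 F y‖ := by
    intro y
    have h1 := (iteratedFDeriv ℝ 2 F y).le_opNorm ![v, v]
    rw [iteratedFDeriv_two_apply] at h1
    simpa [Fin.prod_univ_two, hv] using h1
  have hqc : ContinuousOn (fun t : ℝ => ‖iteratedFDeriv ℝ 2 F (x + t • v)‖) (Set.Icc 0 τ) :=
    (continuousOn_norm_itd hF 2).comp hγc.continuousOn hx
  have hpc : ContinuousOn (fun t : ℝ => fderiv ℝ (fderiv ℝ F) (x + t • v) v v) (Set.Icc 0 τ) := by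
    have h1 : ContinuousOn (fun t : ℝ => fderiv ℝ (fderiv ℝ F) (x + t • v)) (Set.Icc 0 τ) :=
      hF2.continuousOn.comp hγc.continuousOn hx
    exact (h1.clm_apply continuousOn_const).clm_apply continuousOn_const
  set M : ℝ := ∫ t in (0 : ℝ)..τ, ‖iteratedFDeriv ℝ 2 F (x + t • v)‖ with hM
  have hbd : ∀ s ∈ Set.Icc 0 τ, ‖fderiv ℝ F (x + s • v) v - fderiv ℝ F x v‖ ≤ M := by
    intro s hs
    have hsub : Set.uIcc 0 s ⊆ Set.Icc 0 τ := by
      rw [Set.uIcc_of_le hs.1]; exact Set.Icc_subset_Icc_right hs.2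
    have i1 : IntervalIntegrable (fun t : ℝ => fderiv ℝ (fderiv ℝ F) (x + t • v) v v) volume 0 s :=
      (hpc.mono hsub).intervalIntegrable
    have i2 : IntervalIntegrable (fun t : ℝ => ‖iteratedFDeriv ℝ 2 F (x + t • v)‖) volume 0 s :=
      (hqc.mono hsub).intervalIntegrable
    have i3 : IntervalIntegrable (fun t : ℝ => ‖iteratedFDeriv ℝ 2 F (x + t • v)‖) volume 0 τ := by
      apply ContinuousOn.intervalIntegrable
      rw [Set.uIcc_of_le hτ.le]; exact hqc
    have h1 := intervalIntegral.integral_eq_sub_of_hasDerivAt (fun t ht => d2 t (hsub ht)) i1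
    simp only [zero_smul, add_zero] at h1
    rw [← h1]
    refine (intervalIntegral.norm_integral_le_integral_norm hs.1).trans ?_
    refine (intervalIntegral.integral_mono_on hs.1 i1.norm i2 fun t _ => hb _).trans ?_
    rw [hM]
    exact intervalIntegral.integral_mono_interval le_rfl hs.1 hs.2
      (Eventually.of_forall fun t => norm_nonneg _) i3
  have h2 : ‖(F (x + τ • v) - τ • fderiv ℝ F x v) - (F (x + (0 : ℝ) • v) - (0 : ℝ) • fderiv ℝ F x v)‖ ≤
      M * ‖τ - 0‖ := by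
    have h3 : ∀ s ∈ Set.Icc 0 τ, HasDerivWithinAt (fun s : ℝ => F (x + s • v) - s • fderiv ℝ F x v)
        (fderiv ℝ F (x + s • v) v - fderiv ℝ F x v) (Set.Icc 0 τ) s := by
      intro s hs
      have h4 : HasDerivAt (fun s : ℝ => s • fderiv ℝ F x v) ((1 : ℝ) • fderiv ℝ F x v) s :=
        (hasDerivAt_id s).smul_const _
      rw [one_smul] at h4
      exact ((d1 s hs).sub h4).hasDerivWithinAt
    exact (convex_Icc 0 τ).norm_image_sub_le_of_norm_hasDerivWithin_le h3 hbd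
      ⟨le_rfl, hτ.le⟩ ⟨hτ.le, le_rfl⟩
  rw [zero_smul, zero_smul, add_zero, sub_zero, sub_zero, Real.norm_of_nonneg hτ.le] at h2
  have h3 : τ * ‖fderiv ℝ F x v‖ = ‖τ • fderiv ℝ F x v‖ := by
    rw [norm_smul, Real.norm_of_nonneg hτ.le]
  rw [h3]
  have h4 : τ • fderiv ℝ F x v = F (x + τ • v) - F x - (F (x + τ • v) - τ • fderiv ℝ F x v - F x) := by
    abel
  rw [h4]
  refine (norm_sub_le _ _).trans ?_
  have h5 := norm_sub_le (F (x + τ • v)) (F x)
  linarith

/-- cut off functions -/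
private lemma cutoff {H : ℂ → ℝ} (hH : ContinuousOn H (ball 0 3)) (h0 : ∀ z, 0 ≤ H z) {ρ : ℝ} (hρ : ρ ≤ 2) :
    Measurable ((ball (0 : ℂ) ρ).indicator H) ∧ (∀ z, 0 ≤ (ball (0 : ℂ) ρ).indicator H z) ∧
      (∃ M, ∀ z, (ball (0 : ℂ) ρ).indicator H z ≤ M) ∧ Integrable ((ball (0 : ℂ) ρ).indicator H) := by
  classical
  have hsub : ball (0 : ℂ) ρ ⊆ ball 0 3 := ball_subset_ball (by linarith)
  refine ⟨?_, ?_, ?_, ?_⟩
  · rw [← Set.piecewise_eq_indicator]
    exact (hH.mono hsub).measurable_piecewise continuousOn_const measurableSet_ball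
  · exact fun z => Set.indicator_nonneg (fun z _ => h0 z) z
  · have hsub2 : closedBall (0 : ℂ) 2 ⊆ ball 0 3 := closedBall_subset_ball (by norm_num)
    obtain ⟨M, hM⟩ := (isCompact_closedBall (0 : ℂ) 2).exists_bound_of_continuousOn (hH.mono hsub2)
    have hM0 : 0 ≤ M := (norm_nonneg _).trans (hM 0 (mem_closedBall_self zero_le_two))
    refine ⟨M, fun z => ?_⟩
    by_cases hz : z ∈ ball (0 : ℂ) ρ
    · rw [Set.indicator_of_mem hz]
      have h1 : z ∈ closedBall (0 : ℂ) 2 := ball_subset_closedBall (ball_subset_ball hρ hz)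
      exact (le_abs_self _).trans (hM z h1)
    · rw [Set.indicator_of_notMem hz]; exact hM0
  · rw [integrable_indicator_iff measurableSet_ball]
    exact integrableOn_ball hH (by linarith)

theorem interp {F : ℂ → ℂ} (hF : ContDiffOn ℝ ∞ F (ball 0 3)) {r τ : ℝ} (hτ : 0 < τ) (hr : r + τ ≤ 2) {v : ℂ}
    (hv : ‖v‖ = 1) :
    τ * ∫ z in ball (0 : ℂ) r, ‖fderiv ℝ F z v‖ ≤
      2 * (∫ z in ball (0 : ℂ) (r + τ), ‖F z‖) +
        τ ^ 2 * ∫ z in ball (0 : ℂ) (r + τ), ‖iteratedFDeriv ℝ 2 F z‖ := by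
  have hr2 : r < 2 := by linarith
  have hFc : ContinuousOn (fun z => ‖F z‖) (ball 0 3) := hF.continuousOn.norm
  have hD2 := continuousOn_norm_itd hF 2
  have hDc : ContinuousOn (fun z => ‖fderiv ℝ F z v‖) (ball 0 3) :=
    ((hF.continuousOn_fderiv_of_isOpen isOpen_ball (by simp)).clm_apply continuousOn_const).norm
  obtain ⟨mA, pA, ⟨MA, bA⟩, iA⟩ := cutoff hFc (fun z => norm_nonneg _) hr
  obtain ⟨mG, pG, ⟨MG, bG⟩, iG⟩ := cutoff hD2 (fun z => norm_nonneg _) hr
  set A : ℂ → ℝ := (ball (0 : ℂ) (r + τ)).indicator fun z => ‖F z‖ with hA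
  set G : ℂ → ℝ := (ball (0 : ℂ) (r + τ)).indicator fun z => ‖iteratedFDeriv ℝ 2 F z‖ with hG
  have hin : ∀ x ∈ ball (0 : ℂ) r, ∀ t ∈ Set.Icc 0 τ, x + t • v ∈ ball (0 : ℂ) (r + τ) := by
    intro x hx t ht
    rw [mem_ball_zero_iff] at hx ⊢
    calc ‖x + t • v‖ ≤ ‖x‖ + ‖t • v‖ := norm_add_le _ _
      _ = ‖x‖ + t := by rw [norm_smul, hv, mul_one, Real.norm_of_nonneg ht.1]
      _ < r + τ := by linarith [ht.2]
  have hpt : ∀ x ∈ ball (0 : ℂ) r, τ * ‖fderiv ℝ F x v‖ ≤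
      A (x + τ • v) + A x + τ * ∫ t in Set.Ioc 0 τ, G (x + t • v) := by
    intro x hx
    have h1 := segment hF hτ hv (x := x) (fun t ht => ball_subset_ball (by linarith) (hin x hx t ht))
    have h2 : A (x + τ • v) = ‖F (x + τ • v)‖ :=
      Set.indicator_of_mem (hin x hx τ ⟨hτ.le, le_rfl⟩) _
    have h3 : A x = ‖F x‖ := by
      have := hin x hx 0 ⟨le_rfl, hτ.le⟩
      rw [zero_smul, add_zero] at this
      exact Set.indicator_of_mem this _
    have h4 : ∫ t in Set.Ioc 0 τ, G (x + t • v) = ∫ t in (0 : ℝ)..τ, ‖iteratedFDeriv ℝ 2 F (x + t • v)‖ := by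
      rw [intervalIntegral.integral_of_le hτ.le]
      refine setIntegral_congr_fun measurableSet_Ioc fun t ht => ?_
      exact Set.indicator_of_mem (hin x hx t ⟨ht.1.le, ht.2⟩) _
    rw [h2, h3, h4]
    exact h1
  have hGprod : Integrable (fun z : ℂ × ℝ => G (z.1 + z.2 • v))
      ((volume.restrict (ball (0 : ℂ) r)).prod (volume.restrict (Set.Ioc 0 τ))) := by
    have hf1 : IsFiniteMeasure (volume.restrict (ball (0 : ℂ) r)) :=
      ⟨by rw [Measure.restrict_apply_univ]; exact measure_ball_lt_top⟩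
    refine Integrable.of_bound (mG.comp (by fun_prop)).aestronglyMeasurable MG
      (Eventually.of_forall fun z => ?_)
    rw [Real.norm_of_nonneg (pG _)]
    exact bG _
  have htr : ∀ (B : ℂ → ℝ) (t : ℝ), Integrable B → Integrable (fun x => B (x + t • v)) := by
    intro B t hB
    exact hB.comp_add_right (t • v)
  have hle : ∀ (B : ℂ → ℝ) (t : ℝ), Integrable B → (∀ z, 0 ≤ B z) →
      ∫ x in ball (0 : ℂ) r, B (x + t • v) ≤ ∫ x, B x := by
    intro B t hB hB0
    rw [← integral_add_right_eq_self B (t • v)]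
    exact setIntegral_le_integral (htr B t hB) (Eventually.of_forall fun z => hB0 _)
  have hIA : ∫ x, A x = ∫ z in ball (0 : ℂ) (r + τ), ‖F z‖ := integral_indicator measurableSet_ball
  have hIG : ∫ x, G x = ∫ z in ball (0 : ℂ) (r + τ), ‖iteratedFDeriv ℝ 2 F z‖ :=
    integral_indicator measurableSet_ball
  have j1 : Integrable (fun x => A (x + τ • v)) (volume.restrict (ball (0 : ℂ) r)) :=
    (htr A τ iA).restrict
  have j2 : Integrable A (volume.restrict (ball (0 : ℂ) r)) := iA.restrict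
  have j3 : Integrable (fun x => ∫ t in Set.Ioc 0 τ, G (x + t • v)) (volume.restrict (ball (0 : ℂ) r)) :=
    hGprod.integral_prod_left
  have h1 : τ * ∫ z in ball (0 : ℂ) r, ‖fderiv ℝ F z v‖ ≤
      (∫ x in ball (0 : ℂ) r, A (x + τ • v)) + (∫ x in ball (0 : ℂ) r, A x) +
        τ * ∫ x in ball (0 : ℂ) r, ∫ t in Set.Ioc 0 τ, G (x + t • v) := by
    have j4 : Integrable (fun x => A (x + τ • v) + A x) (volume.restrict (ball (0 : ℂ) r)) := j1.add j2
    rw [← integral_const_mul, ← integral_const_mul, ← integral_add j1 j2,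
      ← integral_add j4 (j3.const_mul τ)]
    refine setIntegral_mono_on ?_ (j4.add (j3.const_mul τ)) measurableSet_ball hpt
    exact (integrableOn_ball hDc (by linarith)).const_mul τ
  have h2 : ∫ x in ball (0 : ℂ) r, A x ≤ ∫ x, A x :=
    setIntegral_le_integral iA (Eventually.of_forall pA)
  have h3 := hle A τ iA pA
  have h4 : ∫ x in ball (0 : ℂ) r, ∫ t in Set.Ioc 0 τ, G (x + t • v) ≤ τ * ∫ x, G x := by
    rw [integral_integral_swap hGprod]
    have h5 : ∫ t in Set.Ioc 0 τ, ∫ x in ball (0 : ℂ) r, G (x + t • v) ≤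
        ∫ _t in Set.Ioc 0 τ, (∫ x, G x) := by
      refine integral_mono hGprod.integral_prod_right (integrable_const _) fun t => ?_
      exact hle G t iG pG
    refine h5.trans (le_of_eq ?_)
    rw [setIntegral_const, smul_eq_mul, Measure.real, Real.volume_Ioc, sub_zero,
      ENNReal.toReal_ofReal hτ.le]
  rw [hIA] at h2 h3
  rw [hIG] at h4
  have h5 := mul_le_mul_of_nonneg_left h4 hτ.le
  have h6 : τ ^ 2 * ∫ z in ball (0 : ℂ) (r + τ), ‖iteratedFDeriv ℝ 2 F z‖ =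
      τ * (τ * ∫ z in ball (0 : ℂ) (r + τ), ‖iteratedFDeriv ℝ 2 F z‖) := by ring
  rw [h6]
  linarith

end Pool.Agent.Helper74.CE
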