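import Pool.Agent.Helper74.CE.BBc

/-!
# CL-E09: closure properties of `LL`

For `r < 2`, `ball 0 r` has compact closure in `ball 0 3` (if `r ≤ 0` it is empty), the functions
`z ↦ ‖iteratedFDeriv ℝ k (g i) z‖` are continuous on `ball 0 3` (`ContDiffOn.continuousOn_iteratedFDerivWithin` and
`iteratedFDerivWithin_of_isOpen`), hence integrable on `ball 0 r`; the set `ball 0 r ∩ {1 - cos u < δ^2}` is measurable
(hypothesis `hu`: `u i` is continuous on `ball 0 3`, so that this set is open), and the integral over it increases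
with `δ` and is at most the integral over `ball 0 r` (`setIntegral_mono_set`).

* `LL.mul_BB`: `scaled_mul_le` gives, eventually, on `ball 0 2`,
  `(ε^k ‖D^k (g h)‖)² ≤ (2^k C)² (k + 1) ∑_{j ≤ k} (ε^j ‖D^j h‖)²` (`g ∈ BB` with `BB.bound_le`; Cauchy–Schwarz
  `inner_mul_le_norm_mul_norm` / `sq_sum_le_card_mul_sum_sq`). Integrate over `ball 0 r`, and over the tail set with `δ` the
  minimum of the `δ_j` for `η' = η / ((2^k C)² (k+1)²)`.
* `LL.add`: `‖D^k (g + h)‖² ≤ 2 ‖D^k g‖² + 2 ‖D^k h‖²`.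
* `LL.ex`: `ε^k ‖D^k (ε dx g)‖ ≤ ε^(k+1) ‖D^(k+1) g‖`.
* `LL.of_deriv`: `norm_itd_succ_le` : `ε^(k+1) ‖D^(k+1) g‖ ≤ ε^k ‖D^k (ex g)‖ + ε^k ‖D^k (ey g)‖`
  (`ex g = ε dx g`, so `D^k (dx g) = ε^{-1} D^k (ex g)`).
-/

namespace Pool.Agent.Helper74.CE

open MeasureTheory Filter Topology Metric Pool.Agent.Helper53.CL
open scoped ContDiff Real ComplexConjugate

variable {ι : Type*} {𝓕 : Filter ι} {ε : ι → ℝ} {u : ι → ℂ → ℝ} {g h : ι → ℂ → ℂ}

/-- A continuous function on `ball 0 3` is integrable on `ball 0 r`, `r < 2`. -/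
theorem integrableOn_ball {E : Type*} [NormedAddCommGroup E] {f : ℂ → E} (hf : ContinuousOn f (ball 0 3)) {r : ℝ}
    (hr : r < 3) : IntegrableOn f (ball 0 r) := by
  have h1 : closedBall (0 : ℂ) r ⊆ ball 0 3 := closedBall_subset_ball hr
  have h2 : IntegrableOn f (closedBall 0 r) := (hf.mono h1).integrableOn_compact (isCompact_closedBall 0 r)
  exact h2.mono_set ball_subset_closedBall

theorem continuousOn_norm_itd {f : ℂ → ℂ} (hf : ContDiffOn ℝ ∞ f (ball 0 3)) (k : ℕ) :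
    ContinuousOn (fun z => ‖iteratedFDeriv ℝ k f z‖) (ball 0 3) := by
  have h1 : ContinuousOn (iteratedFDerivWithin ℝ k f (ball 0 3)) (ball 0 3) :=
    hf.continuousOn_iteratedFDerivWithin (by exact_mod_cast le_top) isOpen_ball.uniqueDiffOn
  have h2 : ContinuousOn (iteratedFDeriv ℝ k f) (ball 0 3) :=
    h1.congr (iteratedFDerivWithin_of_isOpen k isOpen_ball).symm
  exact h2.norm

theorem measurableSet_tail {v : ℂ → ℝ} (hv : ContinuousOn v (ball 0 3)) {r : ℝ} (hr : r ≤ 3) (δ : ℝ) :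
    MeasurableSet (ball (0 : ℂ) r ∩ {z | 1 - Real.cos (v z) < δ}) := by
  have h1 : ContinuousOn (fun z => 1 - Real.cos (v z)) (ball (0 : ℂ) r) :=
    continuousOn_const.sub (Real.continuous_cos.comp_continuousOn (hv.mono (ball_subset_ball hr)))
  exact (h1.isOpen_inter_preimage isOpen_ball (isOpen_Iio (a := δ))).measurableSet

/-- Square integrable families for `dx / ε`, with small tails. -/
def L2f (𝓕 : Filter ι) (ε : ι → ℝ) (u : ι → ℂ → ℝ) (F : ι → ℂ → ℝ) : Prop :=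
  ∀ r < 2, (∃ C : ℝ, ∀ᶠ i in 𝓕, ∫ z in ball (0 : ℂ) r, (F i z) ^ 2 ≤ C * ε i) ∧
    ∀ η > 0, ∃ δ > 0, ∀ᶠ i in 𝓕,
      ∫ z in ball (0 : ℂ) r ∩ {z | 1 - Real.cos (u i z) < δ ^ 2}, (F i z) ^ 2 ≤ η * ε i

theorem llc_sq_int {F : ℂ → ℝ} (hF : ContinuousOn F (ball 0 3)) {r : ℝ} (hr : r < 2) :
    IntegrableOn (fun z => (F z) ^ 2) (ball 0 r) :=
  integrableOn_ball (hF.pow 2) (by linarith)

/-- Comparison of the integrals over a subset of the disc. -/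
theorem llc_mono {F G : ℂ → ℝ} (hF : ContinuousOn F (ball 0 3)) {r : ℝ} (hr : r < 2)
    (h : ∀ z ∈ ball (0 : ℂ) 2, |G z| ≤ F z) (s : Set ℂ) :
    ∫ z in ball (0 : ℂ) r ∩ s, (G z) ^ 2 ≤ ∫ z in ball (0 : ℂ) r ∩ s, (F z) ^ 2 := by
  refine integral_mono_of_nonneg (Eventually.of_forall fun z => sq_nonneg _)
    ((llc_sq_int hF hr).mono_set Set.inter_subset_left) ?_
  refine ae_restrict_of_ae_restrict_of_subset Set.inter_subset_left (t := ball (0 : ℂ) r) ?_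
  filter_upwards [ae_restrict_mem measurableSet_ball] with z hz
  exact sq_le_sq' (by linarith [neg_abs_le (G z), h z (ball_subset_ball hr.le hz)])
    ((le_abs_self _).trans (h z (ball_subset_ball hr.le hz)))

theorem L2f.mono {F G : ι → ℂ → ℝ} (hF : L2f 𝓕 ε u F) (hc : ∀ i, ContinuousOn (F i) (ball 0 3))
    (h : ∀ᶠ i in 𝓕, ∀ z ∈ ball (0 : ℂ) 2, |G i z| ≤ F i z) : L2f 𝓕 ε u G := by
  intro r hr
  obtain ⟨⟨C, hC⟩, ht⟩ := hF r hr
  refine ⟨⟨C, ?_⟩, fun η hη => ?_⟩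
  · filter_upwards [hC, h] with i h1 h2
    refine le_trans ?_ h1
    have := llc_mono (hc i) hr h2 Set.univ
    rwa [Set.inter_univ] at this
  · obtain ⟨δ, hδ, hδ2⟩ := ht η hη
    refine ⟨δ, hδ, ?_⟩
    filter_upwards [hδ2, h] with i h1 h2
    exact (llc_mono (hc i) hr h2 _).trans h1

theorem L2f.add (h0 : ∀ i, 0 < ε i) {F G : ι → ℂ → ℝ} (hF : L2f 𝓕 ε u F) (hG : L2f 𝓕 ε u G)
    (hcF : ∀ i, ContinuousOn (F i) (ball 0 3)) (hcG : ∀ i, ContinuousOn (G i) (ball 0 3)) :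
    L2f 𝓕 ε u (fun i z => F i z + G i z) := by
  have key : ∀ (i : ι) (r : ℝ) (s : Set ℂ), r < 2 → ∫ z in ball (0 : ℂ) r ∩ s, (F i z + G i z) ^ 2 ≤
      2 * (∫ z in ball (0 : ℂ) r ∩ s, (F i z) ^ 2) + 2 * ∫ z in ball (0 : ℂ) r ∩ s, (G i z) ^ 2 := by
    intro i r s hr
    have h1 := (llc_sq_int (hcF i) hr).mono_set (Set.inter_subset_left (t := s))
    have h2 := (llc_sq_int (hcG i) hr).mono_set (Set.inter_subset_left (t := s))
    rw [← integral_const_mul, ← integral_const_mul, ← integral_add (h1.const_mul 2) (h2.const_mul 2)]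
    refine integral_mono_of_nonneg (Eventually.of_forall fun z => sq_nonneg _) ((h1.const_mul 2).add (h2.const_mul 2))
      (Eventually.of_forall fun z => ?_)
    show (F i z + G i z) ^ 2 ≤ 2 * F i z ^ 2 + 2 * G i z ^ 2
    nlinarith [sq_nonneg (F i z - G i z)]
  intro r hr
  obtain ⟨⟨C, hC⟩, ht⟩ := hF r hr
  obtain ⟨⟨C', hC'⟩, ht'⟩ := hG r hr
  refine ⟨⟨2 * C + 2 * C', ?_⟩, fun η hη => ?_⟩
  · filter_upwards [hC, hC'] with i h1 h2
    have := key i r Set.univ hr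
    rw [Set.inter_univ] at this
    refine this.trans ?_
    linarith
  · obtain ⟨δ, hδ, hδ2⟩ := ht (η / 4) (by linarith)
    obtain ⟨δ', hδ', hδ2'⟩ := ht' (η / 4) (by linarith)
    refine ⟨min δ δ', lt_min hδ hδ', ?_⟩
    filter_upwards [hδ2, hδ2'] with i h1 h2
    refine (key i r _ hr).trans ?_
    have hsub : ∀ d : ℝ, 0 < d → min δ δ' ≤ d → ball (0 : ℂ) r ∩ {z | 1 - Real.cos (u i z) < (min δ δ') ^ 2} ⊆
        ball (0 : ℂ) r ∩ {z | 1 - Real.cos (u i z) < d ^ 2} := by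
      intro d hd hmin z hz
      have h5 : 1 - Real.cos (u i z) < (min δ δ') ^ 2 := hz.2
      refine ⟨hz.1, ?_⟩
      show 1 - Real.cos (u i z) < d ^ 2
      exact h5.trans_le (pow_le_pow_left₀ (le_min hδ.le hδ'.le) hmin 2)
    have h3 : ∫ z in ball (0 : ℂ) r ∩ {z | 1 - Real.cos (u i z) < (min δ δ') ^ 2}, (F i z) ^ 2 ≤
        ∫ z in ball (0 : ℂ) r ∩ {z | 1 - Real.cos (u i z) < δ ^ 2}, (F i z) ^ 2 :=
      setIntegral_mono_set ((llc_sq_int (hcF i) hr).mono_set Set.inter_subset_left)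
        (Eventually.of_forall fun z => sq_nonneg _) (LE.le.eventuallyLE (hsub δ hδ (min_le_left _ _)))
    have h4 : ∫ z in ball (0 : ℂ) r ∩ {z | 1 - Real.cos (u i z) < (min δ δ') ^ 2}, (G i z) ^ 2 ≤
        ∫ z in ball (0 : ℂ) r ∩ {z | 1 - Real.cos (u i z) < δ' ^ 2}, (G i z) ^ 2 :=
      setIntegral_mono_set ((llc_sq_int (hcG i) hr).mono_set Set.inter_subset_left)
        (Eventually.of_forall fun z => sq_nonneg _) (LE.le.eventuallyLE (hsub δ' hδ' (min_le_right _ _)))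
    linarith

theorem L2f.const_mul {F : ι → ℂ → ℝ} (hF : L2f 𝓕 ε u F) (K : ℝ) : L2f 𝓕 ε u (fun i z => K * F i z) := by
  have key : ∀ (i : ι) (s : Set ℂ), ∫ z in s, (K * F i z) ^ 2 = K ^ 2 * ∫ z in s, (F i z) ^ 2 := by
    intro i s
    rw [← integral_const_mul]
    congr 1
    funext z
    ring
  intro r hr
  obtain ⟨⟨C, hC⟩, ht⟩ := hF r hr
  refine ⟨⟨K ^ 2 * C, ?_⟩, fun η hη => ?_⟩
  · filter_upwards [hC] with i h1
    rw [key, mul_assoc]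
    exact mul_le_mul_of_nonneg_left h1 (sq_nonneg K)
  · obtain ⟨δ, hδ, hδ2⟩ := ht (η / (K ^ 2 + 1)) (by positivity)
    refine ⟨δ, hδ, ?_⟩
    filter_upwards [hδ2] with i h1
    rw [key]
    have h2 : 0 ≤ ∫ z in ball (0 : ℂ) r ∩ {z | 1 - Real.cos (u i z) < δ ^ 2}, (F i z) ^ 2 :=
      integral_nonneg fun z => sq_nonneg _
    calc K ^ 2 * ∫ z in ball (0 : ℂ) r ∩ {z | 1 - Real.cos (u i z) < δ ^ 2}, (F i z) ^ 2
        ≤ (K ^ 2 + 1) * ∫ z in ball (0 : ℂ) r ∩ {z | 1 - Real.cos (u i z) < δ ^ 2}, (F i z) ^ 2 :=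
          mul_le_mul_of_nonneg_right (by linarith) h2
      _ ≤ (K ^ 2 + 1) * (η / (K ^ 2 + 1) * ε i) := mul_le_mul_of_nonneg_left h1 (by positivity)
      _ = η * ε i := by field_simp

theorem L2f.zero (h0 : ∀ i, 0 < ε i) : L2f 𝓕 ε u (fun _ _ => 0) := by
  intro r hr
  refine ⟨⟨0, Eventually.of_forall fun i => by simp⟩, fun η hη => ⟨1, one_pos, Eventually.of_forall fun i => ?_⟩⟩
  have := h0 i
  simp only [ne_eq, OfNat.ofNat_ne_zero, not_false_eq_true, zero_pow, integral_zero]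
  positivity

theorem L2f.sum (h0 : ∀ i, 0 < ε i) {κ : Type*} (s : Finset κ) {F : κ → ι → ℂ → ℝ}
    (hF : ∀ j ∈ s, L2f 𝓕 ε u (F j)) (hc : ∀ j ∈ s, ∀ i, ContinuousOn (F j i) (ball 0 3)) :
    L2f 𝓕 ε u (fun i z => ∑ j ∈ s, F j i z) := by
  classical
  induction s using Finset.induction_on with
  | empty => simpa using L2f.zero h0
  | insert a s ha ih =>
    simp only [Finset.sum_insert ha]
    refine L2f.add h0 (hF a (Finset.mem_insert_self _ _))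
      (ih (fun j hj => hF j (Finset.mem_insert_of_mem hj)) fun j hj => hc j (Finset.mem_insert_of_mem hj))
      (hc a (Finset.mem_insert_self _ _)) fun i => ?_
    exact continuousOn_finsetSum _ fun j hj => hc j (Finset.mem_insert_of_mem hj) i

theorem LL.l2f (hg : LL 𝓕 ε u g) (k : ℕ) : L2f 𝓕 ε u (fun i z => ε i ^ k * ‖iteratedFDeriv ℝ k (g i) z‖) :=
  fun r hr => hg.2 k r hr

theorem LL.mk' (hg : BB 𝓕 ε g) (h : ∀ k, L2f 𝓕 ε u (fun i z => ε i ^ k * ‖iteratedFDeriv ℝ k (g i) z‖)) :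
    LL 𝓕 ε u g := ⟨hg, fun k r hr => h k r hr⟩

theorem llc_cont (hg : Sm g) (k : ℕ) (i : ι) :
    ContinuousOn (fun z => ε i ^ k * ‖iteratedFDeriv ℝ k (g i) z‖) (ball 0 3) :=
  continuousOn_const.mul (continuousOn_norm_itd (hg i) k)

theorem llc_abs (h0 : ∀ i, 0 < ε i) (k : ℕ) (i : ι) (z : ℂ) :
    |ε i ^ k * ‖iteratedFDeriv ℝ k (g i) z‖| = ε i ^ k * ‖iteratedFDeriv ℝ k (g i) z‖ :=
  abs_of_nonneg (mul_nonneg (pow_pos (h0 i) k).le (norm_nonneg _))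

theorem llc_ball {z : ℂ} (hz : z ∈ ball (0 : ℂ) 2) : z ∈ ball (0 : ℂ) 3 := ball_subset_ball (by norm_num) hz

theorem LL.congr (hg : LL 𝓕 ε u g) (hh : ∀ i, ∀ z ∈ ball (0 : ℂ) 3, g i z = h i z) : LL 𝓕 ε u h := by
  refine ⟨hg.1.congr hh, fun k r hr => ?_⟩
  have e1 : ∀ i, ∀ z ∈ ball (0 : ℂ) 3, iteratedFDeriv ℝ k (h i) z = iteratedFDeriv ℝ k (g i) z := by
    intro i z hz
    apply itd_congr
    filter_upwards [isOpen_ball.mem_nhds hz] with y hy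
    exact (hh i y hy).symm
  have e2 : ∀ i (s : Set ℂ), ∫ z in ball (0 : ℂ) r ∩ s, (ε i ^ k * ‖iteratedFDeriv ℝ k (h i) z‖) ^ 2 =
      ∫ z in ball (0 : ℂ) r ∩ s, (ε i ^ k * ‖iteratedFDeriv ℝ k (g i) z‖) ^ 2 := by
    intro i s
    apply integral_congr_ae
    refine ae_restrict_of_ae_restrict_of_subset Set.inter_subset_left (t := ball (0 : ℂ) r) ?_
    filter_upwards [ae_restrict_mem measurableSet_ball] with z hz
    rw [e1 i z (ball_subset_ball (by linarith) hz)]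
  have e3 : ∀ i, ∫ z in ball (0 : ℂ) r, (ε i ^ k * ‖iteratedFDeriv ℝ k (h i) z‖) ^ 2 =
      ∫ z in ball (0 : ℂ) r, (ε i ^ k * ‖iteratedFDeriv ℝ k (g i) z‖) ^ 2 := by
    intro i
    have := e2 i Set.univ
    rwa [Set.inter_univ] at this
  simp only [e2, e3]
  exact hg.2 k r hr

theorem LL.zero (h0 : ∀ i, 0 < ε i) : LL 𝓕 ε u (fun _ _ => 0) := by
  refine LL.mk' (BB.const h0 0) fun k => ?_
  have e1 : (fun (i : ι) (z : ℂ) => ε i ^ k * ‖iteratedFDeriv ℝ k (fun _ : ℂ => (0 : ℂ)) z‖) = fun _ _ => 0 := by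
    funext i z
    have : iteratedFDeriv ℝ k (fun _ : ℂ => (0 : ℂ)) z = 0 := by
      have := iteratedFDeriv_fun_zero (𝕜 := ℝ) (E := ℂ) (F := ℂ) (n := k)
      exact congrFun this z
    rw [this, norm_zero, mul_zero]
  rw [e1]
  exact L2f.zero h0

theorem LL.add (h0 : ∀ i, 0 < ε i) (hu : ∀ i, ContinuousOn (u i) (ball 0 3)) (hg : LL 𝓕 ε u g)
    (hh : LL 𝓕 ε u h) : LL 𝓕 ε u (fun i z => g i z + h i z) := by
  refine LL.mk' (BB.add h0 hg.1 hh.1) fun k => ?_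
  refine L2f.mono (L2f.add h0 (hg.l2f k) (hh.l2f k) (llc_cont hg.1.1 k) (llc_cont hh.1.1 k))
    (fun i => (llc_cont hg.1.1 k i).add (llc_cont hh.1.1 k i)) (Eventually.of_forall fun i z hz => ?_)
  rw [llc_abs (g := fun i z => g i z + h i z) h0, ← mul_add]
  exact mul_le_mul_of_nonneg_left (norm_itd_add_le isOpen_ball (hg.1.1 i) (hh.1.1 i) (llc_ball hz) k)
    (pow_pos (h0 i) k).le

/-- `BB · LL ⊆ LL`. -/
theorem LL.mul_BB (h0 : ∀ i, 0 < ε i) (hu : ∀ i, ContinuousOn (u i) (ball 0 3)) (hg : BB 𝓕 ε g)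
    (hh : LL 𝓕 ε u h) : LL 𝓕 ε u (fun i z => g i z * h i z) := by
  refine LL.mk' (BB.mul h0 hg hh.1) fun k => ?_
  obtain ⟨C, hC0, hC⟩ := hg.bound_le k
  have h1 : L2f 𝓕 ε u (fun i z => ∑ j ∈ Finset.range (k + 1), ε i ^ j * ‖iteratedFDeriv ℝ j (h i) z‖) :=
    L2f.sum h0 (Finset.range (k + 1)) (F := fun j i z => ε i ^ j * ‖iteratedFDeriv ℝ j (h i) z‖)
      (fun j _ => hh.l2f j) (fun j _ => llc_cont hh.1.1 j)
  refine L2f.mono (h1.const_mul (2 ^ k * C)) (fun i => ?_) ?_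
  · exact continuousOn_const.mul (continuousOn_finsetSum _ fun j _ => llc_cont hh.1.1 j i)
  · filter_upwards [hC] with i hi z hz
    rw [llc_abs (g := fun i z => g i z * h i z) h0]
    exact scaled_mul_le isOpen_ball (hg.1 i) (hh.1.1 i) (llc_ball hz) k (h0 i) (hi z hz)

theorem LL.const_mul (h0 : ∀ i, 0 < ε i) (hu : ∀ i, ContinuousOn (u i) (ball 0 3)) (hg : LL 𝓕 ε u g) (c : ℂ) :
    LL 𝓕 ε u (fun i z => c * g i z) := LL.mul_BB h0 hu (BB.const h0 c) hg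

theorem LL.sub (h0 : ∀ i, 0 < ε i) (hu : ∀ i, ContinuousOn (u i) (ball 0 3)) (hg : LL 𝓕 ε u g)
    (hh : LL 𝓕 ε u h) : LL 𝓕 ε u (fun i z => g i z - h i z) :=
  (LL.add h0 hu hg (LL.const_mul h0 hu hh (-1))).congr fun i z _ => by ring

theorem LL.sum (h0 : ∀ i, 0 < ε i) (hu : ∀ i, ContinuousOn (u i) (ball 0 3)) {κ : Type*} (s : Finset κ)
    {G : κ → ι → ℂ → ℂ} (hG : ∀ p ∈ s, LL 𝓕 ε u (G p)) : LL 𝓕 ε u (fun i z => ∑ p ∈ s, G p i z) := by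
  classical
  induction s using Finset.induction_on with
  | empty => simpa using LL.zero h0
  | insert a s ha ih =>
    simp only [Finset.sum_insert ha]
    exact LL.add h0 hu (hG a (Finset.mem_insert_self _ _)) (ih fun j hj => hG j (Finset.mem_insert_of_mem hj))

theorem LL.conj (hg : LL 𝓕 ε u g) : LL 𝓕 ε u (fun i z => conj (g i z)) := by
  refine ⟨hg.1.conj, fun k r hr => ?_⟩
  have e2 : ∀ i (s : Set ℂ), ∫ z in ball (0 : ℂ) r ∩ s, (ε i ^ k * ‖iteratedFDeriv ℝ k (fun z => conj (g i z)) z‖) ^ 2 =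
      ∫ z in ball (0 : ℂ) r ∩ s, (ε i ^ k * ‖iteratedFDeriv ℝ k (g i) z‖) ^ 2 := by
    intro i s
    apply integral_congr_ae
    refine ae_restrict_of_ae_restrict_of_subset Set.inter_subset_left (t := ball (0 : ℂ) r) ?_
    filter_upwards [ae_restrict_mem measurableSet_ball] with z hz
    rw [norm_itd_conj isOpen_ball (hg.1.1 i) (ball_subset_ball (by linarith) hz)]
  have e3 : ∀ i, ∫ z in ball (0 : ℂ) r, (ε i ^ k * ‖iteratedFDeriv ℝ k (fun z => conj (g i z)) z‖) ^ 2 =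
      ∫ z in ball (0 : ℂ) r, (ε i ^ k * ‖iteratedFDeriv ℝ k (g i) z‖) ^ 2 := by
    intro i
    have := e2 i Set.univ
    rwa [Set.inter_univ] at this
  simp only [e2, e3]
  exact hg.2 k r hr

theorem llc_smul {f : ℂ → ℂ} (hf : ContDiffOn ℝ ∞ f (ball 0 3)) {z : ℂ} (hz : z ∈ ball (0 : ℂ) 3) {e : ℝ} (he : 0 < e)
    (k : ℕ) : ‖iteratedFDeriv ℝ k (fun z => (e : ℂ) * f z) z‖ = e * ‖iteratedFDeriv ℝ k f z‖ := by
  have e1 : (fun z => (e : ℂ) * f z) = e • f := by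
    funext z
    rw [Pi.smul_apply, Complex.real_smul]
  have h1 : ContDiffAt ℝ k f z := (hf.contDiffAt (isOpen_ball.mem_nhds hz)).of_le (by exact_mod_cast le_top)
  rw [e1, iteratedFDeriv_const_smul_apply h1, norm_smul, Real.norm_eq_abs, abs_of_pos he]

theorem llc_op (h0 : ∀ i, 0 < ε i) {op : (ℂ → ℂ) → ℂ → ℂ}
    (hop : ∀ f, ContDiffOn ℝ ∞ f (ball 0 3) → ContDiffOn ℝ ∞ (op f) (ball 0 3))
    (hop2 : ∀ f, ContDiffOn ℝ ∞ f (ball 0 3) → ∀ z ∈ ball (0 : ℂ) 3, ∀ k : ℕ,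
      ‖iteratedFDeriv ℝ k (op f) z‖ ≤ ‖iteratedFDeriv ℝ (k + 1) f z‖)
    (hg : LL 𝓕 ε u g) (hb : BB 𝓕 ε (fun i z => (ε i : ℂ) * op (g i) z)) :
    LL 𝓕 ε u (fun i z => (ε i : ℂ) * op (g i) z) := by
  refine LL.mk' hb fun k => ?_
  refine L2f.mono (hg.l2f (k + 1)) (llc_cont hg.1.1 (k + 1)) (Eventually.of_forall fun i z hz => ?_)
  rw [llc_abs (g := fun i z => (ε i : ℂ) * op (g i) z) h0, llc_smul (hop _ (hg.1.1 i)) (llc_ball hz) (h0 i), pow_succ,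
    mul_assoc]
  have h2 := hop2 _ (hg.1.1 i) z (llc_ball hz) k
  have := h0 i
  gcongr

theorem LL.ex (h0 : ∀ i, 0 < ε i) (hu : ∀ i, ContinuousOn (u i) (ball 0 3)) (hg : LL 𝓕 ε u g) :
    LL 𝓕 ε u (ex ε g) :=
  llc_op h0 (op := dx) (fun f hf => smooth_dx isOpen_ball hf)
    (fun f hf z hz k => norm_itd_dx_le isOpen_ball hf hz k) hg (BB.ex h0 hg.1)

theorem LL.ey (h0 : ∀ i, 0 < ε i) (hu : ∀ i, ContinuousOn (u i) (ball 0 3)) (hg : LL 𝓕 ε u g) :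
    LL 𝓕 ε u (ey ε g) :=
  llc_op h0 (op := dy) (fun f hf => smooth_dy isOpen_ball hf)
    (fun f hf z hz k => norm_itd_dy_le isOpen_ball hf hz k) hg (BB.ey h0 hg.1)

theorem LL.ez (h0 : ∀ i, 0 < ε i) (hu : ∀ i, ContinuousOn (u i) (ball 0 3)) (hg : LL 𝓕 ε u g) :
    LL 𝓕 ε u (ez ε g) :=
  llc_op h0 (op := dz) (fun f hf => smooth_dz isOpen_ball hf)
    (fun f hf z hz k => norm_itd_dz_le isOpen_ball hf hz k) hg (BB.ez h0 hg.1)

theorem LL.ezb (h0 : ∀ i, 0 < ε i) (hu : ∀ i, ContinuousOn (u i) (ball 0 3)) (hg : LL 𝓕 ε u g) :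
    LL 𝓕 ε u (ezb ε g) :=
  llc_op h0 (op := dzb) (fun f hf => smooth_dzb isOpen_ball hf)
    (fun f hf z hz k => norm_itd_dzb_le isOpen_ball hf hz k) hg (BB.ezb h0 hg.1)

theorem LL.of_deriv (h0 : ∀ i, 0 < ε i) (hu : ∀ i, ContinuousOn (u i) (ball 0 3)) (hg : BB 𝓕 ε g)
    (hx : LL 𝓕 ε u (Pool.Agent.Helper74.CE.ex ε g)) (hy : LL 𝓕 ε u (Pool.Agent.Helper74.CE.ey ε g))
    (hb : ∀ r < 2, ∃ C : ℝ, ∀ᶠ i in 𝓕, ∫ z in ball (0 : ℂ) r, ‖g i z‖ ^ 2 ≤ C * ε i)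
    (ht : ∀ r < 2, ∀ η > 0, ∃ δ > 0, ∀ᶠ i in 𝓕,
      ∫ z in ball (0 : ℂ) r ∩ {z | 1 - Real.cos (u i z) < δ ^ 2}, ‖g i z‖ ^ 2 ≤ η * ε i) :
    LL 𝓕 ε u g := by
  refine LL.mk' hg fun k => ?_
  rcases k with _ | k
  · intro r hr
    simp only [pow_zero, one_mul, norm_iteratedFDeriv_zero]
    exact ⟨hb r hr, ht r hr⟩
  · refine L2f.mono (L2f.add h0 (hx.l2f k) (hy.l2f k) (llc_cont hx.1.1 k) (llc_cont hy.1.1 k))
      (fun i => (llc_cont hx.1.1 k i).add (llc_cont hy.1.1 k i)) (Eventually.of_forall fun i z hz => ?_)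
    rw [llc_abs h0]
    have e1 : ‖iteratedFDeriv ℝ k (Pool.Agent.Helper74.CE.ex ε g i) z‖ = ε i * ‖iteratedFDeriv ℝ k (dx (g i)) z‖ :=
      llc_smul (smooth_dx isOpen_ball (hg.1 i)) (llc_ball hz) (h0 i) k
    have e2 : ‖iteratedFDeriv ℝ k (Pool.Agent.Helper74.CE.ey ε g i) z‖ = ε i * ‖iteratedFDeriv ℝ k (dy (g i)) z‖ :=
      llc_smul (smooth_dy isOpen_ball (hg.1 i)) (llc_ball hz) (h0 i) k
    rw [e1, e2, pow_succ]
    have h3 := norm_itd_succ_le isOpen_ball (hg.1 i) (llc_ball hz) k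
    have h4 : 0 < ε i ^ k * ε i := mul_pos (pow_pos (h0 i) k) (h0 i)
    have := mul_le_mul_of_nonneg_left h3 h4.le
    linarith

end Pool.Agent.Helper74.CE
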