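import Pool.Agent.Helper74.CE.Calc

/-!
# CL-E05: the recursions of `Qn`, `Bn`, `Dn`, `gp`, and smoothness

* The recursions are `srec_zero`, `srec_succ` (Defs): the functional `F n g` only involves `g k`, `k ≤ n`, as the members
  `p` of `antidiagonal n` satisfy `p.1 ≤ n`, `p.2 ≤ n` (`Finset.sum_congr`, `Finset.mem_antidiagonal`,
  `Finset.antidiagonal.fst_le`).
* Smoothness: strong induction on `n` with these recursions (`ContDiffOn.add, mul, sum, div_const, congr`, `smooth_dz`,
  `smooth_comp_real` for `sin`, `cos`).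
-/

namespace Pool.Agent.Helper74.CE

open MeasureTheory Filter Topology Metric Pool.Agent.Helper53.CL
open scoped ContDiff Real

variable {e : ℝ} {a u : ℂ → ℝ} {D : Set ℂ} {z : ℂ}

theorem Qn_zero : Qn e u 0 = fun _ => 0 := by
  rfl

theorem Qn_succ (n : ℕ) (z : ℂ) : Qn e u (n + 1) z = e * dz (Qn e u n) z +
    P1 e u z / 2 * ((if n = 0 then 1 else 0) +
      ∑ p ∈ Finset.HasAntidiagonal.antidiagonal n, Qn e u p.1 z * Qn e u p.2 z) := by
  have h : Qn e u (n + 1) = _ := srec_succ _ _ n (by
    intro g h hgh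
    funext w
    rw [hgh n le_rfl]
    congr 2
    congr 1
    refine Finset.sum_congr rfl fun p hp => ?_
    rw [hgh p.1 (by have := Finset.HasAntidiagonal.mem_antidiagonal.1 hp; omega), hgh p.2 (by have := Finset.HasAntidiagonal.mem_antidiagonal.1 hp; omega)])
  rw [h]
  rfl

theorem Qn_one (z : ℂ) : Qn e u 1 z = P1 e u z / 2 := by
  have h := Qn_succ (e := e) (u := u) 0 z
  rw [zero_add] at h
  rw [h, Qn_zero, dz_const]
  simp [Qn_zero]

theorem Dn_zero : Dn e a u 0 = fun _ => 0 := by
  rfl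

theorem Dn_succ (n : ℕ) (z : ℂ) : Dn e a u (n + 1) z = e * dz (Dn e a u n) z +
    P1 e u z * (∑ p ∈ Finset.HasAntidiagonal.antidiagonal n, Qn e u p.1 z * Dn e a u p.2 z) +
    (if n = 0 then 0 else dz (fun w => (a w : ℂ)) z * Bn e u (n - 1) z / 8) := by
  have h : Dn e a u (n + 1) = _ := srec_succ _ _ n (by
    intro g h hgh
    funext w
    rw [hgh n le_rfl]
    congr 3
    refine Finset.sum_congr rfl fun p hp => ?_
    rw [hgh p.2 (by have := Finset.HasAntidiagonal.mem_antidiagonal.1 hp; omega)])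
  rw [h]
  rfl

theorem Dn_one : Dn e a u 1 = fun _ => 0 := by
  funext z
  have h := Dn_succ (e := e) (a := a) (u := u) 0 z
  rw [zero_add] at h
  rw [h, Dn_zero, dz_const]
  simp [Qn_zero]

open Polynomial in
theorem gp_zero : gp 0 = 0 := by
  rfl

open Polynomial in
theorem gp_succ (n : ℕ) : gp (n + 1) = X * gp n - (1 - X ^ 2) * derivative (gp n) +
    2 * (1 - X ^ 2) * (∑ p ∈ Finset.HasAntidiagonal.antidiagonal n,
      (if p.1 = 0 then 0 else X ^ (p.1 - 1)) * gp p.2) +
    (if n = 0 then 0 else 2 * ((n : ℝ[X]) * X ^ n - ((n - 1 : ℕ) : ℝ[X]) * X ^ (n - 2))) := by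
  have h : gp (n + 1) = _ := srec_succ _ _ n (by
    intro g h hgh
    rw [hgh n le_rfl]
    congr 3
    refine Finset.sum_congr rfl fun p hp => ?_
    rw [hgh p.2 (by have := Finset.HasAntidiagonal.mem_antidiagonal.1 hp; omega)])
  rw [h]
  rfl

theorem gp_one : gp 1 = 0 := by
  have h := gp_succ 0
  rw [zero_add] at h
  rw [h, gp_zero]
  simp

theorem P1_smooth (hD : IsOpen D) (hu : ContDiffOn ℝ ∞ u D) : ContDiffOn ℝ ∞ (P1 e u) D := by
  exact contDiffOn_const.mul (smooth_dz hD (smooth_ofReal hu))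

theorem Qn_smooth (hD : IsOpen D) (hu : ContDiffOn ℝ ∞ u D) (n : ℕ) : ContDiffOn ℝ ∞ (Qn e u n) D := by
  induction n using Nat.strong_induction_on with
  | _ n ih =>
    rcases n with _ | n
    · rw [Qn_zero]
      exact contDiffOn_const
    · refine ContDiffOn.congr (f := fun z => e * dz (Qn e u n) z +
        P1 e u z / 2 * ((if n = 0 then 1 else 0) +
        ∑ p ∈ Finset.HasAntidiagonal.antidiagonal n, Qn e u p.1 z * Qn e u p.2 z)) ?_
        (fun z _ => Qn_succ n z)
      refine (contDiffOn_const.mul (smooth_dz hD (ih n (by omega)))).add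
        (((P1_smooth hD hu).div_const 2).mul (contDiffOn_const.add
          (ContDiffOn.sum fun p hp => ?_)))
      have h1 : p.1 ≤ n := by have := Finset.HasAntidiagonal.mem_antidiagonal.1 hp; omega
      have h2 : p.2 ≤ n := by have := Finset.HasAntidiagonal.mem_antidiagonal.1 hp; omega
      exact (ih p.1 (by omega)).mul (ih p.2 (by omega))

theorem Bn_smooth (hD : IsOpen D) (hu : ContDiffOn ℝ ∞ u D) (n : ℕ) : ContDiffOn ℝ ∞ (Bn e u n) D := by
  unfold Bn
  refine ContDiffOn.add (ContDiffOn.mul (contDiffOn_const.mul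
    (smooth_comp_real Real.contDiff_cos hu)) (Qn_smooth hD hu n)) ?_
  refine ContDiffOn.mul (smooth_comp_real Real.contDiff_sin hu) ?_
  exact contDiffOn_const.sub (ContDiffOn.sum fun p _ =>
    (Qn_smooth hD hu p.1).mul (Qn_smooth hD hu p.2))

theorem Dn_smooth (hD : IsOpen D) (ha : ContDiffOn ℝ ∞ a D) (hu : ContDiffOn ℝ ∞ u D) (n : ℕ) :
    ContDiffOn ℝ ∞ (Dn e a u n) D := by
  induction n using Nat.strong_induction_on with
  | _ n ih =>
    rcases n with _ | n
    · rw [Dn_zero]
      exact contDiffOn_const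
    · refine ContDiffOn.congr (f := fun z => e * dz (Dn e a u n) z +
        P1 e u z * (∑ p ∈ Finset.HasAntidiagonal.antidiagonal n, Qn e u p.1 z * Dn e a u p.2 z) +
        (if n = 0 then 0 else dz (fun w => (a w : ℂ)) z * Bn e u (n - 1) z / 8)) ?_
        (fun z _ => Dn_succ n z)
      refine ContDiffOn.add ((contDiffOn_const.mul (smooth_dz hD (ih n (by omega)))).add
        ((P1_smooth hD hu).mul (ContDiffOn.sum fun p hp => ?_))) ?_
      · have h2 : p.2 ≤ n := by have := Finset.HasAntidiagonal.mem_antidiagonal.1 hp; omega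
        exact (Qn_smooth hD hu p.1).mul (ih p.2 (by omega))
      · by_cases hn : n = 0
        · simp only [hn, if_true]
          exact contDiffOn_const
        · simp only [hn, if_false]
          exact ((smooth_dz hD (smooth_ofReal ha)).mul (Bn_smooth hD hu (n - 1))).div_const 8

theorem Tn_smooth (hD : IsOpen D) (hu : ContDiffOn ℝ ∞ u D) (n : ℕ) : ContDiffOn ℝ ∞ (Tn e u n) D := by
  unfold Tn
  by_cases hn : n = 1
  · simp only [hn, if_true]
    exact smooth_comp_real (G := fun t => 1 - Real.cos t) (contDiff_const.sub Real.contDiff_cos) hu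
  · simp only [hn, if_false]
    exact (Qn_smooth hD hu (n - 1)).mul (smooth_comp_real Real.contDiff_sin hu)

end Pool.Agent.Helper74.CE
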