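import Pool.Agent.Helper74.CE.Alg
import Pool.Agent.Helper74.CE.Rec

/-!
# CL-E06: the pointwise conservation law

Apply `law_alg` to the following ring. For `f : ↥D → ℂ` let `ext f : ℂ → ℂ` be the extension by zero
(`fun z => if h : z ∈ D then f ⟨z, h⟩ else 0`). Let `R` be the subalgebra of `↥D → ℂ` (over `ℂ`) of the functions `f` such
that `ContDiffOn ℝ ∞ (ext f) D` (on `D`, `ext` is compatible with sums, products and constants: `ContDiffOn.congr`).
The derivations are `δ f = e · dz (ext f)` and `δ' f = e · dzb (ext f)` restricted to `D` (smooth by `smooth_dz`,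
`smooth_dzb`; additive, Leibniz by `dz_add`, `dz_mul` and `dz_congr`, since `D` is open; `ℂ`-linear by `dz_const_mul`).
They commute by `dz_dzb_comm` (and `dz_congr`). The elements are `P = P1 e u`, `s = sin u`, `c = cos u`, `A = a`,
`α = dz a`, the scalar `e`, `Q n = Qn e u n`, `B n = Bn e u n`, `D n = Dn e a u n` (smooth by `Rec`). Hypotheses:
`δ s = c P` and `δ c = - s P` by `dz_comp_real`; `δ' P = e² dzb dz u = e² (lap u) / 4 = a sin u / 4` by `dzb_dz_real` and
the equation; `δ A = e α` by definition; the recursions by `Qn_succ`, `Dn_succ` and the definition of `Bn`.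
The conclusion is `e` times the statement (`Tn e u n` is `1 - cos u` for `n = 1`, `Q_{n-1} sin u` for `n ≥ 2`).
-/

namespace Pool.Agent.Helper74.CE

open MeasureTheory Filter Topology Metric Pool.Agent.Helper53.CL
open scoped ContDiff Real

/-- Extension by zero. -/
private noncomputable def ext0 (D : Set ℂ) (f : D → ℂ) : ℂ → ℂ := by
  classical
  exact fun z => if h : z ∈ D then f ⟨z, h⟩ else 0

private lemma ext0_eq {D : Set ℂ} (f : D → ℂ) {z : ℂ} (hz : z ∈ D) : ext0 D f z = f ⟨z, hz⟩ := by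
  unfold ext0
  simp [hz]

/-- The ring of smooth functions. -/
private noncomputable def RR (D : Set ℂ) : Subalgebra ℂ (D → ℂ) where
  carrier := {f | ContDiffOn ℝ ∞ (ext0 D f) D}
  mul_mem' := by
    intro f g hf hg
    refine (ContDiffOn.mul hf hg).congr ?_
    intro z hz
    rw [ext0_eq _ hz]
    simp only [Pi.mul_apply]
    rw [ext0_eq _ hz, ext0_eq _ hz]
  add_mem' := by
    intro f g hf hg
    refine (ContDiffOn.add hf hg).congr ?_
    intro z hz
    rw [ext0_eq _ hz]
    simp only [Pi.add_apply]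
    rw [ext0_eq _ hz, ext0_eq _ hz]
  algebraMap_mem' := by
    intro c
    refine (contDiffOn_const (c := c)).congr ?_
    intro z hz
    rw [ext0_eq _ hz]
    rfl

/-- The restriction of a smooth function. -/
private noncomputable def mkR {D : Set ℂ} (f : ℂ → ℂ) (hf : ContDiffOn ℝ ∞ f D) : RR D :=
  ⟨fun z => f z, by
    refine hf.congr ?_
    intro z hz
    exact ext0_eq _ hz⟩

/-- Evaluation. -/
private noncomputable def ev {D : Set ℂ} (x : D) : RR D →ₐ[ℂ] ℂ :=
  (Pi.evalAlgHom ℂ (fun _ : D => ℂ) x).comp (RR D).val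

private lemma ext_ev {D : Set ℂ} {f g : RR D} (h : ∀ x, ev x f = ev x g) : f = g :=
  Subtype.ext (funext h)

private lemma ev_mk {D : Set ℂ} (f : ℂ → ℂ) (hf : ContDiffOn ℝ ∞ f D) (x : D) :
    ev x (mkR f hf) = f x := rfl

private lemma mk_ext {D : Set ℂ} (f : RR D) : mkR (ext0 D f.1) f.2 = f := by
  refine ext_ev fun x => ?_
  rw [ev_mk, ext0_eq _ x.2]
  rfl

/-- A first order operator. -/
private structure Op (D : Set ℂ) (T : (ℂ → ℂ) → ℂ → ℂ) : Prop where
  congr : ∀ f g z, f =ᶠ[𝓝 z] g → T f z = T g z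
  add : ∀ f g z, DifferentiableAt ℝ f z → DifferentiableAt ℝ g z →
    T (fun w => f w + g w) z = T f z + T g z
  mul : ∀ f g z, DifferentiableAt ℝ f z → DifferentiableAt ℝ g z →
    T (fun w => f w * g w) z = T f z * g z + f z * T g z
  cmul : ∀ (c : ℂ) f z, T (fun w => c * f w) z = c * T f z
  sm : ∀ f, ContDiffOn ℝ ∞ f D → ContDiffOn ℝ ∞ (T f) D

private noncomputable def opF {D : Set ℂ} {T : (ℂ → ℂ) → ℂ → ℂ} (hT : Op D T) (f : RR D) : RR D :=
  mkR (T (ext0 D f.1)) (hT.sm _ f.2)

private lemma ev_opF {D : Set ℂ} (hD : IsOpen D) {T : (ℂ → ℂ) → ℂ → ℂ} (hT : Op D T) (f : ℂ → ℂ)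
    (hf : ContDiffOn ℝ ∞ f D) (x : D) : ev x (opF hT (mkR f hf)) = T f x := by
  unfold opF
  rw [ev_mk]
  refine hT.congr _ _ _ ?_
  filter_upwards [hD.mem_nhds x.2] with w hw
  exact ext0_eq _ hw

private noncomputable def opD {D : Set ℂ} (hD : IsOpen D) {T : (ℂ → ℂ) → ℂ → ℂ} (hT : Op D T) :
    Derivation ℂ (RR D) (RR D) :=
  Derivation.mk' { toFun := opF hT
                   map_add' := by
                    intro f g
                    refine ext_ev fun x => ?_
                    have hf := diffAt_of_smooth hD f.2 x.2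
                    have hg := diffAt_of_smooth hD g.2 x.2
                    have e : f + g = mkR (fun w => ext0 D f.1 w + ext0 D g.1 w)
                        (ContDiffOn.add f.2 g.2) := by
                      refine ext_ev fun y => ?_
                      rw [ev_mk, ext0_eq _ y.2, ext0_eq _ y.2]
                      rfl
                    rw [map_add, e, ev_opF hD hT, hT.add _ _ _ hf hg]
                    rfl
                   map_smul' := by
                    intro c f
                    refine ext_ev fun x => ?_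
                    have e : c • f = mkR (fun w => c * ext0 D f.1 w)
                        (contDiffOn_const.mul f.2) := by
                      refine ext_ev fun y => ?_
                      rw [ev_mk, ext0_eq _ y.2]
                      rfl
                    rw [e, ev_opF hD hT, hT.cmul]
                    rfl } (by
    intro f g
    refine ext_ev fun x => ?_
    have hf := diffAt_of_smooth hD f.2 x.2
    have hg := diffAt_of_smooth hD g.2 x.2
    have e : f * g = mkR (fun w => ext0 D f.1 w * ext0 D g.1 w)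
        (ContDiffOn.mul f.2 g.2) := by
      refine ext_ev fun y => ?_
      rw [ev_mk, ext0_eq _ y.2, ext0_eq _ y.2]
      rfl
    show ev x (opF hT (f * g)) = ev x (f • opF hT g + g • opF hT f)
    rw [e, ev_opF hD hT, hT.mul _ _ _ hf hg, smul_eq_mul, smul_eq_mul, map_add, map_mul, map_mul,
      ext0_eq _ x.2, ext0_eq _ x.2]
    show T (ext0 D f.1) x * ev x g + ev x f * T (ext0 D g.1) x =
      ev x f * T (ext0 D g.1) x + ev x g * T (ext0 D f.1) x
    ring)

private lemma ev_opD {D : Set ℂ} (hD : IsOpen D) {T : (ℂ → ℂ) → ℂ → ℂ} (hT : Op D T) (f : ℂ → ℂ)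
    (hf : ContDiffOn ℝ ∞ f D) (x : D) : ev x (opD hD hT (mkR f hf)) = T f x :=
  ev_opF hD hT f hf x

private lemma op_dz {D : Set ℂ} (hD : IsOpen D) (e : ℂ) : Op D (fun f z => e * dz f z) where
  congr := fun f g z h => by rw [dz_congr h]
  add := fun f g z hf hg => by rw [dz_add hf hg]; ring
  mul := fun f g z hf hg => by rw [dz_mul hf hg]; ring
  cmul := fun c f z => by rw [dz_const_mul]; ring
  sm := fun f hf => contDiffOn_const.mul (smooth_dz hD hf)

private lemma op_dzb {D : Set ℂ} (hD : IsOpen D) (e : ℂ) : Op D (fun f z => e * dzb f z) where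
  congr := fun f g z h => by rw [dzb_congr h]
  add := fun f g z hf hg => by rw [dzb_add hf hg]; ring
  mul := fun f g z hf hg => by rw [dzb_mul hf hg]; ring
  cmul := fun c f z => by rw [dzb_const_mul]; ring
  sm := fun f hf => contDiffOn_const.mul (smooth_dzb hD hf)

private lemma ite_ev {D : Set ℂ} (x : D) (p : Prop) [Decidable p] (f g : RR D) :
    ev x (if p then f else g) = if p then ev x f else ev x g := by
  split_ifs <;> rfl

theorem law_pt {D : Set ℂ} (hD : IsOpen D) {e : ℝ} (he : 0 < e) {a u : ℂ → ℝ} (ha : ContDiffOn ℝ ∞ a D)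
    (hu : LSol D e a u) {n : ℕ} (hn : 1 ≤ n) {z : ℂ} (hz : z ∈ D) :
    dzb (fun w => P1 e u w * Qn e u n w) z =
      (a z : ℂ) / 4 * dz (Tn e u n) z + P1 e u z * Dn e a u n z := by
  have hus := hu.smooth
  have hPs : ContDiffOn ℝ ∞ (P1 e u) D := P1_smooth hD hus
  have hss : ContDiffOn ℝ ∞ (fun w => ((Real.sin (u w) : ℝ) : ℂ)) D :=
    smooth_comp_real Real.contDiff_sin hus
  have hcs : ContDiffOn ℝ ∞ (fun w => ((Real.cos (u w) : ℝ) : ℂ)) D :=
    smooth_comp_real Real.contDiff_cos hus
  have has : ContDiffOn ℝ ∞ (fun w => ((a w : ℝ) : ℂ)) D := smooth_ofReal ha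
  have hal : ContDiffOn ℝ ∞ (dz (fun w => ((a w : ℝ) : ℂ))) D := smooth_dz hD has
  have hQs : ∀ n, ContDiffOn ℝ ∞ (Qn e u n) D := fun n => Qn_smooth hD hus n
  have hBs : ∀ n, ContDiffOn ℝ ∞ (Bn e u n) D := fun n => Bn_smooth hD hus n
  have hDs : ∀ n, ContDiffOn ℝ ∞ (Dn e a u n) D := fun n => Dn_smooth hD ha hus n
  have hTs : ∀ n, ContDiffOn ℝ ∞ (Tn e u n) D := fun n => Tn_smooth hD hus n
  have h4 : (2 : ℂ) ≠ 0 := two_ne_zero
  have key := law_alg (opD hD (op_dz hD (e : ℂ))) (opD hD (op_dzb hD (e : ℂ))) ?_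
    (mkR _ hPs) (mkR _ hss) (mkR _ hcs) (mkR _ has) (mkR _ hal) (e : ℂ) ?_ ?_ ?_ ?_
    (fun n => mkR _ (hQs n)) (fun n => mkR _ (hBs n)) (fun n => mkR _ (hDs n)) ?_ ?_ ?_ ?_ ?_ n hn
  · have hPQ : (mkR _ hPs * mkR _ (hQs n) : RR D) =
        mkR (fun w => P1 e u w * Qn e u n w) (hPs.mul (hQs n)) := ext_ev fun x => rfl
    have hT : (if n = 1 then 1 - mkR _ hcs else mkR _ (hQs (n - 1)) * mkR _ hss : RR D) =
        mkR (Tn e u n) (hTs n) := by
      refine ext_ev fun x => ?_
      rw [ite_ev, ev_mk]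
      unfold Tn
      split_ifs
      · rw [map_sub, map_one, ev_mk]
        push_cast
        rfl
      · rw [map_mul, ev_mk, ev_mk]
    rw [hPQ, hT] at key
    have key2 := congrArg (ev ⟨z, hz⟩) key
    rw [map_add, map_smul, map_smul, map_mul, map_mul, ev_opD, ev_opD, ev_mk, ev_mk, ev_mk,
      smul_eq_mul, smul_eq_mul] at key2
    have he' : (e : ℂ) ≠ 0 := by exact_mod_cast he.ne'
    refine mul_left_cancel₀ he' ?_
    simp only at key2
    rw [key2]
    ring
  · intro f
    refine ext_ev fun x => ?_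
    have e1 : opD hD (op_dz hD (e : ℂ)) f = mkR (fun z => (e : ℂ) * dz (ext0 D f.1) z)
      (contDiffOn_const.mul (smooth_dz hD f.2)) := rfl
    have e2 : opD hD (op_dzb hD (e : ℂ)) f = mkR (fun z => (e : ℂ) * dzb (ext0 D f.1) z)
      (contDiffOn_const.mul (smooth_dzb hD f.2)) := rfl
    rw [e1, e2, ev_opD, ev_opD]
    rw [dz_const_mul, dzb_const_mul, dz_dzb_comm hD f.2 x.2]
  · refine ext_ev fun x => ?_
    rw [ev_opD, map_mul, ev_mk, ev_mk]
    rw [dz_comp_real (Real.hasDerivAt_sin _) (diffAt_of_smooth hD hus x.2)]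
    unfold P1
    ring
  · refine ext_ev fun x => ?_
    rw [ev_opD, map_neg, map_mul, ev_mk, ev_mk]
    rw [dz_comp_real (Real.hasDerivAt_cos _) (diffAt_of_smooth hD hus x.2)]
    unfold P1
    push_cast
    ring
  · refine ext_ev fun x => ?_
    rw [ev_opD, map_smul, map_mul, ev_mk, ev_mk, smul_eq_mul]
    have h1 : dzb (P1 e u) x = (e : ℂ) * dzb (dz (fun w => (u w : ℂ))) x := by
      have : P1 e u = fun w => (e : ℂ) * dz (fun w => (u w : ℂ)) w := rfl
      rw [this, dzb_const_mul]
    have h2 := dzb_dz_real hD hus x.2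
    have h3 := hu.eq x x.2
    have h5 : (((e ^ 2 * lap u x : ℝ)) : ℂ) = ((a x * Real.sin (u x) : ℝ) : ℂ) := by rw [h3]
    push_cast at h5
    rw [h1]
    push_cast
    linear_combination (1 / 4 : ℂ) * h5 + ((e : ℂ) ^ 2 / 4) * h2
  · refine ext_ev fun x => ?_
    rw [ev_opD, map_smul, ev_mk, smul_eq_mul]
  · refine ext_ev fun x => ?_
    rw [ev_mk, Qn_zero, map_zero]
  · intro n
    refine ext_ev fun x => ?_
    rw [map_add, map_smul, map_mul, map_add, map_sum, ite_ev, map_one, map_zero, ev_opD]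
    simp only [map_mul, ev_mk]
    rw [Qn_succ, smul_eq_mul]
    ring
  · intro n
    refine ext_ev fun x => ?_
    rw [map_add, map_mul, map_mul, map_mul, map_sub, map_sum, ite_ev, map_one, map_zero]
    simp only [map_mul, ev_mk]
    rw [map_ofNat]
    rfl
  · refine ext_ev fun x => ?_
    rw [ev_mk, Dn_zero, map_zero]
  · intro n
    refine ext_ev fun x => ?_
    rw [map_add, map_add, map_mul, map_sum, ite_ev, map_smul, map_zero, ev_opD]
    simp only [map_mul, ev_mk]
    rw [Dn_succ, smul_eq_mul]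
    split_ifs
    · rfl
    · ring

end Pool.Agent.Helper74.CE
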