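import Pool.Agent.Helper74.CE.LLc

/-!
# CL-E10: closure properties of `LB`, `Neg`, `ZZ` (no derivatives)

Integrability on `ball 0 r`, `r < 2`: `integrableOn_ball`, `continuousOn_norm_itd`.
* `LB.of_mul`: `norm_itd_mul_le` and Cauchy–Schwarz for integrals in the form `2 ∫ |f g| ≤ ∫ f² + ∫ g²`: eventually
  `∫ ε^k ‖D^k (g h)‖ ≤ ∑ (k choose j) ∫ (ε^j ‖D^j g‖)(ε^(k-j) ‖D^(k-j) h‖) ≤ C ε`.
* `LB.mul_BB`: `scaled_mul_le`.
* `Neg.mul_BB`: `‖g F‖ ≤ C ‖F‖` on `ball 0 2`, eventually; `squeeze_zero'`.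
* `Neg.of_ZZ_mul`: for every `θ > 0`, `‖g h‖ ≤ ‖g‖² / (2 θ) + θ ‖h‖² / 2`, so the limsup of
  `ε^{-1} ∫ ‖g h‖` is at most `θ C / 2` (or Cauchy–Schwarz, `integral_mul_le_Lp_mul_Lq_of_nonneg`).
* `ZZ.add`, `ZZ.sub`: `‖g + h‖² ≤ 2 ‖g‖² + 2 ‖h‖²`; `ZZ.mul_BB`: `‖g h‖² ≤ C² ‖h‖²`.
* `ZZ.of_Neg`: for `g ∈ LL` and `‖g‖² ≤ K ‖F‖` on `ball 0 2` eventually, with `Neg F`.
* `ZZ.of_slow`: `‖ez g‖ ≤ ε ‖D g‖ ≤ √ε η` (`Slow`), so that `∫ ‖ez g · h‖² ≤ η² ε ∫ ‖h‖²`; `LL.mul_BB` with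
  `BB.ez`.
* `Neg.congr` etc.: the sets `ball 0 r` are contained in `ball 0 3` (`setIntegral_congr_fun`).
-/

namespace Pool.Agent.Helper74.CE

open MeasureTheory Filter Topology Metric Pool.Agent.Helper53.CL
open scoped ContDiff Real ComplexConjugate

variable {ι : Type*} {𝓕 : Filter ι} {ε : ι → ℝ} {u : ι → ℂ → ℝ} {g h F G : ι → ℂ → ℂ}

/-! ### Tools -/

/-- Bounded in `L^1(dx / ε)`. -/
def L1f (𝓕 : Filter ι) (ε : ι → ℝ) (f : ι → ℂ → ℝ) : Prop :=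
  ∀ r < 2, ∃ C : ℝ, ∀ᶠ i in 𝓕, ∫ z in ball (0 : ℂ) r, f i z ≤ C * ε i

/-- Negligible in `L^1(dx / ε)`. -/
def L1o (𝓕 : Filter ι) (ε : ι → ℝ) (f : ι → ℂ → ℝ) : Prop :=
  ∀ r < 2, Tendsto (fun i => (∫ z in ball (0 : ℂ) r, f i z) / ε i) 𝓕 (𝓝 0)

theorem negc_int {f : ℂ → ℝ} (hf : ContinuousOn f (ball 0 3)) {r : ℝ} (hr : r < 2) : IntegrableOn f (ball 0 r) :=
  integrableOn_ball hf (by linarith)

theorem negc_mono {f f' : ℂ → ℝ} (hf : ContinuousOn f (ball 0 3)) {r : ℝ} (hr : r < 2)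
    (h : ∀ z ∈ ball (0 : ℂ) 2, 0 ≤ f' z ∧ f' z ≤ f z) :
    ∫ z in ball (0 : ℂ) r, f' z ≤ ∫ z in ball (0 : ℂ) r, f z := by
  refine integral_mono_of_nonneg ?_ (negc_int hf hr) ?_
  · filter_upwards [ae_restrict_mem measurableSet_ball] with z hz
    exact (h z (ball_subset_ball hr.le hz)).1
  · filter_upwards [ae_restrict_mem measurableSet_ball] with z hz
    exact (h z (ball_subset_ball hr.le hz)).2

theorem negc_nonneg {f' : ℂ → ℝ} {r : ℝ} (hr : r < 2) (h : ∀ z ∈ ball (0 : ℂ) 2, 0 ≤ f' z) :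
    0 ≤ ∫ z in ball (0 : ℂ) r, f' z :=
  setIntegral_nonneg measurableSet_ball fun z hz => h z (ball_subset_ball hr.le hz)

theorem L1f.mono {f f' : ι → ℂ → ℝ} (hf : L1f 𝓕 ε f) (hc : ∀ i, ContinuousOn (f i) (ball 0 3))
    (h : ∀ᶠ i in 𝓕, ∀ z ∈ ball (0 : ℂ) 2, 0 ≤ f' i z ∧ f' i z ≤ f i z) : L1f 𝓕 ε f' := by
  intro r hr
  obtain ⟨C, hC⟩ := hf r hr
  refine ⟨C, ?_⟩
  filter_upwards [hC, h] with i h1 h2
  exact (negc_mono (hc i) hr h2).trans h1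

theorem L1f.add {f f' : ι → ℂ → ℝ} (hf : L1f 𝓕 ε f) (hf' : L1f 𝓕 ε f') (hc : ∀ i, ContinuousOn (f i) (ball 0 3))
    (hc' : ∀ i, ContinuousOn (f' i) (ball 0 3)) : L1f 𝓕 ε (fun i z => f i z + f' i z) := by
  intro r hr
  obtain ⟨C, hC⟩ := hf r hr
  obtain ⟨C', hC'⟩ := hf' r hr
  refine ⟨C + C', ?_⟩
  filter_upwards [hC, hC'] with i h1 h2
  rw [integral_add (negc_int (hc i) hr) (negc_int (hc' i) hr), add_mul]
  exact add_le_add h1 h2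

theorem L1f.const_mul {f : ι → ℂ → ℝ} (hf : L1f 𝓕 ε f) {K : ℝ} (hK : 0 ≤ K) : L1f 𝓕 ε (fun i z => K * f i z) := by
  intro r hr
  obtain ⟨C, hC⟩ := hf r hr
  refine ⟨K * C, ?_⟩
  filter_upwards [hC] with i h1
  rw [integral_const_mul, mul_assoc]
  exact mul_le_mul_of_nonneg_left h1 hK

theorem L1f.sum {κ : Type*} (s : Finset κ) {f : κ → ι → ℂ → ℝ}
    (hf : ∀ j ∈ s, L1f 𝓕 ε (f j)) (hc : ∀ j ∈ s, ∀ i, ContinuousOn (f j i) (ball 0 3)) :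
    L1f 𝓕 ε (fun i z => ∑ j ∈ s, f j i z) := by
  classical
  induction s using Finset.induction_on with
  | empty =>
    intro r hr
    exact ⟨0, Eventually.of_forall fun i => by simp⟩
  | insert a s ha ih =>
    simp only [Finset.sum_insert ha]
    refine L1f.add (hf a (Finset.mem_insert_self _ _))
      (ih (fun j hj => hf j (Finset.mem_insert_of_mem hj)) fun j hj => hc j (Finset.mem_insert_of_mem hj))
      (hc a (Finset.mem_insert_self _ _)) fun i => ?_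
    exact continuousOn_finsetSum _ fun j hj => hc j (Finset.mem_insert_of_mem hj) i

theorem L1o.mono (h0 : ∀ i, 0 < ε i) {f f' : ι → ℂ → ℝ} (hf : L1o 𝓕 ε f) (hc : ∀ i, ContinuousOn (f i) (ball 0 3))
    (h : ∀ᶠ i in 𝓕, ∀ z ∈ ball (0 : ℂ) 2, 0 ≤ f' i z ∧ f' i z ≤ f i z) : L1o 𝓕 ε f' := by
  intro r hr
  refine squeeze_zero' ?_ ?_ (hf r hr)
  · filter_upwards [h] with i h1
    exact div_nonneg (negc_nonneg hr fun z hz => (h1 z hz).1) (h0 i).le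
  · filter_upwards [h] with i h1
    exact div_le_div_of_nonneg_right (negc_mono (hc i) hr h1) (h0 i).le

theorem L1o.add {f f' : ι → ℂ → ℝ} (hf : L1o 𝓕 ε f) (hf' : L1o 𝓕 ε f') (hc : ∀ i, ContinuousOn (f i) (ball 0 3))
    (hc' : ∀ i, ContinuousOn (f' i) (ball 0 3)) : L1o 𝓕 ε (fun i z => f i z + f' i z) := by
  intro r hr
  have h1 := (hf r hr).add (hf' r hr)
  rw [add_zero] at h1
  refine h1.congr fun i => ?_
  rw [integral_add (negc_int (hc i) hr) (negc_int (hc' i) hr), add_div]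

theorem L1o.const_mul {f : ι → ℂ → ℝ} (hf : L1o 𝓕 ε f) (K : ℝ) : L1o 𝓕 ε (fun i z => K * f i z) := by
  intro r hr
  have h1 := (hf r hr).const_mul K
  rw [mul_zero] at h1
  refine h1.congr fun i => ?_
  rw [integral_const_mul, mul_div_assoc]

theorem L1o.zero : L1o 𝓕 ε (fun _ _ => 0) := by
  intro r hr
  simp only [integral_zero, zero_div]
  exact tendsto_const_nhds

theorem negc_congr {f f' : ℂ → ℝ} {r : ℝ} (hr : r < 2) (h : ∀ z ∈ ball (0 : ℂ) 3, f z = f' z) :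
    ∫ z in ball (0 : ℂ) r, f z = ∫ z in ball (0 : ℂ) r, f' z :=
  setIntegral_congr_fun measurableSet_ball fun z hz => h z (ball_subset_ball (by linarith) hz)

theorem LL.l1f (hg : LL 𝓕 ε u g) (k : ℕ) :
    L1f 𝓕 ε (fun i z => (ε i ^ k * ‖iteratedFDeriv ℝ k (g i) z‖) ^ 2) := fun r hr => (hg.2 k r hr).1

theorem LL.l1f0 (hg : LL 𝓕 ε u g) : L1f 𝓕 ε (fun i z => ‖g i z‖ ^ 2) := by
  have := hg.l1f 0
  simpa using this

theorem negc_csq (hg : Sm g) (k : ℕ) (i : ι) :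
    ContinuousOn (fun z => (ε i ^ k * ‖iteratedFDeriv ℝ k (g i) z‖) ^ 2) (ball 0 3) := (llc_cont hg k i).pow 2

theorem negc_csq0 (hg : Sm g) (i : ι) : ContinuousOn (fun z => ‖g i z‖ ^ 2) (ball 0 3) :=
  ((hg.continuousOn i).norm).pow 2

theorem negc_nn (h0 : ∀ i, 0 < ε i) (k : ℕ) (i : ι) (z : ℂ) : 0 ≤ ε i ^ k * ‖iteratedFDeriv ℝ k (g i) z‖ :=
  mul_nonneg (pow_pos (h0 i) k).le (norm_nonneg _)

/-! ### `LB` -/

theorem LB.congr (hg : LB 𝓕 ε g) (hh : ∀ i, ∀ z ∈ ball (0 : ℂ) 3, g i z = h i z) : LB 𝓕 ε h := by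
  refine ⟨hg.1.congr hh, fun k r hr => ?_⟩
  have e1 : ∀ i, ∀ z ∈ ball (0 : ℂ) 3, ε i ^ k * ‖iteratedFDeriv ℝ k (h i) z‖ =
      ε i ^ k * ‖iteratedFDeriv ℝ k (g i) z‖ := by
    intro i z hz
    rw [itd_congr (f := h i) (g := g i)]
    filter_upwards [isOpen_ball.mem_nhds hz] with y hy
    exact (hh i y hy).symm
  obtain ⟨C, hC⟩ := hg.2 k r hr
  refine ⟨C, ?_⟩
  filter_upwards [hC] with i hi
  rw [negc_congr hr (e1 i)]
  exact hi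

theorem LB.of_mul (h0 : ∀ i, 0 < ε i) (hg : LL 𝓕 ε u g) (hh : LL 𝓕 ε u h) :
    LB 𝓕 ε (fun i z => g i z * h i z) := by
  refine ⟨hg.1.1.mul hh.1.1, fun k => ?_⟩
  have h1 : L1f 𝓕 ε (fun i z => ∑ j ∈ Finset.range (k + 1), (k.choose j : ℝ) *
      ((ε i ^ j * ‖iteratedFDeriv ℝ j (g i) z‖) ^ 2 + (ε i ^ (k - j) * ‖iteratedFDeriv ℝ (k - j) (h i) z‖) ^ 2)) :=
    L1f.sum (Finset.range (k + 1)) (f := fun j i z => (k.choose j : ℝ) *
      ((ε i ^ j * ‖iteratedFDeriv ℝ j (g i) z‖) ^ 2 + (ε i ^ (k - j) * ‖iteratedFDeriv ℝ (k - j) (h i) z‖) ^ 2))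
      (fun j _ => ((hg.l1f j).add (hh.l1f (k - j)) (negc_csq hg.1.1 j) (negc_csq hh.1.1 (k - j))).const_mul
        (Nat.cast_nonneg _))
      (fun j _ i => continuousOn_const.mul ((negc_csq hg.1.1 j i).add (negc_csq hh.1.1 (k - j) i)))
  refine L1f.mono h1 (fun i => ?_) (Eventually.of_forall fun i z hz => ⟨?_, ?_⟩)
  · exact continuousOn_finsetSum _ fun j _ =>
      continuousOn_const.mul ((negc_csq hg.1.1 j i).add (negc_csq hh.1.1 (k - j) i))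
  · exact negc_nn (g := fun i z => g i z * h i z) h0 k i z
  · have h2 := norm_itd_mul_le isOpen_ball (hg.1.1 i) (hh.1.1 i) (llc_ball hz) k
    refine (mul_le_mul_of_nonneg_left h2 (pow_pos (h0 i) k).le).trans ?_
    rw [Finset.mul_sum]
    refine Finset.sum_le_sum fun j hj => ?_
    have hj' : j ≤ k := Nat.lt_succ_iff.1 (Finset.mem_range.1 hj)
    have e1 : ε i ^ k = ε i ^ j * ε i ^ (k - j) := by rw [← pow_add, Nat.add_sub_cancel' hj']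
    have ha := negc_nn (g := g) h0 j i z
    have hb := negc_nn (g := h) h0 (k - j) i z
    have e2 : ε i ^ k * ((k.choose j : ℝ) * ‖iteratedFDeriv ℝ j (g i) z‖ * ‖iteratedFDeriv ℝ (k - j) (h i) z‖) =
        (k.choose j : ℝ) * ((ε i ^ j * ‖iteratedFDeriv ℝ j (g i) z‖) * (ε i ^ (k - j) * ‖iteratedFDeriv ℝ (k - j) (h i) z‖)) := by
      rw [e1]
      ring
    rw [e2]
    refine mul_le_mul_of_nonneg_left ?_ (Nat.cast_nonneg _)
    set X := ε i ^ j * ‖iteratedFDeriv ℝ j (g i) z‖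
    set Y := ε i ^ (k - j) * ‖iteratedFDeriv ℝ (k - j) (h i) z‖
    nlinarith [sq_nonneg (X - Y), sq_nonneg X, sq_nonneg Y]

theorem LB.mul_BB (h0 : ∀ i, 0 < ε i) (hg : BB 𝓕 ε g) (hh : LB 𝓕 ε h) : LB 𝓕 ε (fun i z => g i z * h i z) := by
  refine ⟨hg.1.mul hh.1, fun k => ?_⟩
  obtain ⟨C, hC0, hC⟩ := hg.bound_le k
  have h1 : L1f 𝓕 ε (fun i z => ∑ j ∈ Finset.range (k + 1), ε i ^ j * ‖iteratedFDeriv ℝ j (h i) z‖) :=
    L1f.sum (Finset.range (k + 1)) (f := fun j i z => ε i ^ j * ‖iteratedFDeriv ℝ j (h i) z‖)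
      (fun j _ => hh.2 j) (fun j _ => llc_cont hh.1 j)
  refine L1f.mono (h1.const_mul (K := 2 ^ k * C) (by positivity)) (fun i => ?_) ?_
  · exact continuousOn_const.mul (continuousOn_finsetSum _ fun j _ => llc_cont hh.1 j i)
  · filter_upwards [hC] with i hi z hz
    exact ⟨negc_nn (g := fun i z => g i z * h i z) h0 k i z,
      scaled_mul_le isOpen_ball (hg.1 i) (hh.1 i) (llc_ball hz) k (h0 i) (hi z hz)⟩

theorem LB.add (h0 : ∀ i, 0 < ε i) (hg : LB 𝓕 ε g) (hh : LB 𝓕 ε h) : LB 𝓕 ε (fun i z => g i z + h i z) := by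
  refine ⟨hg.1.add hh.1, fun k => ?_⟩
  refine L1f.mono (L1f.add (hg.2 k) (hh.2 k) (llc_cont hg.1 k) (llc_cont hh.1 k))
    (fun i => (llc_cont hg.1 k i).add (llc_cont hh.1 k i)) (Eventually.of_forall fun i z hz => ⟨?_, ?_⟩)
  · exact negc_nn (g := fun i z => g i z + h i z) h0 k i z
  · rw [← mul_add]
    exact mul_le_mul_of_nonneg_left (norm_itd_add_le isOpen_ball (hg.1 i) (hh.1 i) (llc_ball hz) k)
      (pow_pos (h0 i) k).le

theorem LB.sub (h0 : ∀ i, 0 < ε i) (hg : LB 𝓕 ε g) (hh : LB 𝓕 ε h) : LB 𝓕 ε (fun i z => g i z - h i z) :=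
  (LB.add h0 hg (LB.mul_BB h0 (BB.const h0 (-1)) hh)).congr fun i z _ => by ring

/-! ### `Neg` -/

theorem Neg.l1o (hF : Neg 𝓕 ε F) : L1o 𝓕 ε (fun i z => ‖F i z‖) := hF.2

theorem Neg.cn (hF : Neg 𝓕 ε F) (i : ι) : ContinuousOn (fun z => ‖F i z‖) (ball 0 3) := (hF.1 i).norm

theorem Neg.congr (hF : Neg 𝓕 ε F) (hh : ∀ i, ∀ z ∈ ball (0 : ℂ) 3, F i z = G i z) : Neg 𝓕 ε G := by
  refine ⟨fun i => (hF.1 i).congr fun z hz => (hh i z hz).symm, fun r hr => ?_⟩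
  refine (hF.2 r hr).congr fun i => ?_
  rw [negc_congr hr fun z hz => by rw [hh i z hz]]

theorem Neg.zero : Neg 𝓕 ε (fun _ _ => 0) := by
  refine ⟨fun i => continuousOn_const, fun r hr => ?_⟩
  simp only [norm_zero, integral_zero, zero_div]
  exact tendsto_const_nhds

theorem Neg.add (h0 : ∀ i, 0 < ε i) (hF : Neg 𝓕 ε F) (hG : Neg 𝓕 ε G) : Neg 𝓕 ε (fun i z => F i z + G i z) :=
  ⟨fun i => (hF.1 i).add (hG.1 i), L1o.mono h0 (L1o.add hF.l1o hG.l1o hF.cn hG.cn) (fun i => (hF.cn i).add (hG.cn i))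
    (Eventually.of_forall fun i z _ => ⟨norm_nonneg _, norm_add_le _ _⟩)⟩

theorem Neg.mul_BB (h0 : ∀ i, 0 < ε i) (hg : BB 𝓕 ε g) (hF : Neg 𝓕 ε F) :
    Neg 𝓕 ε (fun i z => g i z * F i z) := by
  obtain ⟨C, hC0, hC⟩ := hg.bound
  refine ⟨fun i => (hg.1.continuousOn i).mul (hF.1 i), L1o.mono h0 (hF.l1o.const_mul C)
    (fun i => continuousOn_const.mul (hF.cn i)) ?_⟩
  filter_upwards [hC] with i hi z hz
  refine ⟨norm_nonneg _, ?_⟩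
  rw [norm_mul]
  exact mul_le_mul_of_nonneg_right (hi z hz) (norm_nonneg _)

theorem Neg.const_mul (h0 : ∀ i, 0 < ε i) (hF : Neg 𝓕 ε F) (c : ℂ) : Neg 𝓕 ε (fun i z => c * F i z) :=
  Neg.mul_BB h0 (BB.const h0 c) hF

theorem Neg.sub (h0 : ∀ i, 0 < ε i) (hF : Neg 𝓕 ε F) (hG : Neg 𝓕 ε G) : Neg 𝓕 ε (fun i z => F i z - G i z) :=
  (Neg.add h0 hF (Neg.const_mul h0 hG (-1))).congr fun i z _ => by ring

theorem Neg.conj (hF : Neg 𝓕 ε F) : Neg 𝓕 ε (fun i z => conj (F i z)) := by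
  refine ⟨fun i => Complex.continuous_conj.comp_continuousOn (hF.1 i), fun r hr => ?_⟩
  simp only [RCLike.norm_conj]
  exact hF.2 r hr

/-- `ZZ · LL ⊆ Neg`. -/
theorem Neg.of_ZZ_mul (h0 : ∀ i, 0 < ε i) (hg : ZZ 𝓕 ε u g) (hh : LL 𝓕 ε u h) :
    Neg 𝓕 ε (fun i z => g i z * h i z) := by
  refine ⟨fun i => (hg.1.1.1.continuousOn i).mul (hh.1.1.continuousOn i), fun r hr => ?_⟩
  obtain ⟨C, hC⟩ := hh.l1f0 r hr
  rw [Metric.tendsto_nhds]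
  intro η hη
  set C' : ℝ := |C| + 1 with hC'
  have hC'0 : 0 < C' := by positivity
  set θ : ℝ := η / (2 * C') with hθ
  have hθ0 : 0 < θ := by positivity
  have h1 : ∀ᶠ i in 𝓕, (∫ z in ball (0 : ℂ) r, ‖g i z‖ ^ 2) / ε i < θ * η := by
    have := (hg.2 r hr).eventually (gt_mem_nhds (show (0 : ℝ) < θ * η by positivity))
    exact this
  filter_upwards [h1, hC] with i h2 h3
  rw [dist_zero_right, Real.norm_eq_abs, abs_of_nonneg
    (div_nonneg (negc_nonneg hr fun z _ => norm_nonneg _) (h0 i).le), div_lt_iff₀ (h0 i)]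
  rw [div_lt_iff₀ (h0 i)] at h2
  have h4 : ∫ z in ball (0 : ℂ) r, ‖g i z * h i z‖ ≤
      ∫ z in ball (0 : ℂ) r, ((2 * θ)⁻¹ * ‖g i z‖ ^ 2 + θ / 2 * ‖h i z‖ ^ 2) := by
    refine negc_mono (f := fun z => (2 * θ)⁻¹ * ‖g i z‖ ^ 2 + θ / 2 * ‖h i z‖ ^ 2)
      ((continuousOn_const.mul (negc_csq0 hg.1.1.1 i)).add (continuousOn_const.mul (negc_csq0 hh.1.1 i))) hr
      fun z _ => ⟨norm_nonneg _, ?_⟩
    rw [norm_mul]
    have h5 : (2 * θ)⁻¹ * ‖g i z‖ ^ 2 + θ / 2 * ‖h i z‖ ^ 2 - ‖g i z‖ * ‖h i z‖ =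
        (2 * θ)⁻¹ * (‖g i z‖ - θ * ‖h i z‖) ^ 2 := by
      field_simp
      ring
    have h6 : 0 ≤ (2 * θ)⁻¹ * (‖g i z‖ - θ * ‖h i z‖) ^ 2 := by positivity
    linarith
  rw [integral_add ((negc_int (negc_csq0 hg.1.1.1 i) hr).const_mul _) ((negc_int (negc_csq0 hh.1.1 i) hr).const_mul _),
    integral_const_mul, integral_const_mul] at h4
  have h7 : (2 * θ)⁻¹ * ∫ z in ball (0 : ℂ) r, ‖g i z‖ ^ 2 < (2 * θ)⁻¹ * (θ * η * ε i) :=
    mul_lt_mul_of_pos_left h2 (by positivity)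
  have h8 : (2 * θ)⁻¹ * (θ * η * ε i) = η / 2 * ε i := by field_simp
  have h9 : θ / 2 * ∫ z in ball (0 : ℂ) r, ‖h i z‖ ^ 2 ≤ θ / 2 * (C' * ε i) := by
    refine mul_le_mul_of_nonneg_left (h3.trans ?_) (by positivity)
    exact mul_le_mul_of_nonneg_right (by rw [hC']; linarith [le_abs_self C]) (h0 i).le
  have h10 : θ / 2 * (C' * ε i) = η / 4 * ε i := by
    rw [hθ]
    field_simp
    ring
  have h11 := h0 i
  nlinarith

/-! ### `ZZ` -/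

theorem ZZ.l1o (hg : ZZ 𝓕 ε u g) : L1o 𝓕 ε (fun i z => ‖g i z‖ ^ 2) := hg.2

theorem ZZ.congr (hg : ZZ 𝓕 ε u g) (hh : ∀ i, ∀ z ∈ ball (0 : ℂ) 3, g i z = h i z) : ZZ 𝓕 ε u h := by
  refine ⟨hg.1.congr hh, fun r hr => ?_⟩
  refine (hg.2 r hr).congr fun i => ?_
  rw [negc_congr hr fun z hz => by rw [hh i z hz]]

theorem ZZ.zero (h0 : ∀ i, 0 < ε i) : ZZ 𝓕 ε u (fun _ _ => 0) := by
  refine ⟨LL.zero h0, fun r hr => ?_⟩
  simp only [norm_zero, ne_eq, OfNat.ofNat_ne_zero, not_false_eq_true, zero_pow, integral_zero, zero_div]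
  exact tendsto_const_nhds

theorem ZZ.add (h0 : ∀ i, 0 < ε i) (hu : ∀ i, ContinuousOn (u i) (ball 0 3)) (hg : ZZ 𝓕 ε u g)
    (hh : ZZ 𝓕 ε u h) : ZZ 𝓕 ε u (fun i z => g i z + h i z) := by
  refine ⟨LL.add h0 hu hg.1 hh.1, L1o.mono h0 ((L1o.add hg.l1o hh.l1o (negc_csq0 hg.1.1.1) (negc_csq0 hh.1.1.1)).const_mul 2)
    (fun i => continuousOn_const.mul ((negc_csq0 hg.1.1.1 i).add (negc_csq0 hh.1.1.1 i)))
    (Eventually.of_forall fun i z _ => ⟨by positivity, ?_⟩)⟩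
  have h1 := norm_add_le (g i z) (h i z)
  have h2 : ‖g i z + h i z‖ ^ 2 ≤ (‖g i z‖ + ‖h i z‖) ^ 2 := pow_le_pow_left₀ (norm_nonneg _) h1 2
  nlinarith [sq_nonneg (‖g i z‖ - ‖h i z‖)]

theorem ZZ.mul_BB (h0 : ∀ i, 0 < ε i) (hu : ∀ i, ContinuousOn (u i) (ball 0 3)) (hg : BB 𝓕 ε g)
    (hh : ZZ 𝓕 ε u h) : ZZ 𝓕 ε u (fun i z => g i z * h i z) := by
  obtain ⟨C, hC0, hC⟩ := hg.bound
  refine ⟨LL.mul_BB h0 hu hg hh.1, L1o.mono h0 (hh.l1o.const_mul (C ^ 2))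
    (fun i => continuousOn_const.mul (negc_csq0 hh.1.1.1 i)) ?_⟩
  filter_upwards [hC] with i hi z hz
  refine ⟨by positivity, ?_⟩
  rw [norm_mul, mul_pow]
  exact mul_le_mul_of_nonneg_right (pow_le_pow_left₀ (norm_nonneg _) (hi z hz) 2) (by positivity)

theorem ZZ.const_mul (h0 : ∀ i, 0 < ε i) (hu : ∀ i, ContinuousOn (u i) (ball 0 3)) (hg : ZZ 𝓕 ε u g) (c : ℂ) :
    ZZ 𝓕 ε u (fun i z => c * g i z) := ZZ.mul_BB h0 hu (BB.const h0 c) hg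

theorem ZZ.sub (h0 : ∀ i, 0 < ε i) (hu : ∀ i, ContinuousOn (u i) (ball 0 3)) (hg : ZZ 𝓕 ε u g)
    (hh : ZZ 𝓕 ε u h) : ZZ 𝓕 ε u (fun i z => g i z - h i z) :=
  (ZZ.add h0 hu hg (ZZ.const_mul h0 hu hh (-1))).congr fun i z _ => by ring

theorem ZZ.sum (h0 : ∀ i, 0 < ε i) (hu : ∀ i, ContinuousOn (u i) (ball 0 3)) {κ : Type*} (s : Finset κ)
    {H : κ → ι → ℂ → ℂ} (hH : ∀ p ∈ s, ZZ 𝓕 ε u (H p)) : ZZ 𝓕 ε u (fun i z => ∑ p ∈ s, H p i z) := by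
  classical
  induction s using Finset.induction_on with
  | empty => simpa using ZZ.zero h0
  | insert a s ha ih =>
    simp only [Finset.sum_insert ha]
    exact ZZ.add h0 hu (hH a (Finset.mem_insert_self _ _)) (ih fun j hj => hH j (Finset.mem_insert_of_mem hj))

theorem ZZ.of_Neg (h0 : ∀ i, 0 < ε i) (hg : LL 𝓕 ε u g) (hF : Neg 𝓕 ε F) {K : ℝ}
    (hK : ∀ᶠ i in 𝓕, ∀ z ∈ ball (0 : ℂ) 2, ‖g i z‖ ^ 2 ≤ K * ‖F i z‖) : ZZ 𝓕 ε u g := by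
  refine ⟨hg, L1o.mono h0 (hF.l1o.const_mul K) (fun i => continuousOn_const.mul (hF.cn i)) ?_⟩
  filter_upwards [hK] with i hi z hz
  exact ⟨by positivity, hi z hz⟩

theorem ZZ.of_slow (h0 : ∀ i, 0 < ε i) (hu : ∀ i, ContinuousOn (u i) (ball 0 3)) (hg : Slow 𝓕 ε g)
    (hh : LL 𝓕 ε u h) : ZZ 𝓕 ε u (fun i z => ez ε g i z * h i z) := by
  have hb := BB.ez h0 hg.1
  refine ⟨LL.mul_BB h0 hu hb hh, fun r hr => ?_⟩
  obtain ⟨C1, hC10, hC1⟩ := hb.bound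
  obtain ⟨C2, hC20, hC2⟩ := hh.1.bound
  obtain ⟨C3, hC3⟩ := hh.l1f0 r hr
  set V : ℝ := ∫ z in ball (0 : ℂ) r, (1 : ℝ) with hV
  have hV0 : 0 ≤ V := negc_nonneg hr fun z _ => zero_le_one
  set M : ℝ := |C3| + (C1 * C2) ^ 2 * V + 1 with hM
  have hM0 : 0 < M := by positivity
  rw [Metric.tendsto_nhds]
  intro η hη
  set θ : ℝ := η / (2 * M) with hθ
  have hθ0 : 0 < θ := by positivity
  filter_upwards [hg.2 θ hθ0, hC1, hC2, hC3] with i h1 h2 h3 h4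
  rw [dist_zero_right, Real.norm_eq_abs, abs_of_nonneg
    (div_nonneg (negc_nonneg hr fun z _ => by positivity) (h0 i).le), div_lt_iff₀ (h0 i)]
  have hε := h0 i
  have hc : ContinuousOn (fun z => ‖h i z‖ ^ 2) (ball 0 3) := negc_csq0 hh.1.1 i
  -- the first bound
  have b1 : ∫ z in ball (0 : ℂ) r, ‖ez ε g i z * h i z‖ ^ 2 ≤ ε i * θ ^ 2 * (|C3| * ε i) := by
    have e1 : ∫ z in ball (0 : ℂ) r, ‖ez ε g i z * h i z‖ ^ 2 ≤ ∫ z in ball (0 : ℂ) r, (ε i * θ ^ 2) * ‖h i z‖ ^ 2 := by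
      refine negc_mono (continuousOn_const.mul hc) hr fun z hz => ⟨by positivity, ?_⟩
      rw [norm_mul, mul_pow]
      refine mul_le_mul_of_nonneg_right ?_ (by positivity)
      have e2 : ‖ez ε g i z‖ ≤ ε i * ‖fderiv ℝ (g i) z‖ := norm_ez_le h0 i z
      have e3 : (ε i * ‖fderiv ℝ (g i) z‖) ^ 2 = ε i * (√(ε i) * ‖fderiv ℝ (g i) z‖) ^ 2 := by
        rw [mul_pow, mul_pow, Real.sq_sqrt hε.le]
        ring
      calc ‖ez ε g i z‖ ^ 2 ≤ (ε i * ‖fderiv ℝ (g i) z‖) ^ 2 := pow_le_pow_left₀ (norm_nonneg _) e2 2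
        _ = ε i * (√(ε i) * ‖fderiv ℝ (g i) z‖) ^ 2 := e3
        _ ≤ ε i * θ ^ 2 := by
            refine mul_le_mul_of_nonneg_left (pow_le_pow_left₀ (by positivity) (h1 z hz) 2) hε.le
    refine e1.trans ?_
    rw [integral_const_mul]
    refine mul_le_mul_of_nonneg_left (h4.trans ?_) (by positivity)
    exact mul_le_mul_of_nonneg_right (le_abs_self _) hε.le
  have b2 : ∫ z in ball (0 : ℂ) r, ‖ez ε g i z * h i z‖ ^ 2 ≤ (C1 * C2) ^ 2 * V := by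
    have e1 : ∫ z in ball (0 : ℂ) r, ‖ez ε g i z * h i z‖ ^ 2 ≤ ∫ z in ball (0 : ℂ) r, (C1 * C2) ^ 2 * (1 : ℝ) := by
      refine negc_mono continuousOn_const hr fun z hz => ⟨by positivity, ?_⟩
      rw [norm_mul, mul_one]
      exact pow_le_pow_left₀ (by positivity) (mul_le_mul (h2 z hz) (h3 z hz) (norm_nonneg _) hC10.le) 2
    rwa [integral_const_mul] at e1
  have hM1 : |C3| ≤ M := by
    have : 0 ≤ (C1 * C2) ^ 2 * V := by positivity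
    rw [hM]
    linarith
  have hM2 : (C1 * C2) ^ 2 * V ≤ M := by
    rw [hM]
    linarith [abs_nonneg C3]
  have hθM : θ * M = η / 2 := by
    rw [hθ]
    field_simp
  rcases le_or_gt (θ * ε i) 1 with h5 | h5
  · refine b1.trans_lt ?_
    have e1 : ε i * θ ^ 2 * (|C3| * ε i) = (θ * ε i) * (θ * |C3|) * ε i := by ring
    rw [e1]
    refine mul_lt_mul_of_pos_right ?_ hε
    have e2 : θ * |C3| ≤ η / 2 := by
      rw [← hθM]
      exact mul_le_mul_of_nonneg_left hM1 hθ0.le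
    have e3 : 0 ≤ θ * |C3| := by positivity
    calc (θ * ε i) * (θ * |C3|) ≤ 1 * (θ * |C3|) := mul_le_mul_of_nonneg_right h5 e3
      _ < η := by linarith
  · refine b2.trans_lt ?_
    have e1 : M < η * ε i := by
      have e2 : M * 1 < M * (θ * ε i) := mul_lt_mul_of_pos_left h5 hM0
      have e3 : M * (θ * ε i) = η / 2 * ε i := by
        rw [← hθM]
        ring
      rw [e3, mul_one] at e2
      have : 0 < η * ε i := by positivity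
      linarith
    linarith

end Pool.Agent.Helper74.CE
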