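import Pool.Agent.Helper74.CE.NegC
import Pool.Agent.Helper74.CE.Interp

/-!
# CL-E12: derivatives of negligible families are negligible

* `Neg.ex`: let `r < 2`, `r' = (r + 2) / 2`, and `0 < θ`. Eventually `r + θ ε ≤ r'`. `interp` with `τ = θ ε`, `v = 1`,
  divided by `θ ε²`, gives
  `ε^{-1} ∫_{ball 0 r} ‖ε dx F‖ ≤ (2 / θ) ε^{-1} ∫_{ball 0 r'} ‖F‖ + θ ε^{-1} ∫_{ball 0 r'} ε² ‖D² F‖`,
  and the last term is at most `θ C` by `LB F` (`k = 2`). So the limsup is at most `θ C` for all `θ > 0`. `Neg.ey`: `v = I`;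
  `Neg.ez`, `Neg.ezb`: linear combinations (`ez_eq`, `ezb_eq`). Continuity: `smooth_dx`.
* `ZZ.ex`: `LL.ex` for the `LL` part. Put `F = g · conj (ex g)`: by `Neg.of_ZZ_mul` and `LL.conj`, `LL.ex`, `Neg F`; by
  `LB.of_mul`, `LB F`. So `Neg (ex F)`. On `ball 0 3`, by `ex_mul` and since `ex (conj h) = conj (ex h)`,
  `‖ex g‖² = ex g · conj (ex g) = ex F - g · conj (ex (ex g))`, and `Neg (g · conj (ex (ex g)))` by `Neg.of_ZZ_mul`. So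
  `Neg (‖ex g‖²)`, which is the statement. `ZZ.ey` is the same, and `ZZ.ez`, `ZZ.ezb` are linear combinations.
-/

namespace Pool.Agent.Helper74.CE

open MeasureTheory Filter Topology Metric Pool.Agent.Helper53.CL
open scoped ContDiff Real ComplexConjugate

variable {ι : Type*} {𝓕 : Filter ι} {ε : ι → ℝ} {u : ι → ℂ → ℝ} {g F : ι → ℂ → ℂ}

private theorem neg_dir (h0 : ∀ i, 0 < ε i) (h1 : Tendsto ε 𝓕 (𝓝 0)) (hF : Neg 𝓕 ε F) (hB : LB 𝓕 ε F)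
    {v : ℂ} (hv : ‖v‖ = 1) : Neg 𝓕 ε (fun i z => (ε i : ℂ) * fderiv ℝ (F i) z v) := by
  refine ⟨fun i => ?_, fun r hr => ?_⟩
  · exact continuousOn_const.mul
      (((hB.1 i).continuousOn_fderiv_of_isOpen isOpen_ball (by simp)).clm_apply continuousOn_const)
  set r' : ℝ := (r + 2) / 2 with hr'
  have hrr : r < r' := by rw [hr']; linarith
  have hr2 : r' < 2 := by rw [hr']; linarith
  obtain ⟨C, hC⟩ := hB.2 2 r' hr2
  have hN := hF.2 r' hr2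
  have heq : ∀ i, (∫ z in ball (0 : ℂ) r, ‖(ε i : ℂ) * fderiv ℝ (F i) z v‖) / ε i =
      ∫ z in ball (0 : ℂ) r, ‖fderiv ℝ (F i) z v‖ := by
    intro i
    have h2 : ∀ z, ‖(ε i : ℂ) * fderiv ℝ (F i) z v‖ = ε i * ‖fderiv ℝ (F i) z v‖ := by
      intro z
      rw [norm_mul, Complex.norm_real, Real.norm_of_nonneg (h0 i).le]
    simp_rw [h2]
    rw [integral_const_mul, mul_div_cancel_left₀ _ (h0 i).ne']
  simp_rw [heq]
  rw [Metric.tendsto_nhds]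
  intro η hη
  set θ : ℝ := η / (4 * (|C| + 1)) with hθ
  have hθ0 : 0 < θ := by positivity
  have hθC : θ * C ≤ η / 4 := by
    have h2 : θ * C ≤ θ * (|C| + 1) := mul_le_mul_of_nonneg_left (by linarith [le_abs_self C]) hθ0.le
    refine h2.trans (le_of_eq ?_)
    rw [hθ]; field_simp
  have e1 : ∀ᶠ i in 𝓕, θ * ε i ≤ r' - r := by
    have h2 : Tendsto (fun i => θ * ε i) 𝓕 (𝓝 (θ * 0)) := h1.const_mul θ
    rw [mul_zero] at h2
    exact (h2.eventually (gt_mem_nhds (by linarith : (0 : ℝ) < r' - r))).mono fun i hi => hi.le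
  have e2 : ∀ᶠ i in 𝓕, (∫ z in ball (0 : ℂ) r', ‖F i z‖) / ε i ≤ θ * η / 8 :=
    (hN.eventually (gt_mem_nhds (by positivity : (0 : ℝ) < θ * η / 8))).mono fun i hi => hi.le
  filter_upwards [e1, e2, hC] with i hi1 hi2 hi3
  have hεi := h0 i
  rw [Real.dist_eq, sub_zero, abs_of_nonneg (integral_nonneg fun z => norm_nonneg _)]
  have hτ : 0 < θ * ε i := by positivity
  have hint := interp (hB.1 i) (r := r) hτ (by linarith) hv
  have hsub : ball (0 : ℂ) (r + θ * ε i) ⊆ ball 0 r' := ball_subset_ball (by linarith)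
  have m1 : ∫ z in ball (0 : ℂ) (r + θ * ε i), ‖F i z‖ ≤ ∫ z in ball (0 : ℂ) r', ‖F i z‖ :=
    setIntegral_mono_set (integrableOn_ball (hB.1 i).continuousOn.norm (by linarith))
      (Eventually.of_forall fun z => norm_nonneg _) hsub.eventuallyLE
  have m2 : ∫ z in ball (0 : ℂ) (r + θ * ε i), ‖iteratedFDeriv ℝ 2 (F i) z‖ ≤
      ∫ z in ball (0 : ℂ) r', ‖iteratedFDeriv ℝ 2 (F i) z‖ :=
    setIntegral_mono_set (integrableOn_ball (continuousOn_norm_itd (hB.1 i) 2) (by linarith))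
      (Eventually.of_forall fun z => norm_nonneg _) hsub.eventuallyLE
  rw [integral_const_mul] at hi3
  set I0 := ∫ z in ball (0 : ℂ) r, ‖fderiv ℝ (F i) z v‖ with hI0
  set I1 := ∫ z in ball (0 : ℂ) r', ‖F i z‖ with hI1
  set I2 := ∫ z in ball (0 : ℂ) r', ‖iteratedFDeriv ℝ 2 (F i) z‖ with hI2
  have h3 : θ * ε i * I0 ≤ 2 * I1 + (θ * ε i) ^ 2 * I2 := by
    have h4 := mul_le_mul_of_nonneg_left m2 (by positivity : 0 ≤ (θ * ε i) ^ 2)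
    linarith
  have h4 : I1 ≤ θ * η / 8 * ε i := by rwa [div_le_iff₀ hεi] at hi2
  have h5 : ε i * I2 ≤ C := by
    have h6 : ε i * (ε i * I2) ≤ ε i * C := by linarith
    exact le_of_mul_le_mul_left h6 hεi
  have h6 : (θ * ε i) ^ 2 * I2 ≤ θ * ε i * (η / 4) := by
    have h7 : (θ * ε i) ^ 2 * I2 = θ * ε i * (θ * (ε i * I2)) := by ring
    rw [h7]
    refine mul_le_mul_of_nonneg_left ?_ hτ.le
    exact (mul_le_mul_of_nonneg_left h5 hθ0.le).trans hθC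
  have h7 : θ * ε i * I0 ≤ θ * ε i * (η / 2) := by
    have : 2 * I1 ≤ θ * ε i * (η / 4) := by linarith
    linarith
  have h8 : I0 ≤ η / 2 := le_of_mul_le_mul_left h7 hτ
  linarith

theorem Neg.ex (h0 : ∀ i, 0 < ε i) (h1 : Tendsto ε 𝓕 (𝓝 0)) (hF : Neg 𝓕 ε F) (hB : LB 𝓕 ε F) :
    Neg 𝓕 ε (ex ε F) := neg_dir h0 h1 hF hB (v := 1) (by simp)

theorem Neg.ey (h0 : ∀ i, 0 < ε i) (h1 : Tendsto ε 𝓕 (𝓝 0)) (hF : Neg 𝓕 ε F) (hB : LB 𝓕 ε F) :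
    Neg 𝓕 ε (ey ε F) := neg_dir h0 h1 hF hB (v := Complex.I) (by simp)

theorem Neg.ez (h0 : ∀ i, 0 < ε i) (h1 : Tendsto ε 𝓕 (𝓝 0)) (hF : Neg 𝓕 ε F) (hB : LB 𝓕 ε F) :
    Neg 𝓕 ε (ez ε F) := by
  have hx := Neg.ex h0 h1 hF hB
  have hy := Neg.ey h0 h1 hF hB
  refine Neg.congr (Neg.const_mul h0 (Neg.sub h0 hx (Neg.const_mul h0 hy Complex.I)) (1 / 2))
    fun i z _ => ?_
  rw [ez_eq]
  ring

private theorem zz_dir (h0 : ∀ i, 0 < ε i) {dd : (ι → ℂ → ℂ) → ι → ℂ → ℂ}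
    (hLL : ∀ g, LL 𝓕 ε u g → LL 𝓕 ε u (dd g))
    (hneg : ∀ F, Neg 𝓕 ε F → LB 𝓕 ε F → Neg 𝓕 ε (dd F))
    (hmul : ∀ g h : ι → ℂ → ℂ, Sm g → Sm h → ∀ i, ∀ z ∈ ball (0 : ℂ) 3,
      dd (fun i z => g i z * h i z) i z = dd g i z * h i z + g i z * dd h i z)
    (hg : ZZ 𝓕 ε u g) : ZZ 𝓕 ε u (dd g) := by
  refine ⟨hLL g hg.1, fun r hr => ?_⟩
  have hc : LL 𝓕 ε u (fun i z => conj (dd g i z)) := LL.conj (hLL g hg.1)
  have hF : Neg 𝓕 ε (fun i z => g i z * conj (dd g i z)) := Neg.of_ZZ_mul h0 hg hc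
  have hFB : LB 𝓕 ε (fun i z => g i z * conj (dd g i z)) := LB.of_mul h0 hg.1 hc
  have hN1 := hneg _ hF hFB
  have hN2 : Neg 𝓕 ε (fun i z => g i z * dd (fun i z => conj (dd g i z)) i z) :=
    Neg.of_ZZ_mul h0 hg (hLL _ hc)
  have hN3 : Neg 𝓕 ε (fun i z => dd g i z * conj (dd g i z)) := by
    refine Neg.congr (Neg.sub h0 hN1 hN2) fun i z hz => ?_
    rw [hmul g _ hg.1.1.1 hc.1.1 i z hz]
    ring
  have h2 := hN3.2 r hr
  have h3 : ∀ i z, ‖dd g i z * conj (dd g i z)‖ = ‖dd g i z‖ ^ 2 := by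
    intro i z
    rw [norm_mul, RCLike.norm_conj, sq]
  simp_rw [h3] at h2
  exact h2

theorem ZZ.ex (h0 : ∀ i, 0 < ε i) (h1 : Tendsto ε 𝓕 (𝓝 0)) (hu : ∀ i, ContinuousOn (u i) (ball 0 3))
    (hg : ZZ 𝓕 ε u g) : ZZ 𝓕 ε u (ex ε g) :=
  zz_dir h0 (dd := Pool.Agent.Helper74.CE.ex ε) (fun _ h => LL.ex h0 hu h)
    (fun _ h h' => Neg.ex h0 h1 h h') (fun _ _ h h' i _ hz => ex_mul h h' i hz) hg

theorem ZZ.ey (h0 : ∀ i, 0 < ε i) (h1 : Tendsto ε 𝓕 (𝓝 0)) (hu : ∀ i, ContinuousOn (u i) (ball 0 3))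
    (hg : ZZ 𝓕 ε u g) : ZZ 𝓕 ε u (ey ε g) :=
  zz_dir h0 (dd := Pool.Agent.Helper74.CE.ey ε) (fun _ h => LL.ey h0 hu h)
    (fun _ h h' => Neg.ey h0 h1 h h') (fun _ _ h h' i _ hz => ey_mul h h' i hz) hg

theorem ZZ.ez (h0 : ∀ i, 0 < ε i) (h1 : Tendsto ε 𝓕 (𝓝 0)) (hu : ∀ i, ContinuousOn (u i) (ball 0 3))
    (hg : ZZ 𝓕 ε u g) : ZZ 𝓕 ε u (ez ε g) :=
  zz_dir h0 (dd := Pool.Agent.Helper74.CE.ez ε) (fun _ h => LL.ez h0 hu h)
    (fun _ h h' => Neg.ez h0 h1 h h') (fun _ _ h h' i _ hz => ez_mul h h' i hz) hg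

end Pool.Agent.Helper74.CE
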