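import Pool.Agent.Helper74.CE.Rrel
import Pool.Agent.Helper74.CE.Rec

/-!
# CL-E23: the leading term of `Q_n`: `Q_n ≡ R_n c^{n-1}` modulo `ZZ`, for `n ≥ 1`

Strong induction on `n`. `n = 1`: `Q_1 = P / 2 = R_1` (`Qn_one`). Let `n ≥ 1` and assume the result up to `n`. By `Qn_succ`,
`Q_{n+1} = ez Q_n + (P/2) ∑_{i+j=n} Q_i Q_j`, and `Q_0 = 0`.
* `ez Q_n ≡ ez (R_n c^{n-1})` (`ZZ.ez`, `ez_sub`), and `ez (R_n c^{n-1}) = ez R_n · c^{n-1} - (n-1) c^{n-2} R_n (S/2) P
  ≡ R_{n+1} c^n - (n-1) c^{n-2} S² R_{n+1}` (`ez_mul`, `ez_pow`, `ez_c`, `ez_Rn`, `Rn_SP`).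
* for `i, j ≥ 1`, `i + j = n` : `(P/2) Q_i Q_j ≡ (P/2) R_i R_j c^{n-2} ≡ S² R_{n+1} c^{n-2}`: first replace `Q_i` by `R_i c^{i-1}`
  (`ZZ · BB`: `P Q_j ∈ BB`), then `Q_j`, then `P_Rn_Rn`. There are `n - 1` such pairs; for `i = 0` or `j = 0` the term is `0`.
The sum is `≡ R_{n+1} c^n` (for `n = 1` the terms with `n - 1` vanish). `LL`: `Q_n = (Q_n - R_n c^{n-1}) + R_n c^{n-1}`.
-/

namespace Pool.Agent.Helper74.CE

open MeasureTheory Filter Topology Metric Pool.Agent.Helper53.CL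
open scoped ContDiff Real

variable {ι : Type*} {𝓕 : Filter ι} {ε : ι → ℝ} {a u : ι → ℂ → ℝ} {mm : ι → ℂ → ℂ}

theorem Qf_zero' (i : ι) (z : ℂ) : Qf ε u 0 i z = 0 := by
  simp only [Qf, Qn_zero]

theorem Qf_succ' (n : ℕ) (i : ι) (z : ℂ) : Qf ε u (n + 1) i z = ez ε (Qf ε u n) i z +
    Pf ε u i z / 2 * ((if n = 0 then 1 else 0) +
      ∑ p ∈ Finset.HasAntidiagonal.antidiagonal n, Qf ε u p.1 i z * Qf ε u p.2 i z) :=
  Qn_succ n z

theorem sum_interior (m : ℕ) (X : ℂ) :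
    ∑ p ∈ Finset.HasAntidiagonal.antidiagonal (m + 1), (if p.1 = 0 ∨ p.2 = 0 then 0 else X) = m * X := by
  rw [Finset.Nat.sum_antidiagonal_eq_sum_range_succ_mk, Finset.sum_range_succ, Finset.sum_range_succ']
  simp only [Nat.sub_self, or_true, if_true, add_zero, true_or]
  rw [Finset.sum_congr rfl (g := fun _ => X)]
  · simp
  · intro k hk
    rw [Finset.mem_range] at hk
    rw [if_neg]
    omega

/-- The induction. -/
theorem Qf_both (H : Ctm 𝓕 ε a u mm) (n : ℕ) : LL 𝓕 ε u (Qf ε u n) ∧ (1 ≤ n →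
    ZZ 𝓕 ε u (fun i z => Qf ε u n i z - Rn ε a u mm n i z * cf u i z ^ (n - 1))) := by
  have h0 := H.eps_pos
  have h1 := H.eps_lim
  have hu := H.toCtx.hu
  have hc := H.toCtx.bb_c
  have hP2 : BB 𝓕 ε (fun i z => Pf ε u i z / 2) := (ll_Phalf H).1
  induction n using Nat.strong_induction_on with
  | _ n ih =>
    rcases n with _ | n
    · refine ⟨LL.congr (LL.zero h0) (fun i z _ => (Qf_zero' i z).symm), fun h => absurd h (by norm_num)⟩
    · suffices hZ : ZZ 𝓕 ε u (fun i z => Qf ε u (n + 1) i z -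
          Rn ε a u mm (n + 1) i z * cf u i z ^ (n + 1 - 1)) by
        refine ⟨?_, fun _ => hZ⟩
        refine LL.congr (LL.add h0 hu hZ.1 (LL.mul_BB h0 hu (BB.pow h0 hc n) (ll_Rn H (n + 1)))) ?_
        intro i z _
        simp only [Nat.add_sub_cancel]
        ring
      rcases n with _ | m
      · refine ZZ.congr (ZZ.zero h0) (fun i z hz => ?_)
        have e1 : Qf ε u (0 + 1) i z = Pf ε u i z / 2 := Qn_one z
        rw [e1, show (0 + 1 : ℕ) = 2 * 0 + 1 by norm_num, Rn_odd]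
        simp
      · -- `n = m + 1`
        obtain ⟨hQL, hQZ⟩ := ih (m + 1) (by omega)
        have hQZ := hQZ (by omega)
        simp only [Nat.add_sub_cancel] at hQZ
        have sQ := hQL.1.1
        have sR := (ll_Rn H (m + 1)).1.1
        have sc := hc.1
        have bcm := BB.pow h0 hc m
        have bc1 := BB.pow h0 hc (m - 1)
        -- first part
        have A1 := ZZ.ez h0 h1 hu hQZ
        have A2 : ZZ 𝓕 ε u (fun i z => cf u i z ^ m *
            (ez ε (Rn ε a u mm (m + 1)) i z - cf u i z * Rn ε a u mm (m + 1 + 1) i z)) :=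
          ZZ.mul_BB h0 hu bcm (ez_Rn H (m + 1))
        have A3 : ZZ 𝓕 ε u (fun i z => ((m : ℂ) * cf u i z ^ (m - 1)) *
            (Rn ε a u mm (m + 1) i z * (Sf u i z / 2 * Pf ε u i z) -
              Sf u i z ^ 2 * Rn ε a u mm (m + 1 + 1) i z)) :=
          ZZ.mul_BB h0 hu (BB.const_mul h0 bc1 m) (Rn_SP H (m + 1))
        -- second part
        have A4 : ∀ p ∈ Finset.HasAntidiagonal.antidiagonal (m + 1), ZZ 𝓕 ε u (fun i z =>
            Pf ε u i z / 2 * (Qf ε u p.1 i z * Qf ε u p.2 i z) -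
            (if p.1 = 0 ∨ p.2 = 0 then 0 else
              Sf u i z ^ 2 * Rn ε a u mm (m + 1 + 1) i z * cf u i z ^ (m - 1))) := by
          intro p hp
          rw [Finset.HasAntidiagonal.mem_antidiagonal] at hp
          obtain ⟨j, k⟩ := p
          simp only at hp ⊢
          by_cases hj : j = 0
          · refine ZZ.congr (ZZ.zero h0) (fun i z hz => ?_)
            rw [if_pos (Or.inl hj), hj, Qf_zero']
            ring
          by_cases hk : k = 0
          · refine ZZ.congr (ZZ.zero h0) (fun i z hz => ?_)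
            rw [if_pos (Or.inr hk), hk, Qf_zero']
            ring
          obtain ⟨hjL, hjZ⟩ := ih j (by omega)
          obtain ⟨hkL, hkZ⟩ := ih k (by omega)
          have hjZ := hjZ (by omega)
          have hkZ := hkZ (by omega)
          have B1 := ZZ.mul_BB h0 hu (BB.mul h0 hP2 hkL.1) hjZ
          have B2 := ZZ.mul_BB h0 hu (BB.mul h0 hP2
            (BB.mul h0 (ll_Rn H j).1 (BB.pow h0 hc (j - 1)))) hkZ
          have B3 := ZZ.mul_BB h0 hu (BB.pow h0 hc (m - 1)) (P_Rn_Rn H j k)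
          refine ZZ.congr (ZZ.add h0 hu (ZZ.add h0 hu B1 B2) B3) (fun i z hz => ?_)
          rw [if_neg (by tauto), show j + k + 1 = m + 1 + 1 by omega,
            show m - 1 = (j - 1) + (k - 1) by omega, pow_add]
          ring
        have A5 := ZZ.sum h0 hu _ A4
        refine ZZ.congr (ZZ.add h0 hu (ZZ.sub h0 hu (ZZ.add h0 hu A1 A2) A3) A5) (fun i z hz => ?_)
        have e1 : ez ε (fun i z => Qf ε u (m + 1) i z - Rn ε a u mm (m + 1) i z * cf u i z ^ m) i z =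
            ez ε (Qf ε u (m + 1)) i z - (ez ε (Rn ε a u mm (m + 1)) i z * cf u i z ^ m +
              Rn ε a u mm (m + 1) i z * (m * cf u i z ^ (m - 1) * ez ε (cf u) i z)) := by
          rw [ez_sub sQ (sR.mul (sc.pow m)) i hz, ez_mul sR (sc.pow m) i hz, ez_pow sc m i hz]
        rw [e1, ez_c H.toCtx i hz, Finset.sum_sub_distrib, sum_interior, ← Finset.mul_sum, Qf_succ']
        simp only [Nat.add_sub_cancel, Nat.succ_ne_zero, if_false, zero_add]
        ring

theorem Qf_as (H : Ctm 𝓕 ε a u mm) {n : ℕ} (hn : 1 ≤ n) :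
    ZZ 𝓕 ε u (fun i z => Qf ε u n i z - Rn ε a u mm n i z * cf u i z ^ (n - 1)) :=
  (Qf_both H n).2 hn

theorem Qf_LL (H : Ctm 𝓕 ε a u mm) (n : ℕ) : LL 𝓕 ε u (Qf ε u n) := (Qf_both H n).1

end Pool.Agent.Helper74.CE
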