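import Pool.Agent.Helper74.CE.Three
import Pool.Agent.Helper74.CE.NegEx

/-!
# CL-E22: relations between the leading terms `R_n`, modulo `ZZ`

Notation `P, S, c, Λ = mm a / 4`, `E₂ = (P/2)² - Λ S² = (P² - mm a S²) / 4`: `Neg E₂` (`Ctm.base`), `E₂ ∈ BB`.
* `zz_E2`: for `g ∈ LL`, `g E₂ ∈ ZZ`: `LL.mul_BB`, and `‖g E₂‖² ≤ K ‖E₂‖` as `g, E₂` are bounded (`ZZ.of_Neg`).
* `ll_Rn`: `Λ ∈ BB` (`Ctm.slow_Lam`), `P, S ∈ LL`.
* `ez_P`: `g = ez P - 2 Λ S c ∈ LL`, and on `ball 0 3`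
  `P g = ½ ez (P²) - 2 Λ S c P = ½ ez (P² - 4 Λ S²) + 2 S² ez Λ`, because
  `½ ez (4 Λ S²) = 2 S² ez Λ + 2 Λ · 2 S ez S = 2 S² ez Λ + 2 Λ S c P` (`ez_S`). `P² - 4 Λ S² = 4 E₂` is in `Neg` and in `LB`
  (product rules `LB.of_mul`, `LB.mul_BB`), so its `ez` is in `Neg` (`Neg.ez`); `S² ez Λ = (ez Λ · S) · S` is in `Neg` by
  `ZZ.of_slow` and `Neg.of_ZZ_mul`. So `Neg (P g)` and `ZZ g` by `ZZ.of_P_mul`.
* `ez_Rn`: `n` odd: `ez (Λ^q P/2) = ez (Λ^q) P/2 + Λ^q ez P / 2 ≡ Λ^q · Λ S c = c R_{n+1}` (`q = (n-1)/2`, `(n+1)/2 = q + 1`);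
  the first term is in `ZZ` by `ZZ.of_slow` (`Slow.pow`). `n` even: `ez (Λ^q S) = ez (Λ^q) S + Λ^q (c/2) P ≡ c Λ^q P / 2`.
* `Rn_SP`: `n` even: equality. `n` odd: `Λ^q (P/2) S (P/2) = S Λ^q (E₂ + Λ S²)`, `zz_E2`.
* `P_Rn_Rn`: `i, j` odd: `(P/2) Λ^{q+q'} (P/2)² = (P/2) Λ^{q+q'} (E₂ + Λ S²)` and `i + j + 1` is odd with
  `(i+j)/2 = q + q' + 1`: `S² R_{i+j+1} = S² Λ^{q+q'+1} P/2`. `i` odd, `j` even (or conversely):
  `(P/2)² Λ^{q+j/2} S = Λ^{..} S (E₂ + Λ S²)`, `i+j+1` even, `(i+j+1)/2 = q + j/2 + 1`. Both even: equality.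
* `S_Rn_Rn`: both odd: `S Λ^{q+q'} (P/2)² = S Λ^{q+q'} (E₂ + Λ S²)`, `(i+j)/2 = q+q'+1`. Otherwise equality.
-/

namespace Pool.Agent.Helper74.CE

open MeasureTheory Filter Topology Metric Pool.Agent.Helper53.CL
open scoped ContDiff Real

variable {ι : Type*} {𝓕 : Filter ι} {ε : ι → ℝ} {a u : ι → ℂ → ℝ} {mm g : ι → ℂ → ℂ}

theorem Rn_even (q : ℕ) (i : ι) (z : ℂ) : Rn ε a u mm (2 * q) i z = Lam a mm i z ^ q * Sf u i z := by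
  have h1 : ¬ Odd (2 * q) := by simp
  have h2 : 2 * q / 2 = q := by omega
  simp only [Rn, if_neg h1, h2]

theorem Rn_odd (q : ℕ) (i : ι) (z : ℂ) :
    Rn ε a u mm (2 * q + 1) i z = Lam a mm i z ^ q * (Pf ε u i z / 2) := by
  have h1 : Odd (2 * q + 1) := ⟨q, rfl⟩
  have h2 : (2 * q + 1 - 1) / 2 = q := by omega
  simp only [Rn, if_pos h1, h2]

theorem bb_E2 (H : Ctm 𝓕 ε a u mm) :
    BB 𝓕 ε (fun i z => (Pf ε u i z / 2) ^ 2 - Lam a mm i z * Sf u i z ^ 2) := by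
  have h0 := H.eps_pos
  have hP : BB 𝓕 ε (fun i z => Pf ε u i z / 2) :=
    BB.congr (BB.const_mul h0 H.toCtx.bb_P (1 / 2)) (fun i z _ => by ring)
  exact BB.sub h0 (BB.pow h0 hP 2) (BB.mul h0 H.slow_Lam.1 (BB.pow h0 H.toCtx.bb_S 2))

theorem neg_E2 (H : Ctm 𝓕 ε a u mm) :
    Neg 𝓕 ε (fun i z => (Pf ε u i z / 2) ^ 2 - Lam a mm i z * Sf u i z ^ 2) := by
  have h0 := H.eps_pos
  refine Neg.congr (Neg.const_mul h0 H.base (1 / 4)) (fun i z _ => ?_)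
  simp only [Lam]
  ring

theorem zz_E2 (H : Ctm 𝓕 ε a u mm) (hg : LL 𝓕 ε u g) :
    ZZ 𝓕 ε u (fun i z => g i z * ((Pf ε u i z / 2) ^ 2 - Lam a mm i z * Sf u i z ^ 2)) := by
  have h0 := H.eps_pos
  have hu := H.toCtx.hu
  have hE := bb_E2 H
  have hL : LL 𝓕 ε u (fun i z => g i z * ((Pf ε u i z / 2) ^ 2 - Lam a mm i z * Sf u i z ^ 2)) :=
    LL.congr (LL.mul_BB h0 hu hE hg) (fun i z _ => by ring)
  obtain ⟨C1, hC1, h1⟩ := hg.1.bound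
  obtain ⟨C2, hC2, h2⟩ := hE.bound
  refine ZZ.of_Neg h0 hL (neg_E2 H) (K := C1 ^ 2 * C2) ?_
  filter_upwards [h1, h2] with i hi1 hi2 z hz
  have e1 := hi1 z hz
  have e2 := hi2 z hz
  rw [norm_mul, mul_pow]
  have n1 := norm_nonneg (g i z)
  have n2 := norm_nonneg ((Pf ε u i z / 2) ^ 2 - Lam a mm i z * Sf u i z ^ 2)
  have e3 : ‖g i z‖ ^ 2 ≤ C1 ^ 2 := by gcongr
  calc ‖g i z‖ ^ 2 * ‖(Pf ε u i z / 2) ^ 2 - Lam a mm i z * Sf u i z ^ 2‖ ^ 2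
      ≤ C1 ^ 2 * ‖(Pf ε u i z / 2) ^ 2 - Lam a mm i z * Sf u i z ^ 2‖ ^ 2 := by gcongr
    _ = C1 ^ 2 * (‖(Pf ε u i z / 2) ^ 2 - Lam a mm i z * Sf u i z ^ 2‖ *
        ‖(Pf ε u i z / 2) ^ 2 - Lam a mm i z * Sf u i z ^ 2‖) := by ring
    _ ≤ C1 ^ 2 * (C2 * ‖(Pf ε u i z / 2) ^ 2 - Lam a mm i z * Sf u i z ^ 2‖) := by gcongr
    _ = C1 ^ 2 * C2 * ‖(Pf ε u i z / 2) ^ 2 - Lam a mm i z * Sf u i z ^ 2‖ := by ring

theorem ll_Phalf (H : Ctm 𝓕 ε a u mm) : LL 𝓕 ε u (fun i z => Pf ε u i z / 2) :=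
  LL.congr (LL.const_mul H.eps_pos H.toCtx.hu H.toCtx.ll_P (1 / 2)) (fun i z _ => by ring)

theorem ll_Rn (H : Ctm 𝓕 ε a u mm) (n : ℕ) : LL 𝓕 ε u (Rn ε a u mm n) := by
  have h0 := H.eps_pos
  have hu := H.toCtx.hu
  rcases Nat.even_or_odd' n with ⟨q, rfl | rfl⟩
  · exact LL.congr (LL.mul_BB h0 hu (BB.pow h0 H.slow_Lam.1 q) H.toCtx.s_ll)
      (fun i z _ => (Rn_even q i z).symm)
  · exact LL.congr (LL.mul_BB h0 hu (BB.pow h0 H.slow_Lam.1 q) (ll_Phalf H))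
      (fun i z _ => (Rn_odd q i z).symm)

theorem ez_P (H : Ctm 𝓕 ε a u mm) :
    ZZ 𝓕 ε u (fun i z => ez ε (Pf ε u) i z - 2 * Lam a mm i z * Sf u i z * cf u i z) := by
  have h0 := H.eps_pos
  have h1 := H.eps_lim
  have hu := H.toCtx.hu
  have hP := H.toCtx.ll_P
  have hS := H.toCtx.s_ll
  have hΛ := H.slow_Lam
  have hc := H.toCtx.bb_c
  have hL : LL 𝓕 ε u (fun i z => ez ε (Pf ε u) i z - 2 * Lam a mm i z * Sf u i z * cf u i z) := by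
    refine LL.sub h0 hu (LL.ez h0 hu hP) ?_
    refine LL.congr (LL.mul_BB h0 hu (BB.mul h0 (BB.const_mul h0 hΛ.1 2) hc) hS) (fun i z _ => ?_)
    ring
  refine ZZ.of_P_mul H.toCtx hL ?_
  -- the family `P² - 4 Λ S²`
  have hF : Neg 𝓕 ε (fun i z => Pf ε u i z * Pf ε u i z - (4 * Lam a mm i z) * (Sf u i z * Sf u i z)) := by
    refine Neg.congr H.base (fun i z _ => ?_)
    simp only [Lam]
    ring
  have hB : LB 𝓕 ε (fun i z => Pf ε u i z * Pf ε u i z - (4 * Lam a mm i z) * (Sf u i z * Sf u i z)) :=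
    LB.sub h0 (LB.of_mul h0 hP hP) (LB.mul_BB h0 (BB.const_mul h0 hΛ.1 4) (LB.of_mul h0 hS hS))
  have hE := Neg.ez h0 h1 hF hB
  have hS2 : Neg 𝓕 ε (fun i z => ez ε (Lam a mm) i z * Sf u i z * Sf u i z) :=
    Neg.of_ZZ_mul h0 (ZZ.of_slow h0 hu hΛ hS) hS
  refine Neg.congr (Neg.add h0 (Neg.const_mul h0 hE (1 / 2)) (Neg.const_mul h0 hS2 2)) (fun i z hz => ?_)
  have sP := hP.1.1
  have sS := hS.1.1
  have sΛ := hΛ.1.1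
  have s4 : Sm (fun i z => 4 * Lam a mm i z) := (BB.const_mul h0 hΛ.1 4).1
  have e1 : ez ε (fun i z => Pf ε u i z * Pf ε u i z - (4 * Lam a mm i z) * (Sf u i z * Sf u i z)) i z =
      (ez ε (Pf ε u) i z * Pf ε u i z + Pf ε u i z * ez ε (Pf ε u) i z) -
      (4 * ez ε (Lam a mm) i z * (Sf u i z * Sf u i z) +
        (4 * Lam a mm i z) * (ez ε (Sf u) i z * Sf u i z + Sf u i z * ez ε (Sf u) i z)) := by
    rw [ez_sub (sP.mul sP) (s4.mul (sS.mul sS)) i hz, ez_mul sP sP i hz, ez_mul s4 (sS.mul sS) i hz,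
      ez_mul sS sS i hz, ez_const_mul 4 i z]
  rw [e1, ez_S H.toCtx i hz]
  ring

theorem ez_Rn (H : Ctm 𝓕 ε a u mm) (n : ℕ) :
    ZZ 𝓕 ε u (fun i z => ez ε (Rn ε a u mm n) i z - cf u i z * Rn ε a u mm (n + 1) i z) := by
  have h0 := H.eps_pos
  have hu := H.toCtx.hu
  have hΛ := H.slow_Lam
  have sP := H.toCtx.ll_P.1.1
  have sS := H.toCtx.s_ll.1.1
  rcases Nat.even_or_odd' n with ⟨q, rfl | rfl⟩
  · have hq := Slow.pow h0 hΛ q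
    refine ZZ.congr (ZZ.of_slow h0 hu hq H.toCtx.s_ll) (fun i z hz => ?_)
    have e1 : ez ε (Rn ε a u mm (2 * q)) i z =
        ez ε (fun i z => Lam a mm i z ^ q * Sf u i z) i z :=
      ez_congr (fun i z _ => Rn_even q i z) i hz
    rw [e1, ez_mul hq.1.1 sS i hz, ez_S H.toCtx i hz, Rn_odd]
    ring
  · have hq := Slow.pow h0 hΛ q
    have hb : BB 𝓕 ε (fun i z => 1 / 2 * Lam a mm i z ^ q) := BB.const_mul h0 hq.1 (1 / 2)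
    refine ZZ.congr (ZZ.add h0 hu (ZZ.of_slow h0 hu hq (ll_Phalf H)) (ZZ.mul_BB h0 hu hb (ez_P H)))
      (fun i z hz => ?_)
    have e1 : ez ε (Rn ε a u mm (2 * q + 1)) i z =
        ez ε (fun i z => Lam a mm i z ^ q * (1 / 2 * Pf ε u i z)) i z :=
      ez_congr (fun i z _ => by rw [Rn_odd]; ring) i hz
    have s2 : Sm (fun i z => 1 / 2 * Pf ε u i z) := (BB.const_mul h0 H.toCtx.bb_P (1 / 2)).1
    rw [e1, ez_mul hq.1.1 s2 i hz, ez_const_mul (1 / 2) i z, show 2 * q + 1 + 1 = 2 * (q + 1) by ring, Rn_even]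
    ring

theorem Rn_SP (H : Ctm 𝓕 ε a u mm) (n : ℕ) :
    ZZ 𝓕 ε u (fun i z => Rn ε a u mm n i z * (Sf u i z / 2 * Pf ε u i z) -
      Sf u i z ^ 2 * Rn ε a u mm (n + 1) i z) := by
  rcases Nat.even_or_odd' n with ⟨q, rfl | rfl⟩
  · refine ZZ.congr (ZZ.zero H.eps_pos) (fun i z hz => ?_)
    rw [Rn_even, Rn_odd]
    ring
  · refine ZZ.congr (zz_E2 H (ll_Rn H (2 * q))) (fun i z hz => ?_)
    rw [show 2 * q + 1 + 1 = 2 * (q + 1) by ring, Rn_even, Rn_even, Rn_odd]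
    ring

theorem P_Rn_Rn (H : Ctm 𝓕 ε a u mm) (j k : ℕ) :
    ZZ 𝓕 ε u (fun i z => Pf ε u i z / 2 * Rn ε a u mm j i z * Rn ε a u mm k i z -
      Sf u i z ^ 2 * Rn ε a u mm (j + k + 1) i z) := by
  rcases Nat.even_or_odd' j with ⟨q, rfl | rfl⟩ <;> rcases Nat.even_or_odd' k with ⟨q', rfl | rfl⟩
  · refine ZZ.congr (ZZ.zero H.eps_pos) (fun i z hz => ?_)
    rw [show 2 * q + 2 * q' + 1 = 2 * (q + q') + 1 by ring, Rn_odd, Rn_even, Rn_even]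
    ring
  · refine ZZ.congr (zz_E2 H (ll_Rn H (2 * (q + q')))) (fun i z hz => ?_)
    rw [show 2 * q + (2 * q' + 1) + 1 = 2 * (q + q' + 1) by ring, Rn_even, Rn_even, Rn_even, Rn_odd]
    ring
  · refine ZZ.congr (zz_E2 H (ll_Rn H (2 * (q + q')))) (fun i z hz => ?_)
    rw [show 2 * q + 1 + 2 * q' + 1 = 2 * (q + q' + 1) by ring, Rn_even, Rn_even, Rn_even, Rn_odd]
    ring
  · refine ZZ.congr (zz_E2 H (ll_Rn H (2 * (q + q') + 1))) (fun i z hz => ?_)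
    rw [show 2 * q + 1 + (2 * q' + 1) + 1 = 2 * (q + q' + 1) + 1 by ring, Rn_odd, Rn_odd, Rn_odd, Rn_odd]
    ring

theorem S_Rn_Rn (H : Ctm 𝓕 ε a u mm) (j k : ℕ) :
    ZZ 𝓕 ε u (fun i z => Sf u i z * Rn ε a u mm j i z * Rn ε a u mm k i z -
      Sf u i z ^ 2 * Rn ε a u mm (j + k) i z) := by
  rcases Nat.even_or_odd' j with ⟨q, rfl | rfl⟩ <;> rcases Nat.even_or_odd' k with ⟨q', rfl | rfl⟩
  · refine ZZ.congr (ZZ.zero H.eps_pos) (fun i z hz => ?_)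
    rw [show 2 * q + 2 * q' = 2 * (q + q') by ring, Rn_even, Rn_even, Rn_even]
    ring
  · refine ZZ.congr (ZZ.zero H.eps_pos) (fun i z hz => ?_)
    rw [show 2 * q + (2 * q' + 1) = 2 * (q + q') + 1 by ring, Rn_even, Rn_odd, Rn_odd]
    ring
  · refine ZZ.congr (ZZ.zero H.eps_pos) (fun i z hz => ?_)
    rw [show 2 * q + 1 + 2 * q' = 2 * (q + q') + 1 by ring, Rn_even, Rn_odd, Rn_odd]
    ring
  · refine ZZ.congr (zz_E2 H (ll_Rn H (2 * (q + q')))) (fun i z hz => ?_)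
    rw [show 2 * q + 1 + (2 * q' + 1) = 2 * (q + q' + 1) by ring, Rn_even, Rn_even, Rn_odd, Rn_odd]
    ring

end Pool.Agent.Helper74.CE
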