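import Pool.Agent.Helper74.CE.CtxB

/-!
# CL-E14: a family of `LL` whose product with `P` is negligible is negligible

Let `r < 2`, `η > 0`. By the tail property of `g ∈ LL` (`k = 0`) there is `δ > 0` such that, eventually,
`∫_{ball 0 r ∩ {1 - cos u < δ²}} ‖g‖² ≤ η ε`. On the rest of `ball 0 r`, `‖S‖² = (1 - cos u) / 2 ≥ δ² / 2`, so with `c` the
lower bound of `a` (`a_low`)
```
‖g‖² ≤ (2 / (c δ²)) a ‖S‖² ‖g‖² = (2 / (c δ²)) (‖P‖² ‖g‖² - (‖P‖² - a ‖S‖²) ‖g‖²)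
     ≤ (2 / (c δ²)) (K ‖P g‖ + K² |‖P‖² - a ‖S‖²|) ,
```
where `K` bounds `‖P g‖` and `‖g‖` on `ball 0 2` (`BB.bound`). The integrals of the two terms, divided by `ε`, tend to `0`
(`hP`, `Ctx.neg_disc`). So `limsup ε^{-1} ∫_{ball 0 r} ‖g‖² ≤ η`.
-/

namespace Pool.Agent.Helper74.CE

open MeasureTheory Filter Topology Metric Pool.Agent.Helper53.CL
open scoped ContDiff Real

variable {ι : Type*} {𝓕 : Filter ι} {ε : ι → ℝ} {a u : ι → ℂ → ℝ} {g : ι → ℂ → ℂ}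

theorem ZZ.of_P_mul (H : Ctx 𝓕 ε a u) (hg : LL 𝓕 ε u g) (hP : Neg 𝓕 ε (fun i z => Pf ε u i z * g i z)) :
    ZZ 𝓕 ε u g := by
  refine ⟨hg, fun r hr => ?_⟩
  have h0 := H.eps_pos
  have hu := H.hu
  obtain ⟨K, hK0, hK⟩ := hg.1.bound
  obtain ⟨K', hK'0, hK'⟩ := (H.bb_P.mul h0 hg.1).bound
  obtain ⟨c, hc0, hc⟩ := H.a_low
  rw [Metric.tendsto_nhds]
  intro η hη
  obtain ⟨δ, hδ, ht⟩ := (hg.2 0 r hr).2 (η / 4) (by positivity)
  set M : ℝ := 2 / (c * δ ^ 2) with hM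
  have hM0 : 0 < M := by positivity
  have hlim : Tendsto (fun i => M * (K' * ((∫ z in ball (0 : ℂ) r, ‖Pf ε u i z * g i z‖) / ε i) +
      K ^ 2 * ((∫ z in ball (0 : ℂ) r, ‖((‖Pf ε u i z‖ ^ 2 - a i z * ‖Sf u i z‖ ^ 2 : ℝ) : ℂ)‖) / ε i))) 𝓕
      (𝓝 (M * (K' * 0 + K ^ 2 * 0))) :=
    ((((hP.2 r hr).const_mul K').add ((H.neg_disc.2 r hr).const_mul (K ^ 2))).const_mul M)
  rw [mul_zero, mul_zero, add_zero, mul_zero] at hlim
  have hlt := (tendsto_order.1 hlim).2 (η / 4) (by positivity)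
  filter_upwards [hK, hK', hc, ht, hlt] with i hKi hK'i hci hti hlti
  have hε := h0 i
  have hb3 : ball (0 : ℂ) r ⊆ ball 0 3 := ball_subset_ball (by linarith)
  have hb2 : ball (0 : ℂ) r ⊆ ball 0 2 := ball_subset_ball hr.le
  set D : ℂ → ℂ := fun z => ((‖Pf ε u i z‖ ^ 2 - a i z * ‖Sf u i z‖ ^ 2 : ℝ) : ℂ) with hD
  set T : Set ℂ := ball (0 : ℂ) r ∩ {z | 1 - Real.cos (u i z) < δ ^ 2} with hT
  have hTm : MeasurableSet T := measurableSet_tail (hu i) (by linarith) _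
  have i1 : IntegrableOn (fun z => ‖g i z‖ ^ 2) (ball 0 r) :=
    integrableOn_ball ((hg.1.1.continuousOn i).norm.pow 2) (by linarith)
  have i2 : IntegrableOn (fun z => ‖Pf ε u i z * g i z‖) (ball 0 r) :=
    integrableOn_ball ((hP.1 i).norm) (by linarith)
  have i3 : IntegrableOn (fun z => ‖D z‖) (ball 0 r) :=
    integrableOn_ball ((H.neg_disc.1 i).norm) (by linarith)
  have i4 : IntegrableOn (fun z => M * (K' * ‖Pf ε u i z * g i z‖ + K ^ 2 * ‖D z‖)) (ball 0 r) :=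
    ((i2.const_mul K').add (i3.const_mul (K ^ 2))).const_mul M
  have hsplit := integral_inter_add_diff hTm i1
  have hTi : ball (0 : ℂ) r ∩ T = T := Set.inter_eq_self_of_subset_right Set.inter_subset_left
  rw [hTi] at hsplit
  have h1 : ∫ z in T, ‖g i z‖ ^ 2 ≤ η / 4 * ε i := by
    refine le_of_eq_of_le ?_ hti
    refine integral_congr_ae (Eventually.of_forall fun z => ?_)
    simp
  have hpt : ∀ z ∈ ball (0 : ℂ) r \ T, ‖g i z‖ ^ 2 ≤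
      M * (K' * ‖Pf ε u i z * g i z‖ + K ^ 2 * ‖D z‖) := by
    rintro z ⟨hz, hzT⟩
    have hz2 : δ ^ 2 ≤ 1 - Real.cos (u i z) := by
      by_contra hcon
      exact hzT ⟨hz, not_le.1 hcon⟩
    have hS := norm_Sf_sq (u := u) i z
    have hS2 : δ ^ 2 / 2 ≤ ‖Sf u i z‖ ^ 2 := by rw [hS]; linarith
    have haz := hci z (hb2 hz)
    have hgz := hKi z (hb2 hz)
    have hPgz := hK'i z (hb2 hz)
    have hDn : ‖D z‖ = |‖Pf ε u i z‖ ^ 2 - a i z * ‖Sf u i z‖ ^ 2| := by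
      rw [hD]
      simp only [Complex.norm_real, Real.norm_eq_abs]
    have haS : c * (δ ^ 2 / 2) ≤ a i z * ‖Sf u i z‖ ^ 2 :=
      mul_le_mul haz hS2 (by positivity) (le_trans hc0.le haz)
    have e1 : ‖Pf ε u i z * g i z‖ ^ 2 ≤ K' * ‖Pf ε u i z * g i z‖ := by
      rw [sq]
      exact mul_le_mul_of_nonneg_right hPgz (norm_nonneg _)
    have e2 : ‖g i z‖ ^ 2 ≤ K ^ 2 := pow_le_pow_left₀ (norm_nonneg _) hgz 2
    have e3 : -(‖Pf ε u i z‖ ^ 2 - a i z * ‖Sf u i z‖ ^ 2) * ‖g i z‖ ^ 2 ≤ K ^ 2 * ‖D z‖ := by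
      rw [hDn]
      calc -(‖Pf ε u i z‖ ^ 2 - a i z * ‖Sf u i z‖ ^ 2) * ‖g i z‖ ^ 2
          ≤ |‖Pf ε u i z‖ ^ 2 - a i z * ‖Sf u i z‖ ^ 2| * ‖g i z‖ ^ 2 :=
            mul_le_mul_of_nonneg_right (neg_le_abs _) (by positivity)
        _ ≤ |‖Pf ε u i z‖ ^ 2 - a i z * ‖Sf u i z‖ ^ 2| * K ^ 2 :=
            mul_le_mul_of_nonneg_left e2 (abs_nonneg _)
        _ = _ := by ring
    have e4 : c * (δ ^ 2 / 2) * ‖g i z‖ ^ 2 ≤ K' * ‖Pf ε u i z * g i z‖ + K ^ 2 * ‖D z‖ := by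
      calc c * (δ ^ 2 / 2) * ‖g i z‖ ^ 2 ≤ a i z * ‖Sf u i z‖ ^ 2 * ‖g i z‖ ^ 2 :=
            mul_le_mul_of_nonneg_right haS (by positivity)
        _ = ‖Pf ε u i z * g i z‖ ^ 2 +
            -(‖Pf ε u i z‖ ^ 2 - a i z * ‖Sf u i z‖ ^ 2) * ‖g i z‖ ^ 2 := by
            rw [norm_mul]; ring
        _ ≤ _ := add_le_add e1 e3
    have e5 : ‖g i z‖ ^ 2 = M * (c * (δ ^ 2 / 2) * ‖g i z‖ ^ 2) := by
      rw [hM]
      field_simp
    rw [e5]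
    exact mul_le_mul_of_nonneg_left e4 hM0.le
  have h2 : ∫ z in ball (0 : ℂ) r \ T, ‖g i z‖ ^ 2 ≤
      M * (K' * (∫ z in ball (0 : ℂ) r, ‖Pf ε u i z * g i z‖) + K ^ 2 * ∫ z in ball (0 : ℂ) r, ‖D z‖) := by
    calc ∫ z in ball (0 : ℂ) r \ T, ‖g i z‖ ^ 2
        ≤ ∫ z in ball (0 : ℂ) r \ T, M * (K' * ‖Pf ε u i z * g i z‖ + K ^ 2 * ‖D z‖) :=
          setIntegral_mono_on (i1.mono_set Set.diff_subset) (i4.mono_set Set.diff_subset)
            (measurableSet_ball.diff hTm) hpt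
      _ ≤ ∫ z in ball (0 : ℂ) r, M * (K' * ‖Pf ε u i z * g i z‖ + K ^ 2 * ‖D z‖) :=
          setIntegral_mono_set i4 (Eventually.of_forall fun z => by positivity)
            (Set.diff_subset.eventuallyLE)
      _ = _ := by
          rw [integral_const_mul, integral_add (i2.const_mul K') (i3.const_mul (K ^ 2)),
            integral_const_mul, integral_const_mul]
  have h3 : (∫ z in ball (0 : ℂ) r, ‖g i z‖ ^ 2) / ε i ≤ η / 4 +
      M * (K' * ((∫ z in ball (0 : ℂ) r, ‖Pf ε u i z * g i z‖) / ε i) +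
        K ^ 2 * ((∫ z in ball (0 : ℂ) r, ‖D z‖) / ε i)) := by
    rw [div_le_iff₀ hε, ← hsplit]
    have e6 : (η / 4 + M * (K' * ((∫ z in ball (0 : ℂ) r, ‖Pf ε u i z * g i z‖) / ε i) +
        K ^ 2 * ((∫ z in ball (0 : ℂ) r, ‖D z‖) / ε i))) * ε i =
        η / 4 * ε i + M * (K' * (∫ z in ball (0 : ℂ) r, ‖Pf ε u i z * g i z‖) +
          K ^ 2 * ∫ z in ball (0 : ℂ) r, ‖D z‖) := by
      field_simp
    rw [e6]
    exact add_le_add h1 h2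
  have h4 : 0 ≤ (∫ z in ball (0 : ℂ) r, ‖g i z‖ ^ 2) / ε i :=
    div_nonneg (integral_nonneg fun z => by positivity) hε.le
  rw [Real.dist_eq, sub_zero, abs_of_nonneg h4]
  linarith

end Pool.Agent.Helper74.CE
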