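import Pool.Agent.Helper74.CE.LLc
import Pool.Agent.Helper74.CE.Dom
import Pool.Agent.Helper74.CE.Gron
import Pool.Agent.Helper74.CE.Fub

/-!
# CL-E18: the first derivatives of a local sequence are in `LL`

Constants: `M k` bounds `‖D^k a_j‖` on `ball 0 2` for `j ≥ j_k` only (`LocSeq.aj_lim`; `D^k a` is continuous on the compact
set `closedBall 0 2`), but each `a_j` is smooth on `ball 0 3`, so bounded with all derivatives on `closedBall 0 2`: take the
maximum over `j < j_k`. So there is `M : ℕ → ℝ` with `‖D^k a_j‖ ≤ M k` on `ball 0 2` for all `j, k`. In the same way there is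
`c > 0` with `c ≤ a_j` on `ball 0 2` for all `j` (`aj_pos`, compactness). (These are the lemmas `aj_bound`, `aj_low`.)

Let `g = ex ε (uc u)` (same for `ey`). `BB`: `BB.ex` and `LocSeq.bounds` (`norm_itd_ofReal`). For `k`, `x ∈ ball 0 r`, `2 ε ≤
2 - r`: `ε^k ‖D^k g x‖ ≤ ε^(k+1) ‖D^(k+1) u x‖`, and `dom` with order `k + 1 ≥ 1` gives
```
(ε^k ‖D^k g x‖)² ≤ (K / ε) ∫_{ball x (2ε)} ed .
```
* Integrate over `x ∈ ball 0 r` with `fub` (`A = ball 0 r`, `B = ball 0 2`, `ρ = 2 ε`): `≤ (K / ε) 4 π ε² ∫_{ball 0 2} ed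
  ≤ 4 π K E ε` (`LocSeq.energy`; `ed ≥ 0`, integrable on `ball 0 2`, as it is continuous on `ball 0 3`).
* Tails: with `A = ball 0 r ∩ {1 - cos u < δ²}`; `1 - cos u = 2 S²`, `S = sin (u/2) ≥ 0`; for `x ∈ A`, `‖y - x‖ < 2 ε`,
  `gron` (constants `C` of `LocSeq.modica`, `M 0`) gives `S(y) ≤ K₁ (S(x) + √ε) ≤ K₁ (δ + √ε) ≤ 2 K₁ δ` if `√ε ≤ δ`, so
  `1 - cos (u y) ≤ 8 K₁² δ² < (3 K₁ δ)²`: `y ∈ B = ball 0 r' ∩ {1 - cos u < (3 K₁ δ)²}`, `r' = (r + 2) / 2`, once `2 ε ≤ r' - r`.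
  `Wells` with `3 K₁ δ < 1` : `∫_B ed ≤ K₂ 3 K₁ δ`, eventually. So the tail is at most `4 π K ε K₂ 3 K₁ δ ≤ η ε` for small `δ`.
-/

namespace Pool.Agent.Helper74.CE

open MeasureTheory Filter Topology Metric Pool.Agent.Helper53.CL
open scoped ContDiff Real

variable {a : ℂ → ℝ} {aj : ℕ → ℂ → ℝ} {ε : ℕ → ℝ} {u : ℕ → ℂ → ℝ}

private theorem cont_itd {F : Type*} [NormedAddCommGroup F] [NormedSpace ℝ F] {f : ℂ → F}
    (hf : ContDiffOn ℝ ∞ f (ball 0 3)) (k : ℕ) : ContinuousOn (iteratedFDeriv ℝ k f) (ball 0 3) :=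
  (hf.continuousOn_iteratedFDerivWithin (by exact_mod_cast le_top) isOpen_ball.uniqueDiffOn).congr
    fun z hz => (iteratedFDerivWithin_of_isOpen k isOpen_ball hz).symm

private theorem cb23 : closedBall (0 : ℂ) 2 ⊆ ball 0 3 := closedBall_subset_ball (by norm_num)

private theorem b23 : ball (0 : ℂ) 2 ⊆ ball 0 3 := ball_subset_ball (by norm_num)

theorem aj_bound (H : LocSeq a aj ε u) : ∃ M : ℕ → ℝ, ∀ k j, ∀ z ∈ ball (0 : ℂ) 2,
    ‖iteratedFDeriv ℝ k (aj j) z‖ ≤ M k := by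
  have key : ∀ k, ∃ M : ℝ, ∀ j, ∀ z ∈ ball (0 : ℂ) 2, ‖iteratedFDeriv ℝ k (aj j) z‖ ≤ M := by
    intro k
    have h1 : ∀ j, ∃ B : ℝ, ∀ z ∈ closedBall (0 : ℂ) 2, ‖iteratedFDeriv ℝ k (aj j) z‖ ≤ B := fun j =>
      (isCompact_closedBall (0 : ℂ) 2).exists_bound_of_continuousOn ((cont_itd (H.aj_smooth j) k).mono cb23)
    choose B hB using h1
    obtain ⟨A, hA⟩ := (isCompact_closedBall (0 : ℂ) 2).exists_bound_of_continuousOn
      ((cont_itd H.a_smooth k).mono cb23)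
    have h2 := Metric.tendstoUniformlyOn_iff.1 (H.aj_lim k) 1 one_pos
    obtain ⟨j0, hj0⟩ := eventually_atTop.1 h2
    refine ⟨∑ j ∈ Finset.range j0, |B j| + (|A| + 1), fun j z hz => ?_⟩
    have hz' : z ∈ closedBall (0 : ℂ) 2 := ball_subset_closedBall hz
    have hs : 0 ≤ ∑ j ∈ Finset.range j0, |B j| := Finset.sum_nonneg fun _ _ => abs_nonneg _
    rcases Nat.lt_or_ge j j0 with hj | hj
    · have h3 : |B j| ≤ ∑ j ∈ Finset.range j0, |B j| :=
        Finset.single_le_sum (f := fun j => |B j|) (fun _ _ => abs_nonneg _) (Finset.mem_range.2 hj)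
      have h4 := (hB j z hz').trans (le_abs_self _)
      have h5 := abs_nonneg A
      linarith
    · have h3 := (hj0 j hj z hz').le
      rw [dist_eq_norm] at h3
      have h4 := hA z hz'
      have h5 := norm_sub_norm_le (iteratedFDeriv ℝ k (aj j) z) (iteratedFDeriv ℝ k a z)
      rw [norm_sub_rev] at h5
      have h6 := le_abs_self A
      linarith
  choose M hM using key
  exact ⟨M, hM⟩

theorem aj_low (H : LocSeq a aj ε u) : ∃ c : ℝ, 0 < c ∧ ∀ j, ∀ z ∈ ball (0 : ℂ) 2, c ≤ aj j z := by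
  have hne : (closedBall (0 : ℂ) 2).Nonempty := ⟨0, mem_closedBall_self (by norm_num)⟩
  have h1 : ∀ j, ∃ c : ℝ, 0 < c ∧ ∀ z ∈ closedBall (0 : ℂ) 2, c ≤ aj j z := by
    intro j
    obtain ⟨x, hx, hm⟩ := (isCompact_closedBall (0 : ℂ) 2).exists_isMinOn hne
      (((H.aj_smooth j).continuousOn).mono cb23)
    exact ⟨aj j x, H.aj_pos j x (cb23 hx), fun z hz => hm hz⟩
  obtain ⟨x, hx, hm⟩ := (isCompact_closedBall (0 : ℂ) 2).exists_isMinOn hne ((H.a_smooth.continuousOn).mono cb23)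
  have ha : 0 < a x := H.a_pos x (cb23 hx)
  have h2 := Metric.tendstoUniformlyOn_iff.1 (H.aj_lim 0) (a x / 2) (by linarith)
  obtain ⟨j0, hj0⟩ := eventually_atTop.1 h2
  have h3 : ∀ n, ∃ c : ℝ, 0 < c ∧ ∀ j < n, ∀ z ∈ closedBall (0 : ℂ) 2, c ≤ aj j z := by
    intro n
    induction n with
    | zero => exact ⟨1, one_pos, fun j hj => absurd hj (Nat.not_lt_zero _)⟩
    | succ n ih =>
      obtain ⟨c, hc, hcj⟩ := ih
      obtain ⟨d, hd, hdj⟩ := h1 n
      refine ⟨min c d, lt_min hc hd, fun j hj z hz => ?_⟩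
      rcases Nat.lt_succ_iff_lt_or_eq.1 hj with h | h
      · exact (min_le_left _ _).trans (hcj j h z hz)
      · subst h
        exact (min_le_right _ _).trans (hdj z hz)
  obtain ⟨c, hc, hcj⟩ := h3 j0
  refine ⟨min c (a x / 2), lt_min hc (by linarith), fun j z hz => ?_⟩
  have hz' : z ∈ closedBall (0 : ℂ) 2 := ball_subset_closedBall hz
  rcases Nat.lt_or_ge j j0 with hj | hj
  · exact (min_le_left _ _).trans (hcj j hj z hz')
  · refine (min_le_right _ _).trans ?_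
    have h4 := (hj0 j hj z hz').le
    have h5 : a x ≤ a z := hm hz'
    rw [dist_eq_norm] at h4
    have h6 : ‖(iteratedFDeriv ℝ 0 a z - iteratedFDeriv ℝ 0 (aj j) z) (0 : Fin 0 → ℂ)‖ ≤ a x / 2 := by
      refine (ContinuousMultilinearMap.le_opNorm _ _).trans ?_
      simpa using h4
    rw [ContinuousMultilinearMap.sub_apply, iteratedFDeriv_zero_apply, iteratedFDeriv_zero_apply,
      Real.norm_eq_abs] at h6
    have h7 := (abs_le.1 h6).2
    linarith

theorem uc_BB (H : LocSeq a aj ε u) : BB atTop ε (uc u) := by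
  refine ⟨fun i => smooth_ofReal (H.sol i).smooth, fun k => ?_⟩
  obtain ⟨C, hC⟩ := H.bounds k
  refine ⟨C, Eventually.of_forall fun i z hz => ?_⟩
  have h1 := norm_itd_ofReal isOpen_ball (H.sol i).smooth (b23 hz) k
  change ε i ^ k * ‖iteratedFDeriv ℝ k (fun w => (u i w : ℂ)) z‖ ≤ C
  rw [h1]
  exact hC i z hz

private theorem lsol_mono {D D' : Set ℂ} {e : ℝ} {b v : ℂ → ℝ} (h : LSol D e b v) (hD : D' ⊆ D) : LSol D' e b v :=
  ⟨h.smooth.mono hD, fun z hz => h.eq z (hD hz), fun z hz => h.nonneg z (hD hz), fun z hz => h.le z (hD hz)⟩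

private theorem ed_cont (H : LocSeq a aj ε u) (j : ℕ) : ContinuousOn (ed (ε j) (aj j) (u j)) (ball 0 3) := by
  have hs := (H.sol j).smooth
  have h1 : ContinuousOn (fun z => ‖gr (u j) z‖ ^ 2) (ball 0 3) := by
    have h2 : (fun z => ‖gr (u j) z‖ ^ 2) = fun z => dx (u j) z ^ 2 + dy (u j) z ^ 2 := by
      funext z
      exact norm_gr_sq _
    rw [h2]
    exact ((smooth_dx isOpen_ball hs).continuousOn.pow 2).add ((smooth_dy isOpen_ball hs).continuousOn.pow 2)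
  have h3 : ContinuousOn (fun z => aj j z * (1 - Real.cos (u j z))) (ball 0 3) :=
    (H.aj_smooth j).continuousOn.mul (continuousOn_const.sub (Real.continuous_cos.comp_continuousOn hs.continuousOn))
  exact (continuousOn_const.mul h1).add (continuousOn_const.mul h3)

private theorem ed_nonneg (H : LocSeq a aj ε u) (j : ℕ) {z : ℂ} (hz : z ∈ ball (0 : ℂ) 3) :
    0 ≤ ed (ε j) (aj j) (u j) z := by
  have h0 := H.eps_pos j
  have h1 := H.aj_pos j z hz
  have h2 : 0 ≤ 1 - Real.cos (u j z) := by linarith [Real.cos_le_one (u j z)]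
  unfold ed
  positivity

/-- The basic estimate, with the constant of `dom`. -/
private theorem basic (H : LocSeq a aj ε u) {K : ℝ} (k : ℕ) {j : ℕ}
    (hK : ∀ x : ℂ, ball x (2 * ε j) ⊆ ball 0 2 → (ε j ^ (k + 1) * ‖iteratedFDeriv ℝ (k + 1) (u j) x‖) ^ 2 ≤
      K / ε j * ∫ z in ball x (2 * ε j), ed (ε j) (aj j) (u j) z) {A B : Set ℂ} (hA : MeasurableSet A)
    (hB : MeasurableSet B) (hA2 : A ⊆ ball 0 2) (hB2 : B ⊆ ball 0 2)
    (hAB : ∀ x ∈ A, ∀ y, ‖y - x‖ < 2 * ε j → y ∈ B) (hK0 : 0 ≤ K) :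
    ∫ z in A, (ε j ^ (k + 1) * ‖iteratedFDeriv ℝ (k + 1) (u j) z‖) ^ 2 ≤
      4 * π * K * ε j * ∫ z in B, ed (ε j) (aj j) (u j) z := by
  have h0 := H.eps_pos j
  have hint : IntegrableOn (ed (ε j) (aj j) (u j)) B :=
    (integrableOn_ball (ed_cont H j) (r := 2) (by norm_num)).mono_set hB2
  obtain ⟨h1, h2⟩ := fub hA hB (ρ := 2 * ε j) (by linarith) hA2 hAB hint
    (fun y hy => ed_nonneg H j (b23 (hB2 hy)))
  have h3 : ContinuousOn (fun z => (ε j ^ (k + 1) * ‖iteratedFDeriv ℝ (k + 1) (u j) z‖) ^ 2) (ball 0 3) :=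
    (continuousOn_const.mul (cont_itd (H.sol j).smooth (k + 1)).norm).pow 2
  have h4 : IntegrableOn (fun z => (ε j ^ (k + 1) * ‖iteratedFDeriv ℝ (k + 1) (u j) z‖) ^ 2) A :=
    (integrableOn_ball h3 (r := 2) (by norm_num)).mono_set hA2
  have h5 : ∫ z in A, (ε j ^ (k + 1) * ‖iteratedFDeriv ℝ (k + 1) (u j) z‖) ^ 2 ≤
      ∫ x in A, K / ε j * ∫ z in ball x (2 * ε j), ed (ε j) (aj j) (u j) z := by
    refine setIntegral_mono_on h4 (h1.const_mul _) hA fun x hx => hK x fun y hy => hB2 (hAB x hx y ?_)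
    rwa [mem_ball, dist_eq_norm] at hy
  rw [integral_const_mul] at h5
  refine h5.trans ?_
  have h6 : 0 ≤ K / ε j := by positivity
  refine (mul_le_mul_of_nonneg_left h2 h6).trans (le_of_eq ?_)
  field_simp
  ring

private theorem eps_ev (H : LocSeq a aj ε u) {d : ℝ} (hd : 0 < d) : ∀ᶠ j in atTop, ε j ≤ d :=
  (H.eps_lim.eventually (gt_mem_nhds hd)).mono fun _ h => le_of_lt h

/-- The estimates of `u` at all orders `k + 1 ≥ 1`, with tails. -/
theorem u_LL (hB : Iface.Bnd2) (hW : Iface.Wells) (H : LocSeq a aj ε u) (k : ℕ) {r : ℝ} (hr : r < 2) :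
    (∃ C : ℝ, ∀ᶠ i in atTop,
      ∫ z in ball (0 : ℂ) r, (ε i ^ (k + 1) * ‖iteratedFDeriv ℝ (k + 1) (u i) z‖) ^ 2 ≤ C * ε i) ∧
    ∀ η > 0, ∃ δ > 0, ∀ᶠ i in atTop,
      ∫ z in ball (0 : ℂ) r ∩ {z | 1 - Real.cos (u i z) < δ ^ 2},
        (ε i ^ (k + 1) * ‖iteratedFDeriv ℝ (k + 1) (u i) z‖) ^ 2 ≤ η * ε i := by
  obtain ⟨M, hM⟩ := aj_bound H
  obtain ⟨c, hc, hcj⟩ := aj_low H
  obtain ⟨K, hK0, hK⟩ := dom hB M hc (k + 1) (by omega)
  have hKj : ∀ j, ε j ≤ 1 → ∀ x : ℂ, ball x (2 * ε j) ⊆ ball 0 2 →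
      (ε j ^ (k + 1) * ‖iteratedFDeriv ℝ (k + 1) (u j) x‖) ^ 2 ≤
      K / ε j * ∫ z in ball x (2 * ε j), ed (ε j) (aj j) (u j) z := fun j hj x hx => by
    have hint : IntegrableOn (ed (ε j) (aj j) (u j)) (ball x (2 * ε j)) :=
      (integrableOn_ball (ed_cont H j) (r := 2) (by norm_num)).mono_set hx
    refine (hK (ε j) (aj j) (u j) x (H.eps_pos j) hj hx ((H.aj_smooth j).mono b23) (fun m z hz => hM m j z hz)
      (fun z hz => hcj j z hz) (lsol_mono (H.sol j) b23)).trans ?_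
    refine mul_le_mul_of_nonneg_left ?_ (div_nonneg hK0.le (H.eps_pos j).le)
    refine setIntegral_mono_set hint ?_ ?_
    · exact (ae_restrict_iff' measurableSet_ball).2 (Eventually.of_forall fun z hz => ed_nonneg H j (b23 (hx hz)))
    · exact HasSubset.Subset.eventuallyLE (ball_subset_ball (by linarith [H.eps_pos j]))
  constructor
  · obtain ⟨E, hE⟩ := H.energy
    refine ⟨4 * π * K * E, ?_⟩
    filter_upwards [eps_ev H one_pos, eps_ev H (d := (2 - r) / 2) (by linarith)] with j h1 h2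
    have h3 := basic H k (hKj j h1) (A := ball 0 r) (B := ball 0 2) measurableSet_ball measurableSet_ball
      (ball_subset_ball hr.le) subset_rfl (fun x hx y hy => by
        rw [mem_ball, dist_zero_right] at hx ⊢
        have h4 := norm_sub_norm_le y x
        linarith) hK0.le
    refine h3.trans ?_
    have h0 := H.eps_pos j
    have h4 : 0 ≤ 4 * π * K * ε j := by positivity
    refine (mul_le_mul_of_nonneg_left (hE j) h4).trans (le_of_eq ?_)
    ring
  · intro η hη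
    obtain ⟨Cm, hCm⟩ := H.modica
    obtain ⟨K₁, hK₁, hg⟩ := gron Cm (M 0)
    have hr' : (r + 2) / 2 < 2 := by linarith
    obtain ⟨K₂, hK₂⟩ := hW a aj ε u H ((r + 2) / 2) hr'
    have hπ := Real.pi_pos
    set D : ℝ := 4 * π * K * (|K₂| + 1) * (3 * K₁) with hD
    have hK₁0 : 0 < K₁ := by linarith
    have hDpos : 0 < D := by positivity
    refine ⟨min (1 / (6 * K₁)) (η / D), lt_min (by positivity) (by positivity), ?_⟩
    set δ : ℝ := min (1 / (6 * K₁)) (η / D) with hδ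
    have hδ0 : 0 < δ := lt_min (by positivity) (by positivity)
    have hδ1 : 3 * K₁ * δ < 1 := by
      have h1 : δ ≤ 1 / (6 * K₁) := min_le_left _ _
      have h2 : 3 * K₁ * δ ≤ 3 * K₁ * (1 / (6 * K₁)) := by gcongr
      have h3 : 3 * K₁ * (1 / (6 * K₁)) = 1 / 2 := by field_simp; norm_num
      rw [h3] at h2
      linarith
    have hδ2 : D * δ ≤ η := by
      have h1 : δ ≤ η / D := min_le_right _ _
      rw [le_div_iff₀ hDpos] at h1
      linarith
    filter_upwards [eps_ev H one_pos, eps_ev H (d := (2 - r) / 4) (by linarith),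
      eps_ev H (d := δ ^ 2) (by positivity), hK₂ (3 * K₁ * δ) ⟨by positivity, hδ1⟩] with j h1 h2 h3 h4
    have h0 := H.eps_pos j
    have hcont : ContinuousOn (u j) (ball 0 3) := (H.sol j).smooth.continuousOn
    have hsq : √(ε j) ≤ δ := by
      rw [Real.sqrt_le_left hδ0.le]
      exact h3
    have hsin : ∀ z ∈ ball (0 : ℂ) 2, 0 ≤ Real.sin (u j z / 2) := fun z hz =>
      Real.sin_nonneg_of_nonneg_of_le_pi (by linarith [(H.sol j).nonneg z (b23 hz)])
        (by linarith [(H.sol j).le z (b23 hz)])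
    have hcos : ∀ z : ℂ, 1 - Real.cos (u j z) = 2 * Real.sin (u j z / 2) ^ 2 := by
      intro z
      have h5 := Real.cos_sq (u j z / 2)
      have h6 := Real.sin_sq_add_cos_sq (u j z / 2)
      have h7 : 2 * (u j z / 2) = u j z := by ring
      rw [h7] at h5
      linarith
    have hAB : ∀ x ∈ ball (0 : ℂ) r ∩ {z | 1 - Real.cos (u j z) < δ ^ 2}, ∀ y, ‖y - x‖ < 2 * ε j →
        y ∈ ball (0 : ℂ) ((r + 2) / 2) ∩ {z | 1 - Real.cos (u j z) < (3 * K₁ * δ) ^ 2} := by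
      rintro x ⟨hx, hx2⟩ y hy
      rw [mem_ball, dist_zero_right] at hx
      have hxy := norm_sub_norm_le y x
      have hy2 : ‖y‖ < (r + 2) / 2 := by linarith
      have hxb : x ∈ ball (0 : ℂ) 2 := by rw [mem_ball, dist_zero_right]; linarith
      have hyb : y ∈ ball (0 : ℂ) 2 := by rw [mem_ball, dist_zero_right]; linarith
      refine ⟨by rw [mem_ball, dist_zero_right]; exact hy2, ?_⟩
      have h5 := hg (ε j) (aj j) (u j) h0 (fun z hz => ⟨H.aj_pos j z (b23 hz), ?_⟩) (lsol_mono (H.sol j) b23)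
        (hCm j) x hxb y hyb (by rw [norm_sub_rev]; exact hy.le)
      · rw [Set.mem_setOf_eq, hcos] at hx2 ⊢
        have h6 := hsin x hxb
        have h7 := hsin y hyb
        have h8 : Real.sin (u j x / 2) ≤ δ := by
          by_contra hcon
          push Not at hcon
          nlinarith
        have h9 : Real.sin (u j y / 2) ≤ 2 * K₁ * δ := by
          have h10 := Real.sqrt_nonneg (ε j)
          have h11 : K₁ * (Real.sin (u j x / 2) + √(ε j)) ≤ K₁ * (δ + δ) := by gcongr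
          linarith
        have h12 : Real.sin (u j y / 2) ^ 2 ≤ (2 * K₁ * δ) ^ 2 := by gcongr
        have h13 : 0 < (K₁ * δ) ^ 2 := by positivity
        nlinarith
      · have h6 := hM 0 j z hz
        rw [norm_iteratedFDeriv_zero, Real.norm_eq_abs] at h6
        exact (le_abs_self _).trans h6
    have h5 := basic H k (hKj j h1) (measurableSet_tail hcont (by linarith) _)
      (measurableSet_tail hcont (by linarith) _)
      (Set.inter_subset_left.trans (ball_subset_ball hr.le))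
      (Set.inter_subset_left.trans (ball_subset_ball hr'.le)) hAB hK0.le
    refine h5.trans ?_
    have h6 : 0 ≤ 4 * π * K * ε j := by positivity
    refine (mul_le_mul_of_nonneg_left h4 h6).trans ?_
    have h7 : K₂ * (3 * K₁ * δ) ≤ (|K₂| + 1) * (3 * K₁ * δ) := by
      have h8 : K₂ ≤ |K₂| + 1 := by linarith [le_abs_self K₂]
      gcongr
    calc 4 * π * K * ε j * (K₂ * (3 * K₁ * δ)) ≤ 4 * π * K * ε j * ((|K₂| + 1) * (3 * K₁ * δ)) := by gcongr
      _ = D * δ * ε j := by rw [hD]; ring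
      _ ≤ η * ε j := by gcongr

private theorem itd_scal {f : ℂ → ℂ} (hf : ContDiffOn ℝ ∞ f (ball 0 3)) {z : ℂ} (hz : z ∈ ball (0 : ℂ) 3) (k : ℕ)
    (e : ℝ) : ‖iteratedFDeriv ℝ k (fun w => (e : ℂ) * f w) z‖ = |e| * ‖iteratedFDeriv ℝ k f z‖ := by
  have h1 : (fun w => (e : ℂ) * f w) = e • f := by
    funext w
    rw [Pi.smul_apply, Complex.real_smul]
  rw [h1, iteratedFDeriv_const_smul_apply
    ((hf.contDiffAt (isOpen_ball.mem_nhds hz)).of_le (by exact_mod_cast le_top)), norm_smul, Real.norm_eq_abs]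

private theorem LL_aux (hB : Iface.Bnd2) (hW : Iface.Wells) (H : LocSeq a aj ε u) {g : ℕ → ℂ → ℂ}
    (hg : BB atTop ε g) (hle : ∀ k i, ∀ z ∈ ball (0 : ℂ) 3,
      ε i ^ k * ‖iteratedFDeriv ℝ k (g i) z‖ ≤ ε i ^ (k + 1) * ‖iteratedFDeriv ℝ (k + 1) (u i) z‖) :
    LL atTop ε u g := by
  refine ⟨hg, fun k r hr => ?_⟩
  obtain ⟨⟨C, hC⟩, h2⟩ := u_LL hB hW H k hr
  have hmono : ∀ i, ∀ A : Set ℂ, MeasurableSet A → A ⊆ ball 0 r →
      ∫ z in A, (ε i ^ k * ‖iteratedFDeriv ℝ k (g i) z‖) ^ 2 ≤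
      ∫ z in A, (ε i ^ (k + 1) * ‖iteratedFDeriv ℝ (k + 1) (u i) z‖) ^ 2 := by
    intro i A hA hAr
    have h0 := H.eps_pos i
    have hAsub : A ⊆ ball 0 2 := hAr.trans (ball_subset_ball hr.le)
    have c1 : ContinuousOn (fun z => (ε i ^ k * ‖iteratedFDeriv ℝ k (g i) z‖) ^ 2) (ball 0 3) :=
      (continuousOn_const.mul (cont_itd (hg.1 i) k).norm).pow 2
    have c2 : ContinuousOn (fun z => (ε i ^ (k + 1) * ‖iteratedFDeriv ℝ (k + 1) (u i) z‖) ^ 2) (ball 0 3) :=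
      (continuousOn_const.mul (cont_itd (H.sol i).smooth (k + 1)).norm).pow 2
    refine setIntegral_mono_on ((integrableOn_ball c1 (r := 2) (by norm_num)).mono_set hAsub)
      ((integrableOn_ball c2 (r := 2) (by norm_num)).mono_set hAsub) hA fun x hx => ?_
    have h1 := hle k i x (b23 (hAsub hx))
    have h3 : 0 ≤ ε i ^ k * ‖iteratedFDeriv ℝ k (g i) x‖ := by positivity
    gcongr
  refine ⟨⟨C, hC.mono fun i hi => (hmono i _ measurableSet_ball subset_rfl).trans hi⟩, fun η hη => ?_⟩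
  obtain ⟨δ, hδ, h3⟩ := h2 η hη
  refine ⟨δ, hδ, h3.mono fun i hi => (hmono i _ (measurableSet_tail (H.sol i).smooth.continuousOn (by linarith) _)
    Set.inter_subset_left).trans hi⟩

theorem ux_LL (hB : Iface.Bnd2) (hW : Iface.Wells) (H : LocSeq a aj ε u) : LL atTop ε u (ex ε (uc u)) := by
  refine LL_aux hB hW H (BB.ex H.eps_pos (uc_BB H)) fun k i z hz => ?_
  have h0 := H.eps_pos i
  have hs : ContDiffOn ℝ ∞ (uc u i) (ball 0 3) := (uc_BB H).1 i
  have h1 : ‖iteratedFDeriv ℝ k (ex ε (uc u) i) z‖ = |ε i| * ‖iteratedFDeriv ℝ k (dx (uc u i)) z‖ :=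
    itd_scal (smooth_dx isOpen_ball hs) hz k (ε i)
  have h2 := norm_itd_dx_le isOpen_ball hs hz k
  have h3 : ‖iteratedFDeriv ℝ (k + 1) (uc u i) z‖ = ‖iteratedFDeriv ℝ (k + 1) (u i) z‖ :=
    norm_itd_ofReal isOpen_ball (H.sol i).smooth hz (k + 1)
  rw [h3] at h2
  rw [h1, abs_of_pos h0, pow_succ, mul_assoc]
  gcongr

theorem uy_LL (hB : Iface.Bnd2) (hW : Iface.Wells) (H : LocSeq a aj ε u) : LL atTop ε u (ey ε (uc u)) := by
  refine LL_aux hB hW H (BB.ey H.eps_pos (uc_BB H)) fun k i z hz => ?_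
  have h0 := H.eps_pos i
  have hs : ContDiffOn ℝ ∞ (uc u i) (ball 0 3) := (uc_BB H).1 i
  have h1 : ‖iteratedFDeriv ℝ k (ey ε (uc u) i) z‖ = |ε i| * ‖iteratedFDeriv ℝ k (dy (uc u i)) z‖ :=
    itd_scal (smooth_dy isOpen_ball hs) hz k (ε i)
  have h2 := norm_itd_dy_le isOpen_ball hs hz k
  have h3 : ‖iteratedFDeriv ℝ (k + 1) (uc u i) z‖ = ‖iteratedFDeriv ℝ (k + 1) (u i) z‖ :=
    norm_itd_ofReal isOpen_ball (H.sol i).smooth hz (k + 1)
  rw [h3] at h2
  rw [h1, abs_of_pos h0, pow_succ, mul_assoc]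
  gcongr

end Pool.Agent.Helper74.CE
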